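import Mathlib

/-! Mertens type products and sums over smooth numbers. -/

namespace Pool.Agent.H93.DC

open Finset Nat

/-- the power function as a monoid hom -/
noncomputable def pw (s : ℝ) : ℕ →* ℝ where
  toFun m := (m : ℝ) ^ (-s)
  map_one' := by simp
  map_mul' m n := by
    push_cast
    exact Real.mul_rpow (Nat.cast_nonneg _) (Nat.cast_nonneg _)

lemma pw_apply (s : ℝ) (m : ℕ) : pw s m = (m : ℝ) ^ (-s) := rfl

lemma pw_nonneg (s : ℝ) (m : ℕ) : 0 ≤ pw s m := by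
  rw [pw_apply]; positivity

lemma pw_prime_lt {s : ℝ} (hs : 0 < s) {p : ℕ} (hp : p.Prime) : ‖pw s p‖ < 1 := by
  rw [pw_apply, Real.norm_of_nonneg (by positivity)]
  apply Real.rpow_lt_one_of_one_lt_of_neg
  · exact_mod_cast hp.one_lt
  · linarith

lemma smooth_sum_le {s : ℝ} (hs : 0 < s) (Y : ℕ) (S : Finset ℕ) (hS : ∀ m ∈ S, m ∈ Y.smoothNumbers) :
    ∑ m ∈ S, (m : ℝ) ^ (-s) ≤ ∏ p ∈ Y.primesBelow, (1 - (p : ℝ) ^ (-s))⁻¹ := by
  classical
  have h := EulerProduct.summable_and_hasSum_smoothNumbers_prod_primesBelow_geometric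
    (f := pw s) (fun {p} hp => pw_prime_lt hs hp) Y
  have h1 := sum_le_hasSum (S.subtype (fun m => m ∈ Y.smoothNumbers)) (fun i _ => pw_nonneg s i) h.2
  have h2 : ∑ i ∈ S.subtype (fun m => m ∈ Y.smoothNumbers), pw s (i : ℕ) = ∑ m ∈ S, pw s m := by
    rw [Finset.sum_subtype_eq_sum_filter (f := fun m : ℕ => pw s m), Finset.filter_true_of_mem hS]
  rw [h2] at h1
  exact h1

/-- the Mertens product (inverse) -/
noncomputable def MP (Y : ℕ) : ℝ := ∏ p ∈ Y.primesBelow, (1 - (p : ℝ)⁻¹)⁻¹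

lemma one_sub_inv_pos {p : ℕ} (hp : p.Prime) : (0 : ℝ) < 1 - (p : ℝ)⁻¹ := by
  have : (1 : ℝ) < p := by exact_mod_cast hp.one_lt
  have := inv_lt_one_of_one_lt₀ this
  linarith

lemma MP_pos (Y : ℕ) : 0 < MP Y := by
  apply Finset.prod_pos
  intro p hp
  exact inv_pos.mpr (one_sub_inv_pos (Nat.prime_of_mem_primesBelow hp))

lemma rpow_neg_one' (x : ℝ) : x ^ (-1 : ℝ) = x⁻¹ := Real.rpow_neg_one x

lemma smooth_sum_inv_le (Y : ℕ) (S : Finset ℕ) (hS : ∀ m ∈ S, m ∈ Y.smoothNumbers) :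
    ∑ m ∈ S, (m : ℝ)⁻¹ ≤ MP Y := by
  have := smooth_sum_le one_pos Y S hS
  simpa [rpow_neg_one', MP] using this

lemma log_le_MP {Y : ℕ} (hY : 1 ≤ Y) : Real.log Y ≤ MP Y := by
  have h1 := smooth_sum_inv_le Y (Icc 1 (Y - 1)) (by
    intro m hm
    rw [Finset.mem_Icc] at hm
    exact Nat.mem_smoothNumbers_of_lt (by omega) (by omega))
  have h2 := log_add_one_le_harmonic (Y - 1)
  rw [harmonic_eq_sum_Icc] at h2
  push_cast at h2
  have h3 : ((Y - 1 : ℕ) : ℝ) + 1 = Y := by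
    have : Y - 1 + 1 = Y := by omega
    exact_mod_cast this
  rw [h3] at h2
  exact h2.trans h1

lemma one_add_zeta {s : ℝ} (hs : 1 < s) : Summable (fun n : ℕ => pw s n) ∧ ∑' n : ℕ, pw s n ≤ 1 + 1 / (s - 1) := by
  have hsum : Summable (fun n : ℕ => pw s n) := by
    have := Real.summable_one_div_nat_rpow.mpr hs
    refine this.congr (fun n => ?_)
    rw [pw_apply, Real.rpow_neg (Nat.cast_nonneg _), one_div]
  refine ⟨hsum, ?_⟩
  rw [hsum.tsum_eq_zero_add]
  have h0 : pw s 0 = 0 := by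
    rw [pw_apply, Nat.cast_zero, Real.zero_rpow]
    linarith
  rw [h0, zero_add]
  have h1 := ZetaAsymptotics.zeta_limit_aux1 hs
  have h2 : 0 ≤ ZetaAsymptotics.termTSum s := by
    unfold ZetaAsymptotics.termTSum
    exact tsum_nonneg (fun n => ZetaAsymptotics.term_nonneg _ _)
  have h3 : ∑' n : ℕ, pw s (n + 1) = ∑' n : ℕ, 1 / ((n : ℝ) + 1) ^ s := by
    congr 1; ext n
    rw [pw_apply, Real.rpow_neg (Nat.cast_nonneg _), one_div]
    push_cast; rfl
  rw [h3]
  have h4 : 0 ≤ s * ZetaAsymptotics.termTSum s := by positivity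
  linarith

lemma prod_le_zeta {s : ℝ} (hs : 1 < s) (Y : ℕ) :
    ∏ p ∈ Y.primesBelow, (1 - (p : ℝ) ^ (-s))⁻¹ ≤ 1 + 1 / (s - 1) := by
  obtain ⟨h1, h2⟩ := one_add_zeta hs
  have h3 := EulerProduct.prod_primesBelow_geometric_eq_tsum_smoothNumbers (f := pw s) h1 Y
  have h4 : ∑' m : Y.smoothNumbers, pw s m ≤ ∑' n : ℕ, pw s n :=
    Summable.tsum_subtype_le (fun n => pw s n) Y.smoothNumbers (fun n => pw_nonneg s n) h1
  rw [← h3] at h4
  exact h4.trans h2

/-- Chebyshev type bound, the easy half of Mertens' first theorem. -/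
lemma mertens_upper {n : ℕ} (hn : 1 ≤ n) :
    ∑ p ∈ (n + 1).primesBelow, Real.log p / p ≤ Real.log n + 2 := by
  have hn0 : (0 : ℝ) < n := by exact_mod_cast hn
  have hfac : ∀ p ∈ (n + 1).primesBelow, ((n : ℝ) / p - 1) * Real.log p ≤ ((n !).factorization p : ℝ) * Real.log p := by
    intro p hp
    have hpp := Nat.prime_of_mem_primesBelow hp
    have hp1 : (1 : ℝ) ≤ p := by exact_mod_cast hpp.one_lt.le
    apply mul_le_mul_of_nonneg_right _ (Real.log_nonneg hp1)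
    have h1 : n / p ≤ (n !).factorization p := by
      rw [Nat.factorization_factorial hpp (b := Nat.log p n + 2) (by omega)]
      have := Finset.single_le_sum (f := fun i => n / p ^ i) (s := Ico 1 (Nat.log p n + 2))
        (fun i _ => Nat.zero_le _) (a := 1) (by simp)
      simpa using this
    have h2 : (n : ℝ) / p - 1 ≤ ((n / p : ℕ) : ℝ) := by
      have := Nat.lt_succ_floor ((n : ℝ) / p)
      rw [Nat.floor_div_eq_div] at this
      push_cast at this
      linarith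
    exact h2.trans (by exact_mod_cast h1)
  have hlog : Real.log (n ! : ℕ) = ∑ p ∈ (n + 1).primesBelow, ((n !).factorization p : ℝ) * Real.log p := by
    rw [Real.log_nat_eq_sum_factorization, Finsupp.sum]
    apply Finset.sum_subset
    · intro p hp
      rw [Nat.support_factorization, Nat.mem_primeFactors] at hp
      rw [Nat.mem_primesBelow]
      refine ⟨?_, hp.1⟩
      have := (Nat.Prime.dvd_factorial hp.1).mp hp.2.1
      omega
    · intro p _ hp
      rw [Finsupp.notMem_support_iff.mp hp]; simp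
  have hle : Real.log (n ! : ℕ) ≤ n * Real.log n := by
    have h1 : ((n ! : ℕ) : ℝ) ≤ (n : ℝ) ^ n := by exact_mod_cast Nat.factorial_le_pow n
    have h2 := Real.log_le_log (by exact_mod_cast Nat.factorial_pos n) h1
    rwa [Real.log_pow] at h2
  have hsum := Finset.sum_le_sum hfac
  rw [← hlog] at hsum
  have htheta : ∑ p ∈ (n + 1).primesBelow, Real.log p ≤ Real.log 4 * n := by
    have h1 := Chebyshev.theta_le_log4_mul_x (x := n) hn0.le
    refine le_trans (le_of_eq ?_) h1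
    rw [Chebyshev.theta_eq_sum_primesLE_log]
    apply Finset.sum_congr _ (fun _ _ => rfl)
    ext p
    simp [Nat.mem_primesBelow, Nat.mem_primesLE]
  have h5 : ∑ p ∈ (n + 1).primesBelow, ((n : ℝ) / p - 1) * Real.log p
      = n * ∑ p ∈ (n + 1).primesBelow, Real.log p / p - ∑ p ∈ (n + 1).primesBelow, Real.log p := by
    rw [Finset.mul_sum, ← Finset.sum_sub_distrib]
    refine Finset.sum_congr rfl fun p _ => ?_
    ring
  rw [h5] at hsum
  have hlog4 : Real.log 4 ≤ 2 := by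
    have h1 : Real.log 4 = 2 * Real.log 2 := by
      rw [show (4 : ℝ) = 2 ^ 2 by norm_num, Real.log_pow]; push_cast; ring
    have := Real.log_two_lt_d9
    rw [h1]; linarith
  have h6 : n * ∑ p ∈ (n + 1).primesBelow, Real.log p / p ≤ n * (Real.log n + 2) := by
    nlinarith
  exact le_of_mul_le_mul_left h6 hn0

lemma mertens_upper' {Y : ℕ} (hY : 2 ≤ Y) :
    ∑ p ∈ Y.primesBelow, Real.log p / p ≤ Real.log Y + 2 := by
  have h1 := mertens_upper (n := Y - 1) (by omega)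
  have h2 : Y - 1 + 1 = Y := by omega
  rw [h2] at h1
  have h3 : Real.log ((Y - 1 : ℕ) : ℝ) ≤ Real.log Y := by
    apply Real.log_le_log
    · exact_mod_cast (by omega : 0 < Y - 1)
    · exact_mod_cast (by omega : Y - 1 ≤ Y)
  linarith

/-- comparison of Euler factors -/
lemma factor_compare {a b : ℝ} (hab : a ≤ b) (hb : b < 1) :
    (1 - b)⁻¹ ≤ (1 - a)⁻¹ * Real.exp ((b - a) / (1 - b)) := by
  have h1 : 0 < 1 - b := by linarith
  have h2 : 0 < 1 - a := by linarith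
  have h3 : (1 - a) / (1 - b) ≤ Real.exp ((b - a) / (1 - b)) := by
    have := Real.add_one_le_exp ((b - a) / (1 - b))
    have h4 : (1 - a) / (1 - b) = (b - a) / (1 - b) + 1 := by field_simp; ring
    rw [h4]; exact this
  calc (1 - b)⁻¹ = (1 - a)⁻¹ * ((1 - a) / (1 - b)) := by field_simp
    _ ≤ _ := by gcongr

lemma MP_le {Y : ℕ} (hY : 3 ≤ Y) : MP Y ≤ 2 * Real.exp 6 * Real.log Y := by
  have hlog1 : 1 ≤ Real.log Y := by
    have h1 : Real.exp 1 ≤ Y := by
      have := Real.exp_one_lt_d9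
      have : (3 : ℝ) ≤ Y := by exact_mod_cast hY
      linarith
    have := Real.log_le_log (Real.exp_pos 1) h1
    rwa [Real.log_exp] at this
  set δ := 1 / Real.log Y with hδ
  have hδ0 : 0 < δ := by positivity
  have hfac : ∀ p ∈ Y.primesBelow, (1 - (p : ℝ)⁻¹)⁻¹ ≤
      (1 - (p : ℝ) ^ (-(1 + δ)))⁻¹ * Real.exp (2 * δ * (Real.log p / p)) := by
    intro p hp
    have hpp := Nat.prime_of_mem_primesBelow hp
    have hp2 : (2 : ℝ) ≤ p := by exact_mod_cast hpp.two_le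
    have hp0 : (0 : ℝ) < p := by linarith
    have hab : (p : ℝ) ^ (-(1 + δ)) ≤ (p : ℝ)⁻¹ := by
      rw [← Real.rpow_neg_one]
      apply Real.rpow_le_rpow_of_exponent_le (by linarith)
      linarith
    have hb : (p : ℝ)⁻¹ < 1 := inv_lt_one_of_one_lt₀ (by linarith)
    refine (factor_compare hab hb).trans ?_
    have h1 : 0 < 1 - (p : ℝ) ^ (-(1 + δ)) := by linarith
    gcongr
    rw [div_le_iff₀ (by linarith)]
    have h2 : (p : ℝ)⁻¹ - (p : ℝ) ^ (-(1 + δ)) = (p : ℝ)⁻¹ * (1 - (p : ℝ) ^ (-δ)) := by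
      rw [neg_add, Real.rpow_add hp0, Real.rpow_neg_one]; ring
    have h3 : 1 - (p : ℝ) ^ (-δ) ≤ δ * Real.log p := by
      rw [Real.rpow_def_of_pos hp0]
      have := Real.add_one_le_exp (Real.log p * -δ)
      linarith
    have h4 : (2 : ℝ)⁻¹ ≤ 1 - (p : ℝ)⁻¹ := by
      have : (p : ℝ)⁻¹ ≤ 2⁻¹ := inv_anti₀ (by norm_num) hp2
      linarith
    have hlogp : 0 ≤ Real.log p := Real.log_nonneg (by linarith)
    rw [h2]
    calc (p : ℝ)⁻¹ * (1 - (p : ℝ) ^ (-δ)) ≤ (p : ℝ)⁻¹ * (δ * Real.log p) := by gcongr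
      _ = 2 * δ * (Real.log p / p) * 2⁻¹ := by field_simp
      _ ≤ 2 * δ * (Real.log p / p) * (1 - (p : ℝ)⁻¹) := by gcongr
  have h1 : MP Y ≤ (∏ p ∈ Y.primesBelow, (1 - (p : ℝ) ^ (-(1 + δ)))⁻¹) *
      ∏ p ∈ Y.primesBelow, Real.exp (2 * δ * (Real.log p / p)) := by
    rw [← Finset.prod_mul_distrib]
    apply Finset.prod_le_prod
    · intro p hp
      exact inv_nonneg.mpr (one_sub_inv_pos (Nat.prime_of_mem_primesBelow hp)).le
    · exact hfac
  have h2 := prod_le_zeta (s := 1 + δ) (by linarith) Y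
  have h3 : 1 + 1 / (1 + δ - 1) = 1 + Real.log Y := by
    rw [hδ]; field_simp; ring
  rw [h3] at h2
  rw [← Real.exp_sum, ← Finset.mul_sum] at h1
  have h4 := mertens_upper' (show 2 ≤ Y by omega)
  have h5 : 2 * δ * ∑ p ∈ Y.primesBelow, Real.log p / p ≤ 6 := by
    calc _ ≤ 2 * δ * (Real.log Y + 2) := by gcongr
      _ = 2 + 4 * δ := by rw [hδ]; field_simp; ring
      _ ≤ 6 := by
        have : δ ≤ 1 := by rw [hδ, div_le_one (by linarith)]; exact hlog1
        linarith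
  have h6 : (0:ℝ) ≤ ∏ p ∈ Y.primesBelow, (1 - (p : ℝ) ^ (-(1 + δ)))⁻¹ := by
    apply Finset.prod_nonneg
    intro p hp
    apply inv_nonneg.mpr
    have := pw_prime_lt (s := 1 + δ) (by linarith) (Nat.prime_of_mem_primesBelow hp)
    rw [pw_apply, Real.norm_of_nonneg (by positivity)] at this
    linarith
  calc MP Y ≤ _ := h1
    _ ≤ (1 + Real.log Y) * Real.exp 6 := by gcongr
    _ ≤ 2 * Real.exp 6 * Real.log Y := by
      have := Real.exp_pos 6
      nlinarith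

/-- Rankin's trick. -/
lemma rankin {Y : ℕ} (hY : 16 ≤ Y) {Z : ℝ} (hZ : 0 < Z) (S : Finset ℕ)
    (hS : ∀ m ∈ S, m ∈ Y.smoothNumbers ∧ Z ≤ m) :
    ∑ m ∈ S, (m : ℝ)⁻¹ ≤ Real.exp 16 * MP Y * Z ^ (-(1 / Real.log Y)) := by
  have hlogY : 2.5 ≤ Real.log Y := by
    have h1 : (16 : ℝ) ≤ Y := by exact_mod_cast hY
    have h2 := Real.log_le_log (by norm_num) h1
    have h3 : Real.log 16 = 4 * Real.log 2 := by
      rw [show (16 : ℝ) = 2 ^ 4 by norm_num, Real.log_pow]; push_cast; ring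
    have := Real.log_two_gt_d9
    rw [h3] at h2; linarith
  set δ := 1 / Real.log Y with hδ
  have hδ0 : 0 < δ := by positivity
  have hδ1 : δ ≤ 0.4 := by
    rw [hδ, div_le_iff₀ (by linarith)]; linarith
  have h1 : ∀ m ∈ S, (m : ℝ)⁻¹ ≤ Z ^ (-δ) * (m : ℝ) ^ (-(1 - δ)) := by
    intro m hm
    have hmZ := (hS m hm).2
    have hm0 : (0 : ℝ) < m := by linarith
    have h2 : (m : ℝ) ^ (-(1 - δ)) = (m : ℝ)⁻¹ * (m : ℝ) ^ δ := by
      rw [← Real.rpow_neg_one, ← Real.rpow_add hm0]; congr 1; ring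
    rw [h2]
    have h3 : 1 ≤ Z ^ (-δ) * (m : ℝ) ^ δ := by
      have h4 : Z ^ (-δ) * Z ^ δ = 1 := by rw [← Real.rpow_add hZ]; simp
      rw [← h4]
      gcongr
    have h5 : (0:ℝ) < (m : ℝ)⁻¹ := by positivity
    nlinarith
  have h2 : ∑ m ∈ S, (m : ℝ)⁻¹ ≤ Z ^ (-δ) * ∑ m ∈ S, (m : ℝ) ^ (-(1 - δ)) := by
    rw [Finset.mul_sum]; exact Finset.sum_le_sum h1
  have h3 := smooth_sum_le (s := 1 - δ) (by linarith) Y S (fun m hm => (hS m hm).1)
  have hfac : ∀ p ∈ Y.primesBelow, (1 - (p : ℝ) ^ (-(1 - δ)))⁻¹ ≤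
      (1 - (p : ℝ)⁻¹)⁻¹ * Real.exp (8 * δ * (Real.log p / p)) := by
    intro p hp
    have hpp := Nat.prime_of_mem_primesBelow hp
    have hpY : p < Y := Nat.lt_of_mem_primesBelow hp
    have hp2 : (2 : ℝ) ≤ p := by exact_mod_cast hpp.two_le
    have hp0 : (0 : ℝ) < p := by linarith
    have hlogp : 0 ≤ Real.log p := Real.log_nonneg (by linarith)
    have hab : (p : ℝ)⁻¹ ≤ (p : ℝ) ^ (-(1 - δ)) := by
      rw [← Real.rpow_neg_one]
      apply Real.rpow_le_rpow_of_exponent_le (by linarith)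
      linarith
    have hb34 : (p : ℝ) ^ (-(1 - δ)) ≤ 3 / 4 := by
      have e1 : (p : ℝ) ^ (-(1 - δ)) ≤ (2 : ℝ) ^ (-(1 - δ)) := by
        apply Real.rpow_le_rpow_of_nonpos (by norm_num) hp2
        linarith
      have e2 : (2 : ℝ) ^ (-(1 - δ)) ≤ (2 : ℝ) ^ (-(1 / 2 : ℝ)) := by
        apply Real.rpow_le_rpow_of_exponent_le (by norm_num)
        linarith
      have e3 : (2 : ℝ) ^ (-(1 / 2 : ℝ)) ≤ 3 / 4 := by
        rw [Real.rpow_neg (by norm_num), ← Real.sqrt_eq_rpow]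
        have : (4 / 3 : ℝ) ≤ Real.sqrt 2 := by
          apply Real.le_sqrt_of_sq_le; norm_num
        calc (Real.sqrt 2)⁻¹ ≤ (4 / 3 : ℝ)⁻¹ := inv_anti₀ (by norm_num) this
          _ = 3 / 4 := by norm_num
      linarith
    refine (factor_compare hab (by linarith)).trans ?_
    have h1 := one_sub_inv_pos hpp
    gcongr
    rw [div_le_iff₀ (by linarith)]
    have h2 : (p : ℝ) ^ (-(1 - δ)) - (p : ℝ)⁻¹ = (p : ℝ)⁻¹ * ((p : ℝ) ^ δ - 1) := by
      have : -(1 - δ) = -1 + δ := by ring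
      rw [this, Real.rpow_add hp0, Real.rpow_neg_one]; ring
    have hlogle : Real.log p * δ ≤ 1 := by
      rw [hδ]
      have : Real.log p ≤ Real.log Y := Real.log_le_log hp0 (by exact_mod_cast hpY.le)
      rw [mul_one_div, div_le_one (by linarith)]; exact this
    have h3 : (p : ℝ) ^ δ - 1 ≤ 2 * (δ * Real.log p) := by
      rw [Real.rpow_def_of_pos hp0]
      have h0 : 0 ≤ Real.log p * δ := by positivity
      have habs := Real.abs_exp_sub_one_le (x := Real.log p * δ) (by rw [abs_of_nonneg h0]; exact hlogle)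
      rw [abs_of_nonneg h0] at habs
      have := le_abs_self (Real.exp (Real.log p * δ) - 1)
      linarith
    rw [h2]
    calc (p : ℝ)⁻¹ * ((p : ℝ) ^ δ - 1) ≤ (p : ℝ)⁻¹ * (2 * (δ * Real.log p)) := by gcongr
      _ = 8 * δ * (Real.log p / p) * (1 / 4) := by field_simp; ring
      _ ≤ 8 * δ * (Real.log p / p) * (1 - (p : ℝ) ^ (-(1 - δ))) := by
        gcongr; linarith
  have h4 : ∏ p ∈ Y.primesBelow, (1 - (p : ℝ) ^ (-(1 - δ)))⁻¹ ≤ MP Y *
      ∏ p ∈ Y.primesBelow, Real.exp (8 * δ * (Real.log p / p)) := by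
    unfold MP
    rw [← Finset.prod_mul_distrib]
    apply Finset.prod_le_prod
    · intro p hp
      apply inv_nonneg.mpr
      have := pw_prime_lt (s := 1 - δ) (by linarith) (Nat.prime_of_mem_primesBelow hp)
      rw [pw_apply, Real.norm_of_nonneg (by positivity)] at this
      linarith
    · exact hfac
  rw [← Real.exp_sum, ← Finset.mul_sum] at h4
  have h5 := mertens_upper' (show 2 ≤ Y by omega)
  have h6 : 8 * δ * ∑ p ∈ Y.primesBelow, Real.log p / p ≤ 16 := by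
    calc _ ≤ 8 * δ * (Real.log Y + 2) := by gcongr
      _ = 8 + 16 * δ := by rw [hδ]; field_simp; ring
      _ ≤ 16 := by linarith
  have hMP := MP_pos Y
  have hZδ : 0 < Z ^ (-δ) := Real.rpow_pos_of_pos hZ _
  calc ∑ m ∈ S, (m : ℝ)⁻¹ ≤ Z ^ (-δ) * ∑ m ∈ S, (m : ℝ) ^ (-(1 - δ)) := h2
    _ ≤ Z ^ (-δ) * (MP Y * Real.exp (8 * δ * ∑ p ∈ Y.primesBelow, Real.log p / p)) := by
        gcongr; exact h3.trans h4
    _ ≤ Z ^ (-δ) * (MP Y * Real.exp 16) := by gcongr
    _ = _ := by ring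

/-- sum of reciprocals of primes -/
lemma sum_inv_primes_le (Y : ℕ) : ∑ p ∈ Y.primesBelow, (p : ℝ)⁻¹ ≤ Real.log (MP Y) := by
  unfold MP
  rw [Real.log_prod]
  · apply Finset.sum_le_sum
    intro p hp
    have h1 := one_sub_inv_pos (Nat.prime_of_mem_primesBelow hp)
    rw [Real.log_inv]
    have := Real.log_le_sub_one_of_pos h1
    linarith
  · intro p hp
    exact (inv_pos.mpr (one_sub_inv_pos (Nat.prime_of_mem_primesBelow hp))).ne'

end Pool.Agent.H93.DC
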