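import Mathlib

/-! Alteration: conflict free subfamilies; matchings. -/

namespace Pool.Agent.H93.DC

open Finset

/-- ordered conflict pairs inside `s` -/
def confl {α : Type*} [DecidableEq α] (R : α → α → Prop) [DecidableRel R] (s : Finset α) : Finset (α × α) :=
  (s ×ˢ s).filter (fun q => q.1 ≠ q.2 ∧ R q.1 q.2)

/-- a colouring with few monochromatic conflicts -/
lemma exists_colouring {α : Type*} [DecidableEq α] (R : α → α → Prop) [DecidableRel R]
    (hsymm : ∀ x y, R x y → R y x) {r : ℕ} (hr : 0 < r) (s : Finset α) :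
    ∃ κ : α → Fin r, r * ((confl R s).filter (fun q => κ q.1 = κ q.2)).card ≤ (confl R s).card := by
  classical
  haveI : NeZero r := ⟨hr.ne'⟩
  induction s using Finset.induction_on with
  | empty => exact ⟨fun _ => 0, by simp [confl]⟩
  | insert v s hv ih =>
    obtain ⟨κ, hκ⟩ := ih
    set Nb := s.filter (fun y => R v y) with hNb
    -- colour minimizing the number of neighbours
    obtain ⟨j, hj⟩ : ∃ j : Fin r, r * (Nb.filter (fun y => κ y = j)).card ≤ Nb.card := by
      by_contra hcon
      push Not at hcon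
      have h1 : ∑ j : Fin r, (Nb.filter (fun y => κ y = j)).card = Nb.card :=
        (Finset.card_eq_sum_card_fiberwise (f := κ) (s := Nb) (t := Finset.univ) (fun _ _ => by simp)).symm
      have h2 : ∑ j : Fin r, Nb.card < ∑ j : Fin r, r * (Nb.filter (fun y => κ y = j)).card := by
        apply Finset.sum_lt_sum_of_nonempty Finset.univ_nonempty
        intro j _; exact hcon j
      rw [← Finset.mul_sum, h1, Finset.sum_const, Finset.card_univ, Fintype.card_fin, smul_eq_mul] at h2
      exact lt_irrefl _ h2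
    refine ⟨Function.update κ v j, ?_⟩
    set κ' := Function.update κ v j with hκ'
    have hκs : ∀ y ∈ s, κ' y = κ y := by
      intro y hy
      rw [hκ', Function.update_of_ne]
      rintro rfl; exact hv hy
    have hκv : κ' v = j := by rw [hκ', Function.update_self]
    -- decomposition of the conflict set
    have hdec : confl R (insert v s) = confl R s ∪ (Nb.image (fun y => (v, y)) ∪ Nb.image (fun y => (y, v))) := by
      ext ⟨x, y⟩
      simp only [confl, hNb, Finset.mem_filter, Finset.mem_product, Finset.mem_insert, Finset.mem_union,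
        Finset.mem_image, Prod.mk.injEq]
      constructor
      · rintro ⟨⟨hx | hx, hy | hy⟩, hne, hR⟩
        · exact absurd (hx.trans hy.symm) hne
        · right; left; exact ⟨y, ⟨hy, hx ▸ hR⟩, hx.symm, rfl⟩
        · right; right; exact ⟨x, ⟨hx, hsymm _ _ (hy ▸ hR)⟩, rfl, hy.symm⟩
        · left; exact ⟨⟨hx, hy⟩, hne, hR⟩
      · rintro (⟨⟨hx, hy⟩, hne, hR⟩ | ⟨z, ⟨hz, hR⟩, hx, hy⟩ | ⟨z, ⟨hz, hR⟩, hx, hy⟩)
        · exact ⟨⟨Or.inr hx, Or.inr hy⟩, hne, hR⟩
        · subst hx; subst hy
          exact ⟨⟨Or.inl rfl, Or.inr hz⟩, fun h => hv (h ▸ hz), hR⟩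
        · subst hx; subst hy
          exact ⟨⟨Or.inr hz, Or.inl rfl⟩, fun h => hv (h ▸ hz), hsymm _ _ hR⟩
    have hd1 : Disjoint (confl R s) (Nb.image (fun y => (v, y)) ∪ Nb.image (fun y => (y, v))) := by
      rw [Finset.disjoint_left]
      rintro ⟨x, y⟩ h1 h2
      simp only [confl, Finset.mem_filter, Finset.mem_product] at h1
      simp only [Finset.mem_union, Finset.mem_image, Prod.mk.injEq] at h2
      rcases h2 with ⟨z, _, hx, _⟩ | ⟨z, _, _, hy⟩
      · exact hv (hx ▸ h1.1.1)
      · exact hv (hy ▸ h1.1.2)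
    have hd2 : Disjoint (Nb.image (fun y => (v, y))) (Nb.image (fun y => (y, v))) := by
      rw [Finset.disjoint_left]
      rintro ⟨x, y⟩ h1 h2
      simp only [Finset.mem_image, Prod.mk.injEq] at h1 h2
      obtain ⟨z, hz, hx, hy⟩ := h1
      obtain ⟨w, hw, hx', hy'⟩ := h2
      have : v ∈ Nb := by rw [hx, ← hx']; exact hw
      rw [hNb, Finset.mem_filter] at this
      exact hv this.1
    have hc1 : (confl R (insert v s)).card = (confl R s).card + (Nb.card + Nb.card) := by
      rw [hdec, Finset.card_union_of_disjoint hd1, Finset.card_union_of_disjoint hd2,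
        Finset.card_image_of_injective _ (fun a b h => by simpa using h),
        Finset.card_image_of_injective _ (fun a b h => by simpa using h)]
    have hc2 : ((confl R (insert v s)).filter (fun q => κ' q.1 = κ' q.2)).card
        ≤ ((confl R s).filter (fun q => κ q.1 = κ q.2)).card
          + ((Nb.filter (fun y => κ y = j)).card + (Nb.filter (fun y => κ y = j)).card) := by
      have hsub : (confl R (insert v s)).filter (fun q => κ' q.1 = κ' q.2) ⊆
          (confl R s).filter (fun q => κ q.1 = κ q.2) ∪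
            ((Nb.filter (fun y => κ y = j)).image (fun y => (v, y)) ∪ (Nb.filter (fun y => κ y = j)).image (fun y => (y, v))) := by
        rintro ⟨x, y⟩ h
        rw [hdec, Finset.mem_filter] at h
        obtain ⟨h1, h2⟩ := h
        simp only at h2
        rw [Finset.mem_union] at h1
        rcases h1 with h1 | h1
        · apply Finset.mem_union_left
          rw [Finset.mem_filter]
          refine ⟨h1, ?_⟩
          simp only [confl, Finset.mem_filter, Finset.mem_product] at h1
          simp only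
          rw [← hκs x h1.1.1, ← hκs y h1.1.2]; exact h2
        · apply Finset.mem_union_right
          rw [Finset.mem_union] at h1 ⊢
          rcases h1 with h1 | h1
          · left
            rw [Finset.mem_image] at h1 ⊢
            obtain ⟨z, hz, hzz⟩ := h1
            rw [Prod.mk.injEq] at hzz
            obtain ⟨rfl, rfl⟩ := hzz
            refine ⟨z, ?_, rfl⟩
            rw [Finset.mem_filter]
            refine ⟨hz, ?_⟩
            rw [hNb, Finset.mem_filter] at hz
            rw [← hκs z hz.1, ← h2, hκv]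
          · right
            rw [Finset.mem_image] at h1 ⊢
            obtain ⟨z, hz, hzz⟩ := h1
            rw [Prod.mk.injEq] at hzz
            obtain ⟨rfl, rfl⟩ := hzz
            refine ⟨z, ?_, rfl⟩
            rw [Finset.mem_filter]
            refine ⟨hz, ?_⟩
            rw [hNb, Finset.mem_filter] at hz
            rw [← hκs z hz.1, h2, hκv]
      refine (Finset.card_le_card hsub).trans ((Finset.card_union_le _ _).trans ?_)
      gcongr
      refine (Finset.card_union_le _ _).trans ?_
      gcongr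
      · exact Finset.card_image_le
      · exact Finset.card_image_le
    rw [hc1]
    calc r * _ ≤ r * (((confl R s).filter (fun q => κ q.1 = κ q.2)).card
          + ((Nb.filter (fun y => κ y = j)).card + (Nb.filter (fun y => κ y = j)).card)) := Nat.mul_le_mul_left _ hc2
      _ = r * ((confl R s).filter (fun q => κ q.1 = κ q.2)).card
          + (r * (Nb.filter (fun y => κ y = j)).card + r * (Nb.filter (fun y => κ y = j)).card) := by ring
      _ ≤ _ := by omega

/-- alteration -/
lemma exists_indep {α : Type*} [DecidableEq α] (R : α → α → Prop) [DecidableRel R]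
    (hsymm : ∀ x y, R x y → R y x) {r : ℕ} (hr : 0 < r) (s : Finset α) :
    ∃ I ⊆ s, (∀ x ∈ I, ∀ y ∈ I, x ≠ y → ¬ R x y) ∧
      (s.card : ℝ) / r - (confl R s).card / (r : ℝ) ^ 2 ≤ I.card := by
  classical
  haveI : NeZero r := ⟨hr.ne'⟩
  have hr0 : (0 : ℝ) < r := by exact_mod_cast hr
  obtain ⟨κ, hκ⟩ := exists_colouring R hsymm hr s
  set mono := (confl R s).filter (fun q => κ q.1 = κ q.2) with hmono
  -- choose a colour class
  obtain ⟨j, hj⟩ : ∃ j : Fin r, (s.card : ℝ) / r - (confl R s).card / (r : ℝ) ^ 2 ≤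
      ((s.filter (fun x => κ x = j)).card : ℝ) - ((mono.filter (fun q => κ q.1 = j)).card : ℝ) := by
    by_contra hcon
    push Not at hcon
    have h1 : ∑ j : Fin r, (s.filter (fun y => κ y = j)).card = s.card :=
      (Finset.card_eq_sum_card_fiberwise (f := κ) (s := s) (t := Finset.univ) (fun _ _ => by simp)).symm
    have h2 : ∑ j : Fin r, (mono.filter (fun q => κ q.1 = j)).card = mono.card :=
      (Finset.card_eq_sum_card_fiberwise (f := fun q => κ q.1) (s := mono) (t := Finset.univ) (fun _ _ => by simp)).symm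
    have h3 : ∑ j : Fin r, (((s.filter (fun x => κ x = j)).card : ℝ) - ((mono.filter (fun q => κ q.1 = j)).card : ℝ))
        < ∑ j : Fin r, ((s.card : ℝ) / r - (confl R s).card / (r : ℝ) ^ 2) := by
      apply Finset.sum_lt_sum_of_nonempty Finset.univ_nonempty
      intro j _; exact hcon j
    rw [Finset.sum_sub_distrib, Finset.sum_const, Finset.card_univ, Fintype.card_fin, nsmul_eq_mul] at h3
    have h4 : ∑ j : Fin r, ((s.filter (fun x => κ x = j)).card : ℝ) = s.card := by exact_mod_cast h1
    have h5 : ∑ j : Fin r, ((mono.filter (fun q => κ q.1 = j)).card : ℝ) = mono.card := by exact_mod_cast h2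
    rw [h4, h5] at h3
    have h6 : (r : ℝ) * mono.card ≤ (confl R s).card := by exact_mod_cast hκ
    have h7 : (r : ℝ) * ((s.card : ℝ) / r - (confl R s).card / (r : ℝ) ^ 2) = s.card - (confl R s).card / r := by
      field_simp
    rw [h7] at h3
    have h8 : (mono.card : ℝ) ≤ (confl R s).card / r := by
      rw [le_div_iff₀ hr0]; linarith
    linarith
  set V := s.filter (fun x => κ x = j) with hV
  set bad := V.filter (fun x => ∃ y ∈ V, x ≠ y ∧ R x y) with hbad
  refine ⟨V \ bad, ?_, ?_, ?_⟩
  · exact Finset.sdiff_subset.trans (Finset.filter_subset _ _)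
  · intro x hx y hy hne hR
    rw [Finset.mem_sdiff] at hx hy
    apply hx.2
    rw [hbad, Finset.mem_filter]
    exact ⟨hx.1, y, hy.1, hne, hR⟩
  · refine hj.trans ?_
    have h1 : bad.card ≤ (mono.filter (fun q => κ q.1 = j)).card := by
      have hsurj : Set.SurjOn (fun q : α × α => q.1) (mono.filter (fun q => κ q.1 = j) : Finset (α × α)) bad := by
        intro x hx
        rw [Finset.mem_coe, hbad, Finset.mem_filter] at hx
        obtain ⟨hxV, y, hyV, hne, hR⟩ := hx
        rw [hV, Finset.mem_filter] at hxV hyV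
        refine ⟨(x, y), ?_, rfl⟩
        rw [Finset.mem_coe, Finset.mem_filter, hmono, Finset.mem_filter]
        refine ⟨⟨?_, ?_⟩, hxV.2⟩
        · rw [confl, Finset.mem_filter, Finset.mem_product]
          exact ⟨⟨hxV.1, hyV.1⟩, hne, hR⟩
        · simp only; rw [hxV.2, hyV.2]
      exact Finset.card_le_card_of_surjOn _ hsurj
    have h2 : bad ⊆ V := Finset.filter_subset _ _
    rw [Finset.card_sdiff_of_subset h2, Nat.cast_sub (Finset.card_le_card h2)]
    have : (bad.card : ℝ) ≤ ((mono.filter (fun q => κ q.1 = j)).card : ℝ) := by exact_mod_cast h1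
    linarith

/-- edges: pairs `(p, x)` with `x, x + 2p ∈ S`. -/
def edges (P S : Finset ℤ) : Finset (ℤ × ℤ) := (P ×ˢ S).filter (fun q => q.2 + 2 * q.1 ∈ S)

/-- conflict relation -/
def Rc (q q' : ℤ × ℤ) : Prop :=
  q.1 = q'.1 ∨ q.2 = q'.2 ∨ q.2 = q'.2 + 2 * q'.1 ∨ q.2 + 2 * q.1 = q'.2 ∨ q.2 + 2 * q.1 = q'.2 + 2 * q'.1

instance : DecidableRel Rc := fun q q' => by unfold Rc; infer_instance

lemma Rc_symm : ∀ q q' : ℤ × ℤ, Rc q q' → Rc q' q := by
  intro q q' h
  unfold Rc at *
  omega

/-- triples -/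
def Tri (U S : Finset ℤ) : Finset (ℤ × ℤ × ℤ) :=
  (S ×ˢ U ×ˢ U).filter (fun t => t.2.1 ≠ t.2.2 ∧ t.1 + 2 * t.2.1 ∈ S ∧ t.1 + 2 * t.2.2 ∈ S)

def Quad (P S : Finset ℤ) : Finset (ℤ × ℤ × ℤ) :=
  (P ×ˢ S ×ˢ S).filter (fun t => t.2.1 ≠ t.2.2 ∧ t.2.1 + 2 * t.1 ∈ S ∧ t.2.2 + 2 * t.1 ∈ S)

/-- the number of conflicts. -/
lemma confl_le (P S U : Finset ℤ) (hP : ∀ p ∈ P, 0 < p) (hU1 : ∀ p ∈ P, p ∈ U) (hU2 : ∀ p ∈ P, -p ∈ U) :
    (confl Rc (edges P S)).card ≤ (Tri U S).card + (Quad P S).card := by
  classical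
  have hsub : confl Rc (edges P S) ⊆
      ((Tri U S).image (fun t => ((if 0 < t.2.1 then (t.2.1, t.1) else (-t.2.1, t.1 + 2 * t.2.1)),
          (if 0 < t.2.2 then (t.2.2, t.1) else (-t.2.2, t.1 + 2 * t.2.2)))))
      ∪ ((Quad P S).image (fun t => ((t.1, t.2.1), (t.1, t.2.2)))) := by
    rintro ⟨⟨p, x⟩, ⟨p', x'⟩⟩ h
    simp only [confl, edges, Finset.mem_filter, Finset.mem_product] at h
    obtain ⟨⟨⟨⟨hp, hx⟩, hxp⟩, ⟨hp', hx'⟩, hxp'⟩, hne, hR⟩ := h
    have hp0 := hP p hp
    have hp0' := hP p' hp'
    by_cases hpp : p = p'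
    · subst hpp
      apply Finset.mem_union_right
      rw [Finset.mem_image]
      refine ⟨(p, x, x'), ?_, rfl⟩
      simp only [Quad, Finset.mem_filter, Finset.mem_product]
      exact ⟨⟨hp, hx, hx'⟩, fun h => hne (by rw [h]), hxp, hxp'⟩
    · apply Finset.mem_union_left
      rw [Finset.mem_image]
      unfold Rc at hR
      simp only at hR
      rcases hR with h | h | h | h | h
      · exact absurd h hpp
      · refine ⟨(x, p, p'), ?_, ?_⟩
        · simp only [Tri, Finset.mem_filter, Finset.mem_product]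
          exact ⟨⟨hx, hU1 p hp, hU1 p' hp'⟩, hpp, hxp, by rw [h]; exact hxp'⟩
        · simp only [if_pos hp0, if_pos hp0', h]
      · refine ⟨(x, p, -p'), ?_, ?_⟩
        · simp only [Tri, Finset.mem_filter, Finset.mem_product]
          refine ⟨⟨hx, hU1 p hp, hU2 p' hp'⟩, by omega, hxp, ?_⟩
          have : x + 2 * -p' = x' := by omega
          rw [this]; exact hx'
        · have h1 : ¬ (0 < -p') := by omega
          have h2 : x + 2 * -p' = x' := by omega
          simp only [if_pos hp0, if_neg h1, neg_neg, h2]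
      · refine ⟨(x', -p, p'), ?_, ?_⟩
        · simp only [Tri, Finset.mem_filter, Finset.mem_product]
          refine ⟨⟨hx', hU2 p hp, hU1 p' hp'⟩, by omega, ?_, hxp'⟩
          have : x' + 2 * -p = x := by omega
          rw [this]; exact hx
        · have h1 : ¬ (0 < -p) := by omega
          have h2 : x' + 2 * -p = x := by omega
          simp only [if_neg h1, if_pos hp0', neg_neg, h2]
      · refine ⟨(x + 2 * p, -p, -p'), ?_, ?_⟩
        · simp only [Tri, Finset.mem_filter, Finset.mem_product]
          refine ⟨⟨hxp, hU2 p hp, hU2 p' hp'⟩, by omega, ?_, ?_⟩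
          · have : x + 2 * p + 2 * -p = x := by omega
            rw [this]; exact hx
          · have : x + 2 * p + 2 * -p' = x' := by omega
            rw [this]; exact hx'
        · have h1 : ¬ (0 < -p) := by omega
          have h1' : ¬ (0 < -p') := by omega
          have h2 : x + 2 * p + 2 * -p = x := by omega
          have h2' : x + 2 * p + 2 * -p' = x' := by omega
          simp only [if_neg h1, if_neg h1', neg_neg, h2, h2']
  refine (Finset.card_le_card hsub).trans ((Finset.card_union_le _ _).trans ?_)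
  exact Nat.add_le_add Finset.card_image_le Finset.card_image_le

/-- matching -/
def IsMat (P S : Finset ℤ) (I : Finset (ℤ × ℤ)) : Prop :=
  I ⊆ edges P S ∧ ∀ q ∈ I, ∀ q' ∈ I, q ≠ q' → ¬ Rc q q'

theorem exists_mat (P S U : Finset ℤ) (hP : ∀ p ∈ P, 0 < p) (hU1 : ∀ p ∈ P, p ∈ U) (hU2 : ∀ p ∈ P, -p ∈ U)
    {r : ℕ} (hr : 0 < r) : ∃ I, IsMat P S I ∧
      ((edges P S).card : ℝ) / r - ((Tri U S).card + (Quad P S).card) / (r : ℝ) ^ 2 ≤ I.card := by
  obtain ⟨I, hI1, hI2, hI3⟩ := exists_indep Rc Rc_symm hr (edges P S)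
  refine ⟨I, ⟨hI1, hI2⟩, le_trans ?_ hI3⟩
  have h1 := confl_le P S U hP hU1 hU2
  have h2 : ((confl Rc (edges P S)).card : ℝ) ≤ (Tri U S).card + (Quad P S).card := by exact_mod_cast h1
  have hr0 : (0 : ℝ) < r := by exact_mod_cast hr
  gcongr

end Pool.Agent.H93.DC
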