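import Pool.Agent.H93.DC.Smooth

/-! Parameters. -/

namespace Pool.Agent.H93.DC

open Filter Topology

noncomputable def uu (N : ℕ) : ℝ := Real.sqrt (Real.sqrt (Real.log N))
noncomputable def KK (N : ℕ) : ℕ := ⌊Real.log N⌋₊ ^ 2
noncomputable def TT (N : ℕ) : ℕ := (KK N) ^ 4
noncomputable def YY (N : ℕ) : ℕ := ⌊Real.exp ((uu N) ^ 2)⌋₊

lemma uu_tendsto : Tendsto uu atTop atTop := by
  unfold uu
  exact Real.tendsto_sqrt_atTop.comp (Real.tendsto_sqrt_atTop.comp (Real.tendsto_log_atTop.comp tendsto_natCast_atTop_atTop))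

lemma uu_pow (N : ℕ) : (uu N) ^ 4 = Real.log N := by
  unfold uu
  have h0 : 0 ≤ Real.log N := Real.log_natCast_nonneg N
  have : (Real.sqrt (Real.sqrt (Real.log N))) ^ 4 = ((Real.sqrt (Real.sqrt (Real.log N))) ^ 2) ^ 2 := by ring
  rw [this, Real.sq_sqrt (Real.sqrt_nonneg _), Real.sq_sqrt h0]

/-- all the facts about the parameters -/
structure Good (z0 N : ℕ) : Prop where
  u : 1000 ≤ uu N
  N1 : 625 ≤ N
  K5 : 5 ≤ KK N
  logK : Real.log (2 * N) ≤ KK N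
  KY : KK N ≤ YY N
  KN : 2 * KK N ≤ N
  KYN : KK N * YY N ≤ N
  T2 : 2 ≤ TT N
  TY : 4 * (TT N) ^ 2 ≤ YY N
  KT : KK N ≤ (TT N) ^ 2
  YN : 400 * (YY N) ^ 2 ≤ N
  zN : z0 * (20 * YY N) ≤ N
  KlN : (KK N : ℝ) * Real.log N ≤ N
  K5N : 5 * KK N ≤ N
  Y5N : 5 * YY N ≤ N
  Y16 : 16 ≤ YY N
  sig1 : (MP (YY N))⁻¹ ≤ 2 / (uu N) ^ 2
  sig2 : (1 / (2 * Real.exp 6)) / (uu N) ^ 2 ≤ (MP (YY N))⁻¹
  logY1 : Real.log (YY N) ≤ (uu N) ^ 2
  logY2 : (uu N) ^ 2 / 2 ≤ Real.log (YY N)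
  clow : 1 / (8 * (uu N) ^ 2) ≤ (Nat.log 2 ((YY N - 1) / (2 * (TT N) ^ 2)) : ℝ) / (4 * Real.log N)
  cup : 4 * (Nat.clog 2 (YY N) : ℝ) / Real.log N ≤ 8 / (uu N) ^ 2
  eps : (4 * (10 * YY N : ℕ) + (21 + 9 * Real.log N + 8 * Nat.clog 2 (N + 2)) * (N / TT N)) / N ≤ 1 / (uu N) ^ 20
  Kup : (KK N : ℝ) ≤ (uu N) ^ 8
  uN : (uu N) ^ 16 ≤ N

lemma clog_le {x : ℕ} (hx : 1 < x) {t : ℝ} (ht : Real.log x ≤ t) : (Nat.clog 2 x : ℝ) ≤ 1 + (3 / 2) * t := by
  have h1 := Nat.pow_pred_clog_lt_self (b := 2) (by norm_num) hx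
  have hpos : 0 < Nat.clog 2 x := Nat.clog_pos (by norm_num) hx
  have h2 : ((2 : ℝ)) ^ (Nat.clog 2 x).pred ≤ x := by exact_mod_cast h1.le
  have h3 := Real.log_le_log (by positivity) h2
  rw [Real.log_pow] at h3
  have h4 : (((Nat.clog 2 x).pred : ℕ) : ℝ) = (Nat.clog 2 x : ℝ) - 1 := by
    rw [Nat.pred_eq_sub_one, Nat.cast_sub (by omega)]; norm_num
  rw [h4] at h3
  have h5 := Real.log_two_gt_d9
  have h6 : (1 : ℝ) ≤ Nat.clog 2 x := by exact_mod_cast hpos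
  nlinarith

theorem good_of_u {z0 N : ℕ} (hN : 1 ≤ N) (hu : 1000 ≤ uu N) (hexp : (uu N) ^ 80 ≤ Real.exp (uu N))
    (hz : (z0 : ℝ) * 20 ≤ Real.exp (uu N)) : Good z0 N := by
  set u := uu N with hudef
  set E := Real.exp u with hE
  have hu0 : 0 < u := by linarith
  have hu1 : 1 ≤ u := by linarith
  have hL : Real.log N = u ^ 4 := (uu_pow N).symm
  have hN0 : (0 : ℝ) < N := by exact_mod_cast hN
  have hNe : (N : ℝ) = Real.exp (u ^ 4) := by rw [← hL, Real.exp_log hN0]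
  have hE0 : 0 < E := Real.exp_pos _
  have hpow : ∀ a b : ℕ, a ≤ b → u ^ a ≤ u ^ b := fun a b h => pow_le_pow_right₀ hu1 h
  have hu2 : u ≤ u ^ 2 := by nlinarith
  have hu4 : u ^ 2 ≤ u ^ 4 := hpow 2 4 (by norm_num)
  have hbig : 1000 * u ^ 79 ≤ E := by
    calc 1000 * u ^ 79 ≤ u * u ^ 79 := by gcongr
      _ = u ^ 80 := by ring
      _ ≤ E := hexp
  have hEu2 : E ≤ Real.exp (u ^ 2) := Real.exp_le_exp.mpr hu2
  have hu1000 : ∀ k : ℕ, 1 ≤ k → (1000 : ℝ) ≤ u ^ k := by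
    intro k hk
    calc (1000 : ℝ) ≤ u := hu
      _ = u ^ 1 := (pow_one u).symm
      _ ≤ u ^ k := hpow 1 k hk
  have hu42 : 1000 * u ^ 2 ≤ u ^ 4 := by
    have h1 := mul_le_mul_of_nonneg_right (hu1000 2 (by norm_num)) (sq_nonneg u)
    have h2 : u ^ 4 = u ^ 2 * u ^ 2 := by ring
    linarith
  have hexpprod : E * Real.exp (u ^ 2) ≤ N := by
    rw [hNe, hE, ← Real.exp_add]
    apply Real.exp_le_exp.mpr
    linarith
  have hexpprod2 : E * (Real.exp (u ^ 2) * Real.exp (u ^ 2)) ≤ N := by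
    rw [hNe, hE, ← Real.exp_add, ← Real.exp_add]
    apply Real.exp_le_exp.mpr
    linarith
  have hEN : E ≤ N := by
    have h1 : 1 ≤ Real.exp (u ^ 2) := Real.one_le_exp (by positivity)
    exact le_trans (le_mul_of_one_le_right hE0.le h1) hexpprod
  -- K
  set k0 := ⌊Real.log N⌋₊ with hk0
  have hk1 : (k0 : ℝ) ≤ u ^ 4 := by
    rw [← hL]; exact Nat.floor_le (by rw [hL]; positivity)
  have hk2 : u ^ 4 - 1 < k0 := by
    rw [← hL]; exact Nat.sub_one_lt_floor _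
  have hk3 : u ^ 4 / 2 ≤ k0 := by
    have := hu1000 4 (by norm_num)
    linarith
  have hKr : (KK N : ℝ) = (k0 : ℝ) ^ 2 := by unfold KK; push_cast; rfl
  have hKup : (KK N : ℝ) ≤ u ^ 8 := by
    rw [hKr]
    calc (k0 : ℝ) ^ 2 ≤ (u ^ 4) ^ 2 := by gcongr
      _ = u ^ 8 := by ring
  have hKlow : u ^ 8 / 4 ≤ KK N := by
    rw [hKr]
    calc u ^ 8 / 4 = (u ^ 4 / 2) ^ 2 := by ring
      _ ≤ (k0 : ℝ) ^ 2 := by gcongr
  have hK5 : 5 ≤ KK N := by
    have h1 := hu1000 8 (by norm_num)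
    have : (5 : ℝ) ≤ KK N := by linarith
    exact_mod_cast this
  have hKpos : (0 : ℝ) < KK N := by exact_mod_cast (by omega : 0 < KK N)
  -- Y
  set Y := YY N with hY
  have hY1 : (Y : ℝ) ≤ Real.exp (u ^ 2) := Nat.floor_le (Real.exp_pos _).le
  have hY2 : Real.exp (u ^ 2) - 1 < Y := Nat.sub_one_lt_floor _
  have hEY : E - 1 < Y := by linarith
  -- T
  have hTr : (TT N : ℝ) = (KK N : ℝ) ^ 4 := by unfold TT; push_cast; rfl
  have hTup : (TT N : ℝ) ≤ u ^ 32 := by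
    rw [hTr]
    calc (KK N : ℝ) ^ 4 ≤ (u ^ 8) ^ 4 := by gcongr
      _ = u ^ 32 := by ring
  have hTlow : u ^ 32 / 256 ≤ TT N := by
    rw [hTr]
    calc u ^ 32 / 256 = (u ^ 8 / 4) ^ 4 := by ring
      _ ≤ (KK N : ℝ) ^ 4 := by gcongr
  have hT2 : 2 ≤ TT N := by
    unfold TT
    calc 2 ≤ KK N := by omega
      _ = KK N ^ 1 := (pow_one _).symm
      _ ≤ KK N ^ 4 := Nat.pow_le_pow_right (by omega) (by norm_num)
  have hT0 : (0 : ℝ) < TT N := by exact_mod_cast (by omega : 0 < TT N)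
  have hTT : ((TT N : ℝ)) ^ 2 ≤ u ^ 64 := by
    calc ((TT N : ℝ)) ^ 2 ≤ (u ^ 32) ^ 2 := by gcongr
      _ = u ^ 64 := by ring
  -- cast helpers
  have c1 : ∀ k : ℕ, k ≤ 79 → 1000 * u ^ k ≤ E := fun k hk => by
    calc 1000 * u ^ k ≤ 1000 * u ^ 79 := by
          have := hpow k 79 hk
          linarith
      _ ≤ E := hbig
  have hY16 : 16 ≤ Y := by
    have h1 := c1 0 (by norm_num)
    rw [pow_zero] at h1
    have : (16 : ℝ) ≤ Y := by linarith
    exact_mod_cast this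
  have hY0 : (0 : ℝ) < Y := by exact_mod_cast (by omega : 0 < Y)
  have hlogY1 : Real.log Y ≤ u ^ 2 := by
    have := Real.log_le_log hY0 hY1
    rwa [Real.log_exp] at this
  have hlogYlow : u ^ 2 - 1 ≤ Real.log Y := by
    have h1 : Real.exp (u ^ 2 - 1) ≤ Y := by
      have h2 : Real.exp (u ^ 2 - 1) = Real.exp (u ^ 2) * Real.exp (-1) := by rw [← Real.exp_add]; congr 1
      have h3 : Real.exp (-1) ≤ 1 / 2 := by
        rw [Real.exp_neg]
        have := Real.exp_one_gt_d9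
        rw [inv_le_comm₀ (by positivity) (by norm_num)]
        linarith
      have h4 := c1 0 (by norm_num)
      rw [pow_zero] at h4
      rw [h2]
      have h5 := mul_le_mul_of_nonneg_left h3 (Real.exp_pos (u ^ 2)).le
      linarith
    have := Real.log_le_log (Real.exp_pos _) h1
    rwa [Real.log_exp] at this
  have hlogY2 : u ^ 2 / 2 ≤ Real.log Y := by
    have := hu1000 2 (by norm_num)
    linarith
  have hlogY0 : 0 < Real.log Y := by
    have := hu1000 2 (by norm_num)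
    linarith
  refine ⟨hu, ?_, hK5, ?_, ?_, ?_, ?_, hT2, ?_, ?_, ?_, ?_, ?_, ?_, ?_, hY16, ?_, ?_, hlogY1, hlogY2, ?_, ?_, ?_, hKup, ?_⟩
  · have h1 := c1 0 (by norm_num)
    rw [pow_zero] at h1
    have : (625 : ℝ) ≤ N := by linarith
    exact_mod_cast this
  · rw [Real.log_mul (by norm_num) hN0.ne', hL]
    have h1 := Real.log_two_lt_d9
    have h2 := hu1000 4 (by norm_num)
    have h3 : u ^ 8 = u ^ 4 * u ^ 4 := by ring
    have h4 := mul_le_mul_of_nonneg_right h2 (show 0 ≤ u ^ 4 by positivity)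
    linarith
  · have h1 := c1 8 (by norm_num)
    have h2 := hu1000 8 (by norm_num)
    have : (KK N : ℝ) ≤ Y := by linarith
    exact_mod_cast this
  · have h1 := c1 8 (by norm_num)
    have : (2 : ℝ) * KK N ≤ N := by linarith [pow_pos hu0 8]
    exact_mod_cast this
  · have h1 := c1 8 (by norm_num)
    have h2 : (KK N : ℝ) ≤ E := by linarith [pow_pos hu0 8]
    have : (KK N : ℝ) * Y ≤ N := by
      calc (KK N : ℝ) * Y ≤ E * Real.exp (u ^ 2) := by gcongr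
        _ ≤ N := hexpprod
    exact_mod_cast this
  · have h1 := c1 64 (by norm_num)
    have h2 := hu1000 64 (by norm_num)
    have : (4 : ℝ) * (TT N) ^ 2 ≤ Y := by linarith
    exact_mod_cast this
  · have : (TT N) ^ 2 = KK N ^ 8 := by unfold TT; ring
    rw [this]
    calc KK N = KK N ^ 1 := (pow_one _).symm
      _ ≤ KK N ^ 8 := Nat.pow_le_pow_right (by omega) (by norm_num)
  · have h1 := c1 0 (by norm_num)
    rw [pow_zero] at h1
    have : (400 : ℝ) * Y ^ 2 ≤ N := by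
      calc (400 : ℝ) * Y ^ 2 ≤ E * (Real.exp (u ^ 2) * Real.exp (u ^ 2)) := by
            rw [sq]; gcongr; linarith
        _ ≤ N := hexpprod2
    exact_mod_cast this
  · have : (z0 : ℝ) * (20 * Y) ≤ N := by
      calc (z0 : ℝ) * (20 * Y) = (z0 * 20) * Y := by ring
        _ ≤ E * Real.exp (u ^ 2) := by gcongr
        _ ≤ N := hexpprod
    exact_mod_cast this
  · rw [hL]
    have h1 := c1 12 (by norm_num)
    calc (KK N : ℝ) * u ^ 4 ≤ u ^ 8 * u ^ 4 := by gcongr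
      _ = u ^ 12 := by ring
      _ ≤ N := by linarith [pow_pos hu0 12]
  · have h1 := c1 8 (by norm_num)
    have : (5 : ℝ) * KK N ≤ N := by linarith [pow_pos hu0 8]
    exact_mod_cast this
  · have h1 := c1 0 (by norm_num)
    rw [pow_zero] at h1
    have : (5 : ℝ) * Y ≤ N := by
      calc (5 : ℝ) * Y ≤ E * Real.exp (u ^ 2) := by gcongr; linarith
        _ ≤ N := hexpprod
    exact_mod_cast this
  · have h1 := log_le_MP (show 1 ≤ Y by omega)
    have h2 : u ^ 2 / 2 ≤ MP Y := hlogY2.trans h1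
    calc (MP Y)⁻¹ ≤ (u ^ 2 / 2)⁻¹ := inv_anti₀ (by positivity) h2
      _ = 2 / u ^ 2 := by field_simp
  · have h1 := MP_le (show 3 ≤ Y by omega)
    have h2 : MP Y ≤ 2 * Real.exp 6 * u ^ 2 := h1.trans (by gcongr)
    have h3 := MP_pos Y
    calc (1 / (2 * Real.exp 6)) / u ^ 2 = (2 * Real.exp 6 * u ^ 2)⁻¹ := by field_simp
      _ ≤ (MP Y)⁻¹ := inv_anti₀ h3 h2
  · -- clow
    rw [hL]
    set M := (Y - 1) / (2 * (TT N) ^ 2) with hM
    set k := Nat.log 2 M with hk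
    have hT2pos : 0 < 2 * (TT N) ^ 2 := by positivity
    have h1 : M < 2 ^ (k + 1) := Nat.lt_pow_succ_log_self (by norm_num) M
    have h2 : Y - 1 < 2 * (TT N) ^ 2 * (M + 1) := by
      have := Nat.lt_mul_div_succ (Y - 1) hT2pos
      rw [hM]; exact this
    have h3 : Y ≤ 2 * (TT N) ^ 2 * 2 ^ (k + 1) := by
      have : 2 * (TT N) ^ 2 * (M + 1) ≤ 2 * (TT N) ^ 2 * 2 ^ (k + 1) := Nat.mul_le_mul_left _ (by omega)
      omega
    have h4 : (Y : ℝ) ≤ 2 * (TT N : ℝ) ^ 2 * 2 ^ (k + 1) := by exact_mod_cast h3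
    have h5 : (Y : ℝ) ≤ E * 2 ^ (k + 1) := by
      refine h4.trans ?_
      gcongr
      have := c1 64 (by norm_num)
      linarith [pow_pos hu0 64]
    have h6 := Real.log_le_log hY0 h5
    rw [Real.log_mul hE0.ne' (by positivity), Real.log_pow, hE, Real.log_exp] at h6
    have h7 := Real.log_two_lt_d9
    have h8 : u ^ 2 / 2 ≤ k := by
      push_cast at h6
      have hk0' : (0 : ℝ) ≤ k := by positivity
      have h9 := mul_le_mul_of_nonneg_left (show Real.log 2 ≤ 1 by linarith) (show (0 : ℝ) ≤ (k : ℝ) + 1 by linarith)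
      have h10 : 1000 * u ≤ u ^ 2 := by
        rw [sq]; exact mul_le_mul_of_nonneg_right hu hu0.le
      linarith
    calc 1 / (8 * u ^ 2) = (u ^ 2 / 2) / (4 * u ^ 4) := by field_simp; norm_num
      _ ≤ (k : ℝ) / (4 * u ^ 4) := by gcongr
  · -- cup
    rw [hL]
    have h1 := clog_le (show 1 < Y by omega) hlogY1
    have h2 : (Nat.clog 2 Y : ℝ) ≤ 2 * u ^ 2 := by
      have := hu1000 2 (by norm_num)
      linarith
    calc 4 * (Nat.clog 2 Y : ℝ) / u ^ 4 ≤ 4 * (2 * u ^ 2) / u ^ 4 := by gcongr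
      _ = 8 / u ^ 2 := by field_simp; norm_num
  · -- eps
    rw [hL]
    have hN2 : Real.log ((N + 2 : ℕ) : ℝ) ≤ u ^ 4 + 1 := by
      have h1 : ((N + 2 : ℕ) : ℝ) ≤ 2 * N := by
        have h2 : 2 ≤ N := by
          have h3 := c1 0 (by norm_num)
          rw [pow_zero] at h3
          have : (2 : ℝ) ≤ N := by linarith
          exact_mod_cast this
        exact_mod_cast (by omega : N + 2 ≤ 2 * N)
      have h3 := Real.log_le_log (by positivity) h1
      rw [Real.log_mul (by norm_num) hN0.ne', hL] at h3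
      have := Real.log_two_lt_d9
      linarith
    have h4 := clog_le (show 1 < N + 2 by omega) hN2
    have h5 : 21 + 9 * u ^ 4 + 8 * (Nat.clog 2 (N + 2) : ℝ) ≤ 26 * u ^ 4 := by
      have := hu1000 4 (by norm_num)
      linarith
    have h6 : (21 + 9 * u ^ 4 + 8 * (Nat.clog 2 (N + 2) : ℝ)) * (N / TT N) ≤ (6656 / u ^ 28) * N := by
      calc (21 + 9 * u ^ 4 + 8 * (Nat.clog 2 (N + 2) : ℝ)) * (N / TT N) ≤ (26 * u ^ 4) * (N / (u ^ 32 / 256)) := by gcongr
        _ = (6656 / u ^ 28) * N := by field_simp; norm_num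
    have h7 : 4 * ((10 * Y : ℕ) : ℝ) ≤ (1 / (2 * u ^ 20)) * N := by
      push_cast
      have h8 : 80 * u ^ 20 ≤ E := by
        have := c1 20 (by norm_num)
        linarith [pow_pos hu0 20]
      have h9 : 80 * u ^ 20 * Y ≤ N := by
        calc 80 * u ^ 20 * (Y : ℝ) ≤ E * Real.exp (u ^ 2) := by gcongr
          _ ≤ N := hexpprod
      rw [one_div, inv_mul_eq_div, le_div_iff₀ (by positivity)]
      linarith
    rw [div_le_iff₀ hN0]
    have h10 : 6656 / u ^ 28 ≤ 1 / (2 * u ^ 20) := by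
      rw [div_le_div_iff₀ (by positivity) (by positivity)]
      have h11 : u ^ 28 = u ^ 20 * u ^ 8 := by ring
      have h12 : (13312 : ℝ) ≤ u ^ 8 := by
        calc (13312 : ℝ) ≤ 1000 ^ 8 := by norm_num
          _ ≤ u ^ 8 := by gcongr
      rw [h11]
      have h15 := mul_le_mul_of_nonneg_left h12 (pow_pos hu0 20).le
      linarith
    have h13 : 1 / u ^ 20 * (N : ℝ) = (1 / (2 * u ^ 20)) * N + (1 / (2 * u ^ 20)) * N := by field_simp; norm_num
    have h14 : (6656 / u ^ 28) * (N : ℝ) ≤ (1 / (2 * u ^ 20)) * N := by gcongr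
    linarith
  · have := c1 16 (by norm_num)
    linarith [pow_pos hu0 16]

theorem eventually_good (z0 : ℕ) : ∀ᶠ N : ℕ in atTop, Good z0 N := by
  have h1 : ∀ᶠ u : ℝ in atTop, u ^ 80 ≤ Real.exp u := by
    have h := Real.tendsto_pow_mul_exp_neg_atTop_nhds_zero 80
    have h2 := h.eventually (gt_mem_nhds (show (0 : ℝ) < 1 by norm_num))
    filter_upwards [h2] with u hu
    rw [Real.exp_neg] at hu
    have := Real.exp_pos u
    have h3 : u ^ 80 * (Real.exp u)⁻¹ * Real.exp u < 1 * Real.exp u := by gcongr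
    rw [mul_assoc, inv_mul_cancel₀ this.ne'] at h3
    linarith
  have h2 : ∀ᶠ u : ℝ in atTop, (z0 : ℝ) * 20 ≤ Real.exp u := Real.tendsto_exp_atTop.eventually_ge_atTop _
  have h3 : ∀ᶠ u : ℝ in atTop, (1000 : ℝ) ≤ u := eventually_ge_atTop _
  filter_upwards [uu_tendsto.eventually h1, uu_tendsto.eventually h2, uu_tendsto.eventually h3, eventually_ge_atTop 1]
    with N a b c d
  exact good_of_u d c a b

end Pool.Agent.H93.DC
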