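import Pool.Agent.H93.DC.Deficit
import Pool.Agent.H93.DC.Params

/-! Asymptotics of the expected total deficit. -/

namespace Pool.Agent.H93.DC

open Finset Filter Topology

lemma pi_le_self (n : ℕ) : Nat.primeCounting n ≤ n := by
  rw [← card_primes_le]
  have : (range (n + 1)).filter Nat.Prime ⊆ Ioc 0 n := by
    intro p hp
    rw [Finset.mem_filter, Finset.mem_range] at hp
    rw [Finset.mem_Ioc]
    exact ⟨hp.2.pos, by omega⟩
  simpa using Finset.card_le_card this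

/-- prime counting at `N / m` -/
lemma pi_div_le {ε : ℝ} (hε : 0 < ε) : ∃ x0 : ℝ, 3 ≤ x0 ∧ ∀ (N m : ℕ) (t : ℝ), 0 < m → Real.log m ≤ t →
    t + Real.log x0 ≤ Real.log N → 0 < N →
    (Nat.primeCounting (N / m) : ℝ) ≤ (1 + ε) * (N / (Real.log N - t)) * (m : ℝ)⁻¹ := by
  obtain ⟨x0, hx3, hx⟩ := pnt_bounds hε
  refine ⟨x0, hx3, fun N m t hm ht hN hN0 => ?_⟩
  have hmr : (0 : ℝ) < m := by exact_mod_cast hm
  have hNr : (0 : ℝ) < N := by exact_mod_cast hN0
  have hx00 : 0 < x0 := by linarith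
  have hlx0 : 0 < Real.log x0 := Real.log_pos (by linarith)
  have hlog : Real.log ((N : ℝ) / m) = Real.log N - Real.log m := Real.log_div hNr.ne' hmr.ne'
  have h1 : x0 ≤ (N : ℝ) / m := by
    have : Real.log x0 ≤ Real.log ((N : ℝ) / m) := by rw [hlog]; linarith
    exact (Real.log_le_log_iff hx00 (by positivity)).mp this
  have h2 := (hx _ h1).2
  have f : ⌊(N : ℝ) / m⌋₊ = N / m := by
    have := Nat.floor_div_natCast (N : ℝ) m
    rw [Nat.floor_natCast] at this
    exact_mod_cast this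
  rw [f] at h2
  refine h2.trans ?_
  have h3 : (N : ℝ) / m / Real.log (N / m) ≤ (N : ℝ) / m / (Real.log N - t) := by
    have : 0 < Real.log N - t := by linarith
    have : Real.log N - t ≤ Real.log ((N : ℝ) / m) := by rw [hlog]; linarith
    gcongr
  calc (1 + ε) * ((N : ℝ) / m / Real.log (N / m)) ≤ (1 + ε) * ((N : ℝ) / m / (Real.log N - t)) := by gcongr
    _ = _ := by rw [div_right_comm, div_eq_mul_inv ((N : ℝ) / (Real.log N - t)) (m : ℝ)]; ring

/-- tail of the sum over smooth numbers -/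
lemma tail_smooth {z0 N : ℕ} (G : Good z0 N) (S : Finset ℕ)
    (hS : ∀ m ∈ S, m ∈ (YY N).smoothNumbers ∧ Real.exp ((uu N) ^ 3) ≤ m) :
    ∑ m ∈ S, (m : ℝ)⁻¹ ≤ Real.exp 16 * MP (YY N) * Real.exp (-(uu N)) := by
  refine (rankin G.Y16 (Real.exp_pos _) S hS).trans ?_
  have hMP := MP_pos (YY N)
  have hu : 0 < uu N := by linarith [G.u]
  have hlY : 0 < Real.log (YY N) := lt_of_lt_of_le (by positivity) G.logY2
  gcongr
  rw [← Real.exp_mul]
  apply Real.exp_le_exp.mpr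
  have h1 : uu N ≤ (uu N) ^ 3 * (1 / Real.log (YY N)) := by
    rw [mul_one_div, le_div_iff₀ hlY]
    calc uu N * Real.log (YY N) ≤ uu N * (uu N) ^ 2 := by gcongr; exact G.logY1
      _ = (uu N) ^ 3 := by ring
  linarith

lemma Y_ge {z0 N : ℕ} (G : Good z0 N) : Real.exp (uu N) ≤ YY N := by
  have hu := G.u
  have h1 : uu N ≤ Real.log (YY N) := by
    refine le_trans ?_ G.logY2
    nlinarith
  have hY : (0 : ℝ) < YY N := by exact_mod_cast (by have := G.Y16; omega : 0 < YY N)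
  calc Real.exp (uu N) ≤ Real.exp (Real.log (YY N)) := Real.exp_le_exp.mpr h1
    _ = YY N := Real.exp_log hY

theorem asymB {η : ℝ} (hη : 0 < η) (hη1 : η ≤ 1) : ∀ᶠ N : ℕ in atTop,
    (MP (YY N))⁻¹ * ((Bset N (YY N) (KK N)).card : ℝ) ≤ (1 + η) * (N / Real.log N) := by
  set ε := η / 4 with hε
  have hε0 : 0 < ε := by positivity
  have hε1 : ε ≤ 1 / 4 := by rw [hε]; linarith
  obtain ⟨x0, hx3, hx⟩ := pi_div_le hε0
  have h1 : ∀ᶠ u : ℝ in atTop, u ^ 80 ≤ Real.exp u := by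
    have h := Real.tendsto_pow_mul_exp_neg_atTop_nhds_zero 80
    have h2 := h.eventually (gt_mem_nhds (show (0 : ℝ) < 1 by norm_num))
    filter_upwards [h2] with u hu
    rw [Real.exp_neg] at hu
    have := Real.exp_pos u
    have h3 : u ^ 80 * (Real.exp u)⁻¹ * Real.exp u < 1 * Real.exp u := by gcongr
    rw [mul_assoc, inv_mul_cancel₀ this.ne'] at h3
    linarith
  filter_upwards [eventually_good 0, uu_tendsto.eventually h1,
    uu_tendsto.eventually (eventually_ge_atTop (2 * Real.exp 16 / ε)),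
    uu_tendsto.eventually (eventually_ge_atTop (4 / ε)),
    uu_tendsto.eventually (eventually_ge_atTop ((1 + ε) / ε)),
    uu_tendsto.eventually (eventually_ge_atTop (Real.log x0)), eventually_ge_atTop 1] with N G hexp m1 m2 m3 m4 hN1
  set u := uu N with hu
  have hu1000 := G.u
  rw [← hu] at hu1000
  have hu0 : 0 < u := by linarith
  have hu1 : 1 ≤ u := by linarith
  have hL : Real.log N = u ^ 4 := (uu_pow N).symm
  have hNr : (0 : ℝ) < N := by exact_mod_cast hN1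
  have hMP := MP_pos (YY N)
  have hpow : ∀ a b : ℕ, a ≤ b → u ^ a ≤ u ^ b := fun a b h => pow_le_pow_right₀ hu1 h
  have hB := card_Bset_le (N := N) (Y := YY N) (K := KK N) (by have := G.K5; omega) G.KY
  -- split the sum
  have hsplit : ∑ m ∈ Sm N (YY N), (Nat.primeCounting (N / m) : ℝ)
      = ∑ m ∈ (Sm N (YY N)).filter (fun m : ℕ => (m : ℝ) ≤ Real.exp (u ^ 3)), (Nat.primeCounting (N / m) : ℝ)
        + ∑ m ∈ (Sm N (YY N)).filter (fun m : ℕ => ¬ (m : ℝ) ≤ Real.exp (u ^ 3)), (Nat.primeCounting (N / m) : ℝ) := by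
    rw [Finset.sum_filter_add_sum_filter_not]
  have hSpos : ∀ m ∈ Sm N (YY N), 0 < m := fun m hm =>
    Nat.pos_of_ne_zero (Nat.ne_zero_of_mem_smoothNumbers (mem_Sm.mp hm).2)
  have hu43 : u + u ^ 3 ≤ u ^ 4 := by
    have h2 : u ^ 4 = u * u ^ 3 := by ring
    have h3 : u ≤ u ^ 3 := by
      calc u = u ^ 1 := (pow_one u).symm
        _ ≤ u ^ 3 := hpow 1 3 (by norm_num)
    have h4 : 2 * u ^ 3 ≤ u * u ^ 3 := by gcongr; linarith
    linarith
  have hdpos : 0 < u ^ 4 - u ^ 3 := by linarith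
  have hs1 : ∑ m ∈ (Sm N (YY N)).filter (fun m : ℕ => (m : ℝ) ≤ Real.exp (u ^ 3)), (Nat.primeCounting (N / m) : ℝ)
      ≤ (1 + ε) * (N / (u ^ 4 - u ^ 3)) * MP (YY N) := by
    have h2 : ∀ m ∈ (Sm N (YY N)).filter (fun m : ℕ => (m : ℝ) ≤ Real.exp (u ^ 3)),
        (Nat.primeCounting (N / m) : ℝ) ≤ (1 + ε) * (N / (u ^ 4 - u ^ 3)) * (m : ℝ)⁻¹ := by
      intro m hm
      rw [Finset.mem_filter] at hm
      have hm0 := hSpos m hm.1
      have hmr : (0 : ℝ) < m := by exact_mod_cast hm0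
      have hlm : Real.log m ≤ u ^ 3 := by
        have := Real.log_le_log hmr hm.2
        rwa [Real.log_exp] at this
      have := hx N m (u ^ 3) hm0 hlm (by rw [hL]; linarith) hN1
      rw [hL] at this
      exact this
    refine (Finset.sum_le_sum h2).trans ?_
    rw [← Finset.mul_sum]
    have h3 := smooth_sum_inv_le (YY N) ((Sm N (YY N)).filter (fun m : ℕ => (m : ℝ) ≤ Real.exp (u ^ 3)))
      (fun m hm => (mem_Sm.mp (Finset.mem_filter.mp hm).1).2)
    gcongr
  have hs2 : ∑ m ∈ (Sm N (YY N)).filter (fun m : ℕ => ¬ (m : ℝ) ≤ Real.exp (u ^ 3)), (Nat.primeCounting (N / m) : ℝ)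
      ≤ N * (Real.exp 16 * MP (YY N) * Real.exp (-u)) := by
    have h2 : ∀ m ∈ (Sm N (YY N)).filter (fun m : ℕ => ¬ (m : ℝ) ≤ Real.exp (u ^ 3)),
        (Nat.primeCounting (N / m) : ℝ) ≤ N * (m : ℝ)⁻¹ := by
      intro m _
      have h3 : (Nat.primeCounting (N / m) : ℝ) ≤ ((N / m : ℕ) : ℝ) := by exact_mod_cast pi_le_self (N / m)
      refine h3.trans (Nat.cast_div_le.trans (le_of_eq ?_))
      rw [div_eq_mul_inv]
    refine (Finset.sum_le_sum h2).trans ?_
    rw [← Finset.mul_sum]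
    have h3 := tail_smooth G ((Sm N (YY N)).filter (fun m : ℕ => ¬ (m : ℝ) ≤ Real.exp (u ^ 3)))
      (fun m hm => ⟨(mem_Sm.mp (Finset.mem_filter.mp hm).1).2, (not_le.mp (Finset.mem_filter.mp hm).2).le⟩)
    gcongr
  -- main term
  have hmain : (MP (YY N))⁻¹ * ((1 + ε) * (N / (u ^ 4 - u ^ 3)) * MP (YY N)) ≤ (1 + ε) * ((1 + ε) * (N / u ^ 4)) := by
    have h2 : (MP (YY N))⁻¹ * ((1 + ε) * (N / (u ^ 4 - u ^ 3)) * MP (YY N)) = (1 + ε) * (N / (u ^ 4 - u ^ 3)) := by
      field_simp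
    rw [h2]
    have h3 : (N : ℝ) / (u ^ 4 - u ^ 3) ≤ (1 + ε) * (N / u ^ 4) := by
      rw [div_le_iff₀ hdpos]
      have h4 : (1 + ε) * ((N : ℝ) / u ^ 4) * (u ^ 4 - u ^ 3) = N * ((1 + ε) * (1 - 1 / u)) := by
        field_simp
      rw [h4]
      have h5 : 1 ≤ (1 + ε) * (1 - 1 / u) := by
        rw [div_le_iff₀ hε0] at m3
        have h6 : (1 + ε) * (1 - 1 / u) = ((1 + ε) * (u - 1)) / u := by field_simp
        rw [h6, le_div_iff₀ hu0]
        linarith
      calc (N : ℝ) = N * 1 := (mul_one _).symm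
        _ ≤ N * ((1 + ε) * (1 - 1 / u)) := by gcongr
    gcongr
  have hq0 : 0 < (N : ℝ) / u ^ 4 := by positivity
  have hexpneg : Real.exp (-u) ≤ 1 / u ^ 80 := by
    rw [Real.exp_neg, inv_eq_one_div]
    exact one_div_le_one_div_of_le (by positivity) hexp
  have hterm2 : (MP (YY N))⁻¹ * (N * (Real.exp 16 * MP (YY N) * Real.exp (-u))) ≤ (ε / 2) * (N / u ^ 4) := by
    have h2 : (MP (YY N))⁻¹ * (N * (Real.exp 16 * MP (YY N) * Real.exp (-u))) = N * (Real.exp 16 * Real.exp (-u)) := by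
      field_simp
    rw [h2]
    have h3 : Real.exp 16 ≤ (ε / 2) * u := by
      rw [div_le_iff₀ hε0] at m1
      linarith
    calc (N : ℝ) * (Real.exp 16 * Real.exp (-u)) ≤ N * ((ε / 2) * u * (1 / u ^ 80)) := by gcongr
      _ = (ε / 2) * (N / u ^ 79) := by field_simp
      _ ≤ (ε / 2) * (N / u ^ 4) := by
          exact mul_le_mul_of_nonneg_left (div_le_div_of_nonneg_left hNr.le (by positivity) (hpow 4 79 (by norm_num))) (by positivity)
  have hY0 : (0 : ℝ) < YY N := by exact_mod_cast (by have := G.Y16; omega : 0 < YY N)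
  have hterm3 : (MP (YY N))⁻¹ * (2 * N / YY N) ≤ (ε / 2) * (N / u ^ 4) := by
    have h2 : (MP (YY N))⁻¹ ≤ 1 := by
      refine G.sig1.trans ?_
      rw [div_le_one (by positivity)]
      have := hpow 1 2 (by norm_num)
      rw [pow_one] at this
      linarith
    have h3 : u ^ 80 ≤ YY N := hexp.trans (Y_ge G)
    have h4 : 2 ≤ (ε / 2) * u := by
      rw [div_le_iff₀ hε0] at m2
      linarith
    calc (MP (YY N))⁻¹ * (2 * N / YY N) ≤ 1 * (2 * N / u ^ 80) := by gcongr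
      _ = 2 * (N / u ^ 80) := by ring
      _ ≤ ((ε / 2) * u) * (N / u ^ 80) := by gcongr
      _ = (ε / 2) * (N / u ^ 79) := by field_simp
      _ ≤ (ε / 2) * (N / u ^ 4) := by
          exact mul_le_mul_of_nonneg_left (div_le_div_of_nonneg_left hNr.le (by positivity) (hpow 4 79 (by norm_num))) (by positivity)
  rw [hL]
  have hfin : (MP (YY N))⁻¹ * ((Bset N (YY N) (KK N)).card : ℝ) ≤
      (MP (YY N))⁻¹ * ((1 + ε) * (N / (u ^ 4 - u ^ 3)) * MP (YY N)) +
      (MP (YY N))⁻¹ * (N * (Real.exp 16 * MP (YY N) * Real.exp (-u))) + (MP (YY N))⁻¹ * (2 * N / YY N) := by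
    rw [← mul_add, ← mul_add]
    gcongr
    linarith
  have hcoef : (1 + ε) * ((1 + ε) * ((N : ℝ) / u ^ 4)) + (ε / 2) * (N / u ^ 4) + (ε / 2) * (N / u ^ 4)
      ≤ (1 + η) * (N / u ^ 4) := by
    have h2 : (1 + ε) * ((1 + ε) * ((N : ℝ) / u ^ 4)) + (ε / 2) * (N / u ^ 4) + (ε / 2) * (N / u ^ 4)
      = (1 + 3 * ε + ε ^ 2) * (N / u ^ 4) := by ring
    rw [h2]
    apply mul_le_mul_of_nonneg_right _ hq0.le
    have h3 : η = 4 * ε := by rw [hε]; ring
    rw [h3]
    nlinarith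
  linarith

theorem asymA {η : ℝ} (hη : 0 < η) : ∀ᶠ N : ℕ in atTop,
    (MP (YY N))⁻¹ * (2 + ∑ l ∈ (YY N).primesBelow, 1 / ((l : ℝ) - 1)) * ((Aset N (YY N) (KK N)).card : ℝ)
      ≤ η * (N / Real.log N) := by
  obtain ⟨x0, hx3, hx⟩ := pi_div_le (ε := 1) one_pos
  have h1 : ∀ᶠ u : ℝ in atTop, u ^ 80 ≤ Real.exp u := by
    have h := Real.tendsto_pow_mul_exp_neg_atTop_nhds_zero 80
    have h2 := h.eventually (gt_mem_nhds (show (0 : ℝ) < 1 by norm_num))
    filter_upwards [h2] with u hu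
    rw [Real.exp_neg] at hu
    have := Real.exp_pos u
    have h3 : u ^ 80 * (Real.exp u)⁻¹ * Real.exp u < 1 * Real.exp u := by gcongr
    rw [mul_assoc, inv_mul_cancel₀ this.ne'] at h3
    linarith
  have h1' : ∀ᶠ u : ℝ in atTop, Real.log u ≤ Real.sqrt u := by
    have h := isLittleO_log_rpow_atTop (show (0 : ℝ) < 1 / 2 by norm_num)
    have h2 := h.def (show (0 : ℝ) < 1 by norm_num)
    filter_upwards [h2, eventually_ge_atTop 1] with u hu hu1
    rw [one_mul, Real.norm_of_nonneg (Real.log_nonneg hu1), Real.norm_of_nonneg (by positivity)] at hu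
    rw [Real.sqrt_eq_rpow]; exact hu
  filter_upwards [eventually_good 0, uu_tendsto.eventually h1, uu_tendsto.eventually h1',
    uu_tendsto.eventually (eventually_ge_atTop (3 * Real.exp 22)),
    uu_tendsto.eventually (eventually_ge_atTop (1480 / η)),
    uu_tendsto.eventually (eventually_ge_atTop (Real.log x0)), eventually_ge_atTop 1] with N G hexp hlu m1 m2 m4 hN1
  set u := uu N with hu
  have hu1000 := G.u
  rw [← hu] at hu1000
  have hu0 : 0 < u := by linarith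
  have hu1 : 1 ≤ u := by linarith
  have hL : Real.log N = u ^ 4 := (uu_pow N).symm
  have hNr : (0 : ℝ) < N := by exact_mod_cast hN1
  have hNe : (N : ℝ) = Real.exp (u ^ 4) := by rw [← hL, Real.exp_log hNr]
  have hMP := MP_pos (YY N)
  have hpow : ∀ a b : ℕ, a ≤ b → u ^ a ≤ u ^ b := fun a b h => pow_le_pow_right₀ hu1 h
  have hsq : Real.sqrt u * Real.sqrt u = u := Real.mul_self_sqrt hu0.le
  have hsq1 : 1 ≤ Real.sqrt u := Real.one_le_sqrt.mpr hu1
  have hsqu : Real.sqrt u ≤ u := by nlinarith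
  have hq0 : 0 < (N : ℝ) / u ^ 4 := by positivity
  have hA := card_Aset_le (N := N) (Y := YY N) (K := KK N) (by have := G.K5; omega)
  have hA' : ((Aset N (YY N) (KK N)).card : ℝ) ≤ (Sm N (YY N)).card + ∑ m ∈ Ico 1 (KK N), (Nat.primeCounting (N / m) : ℝ) := by
    exact_mod_cast hA
  have hK0 : (0 : ℝ) < KK N := by exact_mod_cast (by have := G.K5; omega : 0 < KK N)
  have hlogK : Real.log (KK N) ≤ 8 * Real.log u := by
    have := Real.log_le_log hK0 G.Kup
    rw [Real.log_pow] at this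
    push_cast at this; exact this
  have hlog0 : 0 ≤ Real.log u := Real.log_nonneg hu1
  have hu42 : 1000 * u ≤ u ^ 4 := by
    calc 1000 * u ≤ u * u := by gcongr
      _ = u ^ 2 := by ring
      _ ≤ u ^ 4 := hpow 2 4 (by norm_num)
  -- A1
  have hA1 : ∑ m ∈ Ico 1 (KK N), (Nat.primeCounting (N / m) : ℝ) ≤ 36 * (N / u ^ 4) * Real.sqrt u := by
    have h2 : ∀ m ∈ Ico 1 (KK N), (Nat.primeCounting (N / m) : ℝ) ≤ (1 + 1) * (N / (u ^ 4 - u ^ 4 / 2)) * (m : ℝ)⁻¹ := by
      intro m hm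
      rw [Finset.mem_Ico] at hm
      have hmr : (0 : ℝ) < m := by exact_mod_cast (by omega : 0 < m)
      have hlm : Real.log m ≤ u ^ 4 / 2 := by
        have h3 : Real.log m ≤ Real.log (KK N) := Real.log_le_log hmr (by exact_mod_cast hm.2.le)
        linarith
      have := hx N m (u ^ 4 / 2) (by omega) hlm (by rw [hL]; linarith) hN1
      rw [hL] at this
      exact this
    refine (Finset.sum_le_sum h2).trans ?_
    rw [← Finset.mul_sum]
    have h3 : ∑ m ∈ Ico 1 (KK N), (m : ℝ)⁻¹ ≤ 9 * Real.sqrt u := by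
      have h4 : ∑ m ∈ Ico 1 (KK N), (m : ℝ)⁻¹ ≤ 1 + Real.log (KK N) := by
        have h5 := harmonic_le_one_add_log (KK N)
        refine le_trans ?_ h5
        rw [harmonic_eq_sum_Icc]
        push_cast
        apply Finset.sum_le_sum_of_subset_of_nonneg
        · intro m hm
          rw [Finset.mem_Ico] at hm
          rw [Finset.mem_Icc]; omega
        · intro m _ _; positivity
      linarith
    calc (1 + 1) * ((N : ℝ) / (u ^ 4 - u ^ 4 / 2)) * ∑ m ∈ Ico 1 (KK N), (m : ℝ)⁻¹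
        ≤ (1 + 1) * ((N : ℝ) / (u ^ 4 - u ^ 4 / 2)) * (9 * Real.sqrt u) := by
          have : 0 < u ^ 4 - u ^ 4 / 2 := by have := pow_pos hu0 4; linarith
          gcongr
      _ = 36 * (N / u ^ 4) * Real.sqrt u := by
          have : u ^ 4 - u ^ 4 / 2 = u ^ 4 / 2 := by ring
          rw [this]; field_simp; norm_num
  -- A2
  have hexpneg : Real.exp (-u) ≤ 1 / u ^ 80 := by
    rw [Real.exp_neg, inv_eq_one_div]
    exact one_div_le_one_div_of_le (by positivity) hexp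
  have hMPle : MP (YY N) ≤ 2 * Real.exp 6 * u ^ 2 := by
    refine (MP_le (by have := G.Y16; omega)).trans ?_
    gcongr
    exact G.logY1
  have hA2 : ((Sm N (YY N)).card : ℝ) ≤ (N / u ^ 4) * Real.sqrt u := by
    have hsplit : (Sm N (YY N)).card = ((Sm N (YY N)).filter (fun m : ℕ => (m : ℝ) ≤ Real.exp (u ^ 3))).card
        + ((Sm N (YY N)).filter (fun m : ℕ => ¬ (m : ℝ) ≤ Real.exp (u ^ 3))).card := by
      rw [Finset.card_filter_add_card_filter_not]
    have hc1 : (((Sm N (YY N)).filter (fun m : ℕ => (m : ℝ) ≤ Real.exp (u ^ 3))).card : ℝ) ≤ N * Real.exp (-u) := by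
      have hsub : (Sm N (YY N)).filter (fun m : ℕ => (m : ℝ) ≤ Real.exp (u ^ 3)) ⊆ Ioc 0 ⌊Real.exp (u ^ 3)⌋₊ := by
        intro m hm
        rw [Finset.mem_filter] at hm
        rw [Finset.mem_Ioc]
        exact ⟨Nat.pos_of_ne_zero (Nat.ne_zero_of_mem_smoothNumbers (mem_Sm.mp hm.1).2), Nat.le_floor hm.2⟩
      have h2 := Finset.card_le_card hsub
      rw [Nat.card_Ioc, Nat.sub_zero] at h2
      have h3 : (((Sm N (YY N)).filter (fun m : ℕ => (m : ℝ) ≤ Real.exp (u ^ 3))).card : ℝ) ≤ (⌊Real.exp (u ^ 3)⌋₊ : ℝ) := by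
        exact_mod_cast h2
      refine h3.trans ((Nat.floor_le (Real.exp_pos _).le).trans ?_)
      rw [hNe, ← Real.exp_add]
      apply Real.exp_le_exp.mpr
      have h4 : u ^ 4 = u * u ^ 3 := by ring
      have h5 : u ≤ u ^ 3 := by
        calc u = u ^ 1 := (pow_one u).symm
          _ ≤ u ^ 3 := hpow 1 3 (by norm_num)
      have h6 : 2 * u ^ 3 ≤ u * u ^ 3 := by gcongr; linarith
      linarith
    have hc2 : (((Sm N (YY N)).filter (fun m : ℕ => ¬ (m : ℝ) ≤ Real.exp (u ^ 3))).card : ℝ)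
        ≤ N * (Real.exp 16 * MP (YY N) * Real.exp (-u)) := by
      have h3 := tail_smooth G ((Sm N (YY N)).filter (fun m : ℕ => ¬ (m : ℝ) ≤ Real.exp (u ^ 3)))
        (fun m hm => ⟨(mem_Sm.mp (Finset.mem_filter.mp hm).1).2, (not_le.mp (Finset.mem_filter.mp hm).2).le⟩)
      refine le_trans ?_ (mul_le_mul_of_nonneg_left h3 hNr.le)
      rw [Finset.mul_sum, ← nsmul_one, ← Finset.sum_const]
      apply Finset.sum_le_sum
      intro m hm
      rw [Finset.mem_filter] at hm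
      have h4 := (mem_Sm.mp hm.1).1
      have h5 : 0 < m := Nat.pos_of_ne_zero (Nat.ne_zero_of_mem_smoothNumbers (mem_Sm.mp hm.1).2)
      have h6 : (0 : ℝ) < m := by exact_mod_cast h5
      rw [← div_eq_mul_inv, le_div_iff₀ h6, one_mul]
      exact_mod_cast h4
    rw [hsplit]
    push_cast
    have hc3 : Real.exp 16 * MP (YY N) ≤ 2 * Real.exp 22 * u ^ 2 := by
      calc Real.exp 16 * MP (YY N) ≤ Real.exp 16 * (2 * Real.exp 6 * u ^ 2) := by gcongr
        _ = 2 * (Real.exp 16 * Real.exp 6) * u ^ 2 := by ring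
        _ = 2 * Real.exp 22 * u ^ 2 := by rw [← Real.exp_add]; norm_num
    have hc4 : 1 + Real.exp 16 * MP (YY N) ≤ 3 * Real.exp 22 * u ^ 2 := by
      have h2 : 1 ≤ Real.exp 22 := Real.one_le_exp (by norm_num)
      have h3 : (1 : ℝ) ≤ u ^ 2 := one_le_pow₀ hu1
      have h4 : 1 * 1 ≤ Real.exp 22 * u ^ 2 := by gcongr
      linarith
    calc _ ≤ N * Real.exp (-u) + N * (Real.exp 16 * MP (YY N) * Real.exp (-u)) := add_le_add hc1 hc2
      _ = N * Real.exp (-u) * (1 + Real.exp 16 * MP (YY N)) := by ring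
      _ ≤ N * (1 / u ^ 80) * (3 * Real.exp 22 * u ^ 2) := by gcongr
      _ ≤ N * (1 / u ^ 80) * (u * u ^ 2) := by gcongr
      _ = N / u ^ 77 := by field_simp
      _ ≤ N / u ^ 4 := div_le_div_of_nonneg_left hNr.le (by positivity) (hpow 4 77 (by norm_num))
      _ = (N / u ^ 4) * 1 := (mul_one _).symm
      _ ≤ (N / u ^ 4) * Real.sqrt u := by gcongr
  have hAtot : ((Aset N (YY N) (KK N)).card : ℝ) ≤ 37 * (N / u ^ 4) * Real.sqrt u := by linarith
  -- A3
  have hA3 : 2 + ∑ l ∈ (YY N).primesBelow, 1 / ((l : ℝ) - 1) ≤ 20 * Real.sqrt u := by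
    have h2 := sum_inv_sub_one_le (YY N)
    have h3 : Real.log (MP (YY N)) ≤ Real.log 2 + 6 + 2 * Real.log u := by
      have h4 := Real.log_le_log hMP hMPle
      rw [Real.log_mul (by positivity) (by positivity), Real.log_mul (by norm_num) (by positivity), Real.log_exp,
        Real.log_pow] at h4
      push_cast at h4; exact h4
    have h5 := Real.log_two_lt_d9
    linarith
  have hA3' : 0 ≤ 2 + ∑ l ∈ (YY N).primesBelow, 1 / ((l : ℝ) - 1) := by
    have : 0 ≤ ∑ l ∈ (YY N).primesBelow, 1 / ((l : ℝ) - 1) := by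
      apply Finset.sum_nonneg
      intro l hl
      have hl2 : (2 : ℝ) ≤ l := by exact_mod_cast (Nat.prime_of_mem_primesBelow hl).two_le
      apply div_nonneg zero_le_one
      linarith
    linarith
  have hs := G.sig1
  rw [← hu] at hs
  rw [hL]
  calc (MP (YY N))⁻¹ * (2 + ∑ l ∈ (YY N).primesBelow, 1 / ((l : ℝ) - 1)) * ((Aset N (YY N) (KK N)).card : ℝ)
      ≤ (2 / u ^ 2) * (20 * Real.sqrt u) * (37 * (N / u ^ 4) * Real.sqrt u) := by gcongr
    _ = 1480 * (N / u ^ 4) * (Real.sqrt u * Real.sqrt u) / u ^ 2 := by ring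
    _ = (1480 / u) * (N / u ^ 4) := by rw [hsq]; field_simp
    _ ≤ η * (N / u ^ 4) := by
        gcongr
        rw [div_le_iff₀ hu0]
        rw [div_le_iff₀ hη] at m2
        linarith

end Pool.Agent.H93.DC
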