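import Mathlib

/-! A Brun-Titchmarsh substitute for prime moduli. -/

namespace Pool.Agent.H93.DC

open Finset Nat

/-- the part of `n!` prime to `l` divides the product over an arithmetic progression mod `l`. -/
lemma ordCompl_dvd_prod {l : ℕ} (hl : l.Prime) (b n : ℕ) :
    ordCompl[l] (n !) ∣ ∏ k ∈ range n, (b + l * (k + 1)) := by
  set M := ordCompl[l] (n !) with hM
  have hcop : Nat.Coprime l M := Nat.coprime_ordCompl hl (Nat.factorial_ne_zero n)
  have hM0 : M ≠ 0 := (Nat.ordCompl_pos l (Nat.factorial_ne_zero n)).ne'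
  haveI : NeZero M := ⟨hM0⟩
  rw [← ZMod.natCast_eq_zero_iff]
  push_cast
  -- inverse of `l`
  have hu : IsUnit (l : ZMod M) := (ZMod.isUnit_iff_coprime l M).mpr hcop
  obtain ⟨u, hu⟩ := hu
  set t : ℕ := ((↑u⁻¹ : ZMod M) * (b : ZMod M)).val with ht
  have htc : (t : ZMod M) = (↑u⁻¹ : ZMod M) * (b : ZMod M) := by
    rw [ht, ZMod.natCast_zmod_val]
  have hterm : ∀ k ∈ range n, ((b : ZMod M) + l * (k + 1)) = (l : ZMod M) * ((t + 1 + k : ℕ) : ZMod M) := by
    intro k _
    push_cast
    rw [htc, ← hu]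
    have : (u : ZMod M) * (↑u⁻¹ * (b : ZMod M) + 1 + k) = (u * ↑u⁻¹) * b + u * (k + 1) := by ring
    rw [this]
    simp
  rw [Finset.prod_congr rfl hterm, Finset.prod_mul_distrib]
  have h2 : ∏ k ∈ range n, ((t + 1 + k : ℕ) : ZMod M) = (((t + 1).ascFactorial n : ℕ) : ZMod M) := by
    rw [Nat.ascFactorial_eq_prod_range]; push_cast; rfl
  have h3 : (((t + 1).ascFactorial n : ℕ) : ZMod M) = 0 := by
    rw [ZMod.natCast_eq_zero_iff]
    exact (Nat.ordCompl_dvd _ _).trans (Nat.factorial_dvd_ascFactorial (t + 1) n)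
  rw [h2, h3, mul_zero]

lemma prod_primes_bound {l : ℕ} (hl : l.Prime) {b n : ℕ} (hb : b < l) (A : Finset ℕ)
    (hA : ∀ p ∈ A, p.Prime ∧ n < p ∧ p % l = b ∧ l ≤ p ∧ p / l ≤ n) :
    ∏ p ∈ A, p ≤ l ^ (2 * n) * (n + 1) := by
  set M := ordCompl[l] (n !) with hM
  set v := (n !).factorization l with hv
  have hfac0 : n ! ≠ 0 := Nat.factorial_ne_zero n
  have hMpos : 0 < M := Nat.ordCompl_pos l hfac0
  have hfacM : l ^ v * M = n ! := Nat.ordProj_mul_ordCompl_eq_self (n !) l
  have hvn : v ≤ n := (Nat.factorization_factorial_le_div_pred hl n).trans (Nat.div_le_self _ _)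
  set P := ∏ k ∈ range n, (b + l * (k + 1)) with hP
  have hPpos : 0 < P := Finset.prod_pos (fun k _ => by have := hl.pos; positivity)
  have h1 : M ∣ P := ordCompl_dvd_prod hl b n
  have h2 : ∏ p ∈ A, p ∣ P := by
    apply Finset.prod_primes_dvd
    · intro p hp; exact (hA p hp).1.prime
    · intro p hp
      obtain ⟨_, _, h5, h6, h7⟩ := hA p hp
      have hpos : 1 ≤ p / l := (Nat.one_le_div_iff hl.pos).mpr h6
      have hp' : p = b + l * ((p / l - 1) + 1) := by
        have := Nat.div_add_mod p l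
        rw [h5] at this
        have h8 : p / l - 1 + 1 = p / l := by omega
        rw [h8]; omega
      have hmem : p / l - 1 ∈ range n := by rw [Finset.mem_range]; omega
      have := Finset.dvd_prod_of_mem (fun k => b + l * (k + 1)) hmem
      rw [hP]
      calc p = b + l * ((p / l - 1) + 1) := hp'
        _ ∣ _ := this
  have h3 : Nat.Coprime M (∏ p ∈ A, p) := by
    apply Nat.Coprime.prod_right
    intro p hp
    obtain ⟨h4, h5, _⟩ := hA p hp
    rw [Nat.coprime_comm, Nat.Prime.coprime_iff_not_dvd h4]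
    intro h6
    have h7 : p ∣ n ! := h6.trans (Nat.ordCompl_dvd _ _)
    rw [Nat.Prime.dvd_factorial h4] at h7
    omega
  have h4 : M * ∏ p ∈ A, p ≤ P := Nat.le_of_dvd hPpos (h3.mul_dvd_of_dvd_of_dvd h1 h2)
  have h5 : P ≤ l ^ n * (n + 1)! := by
    rw [hP]
    calc ∏ k ∈ range n, (b + l * (k + 1)) ≤ ∏ k ∈ range n, (l * (k + 2)) := by
          apply Finset.prod_le_prod' 
          intro k _
          nlinarith
      _ = l ^ n * (n + 1)! := by
          rw [Finset.prod_mul_distrib, Finset.prod_const, Finset.card_range]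
          congr 1
          have : ∀ n : ℕ, ∏ k ∈ range n, (k + 2) = (n + 1)! := by
            intro n
            induction n with
            | zero => simp
            | succ n ih => rw [Finset.prod_range_succ, ih, Nat.factorial_succ (n + 1)]; ring
          exact this n
  have h6 : M * ∏ p ∈ A, p ≤ M * (l ^ (n + v) * (n + 1)) := by
    calc M * ∏ p ∈ A, p ≤ P := h4
      _ ≤ l ^ n * (n + 1)! := h5
      _ = l ^ n * ((n + 1) * (l ^ v * M)) := by rw [Nat.factorial_succ, hfacM]
      _ = M * (l ^ (n + v) * (n + 1)) := by rw [pow_add]; ring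
  have h7 := Nat.le_of_mul_le_mul_left h6 hMpos
  refine h7.trans ?_
  apply Nat.mul_le_mul_right
  exact Nat.pow_le_pow_right hl.pos (by omega)

/-- primes in `(N/5, N/4]` -/
def PP (N : ℕ) : Finset ℕ := (range (N + 1)).filter (fun p => p.Prime ∧ N < 5 * p ∧ 4 * p ≤ N)

lemma mem_PP {N p : ℕ} : p ∈ PP N ↔ p.Prime ∧ N < 5 * p ∧ 4 * p ≤ N := by
  unfold PP
  rw [Finset.mem_filter, Finset.mem_range]
  constructor
  · exact fun h => h.2
  · intro h; exact ⟨by omega, h⟩

/-- Brun-Titchmarsh substitute -/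
theorem bt {N l b : ℕ} (hN : 625 ≤ N) (hl : l.Prime) (hlN : (l : ℝ) * Real.log N ≤ N) (hl5 : 5 * l ≤ N) :
    (((PP N).filter (fun p => p % l = b)).card : ℝ) ≤ (2 + Real.log l) * (N / (l * Real.log N)) := by
  rcases Nat.lt_or_ge b l with hb | hb
  swap
  · have : (PP N).filter (fun p => p % l = b) = ∅ := by
      rw [Finset.filter_eq_empty_iff]
      intro p _ h
      have := Nat.mod_lt p hl.pos
      omega
    rw [this]
    simp only [Finset.card_empty, Nat.cast_zero]
    have : 0 ≤ Real.log l := Real.log_natCast_nonneg l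
    have : 0 ≤ Real.log N := Real.log_natCast_nonneg N
    positivity
  set A := (PP N).filter (fun p => p % l = b) with hA
  set n := N / (4 * l) with hn
  have hl0 : 0 < l := hl.pos
  have hN0 : (0 : ℝ) < N := by exact_mod_cast (by omega : 0 < N)
  have hlogN : 0 < Real.log N := Real.log_pos (by exact_mod_cast (by omega : 1 < N))
  have hprod := prod_primes_bound hl hb (n := n) A (by
    intro p hp
    rw [hA, Finset.mem_filter, mem_PP] at hp
    obtain ⟨⟨h1, h2, h3⟩, h4⟩ := hp
    refine ⟨h1, ?_, h4, by omega, ?_⟩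
    · have : n ≤ N / 8 := Nat.div_le_div_left (by have := hl.two_le; omega) (by norm_num)
      omega
    · rw [hn, ← Nat.div_div_eq_div_mul]
      exact Nat.div_le_div_right (by omega))
  have hge : ∀ p ∈ A, Real.log N / 2 ≤ Real.log p := by
    intro p hp
    rw [hA, Finset.mem_filter, mem_PP] at hp
    obtain ⟨⟨h1, h2, h3⟩, h4⟩ := hp
    have h5 : N ≤ p ^ 2 := by nlinarith
    have h6 : Real.log N ≤ Real.log ((p : ℝ) ^ 2) := by
      apply Real.log_le_log hN0
      exact_mod_cast h5
    rw [Real.log_pow] at h6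
    push_cast at h6
    linarith
  have h1 : A.card * (Real.log N / 2) ≤ Real.log (∏ p ∈ A, p : ℕ) := by
    push_cast
    rw [Real.log_prod]
    · calc A.card * (Real.log N / 2) = ∑ p ∈ A, Real.log N / 2 := by
            rw [Finset.sum_const, nsmul_eq_mul]
        _ ≤ ∑ p ∈ A, Real.log p := Finset.sum_le_sum hge
    · intro p hp
      rw [hA, Finset.mem_filter, mem_PP] at hp
      exact_mod_cast hp.1.1.ne_zero
  have h2 : Real.log (∏ p ∈ A, p : ℕ) ≤ 2 * n * Real.log l + Real.log (n + 1) := by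
    have hpos : 0 < ∏ p ∈ A, p := Finset.prod_pos (fun p hp => by
      rw [hA, Finset.mem_filter, mem_PP] at hp
      exact hp.1.1.pos)
    have h3 := Real.log_le_log (by exact_mod_cast hpos) (show ((∏ p ∈ A, p : ℕ) : ℝ) ≤ ((l ^ (2 * n) * (n + 1) : ℕ) : ℝ) by exact_mod_cast hprod)
    have hl0' : (0 : ℝ) < l := by exact_mod_cast hl0
    refine h3.trans (le_of_eq ?_)
    push_cast
    rw [Real.log_mul (by positivity) (by positivity), Real.log_pow]
    push_cast; ring
  have h3 : Real.log (n + 1) ≤ Real.log N := by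
    apply Real.log_le_log (by positivity)
    have : n + 1 ≤ N := by
      have : n ≤ N / 8 := Nat.div_le_div_left (by have := hl.two_le; omega) (by norm_num)
      omega
    exact_mod_cast this
  have hl0' : (0 : ℝ) < l := by exact_mod_cast hl0
  have hlogl : 0 ≤ Real.log l := Real.log_natCast_nonneg l
  have h4 : (n : ℝ) ≤ N / (4 * l) := by
    rw [hn]
    have := @Nat.cast_div_le ℝ _ _ _ N (4 * l)
    push_cast at this
    exact this
  have h5 : (A.card : ℝ) * (Real.log N / 2) ≤ 2 * (N / (4 * l)) * Real.log l + Real.log N := by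
    have : 2 * (n : ℝ) * Real.log l ≤ 2 * (N / (4 * l)) * Real.log l := by gcongr
    linarith
  have h6 : (A.card : ℝ) ≤ (2 * (N / (4 * l)) * Real.log l + Real.log N) / (Real.log N / 2) := by
    rw [le_div_iff₀ (by positivity)]; exact h5
  refine h6.trans ?_
  have h7 : (2 * ((N : ℝ) / (4 * l)) * Real.log l + Real.log N) / (Real.log N / 2)
      = Real.log l * (N / (l * Real.log N)) + 2 := by
    field_simp; ring
  have h8 : (1 : ℝ) ≤ N / (l * Real.log N) := by
    rw [le_div_iff₀ (by positivity)]; linarith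
  rw [h7]
  nlinarith

end Pool.Agent.H93.DC
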