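import Pool.Agent.H93.DC.Prob

/-! More on random residue classes: exactly one hit; the local weight. -/

namespace Pool.Agent.H93.DC

open Finset Nat

/-- `x` is hit exactly once -/
def ex1 {Y : ℕ} (a : ↥(Y.primesBelow) → ℤ) (x : ℤ) : Prop :=
  ∃ i : ↥(Y.primesBelow), x % (i : ℕ) = a i ∧ ∀ j, j ≠ i → x % (j : ℕ) ≠ a j

instance {Y : ℕ} (a : ↥(Y.primesBelow) → ℤ) (x : ℤ) : Decidable (ex1 a x) := by
  unfold ex1; infer_instance

lemma count_ex1 (Y : ℕ) (x : ℤ) :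
    (((Om Y).filter (fun a => ex1 a x)).card : ℝ)
      ≤ (Om Y).card * ((MP Y)⁻¹ * ∑ l ∈ Y.primesBelow, 1 / ((l : ℝ) - 1)) := by
  classical
  have hsub : (Om Y).filter (fun a => ex1 a x) ⊆
      Finset.univ.biUnion (fun i : ↥(Y.primesBelow) => (Om Y).filter
        (fun a => x % (i : ℕ) = a i ∧ ∀ j, j ≠ i → x % (j : ℕ) ≠ a j)) := by
    intro a ha
    rw [Finset.mem_filter] at ha
    obtain ⟨h1, i, h2⟩ := ha
    rw [Finset.mem_biUnion]
    exact ⟨i, Finset.mem_univ _, by rw [Finset.mem_filter]; exact ⟨h1, h2⟩⟩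
  have h1 : (((Om Y).filter (fun a => ex1 a x)).card : ℝ) ≤
      ∑ i : ↥(Y.primesBelow), (((Om Y).filter
        (fun a => x % (i : ℕ) = a i ∧ ∀ j, j ≠ i → x % (j : ℕ) ≠ a j)).card : ℝ) := by
    have := (Finset.card_le_card hsub).trans Finset.card_biUnion_le
    exact_mod_cast this
  refine h1.trans ?_
  rw [Finset.mul_sum, Finset.mul_sum, ← Finset.sum_coe_sort (Y.primesBelow)]
  apply Finset.sum_le_sum
  intro i _
  set t : ↥(Y.primesBelow) → Finset ℤ := fun j =>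
    if j = i then {x % ((j : ℕ) : ℤ)} else (Finset.Ico (0 : ℤ) j) \ {x % ((j : ℕ) : ℤ)} with ht
  have hmem : ∀ j : ↥(Y.primesBelow), x % ((j : ℕ) : ℤ) ∈ Finset.Ico (0 : ℤ) j := by
    intro j
    have hj0 := (Nat.prime_of_mem_primesBelow j.2).pos
    rw [Finset.mem_Ico]
    exact ⟨Int.emod_nonneg _ (by exact_mod_cast hj0.ne'), Int.emod_lt_of_pos _ (by exact_mod_cast hj0)⟩
  have hts : ∀ j, t j ⊆ Finset.Ico (0 : ℤ) j := by
    intro j
    rw [ht]; simp only
    split_ifs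
    · rw [Finset.singleton_subset_iff]; exact hmem j
    · exact Finset.sdiff_subset
  have heq : (Om Y).filter (fun a => x % (i : ℕ) = a i ∧ ∀ j, j ≠ i → x % (j : ℕ) ≠ a j)
      = (Om Y).filter (fun a => ∀ j, a j ∈ t j) := by
    apply Finset.filter_congr
    intro a ha
    unfold Om at ha
    rw [Fintype.mem_piFinset] at ha
    constructor
    · rintro ⟨h2, h3⟩ j
      rw [ht]; simp only
      split_ifs with hj
      · subst hj; rw [Finset.mem_singleton]; exact h2.symm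
      · rw [Finset.mem_sdiff, Finset.mem_singleton]
        exact ⟨ha j, fun h4 => h3 j hj h4.symm⟩
    · intro h2
      refine ⟨?_, ?_⟩
      · have := h2 i
        rw [ht] at this; simp only [if_true, Finset.mem_singleton] at this
        exact this.symm
      · intro j hj h3
        have := h2 j
        rw [ht] at this; simp only at this
        rw [if_neg hj, Finset.mem_sdiff, Finset.mem_singleton] at this
        exact this.2 h3.symm
  rw [heq, count_prod t hts]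
  apply le_of_eq
  congr 1
  have hcard : ∀ j : ↥(Y.primesBelow), ((t j).card : ℝ) / (j : ℕ) =
      (1 - ((j : ℕ) : ℝ)⁻¹) * (if j = i then 1 / (((i : ℕ) : ℝ) - 1) else 1) := by
    intro j
    have hj2 := (Nat.prime_of_mem_primesBelow j.2).two_le
    have hj2' : (2 : ℝ) ≤ ((j : ℕ) : ℝ) := by exact_mod_cast hj2
    rw [ht]; simp only
    split_ifs with hj
    · subst hj
      rw [Finset.card_singleton]
      have : ((j : ℕ) : ℝ) - 1 ≠ 0 := by linarith
      push_cast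
      field_simp
    · rw [Finset.card_sdiff_of_subset (by rw [Finset.singleton_subset_iff]; exact hmem j), Finset.card_singleton]
      have h4 : (Finset.Ico (0 : ℤ) ((j : ℕ) : ℤ)).card = (j : ℕ) := by simp
      rw [h4, Nat.cast_sub (by omega)]
      field_simp
      push_cast; ring
  rw [Finset.prod_congr rfl (fun j _ => hcard j), Finset.prod_mul_distrib, Finset.prod_ite_eq' Finset.univ i]
  simp only [Finset.mem_univ, if_true]
  congr 1
  unfold MP
  rw [← Finset.prod_inv_distrib, ← Finset.prod_coe_sort (Y.primesBelow)]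
  refine Finset.prod_congr rfl fun l _ => ?_
  rw [inv_inv]

lemma sum_inv_sub_one_le (Y : ℕ) : ∑ l ∈ Y.primesBelow, 1 / ((l : ℝ) - 1) ≤ 2 * Real.log (MP Y) := by
  refine le_trans ?_ (mul_le_mul_of_nonneg_left (sum_inv_primes_le Y) (by norm_num))
  rw [Finset.mul_sum]
  apply Finset.sum_le_sum
  intro l hl
  have hl2 : (2 : ℝ) ≤ l := by exact_mod_cast (Nat.prime_of_mem_primesBelow hl).two_le
  rw [div_le_iff₀ (by linarith)]
  have : (l : ℝ)⁻¹ * l = 1 := inv_mul_cancel₀ (by linarith)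
  have h2 : 2 * (l : ℝ)⁻¹ * (l - 1) = 2 - 2 * (l : ℝ)⁻¹ := by
    have : 2 * (l : ℝ)⁻¹ * (l - 1) = 2 * ((l : ℝ)⁻¹ * l) - 2 * (l : ℝ)⁻¹ := by ring
    rw [this, inv_mul_cancel₀ (by linarith)]; ring
  rw [h2]
  have : (l : ℝ)⁻¹ ≤ 2⁻¹ := inv_anti₀ (by norm_num) hl2
  linarith

/-- coefficients of the telescoping expansion -/
noncomputable def cc (l : ℕ) : ℝ := (((1 - (l : ℝ)⁻¹)⁻¹) ^ 6 - 1) * (MP l) ^ 6

lemma cc_nonneg {l : ℕ} (hl : l.Prime) : 0 ≤ cc l := by
  unfold cc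
  have h1 : 1 ≤ ((1 - (l : ℝ)⁻¹)⁻¹) ^ 6 := one_le_pow₀ (one_le_inv hl)
  have h2 := MP_pos l
  have : 0 ≤ ((1 - (l : ℝ)⁻¹)⁻¹) ^ 6 - 1 := by linarith
  positivity

lemma telescope (h : ℤ) (n : ℕ) :
    ∏ l ∈ n.primesBelow.filter (fun l : ℕ => (l : ℤ) ∣ h), ((1 - (l : ℝ)⁻¹)⁻¹) ^ 6
      ≤ 1 + ∑ l ∈ n.primesBelow.filter (fun l : ℕ => (l : ℤ) ∣ h), cc l := by
  induction n with
  | zero => simp
  | succ n ih =>
    rw [Nat.primesBelow_succ]
    split_ifs with hp
    · rw [Finset.filter_insert]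
      split_ifs with hd
      · have hnm : n ∉ n.primesBelow.filter (fun l : ℕ => (l : ℤ) ∣ h) := by
          simp [Nat.mem_primesBelow]
        rw [Finset.prod_insert hnm, Finset.sum_insert hnm]
        have h1 : ∏ l ∈ n.primesBelow.filter (fun l : ℕ => (l : ℤ) ∣ h), ((1 - (l : ℝ)⁻¹)⁻¹) ^ 6 ≤ (MP n) ^ 6 := by
          unfold MP
          rw [← Finset.prod_pow, Finset.prod_filter]
          apply Finset.prod_le_prod
          · intro i _; split_ifs <;> positivity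
          · intro i hi
            split_ifs
            · exact le_refl _
            · exact one_le_pow₀ (one_le_inv (Nat.prime_of_mem_primesBelow hi))
        have h2 : 1 ≤ ((1 - (n : ℝ)⁻¹)⁻¹) ^ 6 := one_le_pow₀ (one_le_inv hp)
        set P := ∏ l ∈ n.primesBelow.filter (fun l : ℕ => (l : ℤ) ∣ h), ((1 - (l : ℝ)⁻¹)⁻¹) ^ 6
        have h3 : (((1 - (n : ℝ)⁻¹)⁻¹) ^ 6 - 1) * P ≤ cc n := by
          unfold cc
          apply mul_le_mul_of_nonneg_left h1
          linarith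
        linarith
      · exact ih
    · exact ih

/-- bound for the weight by primes below `K`. -/
lemma W_le {Y K : ℕ} (hK : 1 ≤ K) (hKY : K ≤ Y) {h : ℤ} (hh : h ≠ 0) (hlog : Real.log |(h : ℝ)| ≤ K) :
    W Y h ≤ Real.exp 24 * (1 + ∑ l ∈ K.primesBelow.filter (fun l : ℕ => (l : ℤ) ∣ h), cc l) := by
  classical
  set F := Y.primesBelow.filter (fun l : ℕ => (l : ℤ) ∣ h ∧ K ≤ l) with hF
  have hsplit : Y.primesBelow.filter (fun l : ℕ => (l : ℤ) ∣ h)
      = (K.primesBelow.filter (fun l : ℕ => (l : ℤ) ∣ h)) ∪ F := by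
    ext l
    simp only [hF, Finset.mem_union, Finset.mem_filter, Nat.mem_primesBelow]
    constructor
    · rintro ⟨⟨h1, h2⟩, h3⟩
      rcases Nat.lt_or_ge l K with h4 | h4
      · exact Or.inl ⟨⟨h4, h2⟩, h3⟩
      · exact Or.inr ⟨⟨h1, h2⟩, h3, h4⟩
    · rintro (⟨⟨h1, h2⟩, h3⟩ | ⟨⟨h1, h2⟩, h3, h4⟩)
      · exact ⟨⟨by omega, h2⟩, h3⟩
      · exact ⟨⟨h1, h2⟩, h3⟩
  have hdisj : Disjoint (K.primesBelow.filter (fun l : ℕ => (l : ℤ) ∣ h)) F := by
    rw [Finset.disjoint_left]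
    intro l hl1 hl2
    simp only [hF, Finset.mem_filter, Nat.mem_primesBelow] at hl1 hl2
    omega
  unfold W
  rw [hsplit, Finset.prod_union hdisj, mul_comm]
  have hcardF : (F.card : ℝ) ≤ 2 * K := by
    have h1 : ∏ l ∈ F, l ∣ h.natAbs := by
      apply Finset.prod_primes_dvd
      · intro l hl
        simp only [hF, Finset.mem_filter, Nat.mem_primesBelow] at hl
        exact hl.1.2.prime
      · intro l hl
        simp only [hF, Finset.mem_filter] at hl
        exact Int.natCast_dvd.mp hl.2.1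
    have h2 : 2 ^ F.card ≤ h.natAbs := by
      calc 2 ^ F.card = ∏ l ∈ F, 2 := by rw [Finset.prod_const]
        _ ≤ ∏ l ∈ F, l := by
            apply Finset.prod_le_prod'
            intro l hl
            simp only [hF, Finset.mem_filter, Nat.mem_primesBelow] at hl
            exact hl.1.2.two_le
        _ ≤ h.natAbs := Nat.le_of_dvd (Int.natAbs_pos.mpr hh) h1
    have h3 : (2 : ℝ) ^ F.card ≤ |(h : ℝ)| := by
      have : ((h.natAbs : ℕ) : ℝ) = |(h : ℝ)| := by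
        rw [Nat.cast_natAbs]; push_cast; rfl
      rw [← this]; exact_mod_cast h2
    have h4 := Real.log_le_log (by positivity) h3
    rw [Real.log_pow] at h4
    have h5 : (1 / 2 : ℝ) ≤ Real.log 2 := by
      have := Real.log_two_gt_d9; linarith
    have h6 : (0 : ℝ) ≤ F.card := by positivity
    nlinarith
  have hKr : (1 : ℝ) ≤ K := by exact_mod_cast hK
  have hprodF : ∏ l ∈ F, ((1 - (l : ℝ)⁻¹)⁻¹) ^ 6 ≤ Real.exp 24 := by
    have h1 : ∀ l ∈ F, ((1 - (l : ℝ)⁻¹)⁻¹) ^ 6 ≤ Real.exp (12 / K) := by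
      intro l hl
      simp only [hF, Finset.mem_filter, Nat.mem_primesBelow] at hl
      have hl2 : (2 : ℝ) ≤ l := by exact_mod_cast hl.1.2.two_le
      have hlK : (K : ℝ) ≤ l := by exact_mod_cast hl.2.2
      have h2 : (1 - (l : ℝ)⁻¹)⁻¹ ≤ Real.exp (2 / K) := by
        have h3 : (1 - (l : ℝ)⁻¹)⁻¹ = 1 + 1 / (l - 1) := by
          have : (l : ℝ) - 1 ≠ 0 := by linarith
          have h4 : 1 - (l : ℝ)⁻¹ = (l - 1) / l := by field_simp
          rw [h4, inv_div]; field_simp; ring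
        have h5 : 1 / ((l : ℝ) - 1) ≤ 2 / K := by
          rw [div_le_div_iff₀ (by linarith) (by linarith)]
          linarith
        rw [h3]
        have := Real.add_one_le_exp (2 / (K : ℝ))
        linarith
      calc ((1 - (l : ℝ)⁻¹)⁻¹) ^ 6 ≤ (Real.exp (2 / K)) ^ 6 := by
            apply pow_le_pow_left₀ _ h2
            exact inv_nonneg.mpr (one_sub_inv_pos hl.1.2).le
        _ = Real.exp (12 / K) := by
            rw [← Real.exp_nat_mul]; congr 1; push_cast; ring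
    calc ∏ l ∈ F, ((1 - (l : ℝ)⁻¹)⁻¹) ^ 6 ≤ ∏ l ∈ F, Real.exp (12 / K) := by
          apply Finset.prod_le_prod _ h1
          intro l _; positivity
      _ = Real.exp (F.card * (12 / K)) := by
          rw [Finset.prod_const, ← Real.exp_nat_mul]
      _ ≤ Real.exp 24 := by
          apply Real.exp_le_exp.mpr
          calc (F.card : ℝ) * (12 / K) ≤ (2 * K) * (12 / K) := by gcongr
            _ = 24 := by field_simp; norm_num
  have htel := telescope h K
  apply mul_le_mul hprodF htel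
  · apply Finset.prod_nonneg; intro l _; positivity
  · positivity

/-- the constant in the bound for `cc`. -/
noncomputable def C1 : ℝ := 126 * (26 * Real.exp 6) ^ 6

lemma C1_pos : 0 < C1 := by unfold C1; positivity

lemma log_le_rpow {x : ℝ} (hx : 1 ≤ x) {ε : ℝ} (hε : 0 < ε) : Real.log x ≤ x ^ ε / ε :=
  Real.log_le_rpow_div (by linarith) hε

lemma cc_le {l : ℕ} (hl : l.Prime) : cc l ≤ C1 * (l : ℝ) ^ (-(1 / 2) : ℝ) := by
  have hl2 : (2 : ℝ) ≤ l := by exact_mod_cast hl.two_le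
  have hl0 : (0 : ℝ) < l := by linarith
  have hMP : MP l ≤ 26 * Real.exp 6 * (l : ℝ) ^ (1 / 12 : ℝ) := by
    have h1 : 1 ≤ (l : ℝ) ^ (1 / 12 : ℝ) := Real.one_le_rpow (by linarith) (by norm_num)
    have h2 : Real.log l ≤ 12 * (l : ℝ) ^ (1 / 12 : ℝ) := by
      have := log_le_rpow (x := l) (by linarith) (show (0:ℝ) < 1 / 12 by norm_num)
      linarith
    have h6 : 1 ≤ Real.exp 6 := Real.one_le_exp (by norm_num)
    rcases Nat.lt_or_ge l 3 with h3 | h3
    · have hl2' : l = 2 := by have := hl.two_le; omega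
      have : MP l = 1 := by
        rw [hl2']; unfold MP
        have : (2 : ℕ).primesBelow = ∅ := by decide
        rw [this]; simp
      rw [this]
      nlinarith
    · refine (MP_le h3).trans ?_
      nlinarith [Real.exp_pos 6]
  have ht : ((1 - (l : ℝ)⁻¹)⁻¹) ^ 6 - 1 ≤ 126 * (l : ℝ)⁻¹ := by
    set t := (1 - (l : ℝ)⁻¹)⁻¹ with ht
    have h3 : t = 1 + 1 / (l - 1) := by
      have : (l : ℝ) - 1 ≠ 0 := by linarith
      have h4 : 1 - (l : ℝ)⁻¹ = (l - 1) / l := by field_simp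
      rw [ht, h4, inv_div]; field_simp; ring
    have h5 : 1 / ((l : ℝ) - 1) ≤ 2 * (l : ℝ)⁻¹ := by
      rw [← div_eq_mul_inv, div_le_div_iff₀ (by linarith) hl0]
      linarith
    have h6 : 1 / ((l : ℝ) - 1) ≤ 1 := by
      rw [div_le_one (by linarith)]; linarith
    have h7 : 1 ≤ t := by
      have : 0 ≤ 1 / ((l : ℝ) - 1) := by
        apply div_nonneg <;> linarith
      linarith
    have h8 : t ≤ 2 := by linarith
    have h9 : t ^ 6 - 1 = (t - 1) * (t ^ 5 + t ^ 4 + t ^ 3 + t ^ 2 + t + 1) := by ring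
    rw [h9]
    have h10 : t ^ 5 + t ^ 4 + t ^ 3 + t ^ 2 + t + 1 ≤ 63 := by
      have a2 : t ^ 2 ≤ 4 := by nlinarith
      have a3 : t ^ 3 ≤ 8 := by nlinarith [sq_nonneg t]
      have a4 : t ^ 4 ≤ 16 := by nlinarith [sq_nonneg t]
      have a5 : t ^ 5 ≤ 32 := by nlinarith [pow_nonneg (show 0 ≤ t by linarith) 4]
      linarith
    have h11 : t - 1 ≤ 2 * (l : ℝ)⁻¹ := by linarith
    calc (t - 1) * (t ^ 5 + t ^ 4 + t ^ 3 + t ^ 2 + t + 1) ≤ (2 * (l : ℝ)⁻¹) * 63 := by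
          apply mul_le_mul h11 h10 (by positivity) (by positivity)
      _ = _ := by ring
  unfold cc
  have hMP0 := MP_pos l
  have ht0 : 0 ≤ ((1 - (l : ℝ)⁻¹)⁻¹) ^ 6 - 1 := by
    have : 1 ≤ ((1 - (l : ℝ)⁻¹)⁻¹) ^ 6 := one_le_pow₀ (one_le_inv hl)
    linarith
  calc (((1 - (l : ℝ)⁻¹)⁻¹) ^ 6 - 1) * (MP l) ^ 6
      ≤ (126 * (l : ℝ)⁻¹) * (26 * Real.exp 6 * (l : ℝ) ^ (1 / 12 : ℝ)) ^ 6 := by gcongr
    _ = C1 * ((l : ℝ)⁻¹ * ((l : ℝ) ^ (1 / 12 : ℝ)) ^ 6) := by unfold C1; ring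
    _ = C1 * (l : ℝ) ^ (-(1 / 2) : ℝ) := by
        congr 1
        rw [← Real.rpow_natCast ((l : ℝ) ^ (1 / 12 : ℝ)) 6, ← Real.rpow_mul hl0.le, ← Real.rpow_neg_one,
          ← Real.rpow_add hl0]
        congr 1; norm_num

lemma cc_le' {l : ℕ} (hl : l.Prime) : cc l ≤ C1 := by
  refine (cc_le hl).trans ?_
  have hl1 : (1 : ℝ) ≤ l := by exact_mod_cast hl.one_lt.le
  have : (l : ℝ) ^ (-(1 / 2) : ℝ) ≤ 1 := Real.rpow_le_one_of_one_le_of_nonpos hl1 (by norm_num)
  have := C1_pos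
  nlinarith

/-- a convergent sum -/
lemma sum_cc : ∃ C : ℝ, 0 < C ∧ ∀ K : ℕ, ∑ l ∈ K.primesBelow, cc l * ((2 + Real.log l) / l) ≤ C := by
  have hsum : Summable (fun n : ℕ => (n : ℝ) ^ (-(5 / 4) : ℝ)) := by
    rw [Real.summable_nat_rpow]; norm_num
  refine ⟨6 * C1 * ∑' n : ℕ, (n : ℝ) ^ (-(5 / 4) : ℝ) + 1, ?_, ?_⟩
  · have : 0 ≤ ∑' n : ℕ, (n : ℝ) ^ (-(5 / 4) : ℝ) := tsum_nonneg (fun n => by positivity)
    have := C1_pos
    positivity
  · intro K
    have h1 : ∀ l ∈ K.primesBelow, cc l * ((2 + Real.log l) / l) ≤ 6 * C1 * (l : ℝ) ^ (-(5 / 4) : ℝ) := by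
      intro l hl
      have hp := Nat.prime_of_mem_primesBelow hl
      have hl1 : (1 : ℝ) ≤ l := by exact_mod_cast hp.one_lt.le
      have hl0 : (0 : ℝ) < l := by linarith
      have h2 : Real.log l ≤ 4 * (l : ℝ) ^ (1 / 4 : ℝ) := by
        have := log_le_rpow hl1 (show (0:ℝ) < 1 / 4 by norm_num)
        linarith
      have h3 : 1 ≤ (l : ℝ) ^ (1 / 4 : ℝ) := Real.one_le_rpow hl1 (by norm_num)
      have h4 : 0 ≤ Real.log l := Real.log_nonneg hl1
      have h5 := C1_pos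
      calc cc l * ((2 + Real.log l) / l) ≤ (C1 * (l : ℝ) ^ (-(1 / 2) : ℝ)) * ((6 * (l : ℝ) ^ (1 / 4 : ℝ)) / l) := by
            apply mul_le_mul (cc_le hp) _ (by positivity) (by positivity)
            gcongr
            linarith
        _ = 6 * C1 * ((l : ℝ) ^ (-(1 / 2) : ℝ) * (l : ℝ) ^ (1 / 4 : ℝ) * (l : ℝ)⁻¹) := by
            rw [div_eq_mul_inv]; ring
        _ = 6 * C1 * (l : ℝ) ^ (-(5 / 4) : ℝ) := by
            congr 1
            rw [← Real.rpow_neg_one, ← Real.rpow_add hl0, ← Real.rpow_add hl0]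
            congr 1; norm_num
    calc ∑ l ∈ K.primesBelow, cc l * ((2 + Real.log l) / l)
        ≤ ∑ l ∈ K.primesBelow, 6 * C1 * (l : ℝ) ^ (-(5 / 4) : ℝ) := Finset.sum_le_sum h1
      _ = 6 * C1 * ∑ l ∈ K.primesBelow, (l : ℝ) ^ (-(5 / 4) : ℝ) := by rw [Finset.mul_sum]
      _ ≤ 6 * C1 * ∑' n : ℕ, (n : ℝ) ^ (-(5 / 4) : ℝ) := by
          have := C1_pos
          gcongr
          exact hsum.sum_le_tsum _ (fun n _ => by positivity)
      _ ≤ _ := by linarith

end Pool.Agent.H93.DC
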