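import Pool.Agent.H93.DC.Pairs
import Pool.Agent.H93.DC.Prob2
import Pool.Agent.H93.DC.Alter

/-! Expected numbers of edges and conflicts. -/

namespace Pool.Agent.H93.DC

open Finset

/-- exchange of summation -/
lemma exch {ι : Type*} [DecidableEq ι] (Y : ℕ) (I : Finset ι) (T : ι → Finset ℤ) :
    ∑ a ∈ Om Y, ((I.filter (fun i => ∀ x ∈ T i, sur a x)).card : ℝ) = (Om Y).card * ∑ i ∈ I, pr Y (T i) := by
  have h1 : ∀ a ∈ Om Y, ((I.filter (fun i => ∀ x ∈ T i, sur a x)).card : ℝ)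
      = ∑ i ∈ I, (if ∀ x ∈ T i, sur a x then (1 : ℝ) else 0) := by
    intro a _
    rw [Finset.sum_boole]
  rw [Finset.sum_congr rfl h1, Finset.sum_comm, Finset.mul_sum]
  refine Finset.sum_congr rfl fun i _ => ?_
  rw [Finset.sum_boole, count_sur]

/-- pairs in the same (shifted) residue class -/
lemma class_shift (X : Finset ℤ) (F : ℤ → ℝ) (l : ℕ) [NeZero l] (s : ℤ) :
    ∑ x ∈ X, ∑ x' ∈ X, (if (l : ℤ) ∣ (x' - x + s) then F x * F x' else 0)
      ≤ ∑ b : ZMod l, (∑ x ∈ X.filter (fun x : ℤ => (x : ZMod l) = b), F x) ^ 2 := by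
  classical
  set V : ZMod l → ℝ := fun b => ∑ x ∈ X.filter (fun x : ℤ => (x : ZMod l) = b), F x with hV
  have h1 : ∀ x ∈ X, ∑ x' ∈ X, (if (l : ℤ) ∣ (x' - x + s) then F x * F x' else 0) = F x * V ((x : ZMod l) - s) := by
    intro x _
    rw [hV]
    simp only
    rw [Finset.mul_sum, Finset.sum_filter]
    refine Finset.sum_congr rfl fun x' _ => ?_
    have : (l : ℤ) ∣ (x' - x + s) ↔ (x' : ZMod l) = (x : ZMod l) - s := by
      rw [← ZMod.intCast_zmod_eq_zero_iff_dvd]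
      push_cast
      constructor
      · intro h
        have : (x' : ZMod l) = (x' - x + s) + (x - s) := by ring
        rw [this, h, zero_add]
      · intro h; rw [h]; ring
    by_cases hd : (l : ℤ) ∣ (x' - x + s)
    · rw [if_pos hd, if_pos (this.mp hd)]
    · rw [if_neg hd, if_neg (fun h => hd (this.mpr h))]
  rw [Finset.sum_congr rfl h1]
  have h2 : ∑ x ∈ X, F x * V ((x : ZMod l) - s) = ∑ b : ZMod l, V b * V (b - s) := by
    rw [← Finset.sum_fiberwise (s := X) (g := fun x : ℤ => (x : ZMod l))]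
    refine Finset.sum_congr rfl fun b _ => ?_
    rw [hV]
    simp only
    rw [Finset.sum_mul]
    refine Finset.sum_congr rfl fun x hx => ?_
    rw [Finset.mem_filter] at hx
    rw [hx.2]
  rw [h2]
  have h3 : ∑ b : ZMod l, V (b - s) ^ 2 = ∑ b : ZMod l, V b ^ 2 := by
    exact Equiv.sum_comp (Equiv.subRight (s : ZMod l)) (fun b => V b ^ 2)
  have h4 : ∑ b : ZMod l, V b * V (b - s) ≤ ∑ b : ZMod l, (V b ^ 2 + V (b - s) ^ 2) / 2 := by
    apply Finset.sum_le_sum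
    intro b _
    nlinarith [sq_nonneg (V b - V (b - s))]
  have h5 : ∑ b : ZMod l, (V b ^ 2 + V (b - s) ^ 2) / 2 = ∑ b : ZMod l, V b ^ 2 := by
    rw [← Finset.sum_div, Finset.sum_add_distrib, h3]; ring
  rw [h5] at h4
  exact h4

/-- indicator of a finite set -/
def ind (B : Finset ℤ) (x : ℤ) : ℝ := if x ∈ B then 1 else 0

lemma ind_nonneg (B : Finset ℤ) (x : ℤ) : 0 ≤ ind B x := by unfold ind; split_ifs <;> norm_num

variable {N : ℕ} {B : Finset ℤ} {g : ℤ → ℝ} {c C ε : ℝ}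

lemma SU.B_sub (h : SU N (ind B) g c C ε) : B ⊆ AA N := by
  intro x hx
  by_contra hc
  have := h.fz x hc
  unfold ind at this
  rw [if_pos hx] at this
  norm_num at this

lemma sum_B (h : B ⊆ AA N) (F : ℤ → ℝ) : ∑ x ∈ B, F x = ∑ x ∈ AA N, ind B x * F x := by
  unfold ind
  simp_rw [ite_mul, one_mul, zero_mul]
  rw [← Finset.sum_filter]
  apply Finset.sum_congr _ (fun _ _ => rfl)
  ext x
  rw [Finset.mem_filter]
  exact ⟨fun hx => ⟨h hx, hx⟩, fun hx => hx.2⟩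

lemma edges_card (h : B ⊆ AA N) (P : Finset ℤ) :
    ((edges P B).card : ℝ) = ∑ p ∈ P, ∑ x ∈ AA N, ind B x * ind B (x + 2 * p) := by
  unfold edges
  rw [Finset.card_filter]
  push_cast
  rw [Finset.sum_product]
  refine Finset.sum_congr rfl fun p _ => ?_
  rw [sum_B h]
  rfl

lemma tri_class (h : SU N (ind B) g c C ε) (U : Finset ℤ) (l : ℕ) [NeZero l] {M : ℝ}
    (hM : ∀ b : ZMod l, ((U.filter (fun u : ℤ => (u : ZMod l) = b)).card : ℝ) ≤ M) :
    (((Tri U B).filter (fun t => (l : ℤ) ∣ (t.2.1 - t.2.2))).card : ℝ)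
      ≤ 2 * (∑ z ∈ AA N, ind B z) * (C ^ 2 * (M * U.card)) + 2 * (ε * N) ^ 2 * U.card := by
  classical
  have h1 : (((Tri U B).filter (fun t => (l : ℤ) ∣ (t.2.1 - t.2.2))).card : ℝ)
      ≤ ∑ z ∈ AA N, ind B z * ∑ u ∈ U, ∑ u' ∈ U, (if (l : ℤ) ∣ (u' - u + 0) then ind B (z + 2 * u) * ind B (z + 2 * u') else 0) := by
    rw [← sum_B h.B_sub]
    have h2 : (Tri U B).filter (fun t => (l : ℤ) ∣ (t.2.1 - t.2.2)) ⊆
        (B ×ˢ U ×ˢ U).filter (fun t => (l : ℤ) ∣ (t.2.2 - t.2.1 + 0) ∧ t.1 + 2 * t.2.1 ∈ B ∧ t.1 + 2 * t.2.2 ∈ B) := by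
      intro t ht
      simp only [Tri, Finset.mem_filter] at ht ⊢
      refine ⟨ht.1.1, ?_, ht.1.2.2.1, ht.1.2.2.2⟩
      rw [add_zero, ← Int.dvd_neg, neg_sub]; exact ht.2
    have h3 : (((Tri U B).filter (fun t => (l : ℤ) ∣ (t.2.1 - t.2.2))).card : ℝ) ≤
        (((B ×ˢ U ×ˢ U).filter (fun t => (l : ℤ) ∣ (t.2.2 - t.2.1 + 0) ∧ t.1 + 2 * t.2.1 ∈ B ∧ t.1 + 2 * t.2.2 ∈ B)).card : ℝ) := by
      exact_mod_cast Finset.card_le_card h2
    refine h3.trans (le_of_eq ?_)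
    rw [Finset.card_filter]
    push_cast
    rw [Finset.sum_product]
    refine Finset.sum_congr rfl fun z _ => ?_
    rw [Finset.sum_product]
    refine Finset.sum_congr rfl fun u _ => Finset.sum_congr rfl fun u' _ => ?_
    unfold ind
    by_cases c1 : (l : ℤ) ∣ (u' - u + 0) <;> by_cases c2 : z + 2 * u ∈ B <;> by_cases c3 : z + 2 * u' ∈ B <;>
      simp [c1, c2, c3]
  refine h1.trans ?_
  have h4 : ∑ z ∈ AA N, ind B z * ∑ u ∈ U, ∑ u' ∈ U, (if (l : ℤ) ∣ (u' - u + 0) then ind B (z + 2 * u) * ind B (z + 2 * u') else 0)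
      ≤ ∑ z ∈ AA N, ind B z * ∑ b : ZMod l, (∑ u ∈ U.filter (fun u : ℤ => (u : ZMod l) = b), ind B (z + 2 * u)) ^ 2 := by
    apply Finset.sum_le_sum
    intro z _
    apply mul_le_mul_of_nonneg_left _ (ind_nonneg B z)
    exact class_shift U (fun u => ind B (z + 2 * u)) l 0
  refine h4.trans ((h.G_le U l).trans ?_)
  have h5 : ∑ b : ZMod l, ((U.filter (fun u : ℤ => (u : ZMod l) = b)).card : ℝ) ^ 2 ≤ M * U.card := by
    have h6 : ∑ b : ZMod l, ((U.filter (fun u : ℤ => (u : ZMod l) = b)).card : ℝ) = U.card := by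
      have := Finset.card_eq_sum_card_fiberwise (s := U) (t := Finset.univ) (f := fun u : ℤ => (u : ZMod l)) (fun _ _ => by simp)
      rw [this]; push_cast; rfl
    rw [← h6, Finset.mul_sum]
    apply Finset.sum_le_sum
    intro b _
    rw [sq]
    exact mul_le_mul_of_nonneg_right (hM b) (by positivity)
  have h7 : 0 ≤ ∑ z ∈ AA N, ind B z := Finset.sum_nonneg (fun _ _ => ind_nonneg _ _)
  gcongr

/-- bound for class sums of quadruples -/
noncomputable def BV (N : ℕ) (Pc C ε : ℝ) (l : ℕ) : ℝ :=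
  3 * (Pc * l * (C ^ 2 * (N / l + 2)) ^ 2 + l * ((ε * N) ^ 2 * (C ^ 2 * (N + 1))) + l * ((ε * N) ^ 2 * (N + 1)))

lemma quad_class (h : SU N (ind B) g c C ε) (P : Finset ℤ) (s : ℤ → ℤ) (l : ℕ) [NeZero l] :
    (((Quad P B).filter (fun t => (l : ℤ) ∣ (t.2.2 - t.2.1 + s t.1))).card : ℝ) ≤ BV N P.card C ε l := by
  classical
  have h1 : (((Quad P B).filter (fun t => (l : ℤ) ∣ (t.2.2 - t.2.1 + s t.1))).card : ℝ)
      ≤ ∑ p ∈ P, ∑ x ∈ AA N, ∑ x' ∈ AA N, (if (l : ℤ) ∣ (x' - x + s p) then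
          (ind B x * ind B (x + 2 * p)) * (ind B x' * ind B (x' + 2 * p)) else 0) := by
    have h2 : (Quad P B).filter (fun t => (l : ℤ) ∣ (t.2.2 - t.2.1 + s t.1)) ⊆
        (P ×ˢ B ×ˢ B).filter (fun t => (l : ℤ) ∣ (t.2.2 - t.2.1 + s t.1) ∧ t.2.1 + 2 * t.1 ∈ B ∧ t.2.2 + 2 * t.1 ∈ B) := by
      intro t ht
      simp only [Quad, Finset.mem_filter] at ht ⊢
      exact ⟨ht.1.1, ht.2, ht.1.2.2.1, ht.1.2.2.2⟩
    have h3 : (((Quad P B).filter (fun t => (l : ℤ) ∣ (t.2.2 - t.2.1 + s t.1))).card : ℝ) ≤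
        (((P ×ˢ B ×ˢ B).filter (fun t => (l : ℤ) ∣ (t.2.2 - t.2.1 + s t.1) ∧ t.2.1 + 2 * t.1 ∈ B ∧ t.2.2 + 2 * t.1 ∈ B)).card : ℝ) := by
      exact_mod_cast Finset.card_le_card h2
    refine h3.trans (le_of_eq ?_)
    rw [Finset.card_filter]
    push_cast
    rw [Finset.sum_product]
    refine Finset.sum_congr rfl fun p _ => ?_
    rw [Finset.sum_product, sum_B h.B_sub]
    refine Finset.sum_congr rfl fun x _ => ?_
    rw [sum_B h.B_sub, Finset.mul_sum]
    refine Finset.sum_congr rfl fun x' _ => ?_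
    unfold ind
    by_cases c1 : (l : ℤ) ∣ (x' - x + s p) <;> by_cases c2 : x + 2 * p ∈ B <;> by_cases c3 : x' + 2 * p ∈ B <;>
      simp [c1, c2, c3]
  refine h1.trans ?_
  refine le_trans (Finset.sum_le_sum fun p _ => class_shift (AA N) (fun x => ind B x * ind B (x + 2 * p)) l (s p)) ?_
  exact h.V_le P l

/-- lift of residue class counts. -/
lemma class_lift (U : Finset ℤ) (l : ℕ) [NeZero l] {M : ℝ}
    (hM : ∀ b : ℤ, ((U.filter (fun u : ℤ => (l : ℤ) ∣ (u - b))).card : ℝ) ≤ M) (b : ZMod l) :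
    ((U.filter (fun u : ℤ => (u : ZMod l) = b)).card : ℝ) ≤ M := by
  refine le_trans (le_of_eq ?_) (hM (b.val : ℤ))
  congr 2
  apply Finset.filter_congr
  intro u _
  have : (((b.val : ℕ) : ℤ) : ZMod l) = b := by push_cast; exact ZMod.natCast_zmod_val b
  rw [← this, eq_comm, ZMod.intCast_eq_intCast_iff_dvd_sub]
  rw [this]

lemma sum_cc_le (K : ℕ) : ∑ l ∈ K.primesBelow, cc l ≤ C1 * K := by
  calc ∑ l ∈ K.primesBelow, cc l ≤ ∑ l ∈ K.primesBelow, C1 :=
        Finset.sum_le_sum (fun l hl => cc_le' (Nat.prime_of_mem_primesBelow hl))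
    _ = C1 * K.primesBelow.card := by rw [Finset.sum_const, nsmul_eq_mul, mul_comm]
    _ ≤ C1 * K := by
        have := C1_pos
        have h1 : K.primesBelow.card ≤ K := by
          rw [Nat.primesBelow]
          exact (Finset.card_filter_le _ _).trans (by simp)
        have h2 : (K.primesBelow.card : ℝ) ≤ K := by exact_mod_cast h1
        gcongr

lemma sum_cc_le' (K : ℕ) : ∑ l ∈ K.primesBelow, cc l * l ≤ C1 * K ^ 2 := by
  calc ∑ l ∈ K.primesBelow, cc l * l ≤ ∑ l ∈ K.primesBelow, C1 * K := by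
        apply Finset.sum_le_sum
        intro l hl
        have h1 : (l : ℝ) ≤ K := by exact_mod_cast (Nat.lt_of_mem_primesBelow hl).le
        exact mul_le_mul (cc_le' (Nat.prime_of_mem_primesBelow hl)) h1 (by positivity) C1_pos.le
    _ = C1 * K * K.primesBelow.card := by rw [Finset.sum_const, nsmul_eq_mul, mul_comm]
    _ ≤ C1 * K ^ 2 := by
        have := C1_pos
        have h1 : K.primesBelow.card ≤ K := by
          rw [Nat.primesBelow]
          exact (Finset.card_filter_le _ _).trans (by simp)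
        have h2 : (K.primesBelow.card : ℝ) ≤ K := by exact_mod_cast h1
        rw [sq, ← mul_assoc]
        gcongr

/-- sums of the weight over a finite family -/
lemma sum_W_le {ι : Type*} [DecidableEq ι] {Y K : ℕ} (hK : 1 ≤ K) (hKY : K ≤ Y) (I : Finset ι) (d : ι → ℤ)
    (hd : ∀ i ∈ I, d i ≠ 0) (hlog : ∀ i ∈ I, Real.log |(d i : ℝ)| ≤ K) :
    ∑ i ∈ I, W Y (d i) ≤ Real.exp 24 * (I.card + ∑ l ∈ K.primesBelow, cc l * ((I.filter (fun i => (l : ℤ) ∣ d i)).card : ℝ)) := by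
  calc ∑ i ∈ I, W Y (d i) ≤ ∑ i ∈ I, Real.exp 24 * (1 + ∑ l ∈ K.primesBelow.filter (fun l : ℕ => (l : ℤ) ∣ d i), cc l) :=
        Finset.sum_le_sum (fun i hi => W_le hK hKY (hd i hi) (hlog i hi))
    _ = Real.exp 24 * (I.card + ∑ l ∈ K.primesBelow, cc l * ((I.filter (fun i => (l : ℤ) ∣ d i)).card : ℝ)) := by
        rw [← Finset.mul_sum, Finset.sum_add_distrib, Finset.sum_const, nsmul_eq_mul, mul_one]
        congr 2
        simp_rw [Finset.sum_filter]
        rw [Finset.sum_comm]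
        refine Finset.sum_congr rfl fun l _ => ?_
        rw [← Finset.sum_filter, Finset.sum_const, nsmul_eq_mul, mul_comm]

/-- weighted triples -/
theorem tri_W (h : SU N (ind B) g c C ε) {Y K : ℕ} (hK : 1 ≤ K) (hKY : K ≤ Y) (U : Finset ℤ)
    (hlog : Real.log (2 * N) ≤ K) (hU : ∀ u ∈ U, |u| ≤ (N : ℤ)) (hN : 1 ≤ N) {m Cs : ℝ} (hm : 0 ≤ m)
    (hUb : ∀ l ∈ K.primesBelow, ∀ b : ℤ, ((U.filter (fun u : ℤ => (l : ℤ) ∣ (u - b))).card : ℝ) ≤ m * ((2 + Real.log l) / l))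
    (hCs : ∑ l ∈ K.primesBelow, cc l * ((2 + Real.log l) / l) ≤ Cs) :
    ∑ t ∈ Tri U B, W Y (t.2.1 - t.2.2) ≤ Real.exp 24 *
      (2 * (∑ z ∈ AA N, ind B z) * C ^ 2 * U.card * (U.card + m * Cs) + 2 * (ε * N) ^ 2 * U.card * (1 + C1 * K)) := by
  classical
  have h7 : 0 ≤ ∑ z ∈ AA N, ind B z := Finset.sum_nonneg (fun _ _ => ind_nonneg _ _)
  have hNr : (1 : ℝ) ≤ N := by exact_mod_cast hN
  have h1 := sum_W_le (Y := Y) hK hKY (Tri U B) (fun t => t.2.1 - t.2.2)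
    (by
      intro t ht
      simp only [Tri, Finset.mem_filter] at ht
      exact sub_ne_zero.mpr ht.2.1)
    (by
      intro t ht
      refine le_trans ?_ hlog
      simp only [Tri, Finset.mem_filter, Finset.mem_product] at ht
      apply Real.log_le_log
      · rw [abs_pos]
        exact_mod_cast sub_ne_zero.mpr ht.2.1
      · have h2 := hU _ ht.1.2.1
        have h3 := hU _ ht.1.2.2
        have h4 : |t.2.1 - t.2.2| ≤ 2 * (N : ℤ) := by
          rw [abs_le] at h2 h3 ⊢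
          constructor <;> linarith [h2.1, h2.2, h3.1, h3.2]
        exact_mod_cast h4)
  refine h1.trans ?_
  apply mul_le_mul_of_nonneg_left _ (Real.exp_pos 24).le
  have hone : ((Tri U B).card : ℝ) ≤ 2 * (∑ z ∈ AA N, ind B z) * (C ^ 2 * (U.card * U.card)) + 2 * (ε * N) ^ 2 * U.card := by
    have h2 := tri_class h U 1 (M := U.card) (fun b => by exact_mod_cast Finset.card_filter_le _ _)
    have h3 : (Tri U B).filter (fun t => ((1 : ℕ) : ℤ) ∣ (t.2.1 - t.2.2)) = Tri U B := by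
      apply Finset.filter_true_of_mem
      intro t _; simp
    rwa [h3] at h2
  have hl : ∀ l ∈ K.primesBelow, cc l * (((Tri U B).filter (fun t => (l : ℤ) ∣ (t.2.1 - t.2.2))).card : ℝ) ≤
      2 * (∑ z ∈ AA N, ind B z) * C ^ 2 * U.card * m * (cc l * ((2 + Real.log l) / l)) + 2 * (ε * N) ^ 2 * U.card * cc l := by
    intro l hl
    have hp := Nat.prime_of_mem_primesBelow hl
    have : NeZero l := ⟨hp.ne_zero⟩
    have h2 := tri_class h U l (M := m * ((2 + Real.log l) / l)) (class_lift U l (hUb l hl))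
    have h3 := cc_nonneg hp
    calc _ ≤ cc l * (2 * (∑ z ∈ AA N, ind B z) * (C ^ 2 * ((m * ((2 + Real.log l) / l)) * U.card)) + 2 * (ε * N) ^ 2 * U.card) := by
          gcongr
      _ = _ := by ring
  have h4 := Finset.sum_le_sum hl
  rw [Finset.sum_add_distrib, ← Finset.mul_sum, ← Finset.mul_sum] at h4
  have h5 := sum_cc_le K
  have hC0 := h.C0
  calc ((Tri U B).card : ℝ) + _ ≤ (2 * (∑ z ∈ AA N, ind B z) * (C ^ 2 * (U.card * U.card)) + 2 * (ε * N) ^ 2 * U.card)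
        + (2 * (∑ z ∈ AA N, ind B z) * C ^ 2 * U.card * m * Cs + 2 * (ε * N) ^ 2 * U.card * (C1 * K)) := by
        refine add_le_add hone (h4.trans ?_)
        gcongr
    _ = _ := by ring

/-- weighted quadruples -/
theorem quad_W (h : SU N (ind B) g c C ε) {Y K : ℕ} (hK : 1 ≤ K) (hKY : K ≤ Y) (P : Finset ℤ)
    (hlog : Real.log (2 * N) ≤ K) (hN : 1 ≤ N) (hKN : 2 * K ≤ N) {Cs : ℝ}
    (hCs : ∑ l ∈ K.primesBelow, cc l * ((2 + Real.log l) / l) ≤ Cs) (s : ℤ → ℤ) (hs : ∀ p ∈ P, |s p| ≤ (N : ℤ)) :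
    ∑ t ∈ (Quad P B).filter (fun t => t.2.2 - t.2.1 + s t.1 ≠ 0), W Y (t.2.2 - t.2.1 + s t.1) ≤ Real.exp 24 *
      (27 * (P.card * C ^ 4 * N ^ 2) * (1 + Cs) + 3 * (ε * N) ^ 2 * ((1 + C ^ 2) * (N + 1)) * (1 + C1 * K ^ 2)) := by
  classical
  have hNr : (1 : ℝ) ≤ N := by exact_mod_cast hN
  have hC0 := h.C0
  set Q := (Quad P B).filter (fun t => t.2.2 - t.2.1 + s t.1 ≠ 0) with hQ
  have h1 := sum_W_le (Y := Y) hK hKY Q (fun t => t.2.2 - t.2.1 + s t.1)
    (by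
      intro t ht
      rw [hQ, Finset.mem_filter] at ht
      exact ht.2)
    (by
      intro t ht
      refine le_trans ?_ hlog
      rw [hQ, Finset.mem_filter] at ht
      have hne := ht.2
      have ht := ht.1
      simp only [Quad, Finset.mem_filter, Finset.mem_product] at ht
      apply Real.log_le_log
      · rw [abs_pos]
        exact_mod_cast hne
      · have h2 := h.B_sub ht.1.2.1
        have h3 := h.B_sub ht.1.2.2
        unfold AA at h2 h3
        rw [Finset.mem_Icc] at h2 h3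
        have h5 := hs _ ht.1.1
        have h4 : |t.2.2 - t.2.1 + s t.1| ≤ 2 * (N : ℤ) := by
          rw [abs_le] at h5 ⊢
          constructor <;> linarith [h2.1, h2.2, h3.1, h3.2, h5.1, h5.2]
        exact_mod_cast h4)
  refine h1.trans ?_
  apply mul_le_mul_of_nonneg_left _ (Real.exp_pos 24).le
  have hBV : ∀ l : ℕ, 1 ≤ l → l ≤ K → BV N P.card C ε l ≤
      27 * (P.card * C ^ 4 * N ^ 2) * (1 / l) + 3 * (ε * N) ^ 2 * ((1 + C ^ 2) * (N + 1)) * l := by
    intro l hl1 hlK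
    have hl0 : (0 : ℝ) < l := by exact_mod_cast hl1
    have h2 : (N : ℝ) / l + 2 ≤ 3 * (N / l) := by
      have h3 : (l : ℝ) ≤ N := by exact_mod_cast (by omega : l ≤ N)
      have h4 : (1 : ℝ) ≤ N / l := by rw [le_div_iff₀ hl0]; linarith
      linarith
    have h3 : (P.card : ℝ) * l * (C ^ 2 * (N / l + 2)) ^ 2 ≤ P.card * l * (C ^ 2 * (3 * (N / l))) ^ 2 := by
      gcongr
    unfold BV
    calc _ ≤ 3 * (P.card * l * (C ^ 2 * (3 * (N / l))) ^ 2 + l * ((ε * N) ^ 2 * (C ^ 2 * (N + 1))) + l * ((ε * N) ^ 2 * (N + 1))) := by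
          gcongr
      _ = _ := by field_simp; ring
  have hone : (Q.card : ℝ) ≤ 27 * (P.card * C ^ 4 * N ^ 2) + 3 * (ε * N) ^ 2 * ((1 + C ^ 2) * (N + 1)) := by
    have h2 := quad_class h P s 1
    have h3 : (Quad P B).filter (fun t => ((1 : ℕ) : ℤ) ∣ (t.2.2 - t.2.1 + s t.1)) = Quad P B := by
      apply Finset.filter_true_of_mem
      intro t _; simp
    rw [h3] at h2
    have h4 := hBV 1 le_rfl hK
    have h5 : (Q.card : ℝ) ≤ (Quad P B).card := by exact_mod_cast Finset.card_filter_le _ _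
    have : 27 * ((P.card : ℝ) * C ^ 4 * N ^ 2) * (1 / (1 : ℕ)) + 3 * (ε * N) ^ 2 * ((1 + C ^ 2) * (N + 1)) * (1 : ℕ)
      = 27 * (P.card * C ^ 4 * N ^ 2) + 3 * (ε * N) ^ 2 * ((1 + C ^ 2) * (N + 1)) := by push_cast; ring
    linarith
  have hl : ∀ l ∈ K.primesBelow, cc l * ((Q.filter (fun t => (l : ℤ) ∣ (t.2.2 - t.2.1 + s t.1))).card : ℝ) ≤
      27 * (P.card * C ^ 4 * N ^ 2) * (cc l * ((2 + Real.log l) / l)) + 3 * (ε * N) ^ 2 * ((1 + C ^ 2) * (N + 1)) * (cc l * l) := by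
    intro l hl
    have hp := Nat.prime_of_mem_primesBelow hl
    have : NeZero l := ⟨hp.ne_zero⟩
    have h2 := quad_class h P s l
    have h3 := cc_nonneg hp
    have h4 := hBV l hp.one_lt.le (Nat.lt_of_mem_primesBelow hl).le
    have h5 : ((Q.filter (fun t => (l : ℤ) ∣ (t.2.2 - t.2.1 + s t.1))).card : ℝ) ≤
        (((Quad P B).filter (fun t => (l : ℤ) ∣ (t.2.2 - t.2.1 + s t.1))).card : ℝ) := by
      exact_mod_cast Finset.card_le_card (Finset.filter_subset_filter _ (Finset.filter_subset _ _))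
    have hl1 : (1 : ℝ) ≤ l := by exact_mod_cast hp.one_lt.le
    have hlog0 : 0 ≤ Real.log l := Real.log_nonneg hl1
    have h6 : (1 : ℝ) / l ≤ (2 + Real.log l) / l := by gcongr; linarith
    calc _ ≤ cc l * (27 * (P.card * C ^ 4 * N ^ 2) * (1 / l) + 3 * (ε * N) ^ 2 * ((1 + C ^ 2) * (N + 1)) * l) := by
          gcongr; linarith
      _ ≤ cc l * (27 * (P.card * C ^ 4 * N ^ 2) * ((2 + Real.log l) / l) + 3 * (ε * N) ^ 2 * ((1 + C ^ 2) * (N + 1)) * l) := by
          gcongr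
      _ = _ := by ring
  have h4 := Finset.sum_le_sum hl
  rw [Finset.sum_add_distrib, ← Finset.mul_sum, ← Finset.mul_sum] at h4
  have h5 := sum_cc_le' K
  calc (Q.card : ℝ) + _ ≤ (27 * (P.card * C ^ 4 * N ^ 2) + 3 * (ε * N) ^ 2 * ((1 + C ^ 2) * (N + 1)))
        + (27 * (P.card * C ^ 4 * N ^ 2) * Cs + 3 * (ε * N) ^ 2 * ((1 + C ^ 2) * (N + 1)) * (C1 * K ^ 2)) := by
        refine add_le_add hone (h4.trans ?_)
        gcongr
    _ = _ := by ring

end Pool.Agent.H93.DC
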