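import Pool.Agent.H93.DC.Conf

/-! Expected size of a matching. -/

namespace Pool.Agent.H93.DC

open Finset

variable {N : ℕ} {B : Finset ℤ} {g : ℤ → ℝ} {c C ε : ℝ}

/-- survivors -/
def SV {Y : ℕ} (B : Finset ℤ) (a : ↥(Y.primesBelow) → ℤ) : Finset ℤ := B.filter (fun x => sur a x)

lemma edges_SV {Y : ℕ} (P B : Finset ℤ) (a : ↥(Y.primesBelow) → ℤ) :
    edges P (SV B a) = (edges P B).filter (fun q => ∀ x ∈ ({q.2, q.2 + 2 * q.1} : Finset ℤ), sur a x) := by
  ext q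
  simp only [edges, SV, Finset.mem_filter, Finset.mem_product, Finset.mem_insert, Finset.mem_singleton,
    forall_eq_or_imp, forall_eq]
  tauto

lemma Tri_SV {Y : ℕ} (U B : Finset ℤ) (a : ↥(Y.primesBelow) → ℤ) :
    Tri U (SV B a) = (Tri U B).filter (fun t => ∀ x ∈ ({t.1, t.1 + 2 * t.2.1, t.1 + 2 * t.2.2} : Finset ℤ), sur a x) := by
  ext q
  simp only [Tri, SV, Finset.mem_filter, Finset.mem_product, Finset.mem_insert, Finset.mem_singleton,
    forall_eq_or_imp, forall_eq]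
  tauto

lemma Quad_SV {Y : ℕ} (P B : Finset ℤ) (a : ↥(Y.primesBelow) → ℤ) :
    Quad P (SV B a) = (Quad P B).filter
      (fun t => ∀ x ∈ ({t.2.1, t.2.1 + 2 * t.1, t.2.2, t.2.2 + 2 * t.1} : Finset ℤ), sur a x) := by
  ext q
  simp only [Quad, SV, Finset.mem_filter, Finset.mem_product, Finset.mem_insert, Finset.mem_singleton,
    forall_eq_or_imp, forall_eq]
  tauto

lemma sum_edges_ge {Y : ℕ} (hY : 3 ≤ Y) (P B : Finset ℤ) :
    ((Om Y).card : ℝ) * (((MP Y)⁻¹) ^ 2 * (edges P B).card) ≤ ∑ a ∈ Om Y, ((edges P (SV B a)).card : ℝ) := by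
  simp_rw [edges_SV]
  rw [exch Y (edges P B) (fun q => ({q.2, q.2 + 2 * q.1} : Finset ℤ))]
  gcongr
  rw [mul_comm, ← nsmul_eq_mul, ← Finset.sum_const]
  apply Finset.sum_le_sum
  intro q _
  exact pr_pair_ge hY q.2 q.1

lemma sum_tri_le {Y : ℕ} (hY : 3 ≤ Y) (U B : Finset ℤ) (hU : ∀ u ∈ U, ∀ l ∈ Y.primesBelow, ¬ ((l : ℤ) ∣ u)) :
    ∑ a ∈ Om Y, ((Tri U (SV B a)).card : ℝ) ≤
      (Om Y).card * (4 * ((MP Y)⁻¹) ^ 3 * ∑ t ∈ Tri U B, W Y (t.2.1 - t.2.2)) := by
  simp_rw [Tri_SV]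
  rw [exch Y (Tri U B) (fun t => ({t.1, t.1 + 2 * t.2.1, t.1 + 2 * t.2.2} : Finset ℤ))]
  gcongr
  rw [Finset.mul_sum]
  apply Finset.sum_le_sum
  intro t ht
  simp only [Tri, Finset.mem_filter, Finset.mem_product] at ht
  exact pr_three_le hY t.1 t.2.1 t.2.2 (hU _ ht.1.2.1) (hU _ ht.1.2.2)

lemma sum_quad_le {Y : ℕ} (hY : 3 ≤ Y) (P B : Finset ℤ) (hB : B ⊆ AA N)
    (hP : ∀ u ∈ P, ∀ l ∈ Y.primesBelow, ¬ ((l : ℤ) ∣ u)) :
    ∑ a ∈ Om Y, ((Quad P (SV B a)).card : ℝ) ≤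
      (Om Y).card * (8 * ((MP Y)⁻¹) ^ 4 *
        (∑ t ∈ (Quad P B).filter (fun t => t.2.2 - t.2.1 + 0 ≠ 0), W Y (t.2.2 - t.2.1 + 0)
        + ∑ t ∈ (Quad P B).filter (fun t => t.2.2 - t.2.1 + 2 * t.1 ≠ 0), W Y (t.2.2 - t.2.1 + 2 * t.1)
        + ∑ t ∈ (Quad P B).filter (fun t => t.2.2 - t.2.1 + (-2 * t.1) ≠ 0), W Y (t.2.2 - t.2.1 + (-2 * t.1)))
        + 2 * (P.card * (N + 1))) := by
  classical
  simp_rw [Quad_SV]
  rw [exch Y (Quad P B) (fun t => ({t.2.1, t.2.1 + 2 * t.1, t.2.2, t.2.2 + 2 * t.1} : Finset ℤ))]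
  gcongr
  set bad := (Quad P B).filter (fun t => t.2.2 - t.2.1 + 2 * t.1 = 0 ∨ t.2.2 - t.2.1 + (-2 * t.1) = 0) with hbad
  have hbadcard : (bad.card : ℝ) ≤ 2 * (P.card * (N + 1)) := by
    have hsub : bad ⊆ ((P ×ˢ AA N).image (fun q => (q.1, q.2, q.2 - 2 * q.1)))
        ∪ ((P ×ˢ AA N).image (fun q => (q.1, q.2, q.2 + 2 * q.1))) := by
      rintro ⟨p, x, x'⟩ ht
      rw [hbad, Finset.mem_filter] at ht
      obtain ⟨h1, h2⟩ := ht
      simp only [Quad, Finset.mem_filter, Finset.mem_product] at h1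
      simp only at h2
      rcases h2 with h2 | h2
      · apply Finset.mem_union_left
        rw [Finset.mem_image]
        refine ⟨(p, x), ?_, ?_⟩
        · rw [Finset.mem_product]; exact ⟨h1.1.1, hB h1.1.2.1⟩
        · simp only [Prod.mk.injEq, true_and]; omega
      · apply Finset.mem_union_right
        rw [Finset.mem_image]
        refine ⟨(p, x), ?_, ?_⟩
        · rw [Finset.mem_product]; exact ⟨h1.1.1, hB h1.1.2.1⟩
        · simp only [Prod.mk.injEq, true_and]; omega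
    have h2 : bad.card ≤ P.card * (AA N).card + P.card * (AA N).card := by
      refine (Finset.card_le_card hsub).trans ((Finset.card_union_le _ _).trans ?_)
      have h3 := Finset.card_image_le (s := P ×ˢ AA N) (f := fun q => (q.1, q.2, q.2 - 2 * q.1))
      have h4 := Finset.card_image_le (s := P ×ˢ AA N) (f := fun q => (q.1, q.2, q.2 + 2 * q.1))
      rw [Finset.card_product] at h3 h4
      exact Nat.add_le_add h3 h4
    have h5 : (bad.card : ℝ) ≤ (P.card : ℝ) * (AA N).card + P.card * (AA N).card := by exact_mod_cast h2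
    rw [card_AA] at h5
    linarith
  have hsplit : ∑ t ∈ Quad P B, pr Y ({t.2.1, t.2.1 + 2 * t.1, t.2.2, t.2.2 + 2 * t.1} : Finset ℤ)
      = ∑ t ∈ (Quad P B).filter (fun t => ¬ (t.2.2 - t.2.1 + 2 * t.1 = 0 ∨ t.2.2 - t.2.1 + (-2 * t.1) = 0)),
          pr Y ({t.2.1, t.2.1 + 2 * t.1, t.2.2, t.2.2 + 2 * t.1} : Finset ℤ)
        + ∑ t ∈ bad, pr Y ({t.2.1, t.2.1 + 2 * t.1, t.2.2, t.2.2 + 2 * t.1} : Finset ℤ) := by
    rw [add_comm, hbad, Finset.sum_filter_add_sum_filter_not]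
  rw [hsplit]
  apply add_le_add
  · set good := (Quad P B).filter (fun t => ¬ (t.2.2 - t.2.1 + 2 * t.1 = 0 ∨ t.2.2 - t.2.1 + (-2 * t.1) = 0)) with hgood
    have h1 : ∀ t ∈ good, pr Y ({t.2.1, t.2.1 + 2 * t.1, t.2.2, t.2.2 + 2 * t.1} : Finset ℤ) ≤
        8 * ((MP Y)⁻¹) ^ 4 * (W Y (t.2.2 - t.2.1 + 0) + W Y (t.2.2 - t.2.1 + 2 * t.1) + W Y (t.2.2 - t.2.1 + (-2 * t.1))) := by
      intro t ht
      rw [hgood, Finset.mem_filter] at ht
      have ht1 := ht.1
      simp only [Quad, Finset.mem_filter, Finset.mem_product] at ht1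
      have := pr_four_le hY t.2.1 t.2.2 t.1 (hP _ ht1.1.1)
      rw [add_zero, show t.2.2 - t.2.1 + (-2 * t.1) = t.2.2 - t.2.1 - 2 * t.1 by ring]
      exact this
    refine (Finset.sum_le_sum h1).trans ?_
    rw [← Finset.mul_sum]
    have hMP0 : 0 ≤ ((MP Y)⁻¹) ^ 4 := by
      have := MP_pos Y
      positivity
    gcongr
    rw [Finset.sum_add_distrib, Finset.sum_add_distrib]
    have hs : ∀ s : ℤ → ℤ, (∀ t ∈ good, t.2.2 - t.2.1 + s t.1 ≠ 0) →
        ∑ t ∈ good, W Y (t.2.2 - t.2.1 + s t.1) ≤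
          ∑ t ∈ (Quad P B).filter (fun t => t.2.2 - t.2.1 + s t.1 ≠ 0), W Y (t.2.2 - t.2.1 + s t.1) := by
      intro s hs
      apply Finset.sum_le_sum_of_subset_of_nonneg
      · intro t ht
        rw [Finset.mem_filter]
        refine ⟨?_, hs t ht⟩
        rw [hgood, Finset.mem_filter] at ht
        exact ht.1
      · intro t _ _; exact W_nonneg _ _
    apply add_le_add
    · apply add_le_add
      · apply hs (fun _ => 0)
        intro t ht
        rw [hgood, Finset.mem_filter] at ht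
        have ht1 := ht.1
        simp only [Quad, Finset.mem_filter, Finset.mem_product] at ht1
        have := ht1.2.1
        omega
      · apply hs (fun p => 2 * p)
        intro t ht
        rw [hgood, Finset.mem_filter] at ht
        exact fun h => ht.2 (Or.inl h)
    · apply hs (fun p => -2 * p)
      intro t ht
      rw [hgood, Finset.mem_filter] at ht
      exact fun h => ht.2 (Or.inr h)
  · refine le_trans ?_ hbadcard
    calc _ ≤ ∑ t ∈ bad, (1 : ℝ) := Finset.sum_le_sum (fun t _ => pr_le_one _ _)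
      _ = bad.card := by rw [Finset.sum_const, nsmul_eq_mul, mul_one]

/-- the expected gain -/
theorem gain (h : SU N (ind B) g c C ε) {Y K : ℕ} (hY : 3 ≤ Y) (hK : 1 ≤ K) (hKY : K ≤ Y) (P : Finset ℤ)
    (hlog : Real.log (2 * N) ≤ K) (hN : 100 ≤ N) (hKN : 2 * K ≤ N) (hP : ∀ p ∈ P, 0 < p ∧ 4 * p ≤ N)
    (hPc : ∀ u ∈ P, ∀ l ∈ Y.primesBelow, ¬ ((l : ℤ) ∣ u))
    {m Cs : ℝ} (hm : 0 ≤ m)
    (hPb : ∀ l ∈ K.primesBelow, ∀ b : ℤ, ((P.filter (fun u : ℤ => (l : ℤ) ∣ (u - b))).card : ℝ) ≤ m * ((2 + Real.log l) / l))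
    (hCs : ∑ l ∈ K.primesBelow, cc l * ((2 + Real.log l) / l) ≤ Cs) {r : ℕ} (hr : 0 < r) :
    ∃ mt : (↥(Y.primesBelow) → ℤ) → Finset (ℤ × ℤ), (∀ a, IsMat P (SV B a) (mt a)) ∧
      ((Om Y).card : ℝ) * (((MP Y)⁻¹) ^ 2 * (P.card * (c ^ 2 * (N / 3)) -
          (1 + C) * (ε * N * (Real.sqrt (N + 1) * Real.sqrt P.card))) / r
        - (4 * ((MP Y)⁻¹) ^ 3 * (Real.exp 24 * (2 * (C * N + ε * N) * C ^ 2 * (2 * P.card) * (2 * P.card + (2 * m) * Cs)
            + 2 * (ε * N) ^ 2 * (2 * P.card) * (1 + C1 * K)))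
          + 8 * ((MP Y)⁻¹) ^ 4 * (3 * (Real.exp 24 * (27 * (P.card * C ^ 4 * N ^ 2) * (1 + Cs)
            + 3 * (ε * N) ^ 2 * ((1 + C ^ 2) * (N + 1)) * (1 + C1 * K ^ 2))))
          + 2 * (P.card * (N + 1))) / (r : ℝ) ^ 2)
      ≤ ∑ a ∈ Om Y, ((mt a).card : ℝ) := by
  classical
  set U : Finset ℤ := P ∪ P.image (fun p => -p) with hU
  have hUcard : (U.card : ℝ) ≤ 2 * P.card := by
    have h1 : U.card ≤ P.card + P.card := by
      refine (Finset.card_union_le _ _).trans ?_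
      exact Nat.add_le_add_left Finset.card_image_le _
    have h2 : (U.card : ℝ) ≤ (P.card : ℝ) + P.card := by exact_mod_cast h1
    linarith
  have hUmem : ∀ u ∈ U, ∃ p ∈ P, u = p ∨ u = -p := by
    intro u hu
    rw [hU, Finset.mem_union, Finset.mem_image] at hu
    rcases hu with hu | ⟨p, hp, rfl⟩
    · exact ⟨u, hu, Or.inl rfl⟩
    · exact ⟨p, hp, Or.inr rfl⟩
  have hUabs : ∀ u ∈ U, |u| ≤ (N : ℤ) := by
    intro u hu
    obtain ⟨p, hp, hup⟩ := hUmem u hu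
    have := hP p hp
    rcases hup with rfl | rfl
    · rw [abs_of_pos this.1]; omega
    · rw [abs_neg, abs_of_pos this.1]; omega
  have hUc : ∀ u ∈ U, ∀ l ∈ Y.primesBelow, ¬ ((l : ℤ) ∣ u) := by
    intro u hu l hl
    obtain ⟨p, hp, hup⟩ := hUmem u hu
    rcases hup with rfl | rfl
    · exact hPc _ hp l hl
    · rw [dvd_neg]; exact hPc _ hp l hl
  have hUb : ∀ l ∈ K.primesBelow, ∀ b : ℤ, ((U.filter (fun u : ℤ => (l : ℤ) ∣ (u - b))).card : ℝ) ≤ (2 * m) * ((2 + Real.log l) / l) := by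
    intro l hl b
    have h1 : U.filter (fun u : ℤ => (l : ℤ) ∣ (u - b)) ⊆
        (P.filter (fun u : ℤ => (l : ℤ) ∣ (u - b))) ∪ (P.filter (fun u : ℤ => (l : ℤ) ∣ (u - (-b)))).image (fun p => -p) := by
      intro u hu
      rw [Finset.mem_filter] at hu
      obtain ⟨hu1, hu2⟩ := hu
      rw [hU, Finset.mem_union, Finset.mem_image] at hu1
      rcases hu1 with hu1 | ⟨p, hp, rfl⟩
      · apply Finset.mem_union_left
        rw [Finset.mem_filter]; exact ⟨hu1, hu2⟩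
      · apply Finset.mem_union_right
        rw [Finset.mem_image]
        refine ⟨p, ?_, rfl⟩
        rw [Finset.mem_filter]
        refine ⟨hp, ?_⟩
        have : p - (-b) = -(-p - b) := by ring
        rw [this, dvd_neg]; exact hu2
    have h2 : (U.filter (fun u : ℤ => (l : ℤ) ∣ (u - b))).card ≤
        (P.filter (fun u : ℤ => (l : ℤ) ∣ (u - b))).card + (P.filter (fun u : ℤ => (l : ℤ) ∣ (u - (-b)))).card := by
      refine (Finset.card_le_card h1).trans ((Finset.card_union_le _ _).trans ?_)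
      exact Nat.add_le_add_left Finset.card_image_le _
    have h3 : ((U.filter (fun u : ℤ => (l : ℤ) ∣ (u - b))).card : ℝ) ≤
        ((P.filter (fun u : ℤ => (l : ℤ) ∣ (u - b))).card : ℝ) + ((P.filter (fun u : ℤ => (l : ℤ) ∣ (u - (-b)))).card : ℝ) := by
      exact_mod_cast h2
    have h4 := hPb l hl b
    have h5 := hPb l hl (-b)
    linarith
  choose mt hmt1 hmt2 using fun a : (↥(Y.primesBelow) → ℤ) =>
    exists_mat P (SV B a) U (fun p hp => (hP p hp).1) (fun p hp => Finset.mem_union_left _ hp)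
      (fun p hp => Finset.mem_union_right _ (Finset.mem_image_of_mem _ hp)) hr
  refine ⟨mt, hmt1, ?_⟩
  have hsum := Finset.sum_le_sum (fun a (_ : a ∈ Om Y) => hmt2 a)
  refine le_trans ?_ hsum
  rw [Finset.sum_sub_distrib, ← Finset.sum_div, ← Finset.sum_div, Finset.sum_add_distrib, mul_sub]
  have hr0 : (0 : ℝ) < r := by exact_mod_cast hr
  have hC0 := h.C0
  have he0 := h.e0
  have hNr : (0 : ℝ) < N := by exact_mod_cast (by omega : 0 < N)
  have hMP := MP_pos Y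
  have hCs0 : 0 ≤ Cs := by
    refine le_trans (Finset.sum_nonneg ?_) hCs
    intro l hl
    have hp := Nat.prime_of_mem_primesBelow hl
    have h1 := cc_nonneg hp
    have h2 : 0 ≤ Real.log l := Real.log_natCast_nonneg l
    positivity
  have hC1 := C1_pos
  apply sub_le_sub
  · rw [mul_div_assoc', div_le_div_iff_of_pos_right hr0]
    refine le_trans ?_ (sum_edges_ge hY P B)
    have h1 := h.pairs_ge hN P hP
    rw [edges_card h.B_sub]
    have : ((Om Y).card : ℝ) * (((MP Y)⁻¹) ^ 2 * ((P.card : ℝ) * (c ^ 2 * (N / 3)) - (1 + C) * (ε * N * (Real.sqrt (N + 1) * Real.sqrt P.card))))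
        ≤ ((Om Y).card : ℝ) * (((MP Y)⁻¹) ^ 2 * ∑ p ∈ P, ∑ x ∈ AA N, ind B x * ind B (x + 2 * p)) := by
      gcongr
    exact this
  · rw [mul_div_assoc', div_le_div_iff_of_pos_right (by positivity)]
    have h1 := sum_tri_le hY U B hUc
    have h2 := sum_quad_le (N := N) hY P B h.B_sub hPc
    have h3 := tri_W h hK hKY U hlog hUabs (by omega) (m := 2 * m) (by positivity) hUb hCs
    have h4 := quad_W h hK hKY P hlog (by omega) hKN hCs (fun _ => 0) (by intro p _; simp)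
    have h5 := quad_W h hK hKY P hlog (by omega) hKN hCs (fun p => 2 * p) (by
      intro p hp
      have := hP p hp
      rw [abs_of_pos (by omega)]; omega)
    have h6 := quad_W h hK hKY P hlog (by omega) hKN hCs (fun p => -2 * p) (by
      intro p hp
      have := hP p hp
      rw [abs_of_neg (by omega)]; omega)
    have hF := h.sum_f
    have hF0 : 0 ≤ ∑ z ∈ AA N, ind B z := Finset.sum_nonneg (fun _ _ => ind_nonneg _ _)
    have h7 : ∑ t ∈ Tri U B, W Y (t.2.1 - t.2.2) ≤ Real.exp 24 * (2 * (C * N + ε * N) * C ^ 2 * (2 * P.card) * (2 * P.card + (2 * m) * Cs)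
            + 2 * (ε * N) ^ 2 * (2 * P.card) * (1 + C1 * K)) := by
      refine h3.trans ?_
      gcongr
    refine (add_le_add h1 h2).trans ?_
    rw [← mul_add]
    apply mul_le_mul_of_nonneg_left _ (by positivity)
    have e1 := mul_le_mul_of_nonneg_left h7 (show 0 ≤ 4 * ((MP Y)⁻¹) ^ 3 by positivity)
    have e2 := mul_le_mul_of_nonneg_left (add_le_add (add_le_add h4 h5) h6) (show 0 ≤ 8 * ((MP Y)⁻¹) ^ 4 by positivity)
    linarith

end Pool.Agent.H93.DC
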