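import Pool.Agent.H93.DC.Deficit
import Pool.Agent.H93.DC.Gain

/-! From deficits and a matching to a double covering. -/

namespace Pool.Agent.H93.DC

open Finset

/-- a double covering of `[1, n]` -/
def DoubleCovering (n : ℕ) (a : (p : ℕ) → ZMod p) : Prop :=
  ∀ x ∈ Finset.Icc 1 n, ∃ p q : ℕ, p ≠ q ∧ p.Prime ∧ q.Prime ∧ p ≤ n ∧ q ≤ n ∧
    (x : ZMod p) = a p ∧ (x : ZMod q) = a q

lemma assign (X : Finset ℕ) (d : ℕ → ℕ) (P : Finset ℕ) (h : ∑ x ∈ X, d x ≤ P.card) :
    ∃ β : ℕ → ℕ, ∀ x ∈ X, d x ≤ (P.filter (fun p => β p = x)).card := by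
  classical
  induction X using Finset.induction_on generalizing P with
  | empty => exact ⟨fun _ => 0, by simp⟩
  | insert x X hx ih =>
    rw [Finset.sum_insert hx] at h
    obtain ⟨Px, hPx, hcard⟩ := Finset.exists_subset_card_eq (show d x ≤ P.card by omega)
    obtain ⟨β, hβ⟩ := ih (P \ Px) (by
      rw [Finset.card_sdiff_of_subset hPx]; omega)
    refine ⟨fun p => if p ∈ Px then x else β p, ?_⟩
    intro y hy
    rw [Finset.mem_insert] at hy
    rcases hy with rfl | hy
    · rw [← hcard]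
      apply Finset.card_le_card
      intro p hp
      rw [Finset.mem_filter]
      exact ⟨hPx hp, by simp [hp]⟩
    · refine (hβ y hy).trans ?_
      apply Finset.card_le_card
      intro p hp
      rw [Finset.mem_filter, Finset.mem_sdiff] at hp
      rw [Finset.mem_filter]
      exact ⟨hp.1.1, by simp [hp.1.2, hp.2]⟩

/-- positive integers version of `PP`. -/
def PZ (N : ℕ) : Finset ℤ := (PP N).image (fun p : ℕ => (p : ℤ))

lemma mem_PZ {N : ℕ} {p : ℤ} : p ∈ PZ N ↔ ∃ q : ℕ, q.Prime ∧ N < 5 * q ∧ 4 * q ≤ N ∧ (q : ℤ) = p := by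
  unfold PZ
  rw [Finset.mem_image]
  constructor
  · rintro ⟨q, hq, rfl⟩
    rw [mem_PP] at hq
    exact ⟨q, hq.1, hq.2.1, hq.2.2, rfl⟩
  · rintro ⟨q, h1, h2, h3, rfl⟩
    exact ⟨q, mem_PP.mpr ⟨h1, h2, h3⟩, rfl⟩

lemma med_B1 {N Y K T : ℕ} (hK : 1 ≤ K) (hY : 1 ≤ Y) (hKT : K ≤ T ^ 2) {n : ℕ} (hn : (n : ℤ) ∈ B1 N Y T) :
    med N Y K n = 1 ∧ 1 ≤ n ∧ n ≤ N := by
  unfold B1 at hn
  rw [Finset.mem_filter] at hn
  obtain ⟨hA, q, hq, hd, hlo, hhi⟩ := hn
  have hn0 : (0 : ℤ) < n := lt_of_le_of_lt (by positivity) hlo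
  have hq' := mem_Qs.mp hq
  refine ⟨?_, by omega, ?_⟩
  · unfold med
    rw [Finset.card_eq_one]
    refine ⟨q, ?_⟩
    ext q'
    rw [Finset.mem_filter, Finset.mem_singleton, mem_Med hK]
    constructor
    · rintro ⟨⟨h1, h2, _⟩, h3⟩
      exact rep_unique hY hq hd hn0 hhi h1 h2 (by exact_mod_cast h3)
    · rintro rfl
      refine ⟨⟨hq'.1, hq'.2.1, ?_⟩, by exact_mod_cast hd⟩
      calc K * q' ≤ T ^ 2 * q' := Nat.mul_le_mul_right _ hKT
        _ = q' * T ^ 2 := mul_comm _ _
        _ ≤ N := hq'.2.2.1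
  · unfold AA at hA
    rw [Finset.mem_Icc] at hA
    exact_mod_cast hA.2

theorem cover {N Y K T : ℕ} (hK : 5 ≤ K) (hY : 1 ≤ Y) (hKT : K ≤ T ^ 2) (hKYN : K * Y ≤ N)
    (a : ↥(Y.primesBelow) → ℤ) (I : Finset (ℤ × ℤ)) (hI : IsMat (PZ N) (SV (B1 N Y T) a) I)
    (hdef : ∑ x ∈ Icc 1 N, dfc N K a x ≤ (Big N K).card + I.card) :
    ∃ cls : (p : ℕ) → ZMod p, DoubleCovering N cls := by
  classical
  obtain ⟨hI1, hI2⟩ := hI
  -- edge facts
  have hedge : ∀ q ∈ I, ∃ p n : ℕ, q = ((p : ℤ), (n : ℤ)) ∧ p ∈ PP N ∧ (n : ℤ) ∈ B1 N Y T ∧ sur a (n : ℤ) ∧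
      ((n + 2 * p : ℕ) : ℤ) ∈ B1 N Y T ∧ sur a ((n + 2 * p : ℕ) : ℤ) := by
    intro q hq
    have h := hI1 hq
    unfold edges at h
    rw [Finset.mem_filter, Finset.mem_product] at h
    obtain ⟨⟨h1, h2⟩, h3⟩ := h
    unfold SV at h2 h3
    rw [Finset.mem_filter] at h2 h3
    rw [mem_PZ] at h1
    obtain ⟨p, hp1, hp2, hp3, hp4⟩ := h1
    have h4 : q.2 ∈ AA N := by
      have := h2.1
      unfold B1 at this
      rw [Finset.mem_filter] at this
      exact this.1
    unfold AA at h4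
    rw [Finset.mem_Icc] at h4
    obtain ⟨n, hn⟩ : ∃ n : ℕ, q.2 = n := ⟨q.2.toNat, by omega⟩
    refine ⟨p, n, ?_, mem_PP.mpr ⟨hp1, hp2, hp3⟩, ?_, ?_, ?_, ?_⟩
    · rw [← hn, hp4]
    · rw [← hn]; exact h2.1
    · rw [← hn]; exact h2.2
    · push_cast; rw [← hn, hp4]; exact h3.1
    · push_cast; rw [← hn, hp4]; exact h3.2
  -- deficits at vertices are one
  have hdfc1 : ∀ n : ℕ, (n : ℤ) ∈ B1 N Y T → sur a (n : ℤ) → dfc N K a n = 1 := by
    intro n h1 h2
    unfold dfc
    rw [(med_B1 (by omega) hY hKT h1).1, (sml_zero a n).mpr h2]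
  set V : Finset ℕ := I.image (fun q => q.2.toNat) ∪ I.image (fun q => (q.2 + 2 * q.1).toNat) with hV
  have hVmem : ∀ n ∈ V, (n : ℤ) ∈ B1 N Y T ∧ sur a (n : ℤ) := by
    intro n hn
    rw [hV, Finset.mem_union, Finset.mem_image, Finset.mem_image] at hn
    rcases hn with ⟨q, hq, rfl⟩ | ⟨q, hq, rfl⟩
    · obtain ⟨p, m, rfl, _, h1, h2, _, _⟩ := hedge q hq
      simp only [Int.toNat_natCast]
      exact ⟨h1, h2⟩
    · obtain ⟨p, m, rfl, _, _, _, h1, h2⟩ := hedge q hq
      have : ((m : ℤ) + 2 * (p : ℤ)).toNat = m + 2 * p := by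
        have : (m : ℤ) + 2 * (p : ℤ) = ((m + 2 * p : ℕ) : ℤ) := by push_cast; ring
        rw [this, Int.toNat_natCast]
      simp only [this]
      exact ⟨h1, h2⟩
  have hVcard : V.card = 2 * I.card := by
    rw [hV, Finset.card_union_of_disjoint, Finset.card_image_of_injOn, Finset.card_image_of_injOn]
    · ring
    · intro q hq q' hq' h
      rw [Finset.mem_coe] at hq hq'
      by_contra hne
      apply hI2 q hq q' hq' hne
      obtain ⟨p, m, rfl, _⟩ := hedge q hq
      obtain ⟨p', m', rfl, _⟩ := hedge q' hq'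
      simp only at h
      unfold Rc
      simp only
      omega
    · intro q hq q' hq' h
      rw [Finset.mem_coe] at hq hq'
      by_contra hne
      apply hI2 q hq q' hq' hne
      obtain ⟨p, m, rfl, _⟩ := hedge q hq
      obtain ⟨p', m', rfl, _⟩ := hedge q' hq'
      simp only at h
      unfold Rc
      simp only
      omega
    · rw [Finset.disjoint_left]
      intro n h1 h2
      rw [Finset.mem_image] at h1 h2
      obtain ⟨q, hq, hqn⟩ := h1
      obtain ⟨q', hq', hqn'⟩ := h2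
      obtain ⟨p, m, rfl, hp, _⟩ := hedge q hq
      obtain ⟨p', m', rfl, hp', _⟩ := hedge q' hq'
      simp only at hqn hqn'
      have hp0 := (mem_PP.mp hp').1.pos
      by_cases hne : ((p : ℤ), (m : ℤ)) = ((p' : ℤ), (m' : ℤ))
      · rw [Prod.mk.injEq] at hne
        omega
      · apply hI2 _ hq _ hq' hne
        unfold Rc
        simp only
        omega
  have hVsub : V ⊆ Icc 1 N := by
    intro n hn
    have := med_B1 (K := K) (by omega) hY hKT (hVmem n hn).1
    rw [Finset.mem_Icc]; exact this.2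
  -- matched primes
  set Pm : Finset ℕ := I.image (fun q => q.1.toNat) with hPm
  have hPmcard : Pm.card = I.card := by
    rw [hPm, Finset.card_image_of_injOn]
    intro q hq q' hq' h
    rw [Finset.mem_coe] at hq hq'
    by_contra hne
    apply hI2 q hq q' hq' hne
    obtain ⟨p, m, rfl, _⟩ := hedge q hq
    obtain ⟨p', m', rfl, _⟩ := hedge q' hq'
    simp only at h
    unfold Rc
    simp only
    omega
  have hPmBig : Pm ⊆ Big N K := by
    intro p hp
    rw [hPm, Finset.mem_image] at hp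
    obtain ⟨q, hq, rfl⟩ := hp
    obtain ⟨p, m, rfl, hp, _⟩ := hedge q hq
    simp only [Int.toNat_natCast]
    rw [mem_PP] at hp
    unfold Big
    rw [Finset.mem_filter, Finset.mem_range]
    refine ⟨by omega, hp.1, ?_⟩
    nlinarith [hp.2.1]
  -- remaining demand
  set d' : ℕ → ℕ := fun x => if x ∈ V then 0 else dfc N K a x with hd'
  have hsum : ∑ x ∈ Icc 1 N, d' x + V.card = ∑ x ∈ Icc 1 N, dfc N K a x := by
    have h1 : V.card = ∑ x ∈ Icc 1 N, (if x ∈ V then 1 else 0) := by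
      rw [Finset.sum_ite_mem, Finset.inter_eq_right.mpr hVsub, Finset.sum_const, smul_eq_mul, mul_one]
    rw [h1, ← Finset.sum_add_distrib]
    refine Finset.sum_congr rfl fun x _ => ?_
    rw [hd']
    simp only
    split_ifs with h
    · rw [hdfc1 x (hVmem x h).1 (hVmem x h).2]
    · rfl
  have hpool : ∑ x ∈ Icc 1 N, d' x ≤ (Big N K \ Pm).card := by
    rw [Finset.card_sdiff_of_subset hPmBig]
    omega
  obtain ⟨β', hβ'⟩ := assign (Icc 1 N) d' (Big N K \ Pm) hpool
  -- the class of the big primes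
  set β : ℕ → ℕ := fun p => if h : ∃ q ∈ I, q.1 = (p : ℤ) then (Classical.choose h).2.toNat else β' p with hβ
  have hβI : ∀ (p m : ℕ), ((p : ℤ), (m : ℤ)) ∈ I → β p = m := by
    intro p m hpm
    have h : ∃ q ∈ I, q.1 = (p : ℤ) := ⟨_, hpm, rfl⟩
    rw [hβ]
    simp only
    rw [dif_pos h]
    have hs := Classical.choose_spec h
    set q := Classical.choose h
    by_cases hne : q = ((p : ℤ), (m : ℤ))
    · rw [hne]; simp
    · exfalso
      apply hI2 q hs.1 _ hpm hne
      unfold Rc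
      left; exact hs.2
  have hβnot : ∀ p : ℕ, p ∉ Pm → β p = β' p := by
    intro p hp
    rw [hβ]
    simp only
    rw [dif_neg]
    rintro ⟨q, hq, hqp⟩
    apply hp
    rw [hPm, Finset.mem_image]
    exact ⟨q, hq, by rw [hqp]; simp⟩
  set cls : (p : ℕ) → ZMod p := fun p => if h : p ∈ Y.primesBelow then ((a ⟨p, h⟩ : ℤ) : ZMod p) else
    if K * p ≤ N then 0 else (β p : ZMod p) with hcls
  refine ⟨cls, ?_⟩
  intro x hx
  -- the big primes covering x
  have hbig : dfc N K a x ≤ ((Big N K).filter (fun p => (x : ZMod p) = (β p : ZMod p))).card := by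
    by_cases hxV : x ∈ V
    · rw [hdfc1 x (hVmem x hxV).1 (hVmem x hxV).2]
      apply Finset.card_pos.mpr
      rw [hV, Finset.mem_union, Finset.mem_image, Finset.mem_image] at hxV
      rcases hxV with ⟨q, hq, hqx⟩ | ⟨q, hq, hqx⟩
      · obtain ⟨p, m, rfl, hp, _⟩ := hedge q hq
        simp only [Int.toNat_natCast] at hqx
        refine ⟨p, ?_⟩
        rw [Finset.mem_filter]
        refine ⟨hPmBig ?_, ?_⟩
        · rw [hPm, Finset.mem_image]; exact ⟨_, hq, by simp⟩
        · rw [hβI p m hq, hqx]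
      · obtain ⟨p, m, rfl, hp, _⟩ := hedge q hq
        have h2 : ((m : ℤ) + 2 * (p : ℤ)).toNat = m + 2 * p := by
          have : (m : ℤ) + 2 * (p : ℤ) = ((m + 2 * p : ℕ) : ℤ) := by push_cast; ring
          rw [this, Int.toNat_natCast]
        simp only [h2] at hqx
        refine ⟨p, ?_⟩
        rw [Finset.mem_filter]
        refine ⟨hPmBig ?_, ?_⟩
        · rw [hPm, Finset.mem_image]; exact ⟨_, hq, by simp⟩
        · rw [hβI p m hq, ← hqx]
          push_cast
          rw [ZMod.natCast_self]; ring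
    · have h1 := hβ' x hx
      have h2 : d' x = dfc N K a x := by rw [hd']; simp only; rw [if_neg hxV]
      rw [h2] at h1
      refine h1.trans ?_
      apply Finset.card_le_card
      intro p hp
      rw [Finset.mem_filter, Finset.mem_sdiff] at hp
      rw [Finset.mem_filter]
      refine ⟨hp.1.1, ?_⟩
      rw [hβnot p hp.1.2, hp.2]
  -- total count
  set Cx : Finset ℕ := (range (N + 1)).filter (fun p => p.Prime ∧ (x : ZMod p) = cls p) with hCx
  set S1 : Finset ℕ := (Finset.univ.filter (fun i : ↥(Y.primesBelow) => (x : ℤ) % (i : ℕ) = a i)).image (fun i : ↥(Y.primesBelow) => (i : ℕ)) with hS1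
  set S2 : Finset ℕ := (Med N Y K).filter (fun q => q ∣ x) with hS2
  set S3 : Finset ℕ := (Big N K).filter (fun p => (x : ZMod p) = (β p : ZMod p)) with hS3
  have hYN : Y ≤ N := by nlinarith
  have hsub1 : S1 ⊆ Cx := by
    intro p hp
    rw [hS1, Finset.mem_image] at hp
    obtain ⟨i, hi, rfl⟩ := hp
    rw [Finset.mem_filter] at hi
    have hi2 := Nat.lt_of_mem_primesBelow i.2
    rw [hCx, Finset.mem_filter, Finset.mem_range]
    refine ⟨by omega, Nat.prime_of_mem_primesBelow i.2, ?_⟩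
    rw [hcls]
    simp only
    rw [dif_pos i.2]
    have h1 := hi.2
    have h2 : (((x : ℤ) % ((i : ℕ) : ℤ) : ℤ) : ZMod (i : ℕ)) = ((x : ℤ) : ZMod (i : ℕ)) := by
      exact (ZMod.intCast_mod (x : ℤ) (i : ℕ))
    rw [show (⟨(i : ℕ), i.2⟩ : ↥(Y.primesBelow)) = i from rfl, ← h1, h2]
    simp
  have hsub2 : S2 ⊆ Cx := by
    intro p hp
    rw [hS2, Finset.mem_filter] at hp
    have hp2 := (mem_Med (show 1 ≤ K by omega)).mp hp.1
    have hp3 : p ≤ N := by nlinarith [hp2.2.2]
    rw [hCx, Finset.mem_filter, Finset.mem_range]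
    refine ⟨by omega, hp2.1, ?_⟩
    rw [hcls]
    simp only
    have hns : p ∉ Y.primesBelow := by
      intro h
      have := Nat.lt_of_mem_primesBelow h
      omega
    rw [dif_neg hns, if_pos hp2.2.2]
    exact (ZMod.natCast_eq_zero_iff x p).mpr hp.2
  have hsub3 : S3 ⊆ Cx := by
    intro p hp
    rw [hS3, Finset.mem_filter] at hp
    unfold Big at hp
    rw [Finset.mem_filter, Finset.mem_range] at hp
    rw [hCx, Finset.mem_filter, Finset.mem_range]
    refine ⟨hp.1.1, hp.1.2.1, ?_⟩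
    rw [hcls]
    simp only
    have hns : p ∉ Y.primesBelow := by
      intro h
      have h2 := Nat.lt_of_mem_primesBelow h
      have h3 : K * p ≤ K * Y := Nat.mul_le_mul_left _ h2.le
      omega
    rw [dif_neg hns, if_neg (by omega)]
    exact hp.2
  have hd12 : Disjoint S1 S2 := by
    rw [Finset.disjoint_left]
    intro p h1 h2
    rw [hS1, Finset.mem_image] at h1
    obtain ⟨i, _, rfl⟩ := h1
    rw [hS2, Finset.mem_filter, mem_Med (by omega)] at h2
    have := Nat.lt_of_mem_primesBelow i.2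
    omega
  have hd3 : Disjoint (S1 ∪ S2) S3 := by
    rw [Finset.disjoint_left]
    intro p h1 h2
    rw [hS3, Finset.mem_filter] at h2
    unfold Big at h2
    rw [Finset.mem_filter] at h2
    rw [Finset.mem_union] at h1
    rcases h1 with h1 | h1
    · rw [hS1, Finset.mem_image] at h1
      obtain ⟨i, _, rfl⟩ := h1
      have h4 := Nat.lt_of_mem_primesBelow i.2
      have h3 : K * (i : ℕ) ≤ K * Y := Nat.mul_le_mul_left _ h4.le
      omega
    · rw [hS2, Finset.mem_filter, mem_Med (by omega)] at h1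
      omega
  have hcardS1 : S1.card = sml a x := by
    rw [hS1, Finset.card_image_of_injective _ Subtype.val_injective]
    rfl
  have hcardS2 : S2.card = med N Y K x := rfl
  have htot : 2 ≤ Cx.card := by
    have h1 : S1 ∪ S2 ∪ S3 ⊆ Cx := Finset.union_subset (Finset.union_subset hsub1 hsub2) hsub3
    have h2 := Finset.card_le_card h1
    rw [Finset.card_union_of_disjoint hd3, Finset.card_union_of_disjoint hd12, hcardS1, hcardS2] at h2
    have h3 : dfc N K a x ≤ S3.card := hbig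
    unfold dfc at h3
    omega
  obtain ⟨p, hp, q, hq, hpq⟩ := Finset.one_lt_card.mp (show 1 < Cx.card by omega)
  rw [hCx, Finset.mem_filter, Finset.mem_range] at hp hq
  exact ⟨p, q, hpq, hp.2.1, hq.2.1, by omega, by omega, hp.2.2, hq.2.2⟩

end Pool.Agent.H93.DC
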