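import Pool.Agent.H93.DC.PNTc

/-! Deficits of the basic covering. -/

namespace Pool.Agent.H93.DC

open Finset

/-- medium primes -/
def Med (N Y K : ℕ) : Finset ℕ := (range (N + 1)).filter (fun q => q.Prime ∧ Y ≤ q ∧ K * q ≤ N)

lemma mem_Med {N Y K q : ℕ} (hK : 1 ≤ K) : q ∈ Med N Y K ↔ q.Prime ∧ Y ≤ q ∧ K * q ≤ N := by
  unfold Med
  rw [Finset.mem_filter, Finset.mem_range]
  constructor
  · exact fun h => h.2
  · intro h; exact ⟨by nlinarith [h.2.2], h⟩

/-- number of medium primes dividing `x` -/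
def med (N Y K : ℕ) (x : ℕ) : ℕ := ((Med N Y K).filter (fun q => q ∣ x)).card

/-- number of small classes containing `x` -/
def sml {Y : ℕ} (a : ↥(Y.primesBelow) → ℤ) (x : ℕ) : ℕ :=
  (Finset.univ.filter (fun i : ↥(Y.primesBelow) => (x : ℤ) % (i : ℕ) = a i)).card

/-- the deficit -/
def dfc (N K : ℕ) {Y : ℕ} (a : ↥(Y.primesBelow) → ℤ) (x : ℕ) : ℕ := 2 - (sml a x + med N Y K x)

def Aset (N Y K : ℕ) : Finset ℕ := (Icc 1 N).filter (fun x => med N Y K x = 0)
def Bset (N Y K : ℕ) : Finset ℕ := (Icc 1 N).filter (fun x => med N Y K x = 1)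

lemma sml_zero {Y : ℕ} (a : ↥(Y.primesBelow) → ℤ) (x : ℕ) : sml a x = 0 ↔ sur a (x : ℤ) := by
  unfold sml sur
  rw [Finset.card_eq_zero, Finset.filter_eq_empty_iff]
  simp

lemma sml_one {Y : ℕ} (a : ↥(Y.primesBelow) → ℤ) (x : ℕ) (h : sml a x = 1) : ex1 a (x : ℤ) := by
  unfold sml at h
  rw [Finset.card_eq_one] at h
  obtain ⟨i, hi⟩ := h
  refine ⟨i, ?_, ?_⟩
  · have : i ∈ Finset.univ.filter (fun i : ↥(Y.primesBelow) => (x : ℤ) % (i : ℕ) = a i) := by
      rw [hi]; simp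
    rw [Finset.mem_filter] at this
    exact this.2
  · intro j hj hc
    have : j ∈ Finset.univ.filter (fun i : ↥(Y.primesBelow) => (x : ℤ) % (i : ℕ) = a i) := by
      rw [Finset.mem_filter]; exact ⟨Finset.mem_univ _, hc⟩
    rw [hi, Finset.mem_singleton] at this
    exact hj this

lemma sum_dfc (N Y K : ℕ) :
    ∑ a ∈ Om Y, ∑ x ∈ Icc 1 N, (dfc N K a x : ℝ) ≤ (Om Y).card *
      ((MP Y)⁻¹ * (Bset N Y K).card + (MP Y)⁻¹ * (2 + ∑ l ∈ Y.primesBelow, 1 / ((l : ℝ) - 1)) * (Aset N Y K).card) := by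
  classical
  rw [Finset.sum_comm]
  have hsur : ∀ x : ℕ, ∑ a ∈ Om Y, (if sur a (x : ℤ) then (1 : ℝ) else 0) = (Om Y).card * (MP Y)⁻¹ := by
    intro x
    rw [Finset.sum_boole]
    have := count_sur (Y := Y) {(x : ℤ)}
    rw [pr_singleton] at this
    rw [← this]
    congr 2
    apply Finset.filter_congr
    intro a _; simp
  have hex1 : ∀ x : ℕ, ∑ a ∈ Om Y, (if ex1 a (x : ℤ) then (1 : ℝ) else 0)
      ≤ (Om Y).card * ((MP Y)⁻¹ * ∑ l ∈ Y.primesBelow, 1 / ((l : ℝ) - 1)) := by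
    intro x
    rw [Finset.sum_boole]
    exact count_ex1 Y x
  have hA : ∀ x ∈ Aset N Y K, ∑ a ∈ Om Y, (dfc N K a x : ℝ) ≤
      (Om Y).card * ((MP Y)⁻¹ * (2 + ∑ l ∈ Y.primesBelow, 1 / ((l : ℝ) - 1))) := by
    intro x hx
    rw [Aset, Finset.mem_filter] at hx
    have h1 : ∀ a ∈ Om Y, (dfc N K a x : ℝ) ≤ 2 * (if sur a (x : ℤ) then (1 : ℝ) else 0) + (if ex1 a (x : ℤ) then (1 : ℝ) else 0) := by
      intro a _
      unfold dfc
      rw [hx.2]
      rcases Nat.lt_trichotomy (sml a x) 1 with h | h | h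
      · have h0 : sml a x = 0 := by omega
        rw [if_pos ((sml_zero a x).mp h0), h0]
        split_ifs <;> norm_num
      · rw [if_pos (sml_one a x h), h]
        split_ifs <;> norm_num
      · have : 2 - (sml a x + 0) = 0 := by omega
        rw [this]
        split_ifs <;> norm_num
    refine (Finset.sum_le_sum h1).trans ?_
    rw [Finset.sum_add_distrib, ← Finset.mul_sum, hsur]
    have := hex1 x
    nlinarith
  have hB : ∀ x ∈ Bset N Y K, ∑ a ∈ Om Y, (dfc N K a x : ℝ) ≤ (Om Y).card * (MP Y)⁻¹ := by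
    intro x hx
    rw [Bset, Finset.mem_filter] at hx
    rw [← hsur x]
    apply Finset.sum_le_sum
    intro a _
    unfold dfc
    rw [hx.2]
    split_ifs with h
    · rw [(sml_zero a x).mpr h]; norm_num
    · have h0 : sml a x ≠ 0 := fun h0 => h ((sml_zero a x).mp h0)
      have : 2 - (sml a x + 1) = 0 := by omega
      rw [this]; norm_num
  have hother : ∀ x ∈ Icc 1 N, x ∉ Aset N Y K ∪ Bset N Y K → ∑ a ∈ Om Y, (dfc N K a x : ℝ) = 0 := by
    intro x hx hn
    rw [Finset.mem_union, Aset, Bset, Finset.mem_filter, Finset.mem_filter] at hn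
    push Not at hn
    have h0 := hn.1 hx
    have h1 := hn.2 hx
    apply Finset.sum_eq_zero
    intro a _
    unfold dfc
    have : 2 - (sml a x + med N Y K x) = 0 := by omega
    rw [this]; norm_num
  have hsubAB : Aset N Y K ∪ Bset N Y K ⊆ Icc 1 N :=
    Finset.union_subset (Finset.filter_subset _ _) (Finset.filter_subset _ _)
  rw [← Finset.sum_subset hsubAB hother, Finset.sum_union]
  · have h1 := Finset.sum_le_sum hA
    have h2 := Finset.sum_le_sum hB
    rw [Finset.sum_const, nsmul_eq_mul] at h1 h2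
    nlinarith
  · rw [Finset.disjoint_left]
    intro x h1 h2
    rw [Aset, Finset.mem_filter] at h1
    rw [Bset, Finset.mem_filter] at h2
    omega

/-- smooth numbers up to `N` -/
def Sm (N Y : ℕ) : Finset ℕ := Nat.smoothNumbersUpTo N Y

lemma mem_Sm {N Y m : ℕ} : m ∈ Sm N Y ↔ m ≤ N ∧ m ∈ Y.smoothNumbers := Nat.mem_smoothNumbersUpTo

/-- pairs `(m, p)` with `m p ≤ N` -/
lemma pairs_card (M : Finset ℕ) (hM : ∀ m ∈ M, 1 ≤ m) (N : ℕ) (X : Finset ℕ)
    (hX : ∀ x ∈ X, ∃ m ∈ M, ∃ p : ℕ, p.Prime ∧ m * p ≤ N ∧ x = m * p) :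
    X.card ≤ ∑ m ∈ M, Nat.primeCounting (N / m) := by
  classical
  have hsub : X ⊆ M.biUnion (fun m => ((range (N / m + 1)).filter Nat.Prime).image (fun p => m * p)) := by
    intro x hx
    obtain ⟨m, hm, p, hp, hmp, rfl⟩ := hX x hx
    rw [Finset.mem_biUnion]
    refine ⟨m, hm, ?_⟩
    rw [Finset.mem_image]
    refine ⟨p, ?_, rfl⟩
    rw [Finset.mem_filter, Finset.mem_range, Nat.lt_succ_iff, Nat.le_div_iff_mul_le (hM m hm)]
    exact ⟨by rw [mul_comm]; exact hmp, hp⟩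
  refine (Finset.card_le_card hsub).trans (Finset.card_biUnion_le.trans ?_)
  apply Finset.sum_le_sum
  intro m _
  refine Finset.card_image_le.trans ?_
  rw [card_primes_le]

lemma card_Aset_le {N Y K : ℕ} (hK : 1 ≤ K) :
    (Aset N Y K).card ≤ (Sm N Y).card + ∑ m ∈ Ico 1 K, Nat.primeCounting (N / m) := by
  classical
  set X := (Aset N Y K).filter (fun x => x ∉ Sm N Y) with hX
  have hsub : Aset N Y K ⊆ Sm N Y ∪ X := by
    intro x hx
    rw [Finset.mem_union, hX, Finset.mem_filter]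
    by_cases h : x ∈ Sm N Y
    · exact Or.inl h
    · exact Or.inr ⟨hx, h⟩
  refine (Finset.card_le_card hsub).trans ((Finset.card_union_le _ _).trans ?_)
  apply Nat.add_le_add_left
  apply pairs_card (Ico 1 K) (fun m hm => (Finset.mem_Ico.mp hm).1)
  intro x hx
  rw [hX, Finset.mem_filter, Aset, Finset.mem_filter, Finset.mem_Icc] at hx
  obtain ⟨⟨⟨hx1, hxN⟩, hmed⟩, hns⟩ := hx
  rw [mem_Sm, not_and] at hns
  have h1 := hns hxN
  rw [Nat.mem_smoothNumbers'] at h1
  push Not at h1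
  obtain ⟨p, hp, hpx, hYp⟩ := h1
  obtain ⟨m, rfl⟩ := hpx
  have hm0 : 0 < m := by
    rcases Nat.eq_zero_or_pos m with h | h
    · rw [h] at hx1; omega
    · exact h
  have hpK : N < K * p := by
    by_contra hc
    push Not at hc
    unfold med at hmed
    rw [Finset.card_eq_zero, Finset.filter_eq_empty_iff] at hmed
    exact hmed ((mem_Med hK).mpr ⟨hp, hYp, hc⟩) (dvd_mul_right p m)
  refine ⟨m, ?_, p, hp, by rw [mul_comm]; exact hxN, mul_comm _ _⟩
  rw [Finset.mem_Ico]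
  refine ⟨hm0, ?_⟩
  by_contra hc
  push Not at hc
  have : K * p ≤ p * m := by rw [mul_comm p m]; exact Nat.mul_le_mul_right p hc
  omega

lemma card_Bset_le {N Y K : ℕ} (hK : 1 ≤ K) (hKY : K ≤ Y) :
    ((Bset N Y K).card : ℝ) ≤ ∑ m ∈ Sm N Y, (Nat.primeCounting (N / m) : ℝ) + 2 * N / Y := by
  classical
  have hY : 1 ≤ Y := hK.trans hKY
  set X2 := (Bset N Y K).filter (fun x => ∃ q ∈ Med N Y K, q ^ 2 ∣ x) with hX2
  set X1 := (Bset N Y K).filter (fun x => ¬ ∃ q ∈ Med N Y K, q ^ 2 ∣ x) with hX1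
  have hsplit : (Bset N Y K).card = X2.card + X1.card := by
    rw [hX1, hX2, Finset.card_filter_add_card_filter_not]
  have h1 : X1.card ≤ ∑ m ∈ Sm N Y, Nat.primeCounting (N / m) := by
    apply pairs_card (Sm N Y) (fun m hm => Nat.pos_of_ne_zero (Nat.ne_zero_of_mem_smoothNumbers (mem_Sm.mp hm).2))
    intro x hx
    rw [hX1, Finset.mem_filter, Bset, Finset.mem_filter, Finset.mem_Icc] at hx
    obtain ⟨⟨⟨hx1, hxN⟩, hmed⟩, hns⟩ := hx
    push Not at hns
    unfold med at hmed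
    rw [Finset.card_eq_one] at hmed
    obtain ⟨q, hq⟩ := hmed
    have hqm : q ∈ (Med N Y K).filter (fun q => q ∣ x) := by rw [hq]; simp
    rw [Finset.mem_filter, mem_Med hK] at hqm
    obtain ⟨⟨hqp, hYq, hKq⟩, hqx⟩ := hqm
    obtain ⟨m, rfl⟩ := hqx
    have hm0 : m ≠ 0 := by rintro rfl; omega
    refine ⟨m, ?_, q, hqp, by rw [mul_comm]; exact hxN, mul_comm _ _⟩
    rw [mem_Sm]
    refine ⟨?_, ?_⟩
    · exact le_trans (Nat.le_mul_of_pos_left m hqp.pos) hxN
    · rw [Nat.mem_smoothNumbers']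
      intro p hp hpm
      by_contra hc
      push Not at hc
      have hpx : p ∣ q * m := hpm.mul_left q
      by_cases hKp : K * p ≤ N
      · have : p ∈ (Med N Y K).filter (fun q' => q' ∣ q * m) := by
          rw [Finset.mem_filter, mem_Med hK]; exact ⟨⟨hp, hc, hKp⟩, hpx⟩
        rw [hq, Finset.mem_singleton] at this
        subst this
        apply hns p ((mem_Med hK).mpr ⟨hp, hc, hKp⟩)
        rw [sq]; exact Nat.mul_dvd_mul_left p hpm
      · push Not at hKp
        have h2 : p ≤ m := Nat.le_of_dvd (Nat.pos_of_ne_zero hm0) hpm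
        have h3 : K * p ≤ q * m := Nat.mul_le_mul (hKY.trans hYq) h2
        omega
  have h2 : (X2.card : ℝ) ≤ 2 * N / Y := by
    have hsub : X2 ⊆ (Med N Y K).biUnion (fun q => (Icc 1 N).filter (fun x => q ^ 2 ∣ x)) := by
      intro x hx
      rw [hX2, Finset.mem_filter, Bset, Finset.mem_filter] at hx
      obtain ⟨⟨hx1, _⟩, q, hq, hd⟩ := hx
      rw [Finset.mem_biUnion]
      exact ⟨q, hq, by rw [Finset.mem_filter]; exact ⟨hx1, hd⟩⟩
    have h3 : (X2.card : ℝ) ≤ ∑ q ∈ Med N Y K, (((Icc 1 N).filter (fun x => q ^ 2 ∣ x)).card : ℝ) := by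
      have := (Finset.card_le_card hsub).trans Finset.card_biUnion_le
      exact_mod_cast this
    refine h3.trans ?_
    have h4 : ∀ q ∈ Med N Y K, (((Icc 1 N).filter (fun x => q ^ 2 ∣ x)).card : ℝ) ≤ N * ((q : ℝ) ^ 2)⁻¹ := by
      intro q hq
      have hq0 : 0 < q := ((mem_Med hK).mp hq).1.pos
      have h5 : ((Icc 1 N).filter (fun x => q ^ 2 ∣ x)).card = N / q ^ 2 := by
        have := Nat.Ioc_filter_dvd_card_eq_div N (q ^ 2)
        have h6 : Icc 1 N = Ioc 0 N := by ext x; simp only [Finset.mem_Icc, Finset.mem_Ioc]; omega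
        rw [h6]; exact this
      rw [h5]
      have h7 := @Nat.cast_div_le ℝ _ _ _ N (q ^ 2)
      refine h7.trans (le_of_eq ?_)
      push_cast
      rw [div_eq_mul_inv]
    refine (Finset.sum_le_sum h4).trans ?_
    rw [← Finset.mul_sum]
    have h8 : ∑ q ∈ Med N Y K, ((q : ℝ) ^ 2)⁻¹ ≤ 2 / Y := by
      have h9 : Med N Y K ⊆ Ioo (Y - 1) (N + 1) := by
        intro q hq
        unfold Med at hq
        rw [Finset.mem_filter, Finset.mem_range] at hq
        rw [Finset.mem_Ioo]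
        omega
      refine (Finset.sum_le_sum_of_subset_of_nonneg h9 (fun _ _ _ => by positivity)).trans ?_
      have h10 := sum_Ioo_inv_sq_le (α := ℝ) (Y - 1) (N + 1)
      have h11 : ((Y - 1 : ℕ) : ℝ) + 1 = Y := by
        have : Y - 1 + 1 = Y := by omega
        exact_mod_cast this
      rw [h11] at h10
      exact h10
    calc (N : ℝ) * ∑ q ∈ Med N Y K, ((q : ℝ) ^ 2)⁻¹ ≤ N * (2 / Y) := by gcongr
      _ = 2 * N / Y := by ring
  rw [hsplit]
  push_cast
  have h1' : (X1.card : ℝ) ≤ ∑ m ∈ Sm N Y, (Nat.primeCounting (N / m) : ℝ) := by exact_mod_cast h1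
  linarith

end Pool.Agent.H93.DC
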