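import Mathlib

/-! Finite Fourier analysis: a Toeplitz operator norm bound. -/

namespace Pool.Agent.H93.DC

open Finset Complex

/-- additive character -/
noncomputable def e (t : ℝ) : ℂ := Complex.exp (2 * Real.pi * t * Complex.I)

lemma e_add (s t : ℝ) : e (s + t) = e s * e t := by
  unfold e; rw [← Complex.exp_add]; congr 1; push_cast; ring

lemma e_zero : e 0 = 1 := by simp [e]

lemma norm_e (t : ℝ) : ‖e t‖ = 1 := by
  unfold e
  have : (2 * Real.pi * t * Complex.I : ℂ) = ((2 * Real.pi * t : ℝ) : ℂ) * Complex.I := by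
    push_cast; ring
  rw [this, Complex.norm_exp_ofReal_mul_I]

lemma e_int (n : ℤ) : e n = 1 := by
  unfold e
  have : (2 * Real.pi * ((n : ℝ) : ℂ) * Complex.I : ℂ) = n * (2 * Real.pi * Complex.I) := by
    push_cast; ring
  rw [this, Complex.exp_int_mul_two_pi_mul_I]

lemma e_neg (t : ℝ) : e (-t) = (starRingEnd ℂ) (e t) := by
  unfold e
  rw [← Complex.exp_conj]
  congr 1
  simp only [map_mul, Complex.conj_ofReal, Complex.conj_I, map_ofNat]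
  push_cast; ring

lemma e_add_int (t : ℝ) (n : ℤ) : e (t + n) = e t := by rw [e_add, e_int, mul_one]

lemma e_nat_mul (n : ℕ) (t : ℝ) : e (n * t) = e t ^ n := by
  unfold e
  rw [← Complex.exp_nat_mul]
  congr 1
  push_cast; ring

/-- `e t = 1` only for integers. -/
lemma e_eq_one_iff (t : ℝ) : e t = 1 ↔ ∃ n : ℤ, t = n := by
  constructor
  · intro h
    unfold e at h
    rw [Complex.exp_eq_one_iff] at h
    obtain ⟨n, hn⟩ := h
    refine ⟨n, ?_⟩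
    have h2 : (2 * Real.pi * Complex.I : ℂ) ≠ 0 := by
      simp [Real.pi_ne_zero, Complex.I_ne_zero]
    have h3 : (t : ℂ) * (2 * Real.pi * Complex.I) = (n : ℂ) * (2 * Real.pi * Complex.I) := by
      rw [← hn]; ring
    have h4 := mul_right_cancel₀ h2 h3
    exact_mod_cast h4
  · rintro ⟨n, rfl⟩
    exact e_int n

lemma geom_e {Q : ℕ} (hQ : 0 < Q) (d : ℤ) :
    ∑ k ∈ range Q, e (k / Q * d) = if (Q : ℤ) ∣ d then (Q : ℂ) else 0 := by
  have hQ0 : (Q : ℝ) ≠ 0 := by exact_mod_cast hQ.ne'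
  split_ifs with h
  · obtain ⟨c, rfl⟩ := h
    have : ∀ k ∈ range Q, e ((k : ℝ) / Q * ((Q * c : ℤ) : ℝ)) = 1 := by
      intro k _
      have : (k : ℝ) / Q * ((Q * c : ℤ) : ℝ) = ((k * c : ℤ) : ℝ) := by
        push_cast; field_simp
      rw [this, e_int]
    rw [Finset.sum_congr rfl this]
    simp
  · have hz : ∀ k : ℕ, e ((k : ℝ) / Q * (d : ℝ)) = e ((d : ℝ) / Q) ^ k := by
      intro k
      rw [← e_nat_mul]
      congr 1
      ring
    simp_rw [hz]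
    have hne : e ((d : ℝ) / Q) ≠ 1 := by
      intro h1
      rw [e_eq_one_iff] at h1
      obtain ⟨n, hn⟩ := h1
      apply h
      refine ⟨n, ?_⟩
      rw [div_eq_iff hQ0] at hn
      have : (d : ℝ) = ((n * Q : ℤ) : ℝ) := by rw [hn]; push_cast; ring
      have h2 : d = n * Q := by exact_mod_cast this
      rw [h2]; ring
    rw [geom_sum_eq hne, ← e_nat_mul]
    have : (Q : ℝ) * ((d : ℝ) / Q) = ((d : ℤ) : ℝ) := by field_simp
    rw [this, e_int]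
    simp

lemma parseval {Q : ℕ} (hQ : 0 < Q) (X : Finset ℤ) (u : ℤ → ℝ)
    (hX : ∀ x ∈ X, ∀ x' ∈ X, x ≠ x' → ¬ ((Q : ℤ) ∣ (x - x'))) :
    ∑ k ∈ range Q, ‖∑ x ∈ X, (u x : ℂ) * e (k / Q * x)‖ ^ 2 = Q * ∑ x ∈ X, (u x) ^ 2 := by
  have h1 : ∀ k ∈ range Q, ((‖∑ x ∈ X, (u x : ℂ) * e ((k : ℝ) / Q * x)‖ ^ 2 : ℝ) : ℂ)
      = ∑ x ∈ X, ∑ x' ∈ X, (u x : ℂ) * (u x' : ℂ) * e ((k : ℝ) / Q * ((x - x' : ℤ) : ℝ)) := by
    intro k _
    rw [← Complex.normSq_eq_norm_sq, Complex.normSq_eq_conj_mul_self, map_sum, Finset.sum_mul_sum,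
      Finset.sum_comm]
    refine Finset.sum_congr rfl fun x _ => Finset.sum_congr rfl fun x' _ => ?_
    rw [map_mul, Complex.conj_ofReal, ← e_neg]
    have : e ((k : ℝ) / Q * ((x - x' : ℤ) : ℝ)) = e (-((k : ℝ) / Q * x')) * e ((k : ℝ) / Q * x) := by
      rw [← e_add]; congr 1; push_cast; ring
    rw [this]; ring
  have h2 : ((∑ k ∈ range Q, ‖∑ x ∈ X, (u x : ℂ) * e ((k : ℝ) / Q * x)‖ ^ 2 : ℝ) : ℂ)
      = ((Q * ∑ x ∈ X, (u x) ^ 2 : ℝ) : ℂ) := by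
    push_cast
    have h1' : ∑ k ∈ range Q, ((‖∑ x ∈ X, (u x : ℂ) * e ((k : ℝ) / Q * x)‖ : ℂ)) ^ 2
        = ∑ k ∈ range Q, ∑ x ∈ X, ∑ x' ∈ X, (u x : ℂ) * (u x' : ℂ) * e ((k : ℝ) / Q * ((x - x' : ℤ) : ℝ)) := by
      refine Finset.sum_congr rfl fun k hk => ?_
      rw [← h1 k hk]; push_cast; rfl
    rw [h1', Finset.sum_comm, Finset.mul_sum]
    refine Finset.sum_congr rfl fun x hx => ?_
    rw [Finset.sum_comm]
    have h3 : ∀ x' ∈ X, ∑ k ∈ range Q, (u x : ℂ) * (u x' : ℂ) * e ((k : ℝ) / Q * ((x - x' : ℤ) : ℝ))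
        = if x' = x then (Q : ℂ) * (u x) ^ 2 else 0 := by
      intro x' hx'
      rw [← Finset.mul_sum, geom_e hQ]
      split_ifs with h4 h5 h5
      · rw [h5]; ring
      · exact absurd h4 (hX x hx x' hx' (Ne.symm h5))
      · rw [h5] at h4; simp at h4
      · ring
    rw [Finset.sum_congr rfl h3, Finset.sum_ite_eq' X x]
    simp [hx]
  exact_mod_cast h2

/-- Toeplitz operator bound: `Σ_z (Σ_x u x a(z-x))² ≤ S² Σ u²`. -/
theorem toeplitz (A X Z : Finset ℤ) (a u : ℤ → ℝ) (ha : ∀ n, n ∉ A → a n = 0) {S : ℝ}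
    (hS : ∀ t : ℝ, ‖∑ n ∈ A, (a n : ℂ) * e (t * n)‖ ≤ S) :
    ∑ z ∈ Z, (∑ x ∈ X, u x * a (z - x)) ^ 2 ≤ S ^ 2 * ∑ x ∈ X, (u x) ^ 2 := by
  classical
  -- a big box
  obtain ⟨M, hM⟩ : ∃ M : ℕ, (∀ n ∈ A, |n| ≤ M) ∧ (∀ n ∈ X, |n| ≤ M) ∧ (∀ n ∈ Z, |n| ≤ M) := by
    refine ⟨(A ∪ X ∪ Z).sup (fun n => n.natAbs), ?_⟩
    have key : ∀ n ∈ A ∪ X ∪ Z, |n| ≤ (((A ∪ X ∪ Z).sup (fun n => n.natAbs) : ℕ) : ℤ) := by
      intro n hn
      have := Finset.le_sup (f := fun n : ℤ => n.natAbs) hn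
      have h2 : |n| = (n.natAbs : ℤ) := (Int.natCast_natAbs n).symm
      rw [h2]; exact_mod_cast this
    refine ⟨fun n hn => key n ?_, fun n hn => key n ?_, fun n hn => key n ?_⟩ <;>
      simp only [Finset.mem_union] <;> tauto
  obtain ⟨hMA, hMX, hMZ⟩ := hM
  set J : Finset ℤ := Finset.Icc (-(2 * M : ℤ)) (2 * M) with hJ
  set Q : ℕ := 4 * M + 1 with hQ
  have hQ0 : 0 < Q := by omega
  have hJX : ∀ x ∈ J, ∀ x' ∈ J, x ≠ x' → ¬ ((Q : ℤ) ∣ (x - x')) := by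
    intro x hx x' hx' hne hd
    rw [hJ, Finset.mem_Icc] at hx hx'
    have h0 : x - x' ≠ 0 := sub_ne_zero.mpr hne
    have := Int.le_of_dvd (abs_pos.mpr h0) ((dvd_abs _ _).mpr hd)
    have h3 : |x - x'| ≤ 4 * M := by rw [abs_le]; constructor <;> linarith [hx.1, hx.2, hx'.1, hx'.2]
    have h4 : (Q : ℤ) = 4 * M + 1 := by rw [hQ]; push_cast; ring
    linarith
  have hXJ : X ⊆ J := by
    intro x hx
    have := hMX x hx
    rw [hJ, Finset.mem_Icc]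
    rw [abs_le] at this
    constructor <;> linarith [this.1, this.2, abs_nonneg x]
  have hZJ : Z ⊆ J := by
    intro x hx
    have := hMZ x hx
    rw [hJ, Finset.mem_Icc]
    rw [abs_le] at this
    constructor <;> linarith [this.1, this.2, abs_nonneg x]
  set c : ℤ → ℝ := fun z => ∑ x ∈ X, u x * a (z - x) with hc
  have h1 : ∑ z ∈ Z, (c z) ^ 2 ≤ ∑ z ∈ J, (c z) ^ 2 :=
    Finset.sum_le_sum_of_subset_of_nonneg hZJ (fun _ _ _ => sq_nonneg _)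
  have hconv : ∀ k : ℕ, ∑ z ∈ J, (c z : ℂ) * e ((k : ℝ) / Q * z)
      = (∑ x ∈ X, (u x : ℂ) * e ((k : ℝ) / Q * x)) * (∑ n ∈ A, (a n : ℂ) * e ((k : ℝ) / Q * n)) := by
    intro k
    rw [Finset.sum_mul]
    have : ∀ z ∈ J, (c z : ℂ) * e ((k : ℝ) / Q * z)
        = ∑ x ∈ X, (u x : ℂ) * e ((k : ℝ) / Q * x) * ((a (z - x) : ℂ) * e ((k : ℝ) / Q * ((z - x : ℤ) : ℝ))) := by
      intro z _
      rw [hc]
      push_cast
      rw [Finset.sum_mul]
      refine Finset.sum_congr rfl fun x _ => ?_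
      have h3 : e ((k : ℝ) / Q * (z : ℝ)) = e ((k : ℝ) / Q * (x : ℝ)) * e ((k : ℝ) / Q * ((z : ℝ) - (x : ℝ))) := by
        rw [← e_add]; congr 1; ring
      rw [h3]; ring
    rw [Finset.sum_congr rfl this, Finset.sum_comm]
    refine Finset.sum_congr rfl fun x hx => ?_
    rw [← Finset.mul_sum]
    congr 1
    -- sum over z in J of function of z - x equals sum over A
    symm
    have hmap : ∑ z ∈ J, ((a (z - x) : ℂ) * e ((k : ℝ) / Q * ((z - x : ℤ) : ℝ)))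
        = ∑ n ∈ J.image (fun z => z - x), ((a n : ℂ) * e ((k : ℝ) / Q * (n : ℝ))) := by
      rw [Finset.sum_image]
      intro z1 _ z2 _ h; simpa using h
    rw [hmap]
    apply Finset.sum_subset
    · intro n hn
      rw [Finset.mem_image]
      refine ⟨n + x, ?_, by ring⟩
      have h5 := hMA n hn
      have h6 := hMX x hx
      rw [hJ, Finset.mem_Icc]
      rw [abs_le] at h5 h6
      constructor <;> linarith [h5.1, h5.2, h6.1, h6.2]
    · intro n _ hn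
      rw [ha n hn]; simp
  have hS0 : 0 ≤ S := le_trans (norm_nonneg _) (hS 0)
  have hPJ := parseval hQ0 J c hJX
  have hPX := parseval hQ0 X u (fun x hx x' hx' => hJX x (hXJ hx) x' (hXJ hx'))
  have h2 : ∑ k ∈ range Q, ‖∑ z ∈ J, (c z : ℂ) * e ((k : ℝ) / Q * z)‖ ^ 2
      ≤ S ^ 2 * ∑ k ∈ range Q, ‖∑ x ∈ X, (u x : ℂ) * e ((k : ℝ) / Q * x)‖ ^ 2 := by
    rw [Finset.mul_sum]
    apply Finset.sum_le_sum
    intro k _
    rw [hconv k, norm_mul, mul_pow, mul_comm]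
    gcongr
    exact hS _
  rw [hPJ, hPX] at h2
  have hQ1 : (0 : ℝ) < Q := by exact_mod_cast hQ0
  have h3 : ∑ z ∈ J, (c z) ^ 2 ≤ S ^ 2 * ∑ x ∈ X, (u x) ^ 2 := by
    have : (Q : ℝ) * ∑ z ∈ J, (c z) ^ 2 ≤ Q * (S ^ 2 * ∑ x ∈ X, (u x) ^ 2) := by
      calc _ ≤ S ^ 2 * (Q * ∑ x ∈ X, (u x) ^ 2) := h2
        _ = _ := by ring
    exact le_of_mul_le_mul_left this hQ1
  exact h1.trans h3

end Pool.Agent.H93.DC
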