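import Mathlib

/-! Numerical inequalities for the final assembly. -/

namespace Pool.Agent.H93.DC

/-- first numeric inequality -/
lemma num1 {σ P c C ε N u s1 : ℝ} (hu : 100 ≤ u) (hN : 1 ≤ N) (hs1 : 0 < s1) (hσ : s1 / u ^ 2 ≤ σ)
    (hP : N / (40 * u ^ 4) ≤ P) (hc : 1 / (8 * u ^ 2) ≤ c) (hC0 : 0 ≤ C) (hC : C ≤ 1) (hε0 : 0 ≤ ε) (hε : ε ≤ 1 / u ^ 20) :
    (s1 ^ 2 / 15360) * (N ^ 2 / u ^ 12) ≤
      σ ^ 2 * (P * (c ^ 2 * (N / 3)) - (1 + C) * (ε * N * (Real.sqrt (N + 1) * Real.sqrt P))) := by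
  have hu0 : 0 < u := by linarith
  have hN0 : 0 < N := by linarith
  have hP0 : 0 < P := lt_of_lt_of_le (by positivity) hP
  have hc0 : 0 < c := lt_of_lt_of_le (by positivity) hc
  have hσ0 : 0 < σ := lt_of_lt_of_le (by positivity) hσ
  -- sqrt estimates
  have hsP : Real.sqrt N / (7 * u ^ 2) ≤ Real.sqrt P := by
    apply Real.le_sqrt_of_sq_le
    rw [div_pow, Real.sq_sqrt hN0.le]
    refine le_trans ?_ hP
    rw [div_le_div_iff₀ (by positivity) (by positivity)]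
    have : 0 < u ^ 4 := by positivity
    nlinarith
  have hsN : Real.sqrt (N + 1) ≤ 2 * Real.sqrt N := by
    rw [Real.sqrt_le_left (by positivity)]
    rw [mul_pow, Real.sq_sqrt hN0.le]
    linarith
  have hsP2 : Real.sqrt P * Real.sqrt P = P := Real.mul_self_sqrt hP0.le
  have hsN2 : Real.sqrt N * Real.sqrt N = N := Real.mul_self_sqrt hN0.le
  have hsP0 : 0 < Real.sqrt P := Real.sqrt_pos.mpr hP0
  have hsN0 : 0 < Real.sqrt N := Real.sqrt_pos.mpr hN0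
  have hc2 : 1 / (64 * u ^ 4) ≤ c ^ 2 := by
    calc 1 / (64 * u ^ 4) = (1 / (8 * u ^ 2)) ^ 2 := by ring
      _ ≤ c ^ 2 := by gcongr
  -- error term
  have herr : (1 + C) * (ε * N * (Real.sqrt (N + 1) * Real.sqrt P)) ≤ P * (c ^ 2 * (N / 6)) := by
    have h1 : (1 + C) * (ε * N * (Real.sqrt (N + 1) * Real.sqrt P)) ≤ 2 * (1 / u ^ 20 * N * (2 * Real.sqrt N * Real.sqrt P)) := by
      gcongr
      linarith
    have h2 : Real.sqrt N ≤ 7 * u ^ 2 * Real.sqrt P := by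
      rw [div_le_iff₀ (by positivity)] at hsP
      linarith
    have h3 : 2 * (1 / u ^ 20 * N * (2 * Real.sqrt N * Real.sqrt P)) ≤ 2 * (1 / u ^ 20 * N * (2 * (7 * u ^ 2 * Real.sqrt P) * Real.sqrt P)) := by
      gcongr
    have h4 : 2 * (1 / u ^ 20 * N * (2 * (7 * u ^ 2 * Real.sqrt P) * Real.sqrt P)) = 28 * (N * P) / u ^ 18 := by
      have : 2 * (1 / u ^ 20 * N * (2 * (7 * u ^ 2 * Real.sqrt P) * Real.sqrt P)) = 28 * N * (Real.sqrt P * Real.sqrt P) * (u ^ 2 / u ^ 20) := by ring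
      rw [this, hsP2]
      field_simp
    have h5 : 28 * (N * P) / u ^ 18 ≤ P * (1 / (64 * u ^ 4) * (N / 6)) := by
      rw [div_le_iff₀ (by positivity)]
      have h6 : P * (1 / (64 * u ^ 4) * (N / 6)) * u ^ 18 = (N * P) * (u ^ 14 / 384) := by field_simp; norm_num
      rw [h6]
      have h7 : (10752 : ℝ) ≤ u ^ 14 := by
        calc (10752 : ℝ) ≤ 100 ^ 14 := by norm_num
          _ ≤ u ^ 14 := by gcongr
      have h8 : 0 < N * P := by positivity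
      nlinarith
    have h9 : P * (1 / (64 * u ^ 4) * (N / 6)) ≤ P * (c ^ 2 * (N / 6)) := by gcongr
    linarith
  have hmain : P * (c ^ 2 * (N / 6)) ≤ P * (c ^ 2 * (N / 3)) - (1 + C) * (ε * N * (Real.sqrt (N + 1) * Real.sqrt P)) := by
    have : P * (c ^ 2 * (N / 3)) = P * (c ^ 2 * (N / 6)) + P * (c ^ 2 * (N / 6)) := by ring
    linarith
  calc (s1 ^ 2 / 15360) * (N ^ 2 / u ^ 12) = (s1 / u ^ 2) ^ 2 * ((N / (40 * u ^ 4)) * (1 / (64 * u ^ 4) * (N / 6))) := by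
        field_simp; norm_num
    _ ≤ σ ^ 2 * (P * (c ^ 2 * (N / 6))) := by gcongr
    _ ≤ _ := by gcongr

/-- the constant -/
noncomputable def E2c (Cs C1 : ℝ) : ℝ :=
  Real.exp 24 * (147456 * (4 + 2 * Cs) + 256 * (1 + C1) + 84934656 * (1 + Cs) + 149760 * (1 + C1)) + 8

lemma num2 {σ P C ε N u m Cs C1 K : ℝ} (hu : 100 ≤ u) (hN : u ^ 16 ≤ N) (hσ0 : 0 ≤ σ) (hσ : σ ≤ 2 / u ^ 2)
    (hP0 : 0 ≤ P) (hP : P ≤ 2 * N / u ^ 4) (hC0 : 0 ≤ C) (hC : C ≤ 8 / u ^ 2) (hε0 : 0 ≤ ε) (hε : ε ≤ 1 / u ^ 20)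
    (hm0 : 0 ≤ m) (hm : m ≤ N / u ^ 4) (hCs : 0 ≤ Cs) (hC1 : 0 ≤ C1) (hK0 : 0 ≤ K) (hK : K ≤ u ^ 8) :
    (4 * σ ^ 3 * (Real.exp 24 * (2 * (C * N + ε * N) * C ^ 2 * (2 * P) * (2 * P + (2 * m) * Cs)
            + 2 * (ε * N) ^ 2 * (2 * P) * (1 + C1 * K)))
          + 8 * σ ^ 4 * (3 * (Real.exp 24 * (27 * (P * C ^ 4 * N ^ 2) * (1 + Cs)
            + 3 * (ε * N) ^ 2 * ((1 + C ^ 2) * (N + 1)) * (1 + C1 * K ^ 2))))
          + 2 * (P * (N + 1))) ≤ E2c Cs C1 * (N ^ 3 / u ^ 20) := by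
  have hu0 : 0 < u := by linarith
  have hu1 : 1 ≤ u := by linarith
  have hN1 : 1 ≤ N := le_trans (one_le_pow₀ hu1) hN
  have hN0 : 0 < N := by linarith
  have hexp := Real.exp_pos 24
  have hu8 : (1 : ℝ) ≤ u ^ 8 := one_le_pow₀ hu1
  have hu16 : (1 : ℝ) ≤ u ^ 16 := one_le_pow₀ hu1
  have hKb : 1 + C1 * K ≤ (1 + C1) * u ^ 8 := by nlinarith
  have hKb2 : 1 + C1 * K ^ 2 ≤ (1 + C1) * u ^ 16 := by
    have h1 : K ^ 2 ≤ u ^ 16 := by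
      calc K ^ 2 ≤ (u ^ 8) ^ 2 := by gcongr
        _ = u ^ 16 := by ring
    nlinarith
  have hε2 : ε ≤ 1 / u ^ 2 := by
    refine hε.trans ?_
    apply one_div_le_one_div_of_le (by positivity)
    exact pow_le_pow_right₀ hu1 (by norm_num)
  have hC1' : C ≤ 1 := by
    refine hC.trans ?_
    rw [div_le_one (by positivity)]; nlinarith
  have t1 : 4 * σ ^ 3 * (Real.exp 24 * (2 * (C * N + ε * N) * C ^ 2 * (2 * P) * (2 * P + (2 * m) * Cs)))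
      ≤ Real.exp 24 * (147456 * (4 + 2 * Cs)) * (N ^ 3 / u ^ 20) := by
    calc _ ≤ 4 * (2 / u ^ 2) ^ 3 * (Real.exp 24 * (2 * (8 / u ^ 2 * N + 1 / u ^ 2 * N) * (8 / u ^ 2) ^ 2 *
            (2 * (2 * N / u ^ 4)) * (2 * (2 * N / u ^ 4) + (2 * (N / u ^ 4)) * Cs))) := by gcongr
      _ = _ := by field_simp; ring
  have t2 : 4 * σ ^ 3 * (Real.exp 24 * (2 * (ε * N) ^ 2 * (2 * P) * (1 + C1 * K)))
      ≤ Real.exp 24 * (256 * (1 + C1)) * (N ^ 3 / u ^ 20) := by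
    calc _ ≤ 4 * (2 / u ^ 2) ^ 3 * (Real.exp 24 * (2 * (1 / u ^ 20 * N) ^ 2 * (2 * (2 * N / u ^ 4)) * ((1 + C1) * u ^ 8))) := by
          gcongr
      _ = Real.exp 24 * (256 * (1 + C1)) * (N ^ 3 / u ^ 42) := by field_simp; ring
      _ ≤ _ := by
          gcongr Real.exp 24 * (256 * (1 + C1)) * (N ^ 3 / ?_)
          exact pow_le_pow_right₀ hu1 (by norm_num)
  have t3 : 8 * σ ^ 4 * (3 * (Real.exp 24 * (27 * (P * C ^ 4 * N ^ 2) * (1 + Cs))))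
      ≤ Real.exp 24 * (84934656 * (1 + Cs)) * (N ^ 3 / u ^ 20) := by
    calc _ ≤ 8 * (2 / u ^ 2) ^ 4 * (3 * (Real.exp 24 * (27 * ((2 * N / u ^ 4) * (8 / u ^ 2) ^ 4 * N ^ 2) * (1 + Cs)))) := by
          gcongr
      _ = _ := by field_simp; ring
  have t4 : 8 * σ ^ 4 * (3 * (Real.exp 24 * (3 * (ε * N) ^ 2 * ((1 + C ^ 2) * (N + 1)) * (1 + C1 * K ^ 2))))
      ≤ Real.exp 24 * (149760 * (1 + C1)) * (N ^ 3 / u ^ 20) := by
    calc _ ≤ 8 * (2 / u ^ 2) ^ 4 * (3 * (Real.exp 24 * (3 * (1 / u ^ 20 * N) ^ 2 * ((1 + 1 ^ 2) * (N + N)) * ((1 + C1) * u ^ 16)))) := by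
          gcongr
      _ = Real.exp 24 * (4608 * (1 + C1)) * (N ^ 3 / u ^ 32) := by field_simp; ring
      _ ≤ Real.exp 24 * (149760 * (1 + C1)) * (N ^ 3 / u ^ 20) := by
          gcongr
          · norm_num
          · norm_num
  have t5 : 2 * (P * (N + 1)) ≤ 8 * (N ^ 3 / u ^ 20) := by
    calc 2 * (P * (N + 1)) ≤ 2 * ((2 * N / u ^ 4) * (N + N)) := by gcongr
      _ = 8 * (N ^ 2 / u ^ 4) := by ring
      _ ≤ 8 * (N ^ 3 / u ^ 20) := by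
          have : N ^ 2 / u ^ 4 ≤ N ^ 3 / u ^ 20 := by
            rw [div_le_div_iff₀ (by positivity) (by positivity)]
            have h1 : N ^ 2 * u ^ 20 = N ^ 2 * u ^ 4 * u ^ 16 := by ring
            have h2 : N ^ 3 * u ^ 4 = N ^ 2 * u ^ 4 * N := by ring
            rw [h1, h2]; gcongr
          linarith
  unfold E2c
  have e1 : (4 * σ ^ 3 * (Real.exp 24 * (2 * (C * N + ε * N) * C ^ 2 * (2 * P) * (2 * P + (2 * m) * Cs)
            + 2 * (ε * N) ^ 2 * (2 * P) * (1 + C1 * K)))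
          + 8 * σ ^ 4 * (3 * (Real.exp 24 * (27 * (P * C ^ 4 * N ^ 2) * (1 + Cs)
            + 3 * (ε * N) ^ 2 * ((1 + C ^ 2) * (N + 1)) * (1 + C1 * K ^ 2))))
          + 2 * (P * (N + 1)))
      = 4 * σ ^ 3 * (Real.exp 24 * (2 * (C * N + ε * N) * C ^ 2 * (2 * P) * (2 * P + (2 * m) * Cs)))
        + 4 * σ ^ 3 * (Real.exp 24 * (2 * (ε * N) ^ 2 * (2 * P) * (1 + C1 * K)))
        + 8 * σ ^ 4 * (3 * (Real.exp 24 * (27 * (P * C ^ 4 * N ^ 2) * (1 + Cs))))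
        + 8 * σ ^ 4 * (3 * (Real.exp 24 * (3 * (ε * N) ^ 2 * ((1 + C ^ 2) * (N + 1)) * (1 + C1 * K ^ 2))))
        + 2 * (P * (N + 1)) := by ring
  rw [e1]
  have e2 : (Real.exp 24 * (147456 * (4 + 2 * Cs) + 256 * (1 + C1) + 84934656 * (1 + Cs) + 149760 * (1 + C1)) + 8) * (N ^ 3 / u ^ 20)
      = Real.exp 24 * (147456 * (4 + 2 * Cs)) * (N ^ 3 / u ^ 20) + Real.exp 24 * (256 * (1 + C1)) * (N ^ 3 / u ^ 20)
        + Real.exp 24 * (84934656 * (1 + Cs)) * (N ^ 3 / u ^ 20) + Real.exp 24 * (149760 * (1 + C1)) * (N ^ 3 / u ^ 20)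
        + 8 * (N ^ 3 / u ^ 20) := by ring
  rw [e2]
  linarith

/-- choice of `r` -/
lemma num3 {E1 E2 e1 e2 N u : ℝ} (hu : 1 ≤ u) (he1 : 0 < e1) (he2 : 0 < e2) (hN : u ^ 8 * e1 ≤ 2 * e2 * N) (hN0 : 0 < N)
    (h1 : e1 * (N ^ 2 / u ^ 12) ≤ E1) (h2 : E2 ≤ e2 * (N ^ 3 / u ^ 20)) :
    ∃ r : ℕ, 0 < r ∧ e1 ^ 2 / (8 * e2) * (N / u ^ 4) ≤ E1 / r - E2 / (r : ℝ) ^ 2 := by
  have hu0 : 0 < u := by linarith
  set x := 2 * e2 / e1 * (N / u ^ 8) with hx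
  have hx1 : 1 ≤ x := by
    rw [hx, div_mul_div_comm, one_le_div (by positivity)]
    linarith
  refine ⟨⌈x⌉₊, Nat.ceil_pos.mpr (by linarith), ?_⟩
  set r : ℝ := (⌈x⌉₊ : ℝ) with hr
  have hrx : x ≤ r := Nat.le_ceil x
  have hrx2 : r ≤ 2 * x := by
    have := (Nat.ceil_lt_add_one (show 0 ≤ x by linarith)).le
    linarith
  have hr0 : 0 < r := by linarith
  have hx0 : 0 < x := by linarith
  -- E2 / r ≤ e1 N^2/(2u^12)
  have h3 : E2 / r ≤ e1 * (N ^ 2 / u ^ 12) / 2 := by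
    have h4 : E2 / r ≤ (e2 * (N ^ 3 / u ^ 20)) / r := by gcongr
    have h5 : (e2 * (N ^ 3 / u ^ 20)) / r ≤ (e2 * (N ^ 3 / u ^ 20)) / x := by gcongr
    have h6 : (e2 * (N ^ 3 / u ^ 20)) / x = e1 * (N ^ 2 / u ^ 12) / 2 := by
      rw [hx]; field_simp
    linarith
  have h7 : E1 / r - E2 / r ^ 2 = (E1 - E2 / r) / r := by field_simp
  rw [h7]
  have h8 : e1 * (N ^ 2 / u ^ 12) / 2 ≤ E1 - E2 / r := by linarith
  calc e1 ^ 2 / (8 * e2) * (N / u ^ 4) = (e1 * (N ^ 2 / u ^ 12) / 2) / (2 * x) := by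
        rw [hx]; field_simp; norm_num
    _ ≤ (e1 * (N ^ 2 / u ^ 12) / 2) / r := by gcongr
    _ ≤ _ := by gcongr

end Pool.Agent.H93.DC
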