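import Pool.Agent.H93.DC.Asym
import Pool.Agent.H93.DC.Cover
import Pool.Agent.H93.DC.Numeric

/-! Final assembly. -/

namespace Pool.Agent.H93.DC

open Finset Filter Topology

lemma card_PZ (N : ℕ) : (PZ N).card = (PP N).card :=
  Finset.card_image_of_injective _ Nat.cast_injective

lemma PZ_class {N l : ℕ} (hl : 0 < l) (b : ℤ) :
    ((PZ N).filter (fun u : ℤ => (l : ℤ) ∣ (u - b))).card ≤ ((PP N).filter (fun p => p % l = (b % l).toNat)).card := by
  have hsub : (PZ N).filter (fun u : ℤ => (l : ℤ) ∣ (u - b)) ⊆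
      ((PP N).filter (fun p => p % l = (b % l).toNat)).image (fun p : ℕ => (p : ℤ)) := by
    intro u hu
    rw [Finset.mem_filter] at hu
    obtain ⟨hu1, hu2⟩ := hu
    unfold PZ at hu1
    rw [Finset.mem_image] at hu1 ⊢
    obtain ⟨p, hp, rfl⟩ := hu1
    refine ⟨p, ?_, rfl⟩
    rw [Finset.mem_filter]
    refine ⟨hp, ?_⟩
    have h1 : (p : ℤ) % l = b % l := by
      have h0 : (p : ℤ) ≡ b [ZMOD l] := Int.modEq_iff_dvd.mpr (by rw [← neg_sub, dvd_neg]; exact hu2)
      exact h0
    have h2 : ((p : ℤ) % (l : ℤ)) = ((p % l : ℕ) : ℤ) := by push_cast; rfl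
    rw [← h1, h2, Int.toNat_natCast]
  exact (Finset.card_le_card hsub).trans Finset.card_image_le

theorem main : ∃ N0 : ℕ, ∀ N : ℕ, N0 ≤ N → ∃ a : (p : ℕ) → ZMod p, DoubleCovering N a := by
  obtain ⟨z0, hD⟩ := exists_Dy
  obtain ⟨Cs, hCs0, hCs⟩ := sum_cc
  set s1 : ℝ := 1 / (2 * Real.exp 6) with hs1
  have hs10 : 0 < s1 := by positivity
  set e1 : ℝ := s1 ^ 2 / 15360 with he1
  have he10 : 0 < e1 := by positivity
  set e2 : ℝ := E2c Cs C1 with he2
  have he20 : 0 < e2 := by
    rw [he2]; unfold E2c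
    have := C1_pos
    positivity
  set δ : ℝ := e1 ^ 2 / (8 * e2) with hδ
  have hδ0 : 0 < δ := by positivity
  set η : ℝ := min 1 (δ / 4) with hη
  have hη0 : 0 < η := by rw [hη]; exact lt_min one_pos (by positivity)
  have hη1 : η ≤ 1 := min_le_left _ _
  have hηδ : 4 * η ≤ δ := by
    have : η ≤ δ / 4 := min_le_right _ _
    linarith
  obtain ⟨x0, hx3, hx⟩ := pnt_bounds hη0
  have hev : ∀ᶠ N : ℕ in atTop, ∃ a : (p : ℕ) → ZMod p, DoubleCovering N a := by
    filter_upwards [eventually_good z0, card_PP, asymB hη0 hη1, asymA hη0,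
      tendsto_natCast_atTop_atTop.eventually (eventually_ge_atTop x0),
      uu_tendsto.eventually (eventually_ge_atTop (e1 / (2 * e2))),
      uu_tendsto.eventually (eventually_ge_atTop (4 / η))] with N G hPP hB hA hNx hu1 hu2
    set u := uu N with hu
    have hu1000 := G.u
    rw [← hu] at hu1000
    have hu0 : 0 < u := by linarith
    have hu1' : 1 ≤ u := by linarith
    have hL : Real.log N = u ^ 4 := (uu_pow N).symm
    have hN1 : 1 ≤ N := by have := G.N1; omega
    have hNr : (0 : ℝ) < N := by exact_mod_cast hN1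
    have hN1r : (1 : ℝ) ≤ N := by exact_mod_cast hN1
    set Y := YY N with hY
    set K := KK N with hK
    set T := TT N with hT
    set m : ℝ := N / Real.log N with hm
    have hm0 : 0 < m := by rw [hm, hL]; positivity
    have hmu : m = N / u ^ 4 := by rw [hm, hL]
    have hSU := setup_SU hD G.T2 G.TY G.YN G.zN
    have hY16 := G.Y16
    have hK5 := G.K5
    have hcup := G.cup
    have hclow := G.clow
    have heps := G.eps
    rw [← hY, ← hT] at hSU
    rw [← hY, ← hu] at hcup
    rw [← hY, ← hT, ← hu] at hclow heps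
    set c : ℝ := (Nat.log 2 ((Y - 1) / (2 * T ^ 2)) : ℝ) / (4 * Real.log N) with hc
    set C : ℝ := 4 * (Nat.clog 2 Y : ℝ) / Real.log N with hC
    set ε : ℝ := (4 * (10 * Y : ℕ) + (21 + 9 * Real.log N + 8 * Nat.clog 2 (N + 2)) * (N / T)) / N with hε
    have hC0 := hSU.C0
    have he0 := hSU.e0
    have hP : ∀ p ∈ PZ N, 0 < p ∧ 4 * p ≤ (N : ℤ) := by
      intro p hp
      rw [mem_PZ] at hp
      obtain ⟨q, hq, h1, h2, rfl⟩ := hp
      have := hq.pos
      exact ⟨by exact_mod_cast this, by exact_mod_cast h2⟩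
    have hPc : ∀ v ∈ PZ N, ∀ l ∈ Y.primesBelow, ¬ ((l : ℤ) ∣ v) := by
      intro v hv l hl hd
      rw [mem_PZ] at hv
      obtain ⟨q, hq, h1, h2, rfl⟩ := hv
      have hlp := Nat.prime_of_mem_primesBelow hl
      have hlY := Nat.lt_of_mem_primesBelow hl
      have h3 : l = q := (Nat.prime_dvd_prime_iff_eq hlp hq).mp (by exact_mod_cast hd)
      have := G.Y5N
      omega
    have hPb : ∀ l ∈ K.primesBelow, ∀ b : ℤ,
        (((PZ N).filter (fun v : ℤ => (l : ℤ) ∣ (v - b))).card : ℝ) ≤ m * ((2 + Real.log l) / l) := by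
      intro l hl b
      have hlp := Nat.prime_of_mem_primesBelow hl
      have hlK := Nat.lt_of_mem_primesBelow hl
      have h1 : (((PZ N).filter (fun v : ℤ => (l : ℤ) ∣ (v - b))).card : ℝ)
          ≤ (((PP N).filter (fun p => p % l = (b % l).toNat)).card : ℝ) := by
        exact_mod_cast PZ_class hlp.pos b
      have h2 : (l : ℝ) * Real.log N ≤ N := by
        refine le_trans ?_ G.KlN
        have : 0 ≤ Real.log N := Real.log_natCast_nonneg N
        gcongr
      have h3 := bt (b := (b % l).toNat) G.N1 hlp h2 (by have := G.K5N; omega)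
      refine h1.trans (h3.trans (le_of_eq ?_))
      rw [hm]
      have hl0 : (l : ℝ) ≠ 0 := by exact_mod_cast hlp.pos.ne'
      have hLne : Real.log N ≠ 0 := by rw [hL]; positivity
      field_simp
    have hPcard : ((PZ N).card : ℝ) = (PP N).card := by rw [card_PZ]
    have n1 := num1 (σ := (MP Y)⁻¹) (P := ((PZ N).card : ℝ)) (c := c) (C := C) (ε := ε) (N := (N : ℝ)) (u := u)
      (s1 := s1) (by linarith) hN1r hs10 G.sig2
      (by rw [hPcard]; refine le_trans (le_of_eq ?_) hPP.1; rw [hmu]; field_simp)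
      hclow hC0 (hcup.trans (by rw [div_le_one (by positivity)]; nlinarith)) he0 heps
    have n2 := num2 (σ := (MP Y)⁻¹) (P := ((PZ N).card : ℝ)) (C := C) (ε := ε) (N := (N : ℝ)) (u := u)
      (m := m) (Cs := Cs) (C1 := C1) (K := (K : ℝ)) (by linarith) G.uN (inv_nonneg.mpr (MP_pos _).le) G.sig1 (by positivity)
      (by rw [hPcard]; refine le_trans hPP.2 (le_of_eq ?_); rw [hmu]; ring)
      hC0 hcup he0 heps hm0.le hmu.le hCs0.le C1_pos.le (by positivity) G.Kup
    obtain ⟨r, hr, n3⟩ := num3 (u := u) (N := (N : ℝ)) hu1' he10 he20 (by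
      have h1 := G.uN
      rw [← hu] at h1
      have h2 : e1 ≤ 2 * e2 * u := by
        rw [div_le_iff₀ (by positivity)] at hu1
        linarith
      calc u ^ 8 * e1 ≤ u ^ 8 * (2 * e2 * u) := by gcongr
        _ = 2 * e2 * u ^ 9 := by ring
        _ ≤ 2 * e2 * u ^ 16 := by
            apply mul_le_mul_of_nonneg_left _ (by positivity)
            exact pow_le_pow_right₀ hu1' (by norm_num)
        _ ≤ 2 * e2 * N := by gcongr) hNr n1 n2
    obtain ⟨mt, hmt1, hmt2⟩ := gain hSU (Y := Y) (K := K) (by omega) (by omega) G.KY (PZ N) G.logK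
      (by have := G.N1; omega) G.KN hP hPc hm0.le hPb (hCs K) hr
    have hOm := card_Om_pos Y
    have hg : ((Om Y).card : ℝ) * (δ * m) ≤ ∑ a ∈ Om Y, ((mt a).card : ℝ) := by
      refine le_trans ?_ hmt2
      apply mul_le_mul_of_nonneg_left _ hOm.le
      rw [← hmu] at n3
      exact n3
    have hd := sum_dfc N Y K
    have hd' : ∑ a ∈ Om Y, ∑ x ∈ Icc 1 N, (dfc N K a x : ℝ) ≤ (Om Y).card * ((1 + 2 * η) * m) := by
      refine hd.trans ?_
      apply mul_le_mul_of_nonneg_left _ hOm.le
      have h1 : (1 + 2 * η) * m = (1 + η) * m + η * m := by ring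
      rw [h1]
      exact add_le_add hB hA
    -- number of big primes
    have hBig : (1 - 2 * η) * m ≤ ((Big N K).card : ℝ) := by
      have h1 := card_Big (N := N) (K := K) (by omega)
      have h2 := (hx N hNx).1
      rw [Nat.floor_natCast, ← hm] at h2
      have h3 : (N : ℝ) / K ≤ η * m := by
        have hk2 : u ^ 4 - 1 < (⌊Real.log N⌋₊ : ℝ) := by
          rw [← hL]; exact Nat.sub_one_lt_floor _
        have hK' : (K : ℝ) = (⌊Real.log N⌋₊ : ℝ) ^ 2 := by rw [hK]; unfold KK; push_cast; rfl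
        have hu4 : (2 : ℝ) ≤ u ^ 4 := by
          calc (2 : ℝ) ≤ u := by linarith
            _ = u ^ 1 := (pow_one u).symm
            _ ≤ u ^ 4 := pow_le_pow_right₀ hu1' (by norm_num)
        have h4 : u ^ 8 / 4 ≤ K := by
          rw [hK']
          calc u ^ 8 / 4 = (u ^ 4 / 2) ^ 2 := by ring
            _ ≤ (⌊Real.log N⌋₊ : ℝ) ^ 2 := by
                apply pow_le_pow_left₀ (by positivity)
                linarith
        have h5 : 4 ≤ η * u ^ 4 := by
          rw [div_le_iff₀ hη0] at hu2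
          have : u * η ≤ u ^ 4 * η := by
            apply mul_le_mul_of_nonneg_right _ hη0.le
            calc u = u ^ 1 := (pow_one u).symm
              _ ≤ u ^ 4 := pow_le_pow_right₀ hu1' (by norm_num)
          linarith
        have hKr : (0 : ℝ) < K := by exact_mod_cast (by omega : 0 < K)
        rw [div_le_iff₀ hKr, hmu]
        calc (N : ℝ) = N * 1 := (mul_one _).symm
          _ ≤ N * (η * u ^ 4 / 4) := by gcongr; linarith
          _ = η * (N / u ^ 4) * (u ^ 8 / 4) := by field_simp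
          _ ≤ η * (N / u ^ 4) * K := by gcongr
      have h6 : (1 - 2 * η) * m = (1 - η) * m - η * m := by ring
      rw [h6]; linarith
    have hsum : ∑ a ∈ Om Y, (∑ x ∈ Icc 1 N, (dfc N K a x : ℝ) - ((mt a).card : ℝ)) ≤
        ∑ a ∈ Om Y, ((Big N K).card : ℝ) := by
      rw [Finset.sum_sub_distrib, Finset.sum_const, nsmul_eq_mul]
      have h1 : ((Om Y).card : ℝ) * ((1 - 2 * η) * m) ≤ (Om Y).card * ((Big N K).card : ℝ) :=
        mul_le_mul_of_nonneg_left hBig hOm.le
      have h2 : ((Om Y).card : ℝ) * ((1 + 2 * η) * m) - (Om Y).card * (δ * m) ≤ (Om Y).card * ((1 - 2 * η) * m) := by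
        have h3 : ((Om Y).card : ℝ) * ((1 + 2 * η) * m) - (Om Y).card * (δ * m)
          = (Om Y).card * ((1 - 2 * η) * m) + (Om Y).card * m * (4 * η - δ) := by ring
        rw [h3]
        have h4 : ((Om Y).card : ℝ) * m * (4 * η - δ) ≤ 0 := by
          apply mul_nonpos_of_nonneg_of_nonpos (by positivity)
          linarith
        linarith
      linarith
    have hne : (Om Y).Nonempty := by
      rw [← Finset.card_pos]; exact_mod_cast hOm
    obtain ⟨a, _, ha⟩ := Finset.exists_le_of_sum_le hne hsum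
    have ha' : ∑ x ∈ Icc 1 N, dfc N K a x ≤ (Big N K).card + (mt a).card := by
      have : ((∑ x ∈ Icc 1 N, dfc N K a x : ℕ) : ℝ) ≤ ((Big N K).card + (mt a).card : ℕ) := by
        push_cast; linarith
      exact_mod_cast this
    exact cover hK5 (by omega) G.KT G.KYN a (mt a) (hmt1 a) ha'
  rw [eventually_atTop] at hev
  obtain ⟨N0, hN0⟩ := hev
  exact ⟨N0, hN0⟩

end Pool.Agent.H93.DC
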