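import Pool.Agent.H93.DC.Setup
import Pool.Agent.H93.DC.BT
import Pool.Agent.H17.PNT

/-! Consequences of the prime number theorem. -/

namespace Pool.Agent.H93.DC

open Finset Filter Topology

lemma pnt_bounds {ε : ℝ} (hε : 0 < ε) : ∃ x0 : ℝ, 3 ≤ x0 ∧ ∀ x : ℝ, x0 ≤ x →
    (1 - ε) * (x / Real.log x) ≤ (Nat.primeCounting ⌊x⌋₊ : ℝ) ∧
    (Nat.primeCounting ⌊x⌋₊ : ℝ) ≤ (1 + ε) * (x / Real.log x) := by
  have h := Pool.Agent.H17.pi_tendsto
  rw [Metric.tendsto_atTop] at h
  obtain ⟨x1, hx1⟩ := h ε hε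
  refine ⟨max x1 3, le_max_right _ _, fun x hx => ?_⟩
  have h1 := hx1 x (le_trans (le_max_left _ _) hx)
  have h3 : 3 ≤ x := le_trans (le_max_right _ _) hx
  have hlog : 0 < Real.log x := Real.log_pos (by linarith)
  rw [Real.dist_eq, abs_lt] at h1
  set P := (Nat.primeCounting ⌊x⌋₊ : ℝ)
  have hx0 : 0 < x := by linarith
  have e1 : P = (P * Real.log x / x) * (x / Real.log x) := by field_simp
  have hq : 0 < x / Real.log x := by positivity
  constructor
  · rw [e1]
    apply mul_le_mul_of_nonneg_right _ hq.le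
    linarith [h1.1]
  · rw [e1]
    apply mul_le_mul_of_nonneg_right _ hq.le
    linarith [h1.2]

lemma card_primes_le (n : ℕ) : ((range (n + 1)).filter Nat.Prime).card = Nat.primeCounting n := by
  rw [Nat.primeCounting, Nat.primeCounting', Nat.count_eq_card_filter_range]

lemma card_primes_Ioc {a b : ℕ} (h : a ≤ b) :
    ((Ioc a b).filter Nat.Prime).card + Nat.primeCounting a = Nat.primeCounting b := by
  rw [← card_primes_le, ← card_primes_le, ← Finset.card_union_of_disjoint]
  · congr 1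
    ext q
    simp only [Finset.mem_union, Finset.mem_filter, Finset.mem_Ioc, Finset.mem_range]
    constructor
    · rintro (⟨⟨h1, h2⟩, h3⟩ | ⟨h1, h3⟩)
      · exact ⟨by omega, h3⟩
      · exact ⟨by omega, h3⟩
    · rintro ⟨h1, h3⟩
      rcases Nat.lt_or_ge a q with h4 | h4
      · left; exact ⟨⟨h4, by omega⟩, h3⟩
      · right; exact ⟨by omega, h3⟩
  · rw [Finset.disjoint_left]
    intro q h1 h2
    simp only [Finset.mem_filter, Finset.mem_Ioc, Finset.mem_range] at h1 h2
    omega

lemma card_primes_Ioc' {a b : ℕ} (h : a ≤ b) :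
    (((Ioc a b).filter Nat.Prime).card : ℝ) = Nat.primeCounting b - Nat.primeCounting a := by
  have := card_primes_Ioc h
  have h2 : (((Ioc a b).filter Nat.Prime).card : ℝ) + Nat.primeCounting a = Nat.primeCounting b := by exact_mod_cast this
  linarith

theorem exists_Dy : ∃ z0, Dy z0 := by
  obtain ⟨x0, hx3, hx⟩ := pnt_bounds (ε := 1 / 20) (by norm_num)
  -- log z ≥ 20 log 2
  refine ⟨max (⌈x0⌉₊) (2 ^ 20), ?_, ?_⟩
  · have : 2 ≤ 2 ^ 20 := by norm_num
    exact this.trans (le_max_right _ _)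
  · intro z hz
    have hz1 : x0 ≤ z := (Nat.le_ceil x0).trans (by exact_mod_cast (le_max_left _ _).trans hz)
    have hz2 : 2 ^ 20 ≤ z := (le_max_right _ _).trans hz
    have hz0 : (0 : ℝ) < z := by linarith
    have hlog2 : 0 < Real.log 2 := Real.log_pos (by norm_num)
    have hlogz : 20 * Real.log 2 ≤ Real.log z := by
      have h1 : Real.log ((2 : ℝ) ^ 20) ≤ Real.log z := by
        apply Real.log_le_log (by positivity)
        exact_mod_cast hz2
      rw [Real.log_pow] at h1
      push_cast at h1; exact h1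
    have hlz0 : 0 < Real.log z := by linarith
    have hlog2z : Real.log (2 * z) = Real.log 2 + Real.log z := Real.log_mul (by norm_num) hz0.ne'
    obtain ⟨a1, a2⟩ := hx z hz1
    obtain ⟨b1, b2⟩ := hx (2 * z) (by linarith)
    rw [Nat.floor_natCast] at a1 a2
    have hfl : ⌊(2 : ℝ) * z⌋₊ = 2 * z := by
      have : (2 : ℝ) * z = ((2 * z : ℕ) : ℝ) := by push_cast; ring
      rw [this, Nat.floor_natCast]
    rw [hfl] at b1 b2
    have hcard := card_primes_Ioc' (show z ≤ 2 * z by omega)
    set D := (((Ioc z (2 * z)).filter Nat.Prime).card : ℝ) with hD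
    set t := (z : ℝ) / Real.log z with ht
    have ht0 : 0 < t := by positivity
    have hb1 : (38 / 21) * t ≤ 2 * z / Real.log (2 * z) * (1 - 1 / 20) * 1 := by
      have h1 : Real.log (2 * z) ≤ (21 / 20) * Real.log z := by rw [hlog2z]; linarith
      have h2 : 0 < Real.log (2 * z) := by rw [hlog2z]; linarith
      have h3 : 2 * (z : ℝ) / ((21 / 20) * Real.log z) ≤ 2 * z / Real.log (2 * z) := by gcongr
      have h4 : 2 * (z : ℝ) / ((21 / 20) * Real.log z) = (40 / 21) * t := by rw [ht]; field_simp; norm_num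
      rw [h4] at h3
      linarith
    have hb2 : 2 * (z : ℝ) / Real.log (2 * z) ≤ 2 * t := by
      have h1 : Real.log z ≤ Real.log (2 * z) := by rw [hlog2z]; linarith
      have h3 : 2 * (z : ℝ) / Real.log (2 * z) ≤ 2 * z / Real.log z := by gcongr
      rw [ht]; linarith [show 2 * (z : ℝ) / Real.log z = 2 * (z / Real.log z) by ring]
    have hDlow : t / 2 ≤ D := by rw [hcard]; linarith
    have hDup : D ≤ 2 * t := by rw [hcard]; linarith
    constructor
    · have h1 : D * (1 / (2 * z)) ≤ RR z (2 * z) := by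
        unfold RR
        rw [hD, ← nsmul_eq_mul, ← Finset.sum_const]
        apply Finset.sum_le_sum
        intro q hq
        rw [Finset.mem_filter, Finset.mem_Ioc] at hq
        have h2 : (q : ℝ) ≤ 2 * z := by exact_mod_cast hq.1.2
        have h3 : (0 : ℝ) < q := by exact_mod_cast hq.2.pos
        gcongr
      refine le_trans ?_ h1
      calc 1 / (4 * Real.log z) = (t / 2) * (1 / (2 * z)) := by rw [ht]; field_simp; norm_num
        _ ≤ D * (1 / (2 * z)) := by gcongr
    · have h1 : RR z (2 * z) ≤ D * (1 / z) := by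
        unfold RR
        rw [hD, ← nsmul_eq_mul, ← Finset.sum_const]
        apply Finset.sum_le_sum
        intro q hq
        rw [Finset.mem_filter, Finset.mem_Ioc] at hq
        have h2 : (z : ℝ) ≤ q := by exact_mod_cast hq.1.1.le
        gcongr
      refine h1.trans ?_
      calc D * (1 / z) ≤ (2 * t) * (1 / z) := by gcongr
        _ = 2 / Real.log z := by rw [ht]; field_simp

/-- number of primes in `(N/5, N/4]` -/
theorem card_PP : ∀ᶠ N : ℕ in atTop, (1 / 40) * (N / Real.log N) ≤ ((PP N).card : ℝ) ∧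
    ((PP N).card : ℝ) ≤ 2 * (N / Real.log N) := by
  obtain ⟨x0, hx3, hx⟩ := pnt_bounds (ε := 1 / 50) (by norm_num)
  filter_upwards [eventually_ge_atTop (max (⌈5 * x0⌉₊) (5 ^ 51))] with N hN
  have hN1 : 5 * x0 ≤ N := (Nat.le_ceil _).trans (by exact_mod_cast (le_max_left _ _).trans hN)
  have hN2 : 5 ^ 51 ≤ N := (le_max_right _ _).trans hN
  have hN0 : (0 : ℝ) < N := by linarith
  have hlog5 : 0 < Real.log 5 := Real.log_pos (by norm_num)
  have hlogN : 51 * Real.log 5 ≤ Real.log N := by
    have h1 : Real.log ((5 : ℝ) ^ 51) ≤ Real.log N := by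
      apply Real.log_le_log (by positivity)
      exact_mod_cast hN2
    rw [Real.log_pow] at h1
    push_cast at h1; exact h1
  have hl0 : 0 < Real.log N := by linarith
  have hPP : PP N = (Ioc (N / 5) (N / 4)).filter Nat.Prime := by
    ext p
    rw [mem_PP, Finset.mem_filter, Finset.mem_Ioc]
    constructor
    · rintro ⟨h1, h2, h3⟩; exact ⟨⟨by omega, by omega⟩, h1⟩
    · rintro ⟨⟨h1, h2⟩, h3⟩; exact ⟨h3, by omega, by omega⟩
  have hcard := card_primes_Ioc' (show N / 5 ≤ N / 4 by omega)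
  rw [← hPP] at hcard
  obtain ⟨a1, a2⟩ := hx ((N : ℝ) / 5) (by linarith)
  obtain ⟨b1, b2⟩ := hx ((N : ℝ) / 4) (by linarith)
  have f5 : ⌊(N : ℝ) / 5⌋₊ = N / 5 := by
    have := Nat.floor_div_natCast (N : ℝ) 5
    rw [Nat.floor_natCast] at this
    exact_mod_cast this
  have f4 : ⌊(N : ℝ) / 4⌋₊ = N / 4 := by
    have := Nat.floor_div_natCast (N : ℝ) 4
    rw [Nat.floor_natCast] at this
    exact_mod_cast this
  rw [f5] at a1 a2
  rw [f4] at b1 b2
  set t := (N : ℝ) / Real.log N with ht
  have ht0 : 0 < t := by positivity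
  have hlog4 : Real.log 4 ≤ Real.log 5 := Real.log_le_log (by norm_num) (by norm_num)
  have hlog4' : 0 < Real.log 4 := Real.log_pos (by norm_num)
  have hl5 : Real.log ((N : ℝ) / 5) = Real.log N - Real.log 5 := Real.log_div hN0.ne' (by norm_num)
  have hl4 : Real.log ((N : ℝ) / 4) = Real.log N - Real.log 4 := Real.log_div hN0.ne' (by norm_num)
  have c1 : (N : ℝ) / 5 / Real.log (N / 5) ≤ (51 / 50) * (t / 5) := by
    have h1 : (50 / 51) * Real.log N ≤ Real.log ((N : ℝ) / 5) := by rw [hl5]; linarith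
    have h2 : (N : ℝ) / 5 / Real.log (N / 5) ≤ (N : ℝ) / 5 / ((50 / 51) * Real.log N) := by gcongr
    refine h2.trans (le_of_eq ?_)
    rw [ht]; field_simp
  have c2 : t / 4 ≤ (N : ℝ) / 4 / Real.log (N / 4) := by
    have h1 : Real.log ((N : ℝ) / 4) ≤ Real.log N := by rw [hl4]; linarith
    have h0 : 0 < Real.log ((N : ℝ) / 4) := by rw [hl4]; linarith
    have h2 : (N : ℝ) / 4 / Real.log N ≤ (N : ℝ) / 4 / Real.log (N / 4) := by gcongr
    refine le_trans (le_of_eq ?_) h2
    rw [ht]; ring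
  have c3 : (N : ℝ) / 4 / Real.log (N / 4) ≤ t := by
    have h1 : (1 / 4) * Real.log N ≤ Real.log ((N : ℝ) / 4) := by rw [hl4]; linarith
    have h2 : (N : ℝ) / 4 / Real.log (N / 4) ≤ (N : ℝ) / 4 / ((1 / 4) * Real.log N) := by gcongr
    refine h2.trans (le_of_eq ?_)
    rw [ht]; field_simp
  rw [hcard]
  have hnn : (0 : ℝ) ≤ Nat.primeCounting (N / 5) := by positivity
  constructor
  · nlinarith
  · nlinarith

/-- big primes -/
def Big (N K : ℕ) : Finset ℕ := (range (N + 1)).filter (fun p => p.Prime ∧ N < K * p)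

lemma card_Big {N K : ℕ} (hK : 0 < K) : (Nat.primeCounting N : ℝ) - N / K ≤ ((Big N K).card : ℝ) := by
  have h1 : Nat.primeCounting N ≤ (Big N K).card + N / K := by
    rw [← card_primes_le]
    have hsub : (range (N + 1)).filter Nat.Prime ⊆ Big N K ∪ Ioc 0 (N / K) := by
      intro p hp
      rw [Finset.mem_filter, Finset.mem_range] at hp
      rw [Finset.mem_union]
      unfold Big
      rcases Nat.lt_or_ge N (K * p) with h | h
      · left; rw [Finset.mem_filter, Finset.mem_range]; exact ⟨hp.1, hp.2, h⟩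
      · right
        rw [Finset.mem_Ioc]
        refine ⟨hp.2.pos, ?_⟩
        rw [Nat.le_div_iff_mul_le hK, mul_comm]; exact h
    have := (Finset.card_le_card hsub).trans (Finset.card_union_le _ _)
    simpa using this
  have h2 : (Nat.primeCounting N : ℝ) ≤ (Big N K).card + ((N / K : ℕ) : ℝ) := by exact_mod_cast h1
  have h3 : ((N / K : ℕ) : ℝ) ≤ N / K := Nat.cast_div_le
  linarith

end Pool.Agent.H93.DC
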