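import Pool.Agent.H93.DC.Fourier

/-! Counting pairs with prime-like differences. -/

namespace Pool.Agent.H93.DC

open Finset

/-- the interval -/
noncomputable def AA (N : ℕ) : Finset ℤ := Finset.Icc (0 : ℤ) N

/-- the setup -/
structure SU (N : ℕ) (f g : ℤ → ℝ) (c C ε : ℝ) : Prop where
  c0 : 0 ≤ c
  C0 : 0 ≤ C
  e0 : 0 ≤ ε
  f0 : ∀ x, 0 ≤ f x
  f1 : ∀ x, f x ≤ 1
  fz : ∀ x, x ∉ AA N → f x = 0
  g0 : ∀ x, 0 ≤ g x
  g1 : ∀ x, g x ≤ C
  gz : ∀ x, x ∉ AA N → g x = 0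
  gzero : g 0 = 0
  gl : ∀ x, (N : ℤ) < 10 * x → x ≤ N → c ≤ g x
  fou : ∀ t : ℝ, ‖∑ x ∈ AA N, ((f x - g x : ℝ) : ℂ) * e (t * x)‖ ≤ ε * N

lemma cs (s : Finset ℤ) (a b : ℤ → ℝ) {A B : ℝ} (hA0 : 0 ≤ A) (hB0 : 0 ≤ B) (hA : ∑ x ∈ s, a x ^ 2 ≤ A ^ 2)
    (hB : ∑ x ∈ s, b x ^ 2 ≤ B ^ 2) : |∑ x ∈ s, a x * b x| ≤ A * B := by
  apply abs_le_of_sq_le_sq _ (by positivity)
  calc (∑ x ∈ s, a x * b x) ^ 2 ≤ (∑ x ∈ s, a x ^ 2) * ∑ x ∈ s, b x ^ 2 := Finset.sum_mul_sq_le_sq_mul_sq s a b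
    _ ≤ A ^ 2 * B ^ 2 := by
        apply mul_le_mul hA hB (Finset.sum_nonneg (fun _ _ => sq_nonneg _)) (sq_nonneg _)
    _ = (A * B) ^ 2 := by ring

/-- reindexing a correlation -/
lemma reindex (s : Finset ℤ) (u v : ℤ → ℝ) (hu : ∀ x, x ∉ s → u x = 0) (hv : ∀ x, x ∉ s → v x = 0) (h : ℤ) :
    ∑ x ∈ s, u x * v (x + h) = ∑ w ∈ s, v w * u (w - h) := by
  have h1 : ∑ x ∈ s, u x * v (x + h) = ∑ x ∈ s.filter (fun x => x + h ∈ s), u x * v (x + h) := by
    symm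
    apply Finset.sum_filter_of_ne
    intro x _ hne
    by_contra hc
    exact hne (by rw [hv _ hc, mul_zero])
  have h2 : ∑ w ∈ s, v w * u (w - h) = ∑ w ∈ s.filter (fun w => w - h ∈ s), v w * u (w - h) := by
    symm
    apply Finset.sum_filter_of_ne
    intro x _ hne
    by_contra hc
    exact hne (by rw [hu _ hc, mul_zero])
  rw [h1, h2]
  refine Finset.sum_nbij' (fun x => x + h) (fun w => w - h) ?_ ?_ ?_ ?_ ?_
  · intro x hx
    rw [Finset.mem_filter] at hx ⊢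
    exact ⟨hx.2, by rw [add_sub_cancel_right]; exact hx.1⟩
  · intro x hx
    rw [Finset.mem_filter] at hx ⊢
    exact ⟨hx.2, by rw [sub_add_cancel]; exact hx.1⟩
  · intro x _; ring
  · intro x _; ring
  · intro x _
    rw [add_sub_cancel_right]; ring

/-- convolution over shifts in a set `U`. -/
lemma conv_shift (A : Finset ℤ) (a : ℤ → ℝ) (ha : ∀ n, n ∉ A → a n = 0) {S : ℝ}
    (hS : ∀ t : ℝ, ‖∑ n ∈ A, (a n : ℂ) * e (t * n)‖ ≤ S) (Z U : Finset ℤ) (θ : ℤ → ℤ) (hθ : Function.Injective θ) :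
    ∑ z ∈ Z, (∑ u ∈ U, a (z + θ u)) ^ 2 ≤ S ^ 2 * U.card := by
  have h := toeplitz A (U.image (fun u => -θ u)) Z a (fun _ => 1) ha hS
  have hinj : Function.Injective (fun u => -θ u) := fun x y hxy => hθ (neg_injective hxy)
  have h1 : ∀ z ∈ Z, (∑ x ∈ U.image (fun u => -θ u), (1 : ℝ) * a (z - x)) = ∑ u ∈ U, a (z + θ u) := by
    intro z _
    rw [Finset.sum_image (fun x _ y _ hxy => hinj hxy)]
    refine Finset.sum_congr rfl fun u _ => ?_
    rw [one_mul, sub_neg_eq_add]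
  have h2 : ∑ z ∈ Z, (∑ x ∈ U.image (fun u => -θ u), (1 : ℝ) * a (z - x)) ^ 2 = ∑ z ∈ Z, (∑ u ∈ U, a (z + θ u)) ^ 2 :=
    Finset.sum_congr rfl fun z hz => by rw [h1 z hz]
  rw [h2] at h
  refine h.trans (le_of_eq ?_)
  rw [Finset.sum_congr rfl (g := fun _ => (1:ℝ)) (by intro x _; norm_num), Finset.sum_const, nsmul_eq_mul, mul_one,
    Finset.card_image_of_injective _ hinj]

/-- correlation with varying shift. -/
lemma conv_h (A X : Finset ℤ) (a u : ℤ → ℝ) (ha : ∀ n, n ∉ A → a n = 0) {S : ℝ}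
    (hS : ∀ t : ℝ, ‖∑ n ∈ A, (a n : ℂ) * e (t * n)‖ ≤ S) (P : Finset ℤ) (θ : ℤ → ℤ) (hθ : Function.Injective θ) :
    ∑ p ∈ P, (∑ x ∈ X, u x * a (x + θ p)) ^ 2 ≤ S ^ 2 * ∑ x ∈ X, u x ^ 2 := by
  have h := toeplitz A (X.image (fun x => -x)) (P.image θ) a (fun x => u (-x)) ha hS
  rw [Finset.sum_image (fun x _ y _ hxy => hθ hxy)] at h
  have h1 : ∀ p ∈ P, ∑ x ∈ X.image (fun x => -x), u (-x) * a (θ p - x) = ∑ x ∈ X, u x * a (x + θ p) := by
    intro p _
    rw [Finset.sum_image (fun x _ y _ hxy => neg_injective hxy)]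
    refine Finset.sum_congr rfl fun x _ => ?_
    rw [neg_neg, sub_neg_eq_add, add_comm]
  rw [Finset.sum_congr rfl (fun p hp => by rw [h1 p hp]), Finset.sum_image (fun x _ y _ hxy => neg_injective hxy)] at h
  refine h.trans (le_of_eq ?_)
  congr 1
  refine Finset.sum_congr rfl fun x _ => ?_
  rw [neg_neg]

/-- restricting to a residue class does not increase the sup of the Fourier transform -/
lemma fou_class (A : Finset ℤ) (a : ℤ → ℝ) {S : ℝ} (hS : ∀ t : ℝ, ‖∑ n ∈ A, (a n : ℂ) * e (t * n)‖ ≤ S)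
    (l : ℕ) [NeZero l] (b : ZMod l) (t : ℝ) :
    ‖∑ n ∈ A, ((if (n : ZMod l) = b then a n else 0 : ℝ) : ℂ) * e (t * n)‖ ≤ S := by
  have hl : 0 < l := Nat.pos_of_neZero l
  have hl0 : (l : ℝ) ≠ 0 := by exact_mod_cast hl.ne'
  have hl0' : (l : ℂ) ≠ 0 := by exact_mod_cast hl.ne'
  set b' : ℤ := (b.val : ℤ) with hb'
  have hbb : ((b' : ℤ) : ZMod l) = b := by
    rw [hb']; push_cast; exact ZMod.natCast_zmod_val b
  have hiff : ∀ n : ℤ, (n : ZMod l) = b ↔ (l : ℤ) ∣ (n - b') := by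
    intro n
    rw [← hbb, eq_comm, ZMod.intCast_eq_intCast_iff_dvd_sub]
  have hkey : ∀ n ∈ A, ((if (n : ZMod l) = b then a n else 0 : ℝ) : ℂ) * e (t * n)
      = (l : ℂ)⁻¹ * ∑ k ∈ range l, e (-((k : ℝ) / l * b')) * ((a n : ℂ) * e ((t + (k : ℝ) / l) * n)) := by
    intro n _
    have h1 : ∀ k ∈ range l, e (-((k : ℝ) / l * b')) * ((a n : ℂ) * e ((t + (k : ℝ) / l) * n))
        = ((a n : ℂ) * e (t * n)) * e ((k : ℝ) / l * ((n - b' : ℤ) : ℝ)) := by
      intro k _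
      have h2 : e ((t + (k : ℝ) / l) * n) = e (t * n) * e ((k : ℝ) / l * n) := by
        rw [← e_add]; congr 1; ring
      have h3 : e ((k : ℝ) / l * ((n - b' : ℤ) : ℝ)) = e (-((k : ℝ) / l * b')) * e ((k : ℝ) / l * n) := by
        rw [← e_add]; congr 1; push_cast; ring
      rw [h2, h3]; ring
    rw [Finset.sum_congr rfl h1, ← Finset.mul_sum, geom_e hl]
    by_cases h : (n : ZMod l) = b
    · rw [if_pos h, if_pos ((hiff n).mp h)]
      field_simp
    · rw [if_neg h, if_neg (fun h' => h ((hiff n).mpr h'))]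
      simp
  rw [Finset.sum_congr rfl hkey, ← Finset.mul_sum, Finset.sum_comm, norm_mul, norm_inv, Complex.norm_natCast]
  have h4 : ‖∑ k ∈ range l, ∑ n ∈ A, e (-((k : ℝ) / l * b')) * ((a n : ℂ) * e ((t + (k : ℝ) / l) * n))‖ ≤ l * S := by
    refine (norm_sum_le _ _).trans ?_
    calc _ ≤ ∑ k ∈ range l, S := by
          apply Finset.sum_le_sum
          intro k _
          rw [← Finset.mul_sum, norm_mul, norm_e, one_mul]
          exact hS _
      _ = l * S := by rw [Finset.sum_const, Finset.card_range, nsmul_eq_mul]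
  have hl1 : (0 : ℝ) < l := by exact_mod_cast hl
  calc (l : ℝ)⁻¹ * _ ≤ (l : ℝ)⁻¹ * (l * S) := by gcongr
    _ = S := by field_simp

lemma card_AA (N : ℕ) : ((AA N).card : ℝ) = N + 1 := by
  unfold AA; simp

variable {N : ℕ} {f g : ℤ → ℝ} {c C ε : ℝ}

lemma SU.f_sq (h : SU N f g c C ε) : ∑ x ∈ AA N, f x ^ 2 ≤ N + 1 := by
  rw [← card_AA]
  calc ∑ x ∈ AA N, f x ^ 2 ≤ ∑ x ∈ AA N, (1 : ℝ) := by
        apply Finset.sum_le_sum
        intro x _
        have := h.f0 x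
        have := h.f1 x
        nlinarith
    _ = _ := by rw [Finset.sum_const, nsmul_eq_mul, mul_one]

lemma SU.g_sq (h : SU N f g c C ε) : ∑ x ∈ AA N, g x ^ 2 ≤ C ^ 2 * (N + 1) := by
  rw [← card_AA]
  calc ∑ x ∈ AA N, g x ^ 2 ≤ ∑ x ∈ AA N, C ^ 2 := by
        apply Finset.sum_le_sum
        intro x _
        have := h.g0 x
        have := h.g1 x
        gcongr
    _ = _ := by rw [Finset.sum_const, nsmul_eq_mul]; ring

lemma SU.sub_zero (h : SU N f g c C ε) : ∀ x, x ∉ AA N → f x - g x = 0 := by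
  intro x hx; rw [h.fz x hx, h.gz x hx]; norm_num

lemma SU.sum_f (h : SU N f g c C ε) : ∑ x ∈ AA N, f x ≤ C * N + ε * N := by
  have h1 := h.fou 0
  have h2 : ∑ x ∈ AA N, ((f x - g x : ℝ) : ℂ) * e (0 * x) = ((∑ x ∈ AA N, (f x - g x) : ℝ) : ℂ) := by
    push_cast
    refine Finset.sum_congr rfl fun x _ => ?_
    rw [zero_mul, e_zero, mul_one]
  rw [h2, Complex.norm_real, Real.norm_eq_abs, Finset.sum_sub_distrib] at h1
  have h3 : ∑ x ∈ AA N, g x ≤ C * N := by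
    have h4 : AA N = insert 0 ((AA N).erase 0) := by
      rw [Finset.insert_erase]; unfold AA; simp
    rw [h4, Finset.sum_insert (Finset.notMem_erase 0 _), h.gzero, zero_add]
    calc ∑ x ∈ (AA N).erase 0, g x ≤ ∑ x ∈ (AA N).erase 0, C := Finset.sum_le_sum (fun x _ => h.g1 x)
      _ = C * N := by
          rw [Finset.sum_const, nsmul_eq_mul, Finset.card_erase_of_mem (by unfold AA; simp)]
          have : (AA N).card = N + 1 := by unfold AA; simp
          rw [this]; simp; ring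
  have := (abs_le.mp h1).2
  linarith

/-- many pairs -/
theorem SU.pairs_ge (h : SU N f g c C ε) (hN : 100 ≤ N) (P : Finset ℤ) (hP : ∀ p ∈ P, 0 < p ∧ 4 * p ≤ N) :
    (P.card : ℝ) * (c ^ 2 * (N / 3)) - (1 + C) * (ε * N * (Real.sqrt (N + 1) * Real.sqrt P.card))
      ≤ ∑ p ∈ P, ∑ x ∈ AA N, f x * f (x + 2 * p) := by
  have hN0 : (0 : ℝ) < N := by exact_mod_cast (by omega : 0 < N)
  set a : ℤ → ℝ := fun x => f x - g x with ha
  have ha0 : ∀ x, x ∉ AA N → a x = 0 := h.sub_zero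
  have hinj2 : Function.Injective (fun p : ℤ => 2 * p) := fun x y hxy => by simpa using hxy
  have hinj2' : Function.Injective (fun p : ℤ => -(2 * p)) := fun x y hxy => by simpa using hxy
  have hB := conv_shift (AA N) a ha0 h.fou (AA N) P (fun p => 2 * p) hinj2
  have hB' := conv_shift (AA N) a ha0 h.fou (AA N) P (fun p => -(2 * p)) hinj2'
  have hsP : (0 : ℝ) ≤ P.card := by positivity
  have hS0 : 0 ≤ ε * N := mul_nonneg h.e0 hN0.le
  have hBB : (ε * N) ^ 2 * P.card = (ε * N * Real.sqrt P.card) ^ 2 := by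
    rw [mul_pow (ε * N), Real.sq_sqrt hsP]
  rw [hBB] at hB hB'
  -- first replacement
  have e1 : ∑ p ∈ P, ∑ x ∈ AA N, f x * f (x + 2 * p)
      = ∑ x ∈ AA N, f x * ∑ p ∈ P, a (x + 2 * p) + ∑ x ∈ AA N, a x * (∑ p ∈ P, g (x + 2 * p))
        + ∑ p ∈ P, ∑ x ∈ AA N, g x * g (x + 2 * p) := by
    rw [Finset.sum_comm]
    rw [Finset.sum_comm (f := fun p x => g x * g (x + 2 * p)), ← Finset.sum_add_distrib, ← Finset.sum_add_distrib]
    refine Finset.sum_congr rfl fun x _ => ?_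
    rw [Finset.mul_sum, Finset.mul_sum, ← Finset.sum_add_distrib, ← Finset.sum_add_distrib]
    refine Finset.sum_congr rfl fun p _ => ?_
    rw [ha]; ring
  have b1 : |∑ x ∈ AA N, f x * ∑ p ∈ P, a (x + 2 * p)| ≤ Real.sqrt (N + 1) * (ε * N * Real.sqrt P.card) := by
    apply cs (AA N) f _ (Real.sqrt_nonneg _) (by positivity) _ hB
    rw [Real.sq_sqrt (by positivity)]
    exact h.f_sq
  have e2 : ∑ x ∈ AA N, a x * (∑ p ∈ P, g (x + 2 * p)) = ∑ w ∈ AA N, g w * ∑ p ∈ P, a (w + -(2 * p)) := by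
    simp_rw [Finset.mul_sum]
    rw [Finset.sum_comm, Finset.sum_comm (s := AA N)]
    refine Finset.sum_congr rfl fun p _ => ?_
    rw [reindex (AA N) a g ha0 h.gz (2 * p)]
    rfl
  have b2 : |∑ w ∈ AA N, g w * ∑ p ∈ P, a (w + -(2 * p))| ≤ (C * Real.sqrt (N + 1)) * (ε * N * Real.sqrt P.card) := by
    apply cs (AA N) g _ (mul_nonneg h.C0 (Real.sqrt_nonneg _)) (by positivity) _ hB'
    rw [mul_pow, Real.sq_sqrt (by positivity)]
    exact h.g_sq
  have b3 : (P.card : ℝ) * (c ^ 2 * (N / 3)) ≤ ∑ p ∈ P, ∑ x ∈ AA N, g x * g (x + 2 * p) := by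
    rw [← nsmul_eq_mul, ← Finset.sum_const]
    apply Finset.sum_le_sum
    intro p hp
    obtain ⟨hp0, hp4⟩ := hP p hp
    have hsub : Finset.Icc ((N : ℤ) / 10 + 1) (N / 2) ⊆ AA N := by
      intro x hx
      unfold AA
      rw [Finset.mem_Icc] at hx ⊢
      omega
    calc c ^ 2 * ((N : ℝ) / 3) ≤ ∑ x ∈ Finset.Icc ((N : ℤ) / 10 + 1) (N / 2), c ^ 2 := by
          rw [Finset.sum_const, nsmul_eq_mul, Int.card_Icc, mul_comm]
          apply mul_le_mul_of_nonneg_right _ (sq_nonneg c)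
          have h1 : (N : ℤ) ≤ 3 * (N / 2 + 1 - (N / 10 + 1)) := by omega
          have h2 : (((N : ℤ) / 2 + 1 - (N / 10 + 1)).toNat : ℤ) = (N / 2 + 1 - (N / 10 + 1)) := by
            apply Int.toNat_of_nonneg; omega
          have h3 : (N : ℤ) ≤ 3 * (((N : ℤ) / 2 + 1 - (N / 10 + 1)).toNat : ℤ) := by rw [h2]; exact h1
          have h4 : (N : ℝ) ≤ 3 * (((N : ℤ) / 2 + 1 - (N / 10 + 1)).toNat : ℝ) := by exact_mod_cast h3
          linarith
      _ ≤ ∑ x ∈ Finset.Icc ((N : ℤ) / 10 + 1) (N / 2), g x * g (x + 2 * p) := by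
          apply Finset.sum_le_sum
          intro x hx
          rw [Finset.mem_Icc] at hx
          have h1 := h.gl x (by omega) (by omega)
          have h2 := h.gl (x + 2 * p) (by omega) (by omega)
          have := h.c0
          rw [sq]
          exact mul_le_mul h1 h2 this (h.g0 x)
      _ ≤ ∑ x ∈ AA N, g x * g (x + 2 * p) := by
          apply Finset.sum_le_sum_of_subset_of_nonneg hsub
          intro x _ _
          exact mul_nonneg (h.g0 _) (h.g0 _)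
  rw [e1, e2]
  have := (abs_le.mp b1).1
  have := (abs_le.mp b2).1
  nlinarith

/-- the class sums `G_b` in mean square. -/
theorem SU.G_le (h : SU N f g c C ε) (U : Finset ℤ) (l : ℕ) [NeZero l] :
    ∑ z ∈ AA N, f z * ∑ b : ZMod l, (∑ u ∈ U.filter (fun u : ℤ => (u : ZMod l) = b), f (z + 2 * u)) ^ 2
      ≤ 2 * (∑ z ∈ AA N, f z) * (C ^ 2 * ∑ b : ZMod l, ((U.filter (fun u : ℤ => (u : ZMod l) = b)).card : ℝ) ^ 2)
        + 2 * (ε * N) ^ 2 * U.card := by
  classical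
  set a : ℤ → ℝ := fun x => f x - g x with ha
  have ha0 : ∀ x, x ∉ AA N → a x = 0 := h.sub_zero
  have hinj2 : Function.Injective (fun p : ℤ => 2 * p) := fun x y hxy => by simpa using hxy
  have h1 : ∀ z ∈ AA N, f z * ∑ b : ZMod l, (∑ u ∈ U.filter (fun u : ℤ => (u : ZMod l) = b), f (z + 2 * u)) ^ 2
      ≤ f z * ∑ b : ZMod l, (2 * (C ^ 2 * ((U.filter (fun u : ℤ => (u : ZMod l) = b)).card : ℝ) ^ 2))
        + ∑ b : ZMod l, 2 * (∑ u ∈ U.filter (fun u : ℤ => (u : ZMod l) = b), a (z + 2 * u)) ^ 2 := by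
    intro z _
    have h2 : ∀ b : ZMod l, (∑ u ∈ U.filter (fun u : ℤ => (u : ZMod l) = b), f (z + 2 * u)) ^ 2 ≤
        2 * (C ^ 2 * ((U.filter (fun u : ℤ => (u : ZMod l) = b)).card : ℝ) ^ 2)
          + 2 * (∑ u ∈ U.filter (fun u : ℤ => (u : ZMod l) = b), a (z + 2 * u)) ^ 2 := by
      intro b
      have h3 : ∑ u ∈ U.filter (fun u : ℤ => (u : ZMod l) = b), f (z + 2 * u) =
          ∑ u ∈ U.filter (fun u : ℤ => (u : ZMod l) = b), g (z + 2 * u) + ∑ u ∈ U.filter (fun u : ℤ => (u : ZMod l) = b), a (z + 2 * u) := by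
        rw [← Finset.sum_add_distrib]
        refine Finset.sum_congr rfl fun u _ => ?_
        rw [ha]; ring
      have h4 : ∑ u ∈ U.filter (fun u : ℤ => (u : ZMod l) = b), g (z + 2 * u) ≤ C * ((U.filter (fun u : ℤ => (u : ZMod l) = b)).card : ℝ) := by
        calc _ ≤ ∑ u ∈ U.filter (fun u : ℤ => (u : ZMod l) = b), C := Finset.sum_le_sum (fun u _ => h.g1 _)
          _ = _ := by rw [Finset.sum_const, nsmul_eq_mul, mul_comm]
      have h5 : 0 ≤ ∑ u ∈ U.filter (fun u : ℤ => (u : ZMod l) = b), g (z + 2 * u) := Finset.sum_nonneg (fun _ _ => h.g0 _)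
      rw [h3]
      set G := ∑ u ∈ U.filter (fun u : ℤ => (u : ZMod l) = b), g (z + 2 * u)
      set H := ∑ u ∈ U.filter (fun u : ℤ => (u : ZMod l) = b), a (z + 2 * u)
      have h6 : G ^ 2 ≤ C ^ 2 * ((U.filter (fun u : ℤ => (u : ZMod l) = b)).card : ℝ) ^ 2 := by
        rw [← mul_pow]; exact pow_le_pow_left₀ h5 h4 2
      nlinarith [sq_nonneg (G - H)]
    have hf0 := h.f0 z
    have hf1 := h.f1 z
    have h7 : ∑ b : ZMod l, (∑ u ∈ U.filter (fun u : ℤ => (u : ZMod l) = b), f (z + 2 * u)) ^ 2 ≤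
        ∑ b : ZMod l, (2 * (C ^ 2 * ((U.filter (fun u : ℤ => (u : ZMod l) = b)).card : ℝ) ^ 2))
          + ∑ b : ZMod l, 2 * (∑ u ∈ U.filter (fun u : ℤ => (u : ZMod l) = b), a (z + 2 * u)) ^ 2 := by
      rw [← Finset.sum_add_distrib]
      exact Finset.sum_le_sum (fun b _ => h2 b)
    have h8 : 0 ≤ ∑ b : ZMod l, 2 * (∑ u ∈ U.filter (fun u : ℤ => (u : ZMod l) = b), a (z + 2 * u)) ^ 2 :=
      Finset.sum_nonneg (fun _ _ => by positivity)
    calc _ ≤ f z * (∑ b : ZMod l, (2 * (C ^ 2 * ((U.filter (fun u : ℤ => (u : ZMod l) = b)).card : ℝ) ^ 2))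
          + ∑ b : ZMod l, 2 * (∑ u ∈ U.filter (fun u : ℤ => (u : ZMod l) = b), a (z + 2 * u)) ^ 2) := by gcongr
      _ ≤ _ := by rw [mul_add]; nlinarith
  refine (Finset.sum_le_sum h1).trans ?_
  rw [Finset.sum_add_distrib, ← Finset.sum_mul]
  have h9 : ∑ z ∈ AA N, ∑ b : ZMod l, 2 * (∑ u ∈ U.filter (fun u : ℤ => (u : ZMod l) = b), a (z + 2 * u)) ^ 2 ≤ 2 * (ε * N) ^ 2 * U.card := by
    rw [Finset.sum_comm]
    calc _ ≤ ∑ b : ZMod l, 2 * ((ε * N) ^ 2 * ((U.filter (fun u : ℤ => (u : ZMod l) = b)).card : ℝ)) := by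
          apply Finset.sum_le_sum
          intro b _
          rw [← Finset.mul_sum]
          have := conv_shift (AA N) a ha0 h.fou (AA N) (U.filter (fun u : ℤ => (u : ZMod l) = b)) (fun p => 2 * p) hinj2
          linarith
      _ = 2 * (ε * N) ^ 2 * U.card := by
          rw [← Finset.mul_sum, ← Finset.mul_sum]
          have : ∑ b : ZMod l, ((U.filter (fun u : ℤ => (u : ZMod l) = b)).card : ℝ) = U.card := by
            have := Finset.card_eq_sum_card_fiberwise (s := U) (t := Finset.univ) (f := fun u : ℤ => (u : ZMod l)) (fun _ _ => by simp)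
            rw [this]; push_cast; rfl
          rw [this]; ring
  have h10 : (∑ z ∈ AA N, f z) * ∑ b : ZMod l, (2 * (C ^ 2 * ((U.filter (fun u : ℤ => (u : ZMod l) = b)).card : ℝ) ^ 2))
      = 2 * (∑ z ∈ AA N, f z) * (C ^ 2 * ∑ b : ZMod l, ((U.filter (fun u : ℤ => (u : ZMod l) = b)).card : ℝ) ^ 2) := by
    rw [← Finset.mul_sum, ← Finset.mul_sum]; ring
  rw [h10]
  linarith

lemma card_class (N l : ℕ) [NeZero l] (b : ZMod l) :
    (((AA N).filter (fun x : ℤ => (x : ZMod l) = b)).card : ℝ) ≤ N / l + 2 := by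
  have hl : 0 < l := Nat.pos_of_neZero l
  have hl0 : (0 : ℝ) < l := by exact_mod_cast hl
  have h1 : (AA N).filter (fun x : ℤ => (x : ZMod l) = b) = (AA N).filter (fun x : ℤ => x ≡ (b.val : ℤ) [ZMOD l]) := by
    apply Finset.filter_congr
    intro x _
    rw [← ZMod.intCast_eq_intCast_iff]
    have : (((b.val : ℕ) : ℤ) : ZMod l) = b := by push_cast; exact ZMod.natCast_zmod_val b
    rw [this]
  have h2 : ((AA N).filter (fun x : ℤ => x ≡ (b.val : ℤ) [ZMOD l])).card ≤ N / l + 2 := by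
    -- injection x ↦ x / l
    have : ((AA N).filter (fun x : ℤ => x ≡ (b.val : ℤ) [ZMOD l])).card ≤ (Finset.Icc (0 : ℤ) ((N / l : ℕ) : ℤ)).card := by
      apply Finset.card_le_card_of_injOn (fun x : ℤ => x / (l : ℤ))
      · intro x hx
        rw [Finset.mem_coe, Finset.mem_filter] at hx
        unfold AA at hx
        rw [Finset.mem_Icc] at hx
        rw [Finset.mem_coe, Finset.mem_Icc]
        constructor
        · exact Int.ediv_nonneg hx.1.1 (by positivity)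
        · push_cast
          exact Int.ediv_le_ediv (by exact_mod_cast hl) hx.1.2
      · intro x hx y hy hxy
        rw [Finset.mem_coe, Finset.mem_filter] at hx hy
        simp only at hxy
        have h3 : x % (l : ℤ) = y % (l : ℤ) := hx.2.trans hy.2.symm
        have h4 := Int.mul_ediv_add_emod x l
        have h5 := Int.mul_ediv_add_emod y l
        rw [← h4, ← h5, hxy, h3]
    refine this.trans ?_
    simp
  rw [h1]
  have h3 : ((N / l : ℕ) : ℝ) ≤ N / l := Nat.cast_div_le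
  have h4 : (((AA N).filter (fun x : ℤ => x ≡ (b.val : ℤ) [ZMOD l])).card : ℝ) ≤ ((N / l + 2 : ℕ) : ℝ) := by exact_mod_cast h2
  push_cast at h4
  linarith

/-- the class sums `V_b` in mean square -/
theorem SU.V_le (h : SU N f g c C ε) (P : Finset ℤ) (l : ℕ) [NeZero l] :
    ∑ p ∈ P, ∑ b : ZMod l, (∑ x ∈ (AA N).filter (fun x : ℤ => (x : ZMod l) = b), f x * f (x + 2 * p)) ^ 2
      ≤ 3 * (P.card * l * (C ^ 2 * (N / l + 2)) ^ 2 + l * ((ε * N) ^ 2 * (C ^ 2 * (N + 1)))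
        + l * ((ε * N) ^ 2 * (N + 1))) := by
  classical
  set a : ℤ → ℝ := fun x => f x - g x with ha
  have ha0 : ∀ x, x ∉ AA N → a x = 0 := h.sub_zero
  have hinj2 : Function.Injective (fun p : ℤ => 2 * p) := fun x y hxy => by simpa using hxy
  have hinj2' : Function.Injective (fun p : ℤ => -(2 * p)) := fun x y hxy => by simpa using hxy
  -- decomposition
  set a' : ZMod l → ℤ → ℝ := fun b x => if (x : ZMod l) = b then a x else 0 with ha'
  set f' : ZMod l → ℤ → ℝ := fun b x => if (x : ZMod l) = b then f x else 0 with hf'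
  have hdec : ∀ (p : ℤ) (b : ZMod l), ∑ x ∈ (AA N).filter (fun x : ℤ => (x : ZMod l) = b), f x * f (x + 2 * p)
      = ∑ x ∈ (AA N).filter (fun x : ℤ => (x : ZMod l) = b), g x * g (x + 2 * p) + ∑ x ∈ AA N, a' b x * g (x + 2 * p)
        + ∑ x ∈ AA N, f' b x * a (x + 2 * p) := by
    intro p b
    rw [Finset.sum_filter, Finset.sum_filter, ← Finset.sum_add_distrib, ← Finset.sum_add_distrib]
    refine Finset.sum_congr rfl fun x _ => ?_
    rw [ha', hf']
    simp only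
    split_ifs
    · rw [ha]; ring
    · ring
  have hsq : ∀ (p : ℤ) (b : ZMod l), (∑ x ∈ (AA N).filter (fun x : ℤ => (x : ZMod l) = b), f x * f (x + 2 * p)) ^ 2
      ≤ 3 * ((C ^ 2 * (N / l + 2)) ^ 2 + (∑ x ∈ AA N, a' b x * g (x + 2 * p)) ^ 2
        + (∑ x ∈ AA N, f' b x * a (x + 2 * p)) ^ 2) := by
    intro p b
    rw [hdec p b]
    set X1 := ∑ x ∈ (AA N).filter (fun x : ℤ => (x : ZMod l) = b), g x * g (x + 2 * p) with hX1
    set X2 := ∑ x ∈ AA N, a' b x * g (x + 2 * p)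
    set X3 := ∑ x ∈ AA N, f' b x * a (x + 2 * p)
    have h0 : 0 ≤ X1 := Finset.sum_nonneg (fun _ _ => mul_nonneg (h.g0 _) (h.g0 _))
    have h1 : X1 ≤ C ^ 2 * (N / l + 2) := by
      calc X1 ≤ ∑ x ∈ (AA N).filter (fun x : ℤ => (x : ZMod l) = b), C ^ 2 := by
            apply Finset.sum_le_sum
            intro x _
            rw [sq]
            exact mul_le_mul (h.g1 _) (h.g1 _) (h.g0 _) h.C0
        _ = C ^ 2 * (((AA N).filter (fun x : ℤ => (x : ZMod l) = b)).card : ℝ) := by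
            rw [Finset.sum_const, nsmul_eq_mul, mul_comm]
        _ ≤ _ := by
            have := card_class N l b
            gcongr
    have h2 : X1 ^ 2 ≤ (C ^ 2 * (N / l + 2)) ^ 2 := pow_le_pow_left₀ h0 h1 2
    nlinarith [sq_nonneg (X1 - X2), sq_nonneg (X2 - X3), sq_nonneg (X1 - X3)]
  have hR1 : ∀ b : ZMod l, ∑ p ∈ P, (∑ x ∈ AA N, a' b x * g (x + 2 * p)) ^ 2 ≤ (ε * N) ^ 2 * (C ^ 2 * (N + 1)) := by
    intro b
    have ha'0 : ∀ x, x ∉ AA N → a' b x = 0 := by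
      intro x hx; rw [ha']; simp only; rw [ha0 x hx]; simp
    have h1 := conv_h (AA N) (AA N) (a' b) g ha'0 (fun t => fou_class (AA N) a h.fou l b t) P (fun p => -(2 * p)) hinj2'
    have h2 : ∀ p ∈ P, (∑ x ∈ AA N, a' b x * g (x + 2 * p)) ^ 2 = (∑ x ∈ AA N, g x * a' b (x + -(2 * p))) ^ 2 := by
      intro p _
      rw [reindex (AA N) (a' b) g ha'0 h.gz (2 * p)]
      rfl
    rw [Finset.sum_congr rfl h2]
    refine h1.trans ?_
    have := h.g_sq
    gcongr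
  have hR2 : ∀ b : ZMod l, ∑ p ∈ P, (∑ x ∈ AA N, f' b x * a (x + 2 * p)) ^ 2 ≤ (ε * N) ^ 2 * (N + 1) := by
    intro b
    have h1 := conv_h (AA N) (AA N) a (f' b) ha0 h.fou P (fun p => 2 * p) hinj2
    refine h1.trans ?_
    have h2 : ∑ x ∈ AA N, f' b x ^ 2 ≤ N + 1 := by
      refine le_trans ?_ h.f_sq
      apply Finset.sum_le_sum
      intro x _
      rw [hf']; simp only
      split_ifs
      · exact le_refl _
      · rw [zero_pow (by norm_num)]; exact sq_nonneg _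
    gcongr
  calc ∑ p ∈ P, ∑ b : ZMod l, (∑ x ∈ (AA N).filter (fun x : ℤ => (x : ZMod l) = b), f x * f (x + 2 * p)) ^ 2
      ≤ ∑ p ∈ P, ∑ b : ZMod l, 3 * ((C ^ 2 * (N / l + 2)) ^ 2 + (∑ x ∈ AA N, a' b x * g (x + 2 * p)) ^ 2
        + (∑ x ∈ AA N, f' b x * a (x + 2 * p)) ^ 2) :=
        Finset.sum_le_sum (fun p _ => Finset.sum_le_sum (fun b _ => hsq p b))
    _ = 3 * (P.card * l * (C ^ 2 * (N / l + 2)) ^ 2 + ∑ b : ZMod l, ∑ p ∈ P, (∑ x ∈ AA N, a' b x * g (x + 2 * p)) ^ 2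
        + ∑ b : ZMod l, ∑ p ∈ P, (∑ x ∈ AA N, f' b x * a (x + 2 * p)) ^ 2) := by
        simp_rw [← Finset.mul_sum, Finset.sum_add_distrib]
        rw [Finset.sum_comm (s := P) (f := fun p b => (∑ x ∈ AA N, a' b x * g (x + 2 * p)) ^ 2),
          Finset.sum_comm (s := P) (f := fun p b => (∑ x ∈ AA N, f' b x * a (x + 2 * p)) ^ 2)]
        simp only [Finset.sum_const, Finset.card_univ, ZMod.card, nsmul_eq_mul]
        ring
    _ ≤ _ := by
        have h1 : ∑ b : ZMod l, ∑ p ∈ P, (∑ x ∈ AA N, a' b x * g (x + 2 * p)) ^ 2 ≤ l * ((ε * N) ^ 2 * (C ^ 2 * (N + 1))) := by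
          calc _ ≤ ∑ b : ZMod l, (ε * N) ^ 2 * (C ^ 2 * (N + 1)) := Finset.sum_le_sum (fun b _ => hR1 b)
            _ = _ := by rw [Finset.sum_const, Finset.card_univ, ZMod.card, nsmul_eq_mul]
        have h2 : ∑ b : ZMod l, ∑ p ∈ P, (∑ x ∈ AA N, f' b x * a (x + 2 * p)) ^ 2 ≤ l * ((ε * N) ^ 2 * (N + 1)) := by
          calc _ ≤ ∑ b : ZMod l, (ε * N) ^ 2 * (N + 1) := Finset.sum_le_sum (fun b _ => hR2 b)
            _ = _ := by rw [Finset.sum_const, Finset.card_univ, ZMod.card, nsmul_eq_mul]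
        gcongr

end Pool.Agent.H93.DC
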