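import Pool.Agent.H93.DC.Smooth

/-! Random residue classes for the small primes. -/

namespace Pool.Agent.H93.DC

open Finset Nat

/-- all choices of residue classes for the primes below `Y` -/
noncomputable def Om (Y : ℕ) : Finset (↥(Y.primesBelow) → ℤ) := Fintype.piFinset (fun i => Finset.Ico (0 : ℤ) i)

/-- `x` is missed by all the classes -/
def sur {Y : ℕ} (a : ↥(Y.primesBelow) → ℤ) (x : ℤ) : Prop := ∀ i : ↥(Y.primesBelow), x % (i : ℕ) ≠ a i

instance {Y : ℕ} (a : ↥(Y.primesBelow) → ℤ) (x : ℤ) : Decidable (sur a x) := by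
  unfold sur; infer_instance

/-- number of residues mod `l` met by `T` -/
def nu (l : ℕ) (T : Finset ℤ) : ℕ := (T.image (fun x => x % (l : ℤ))).card

/-- the survival probability of a set -/
noncomputable def pr (Y : ℕ) (T : Finset ℤ) : ℝ := ∏ l ∈ Y.primesBelow, (1 - (nu l T : ℝ) / l)

lemma card_Om (Y : ℕ) : ((Om Y).card : ℝ) = ∏ i : ↥(Y.primesBelow), ((i : ℕ) : ℝ) := by
  unfold Om
  rw [Fintype.card_piFinset]
  push_cast
  refine Finset.prod_congr rfl fun i _ => ?_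
  simp

lemma card_Om_pos (Y : ℕ) : 0 < ((Om Y).card : ℝ) := by
  rw [card_Om]
  apply Finset.prod_pos
  intro i _
  exact_mod_cast (Nat.prime_of_mem_primesBelow i.2).pos

/-- product form of counting -/
lemma count_prod {Y : ℕ} (t : ↥(Y.primesBelow) → Finset ℤ) (ht : ∀ i, t i ⊆ Finset.Ico (0 : ℤ) i) :
    (((Om Y).filter (fun a => ∀ i, a i ∈ t i)).card : ℝ)
      = (Om Y).card * ∏ i : ↥(Y.primesBelow), (((t i).card : ℝ) / (i : ℕ)) := by
  have h1 : (Om Y).filter (fun a => ∀ i, a i ∈ t i) = Fintype.piFinset t := by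
    ext a
    unfold Om
    rw [Finset.mem_filter, Fintype.mem_piFinset, Fintype.mem_piFinset]
    constructor
    · exact fun h => h.2
    · exact fun h => ⟨fun i => ht i (h i), h⟩
  rw [h1, Fintype.card_piFinset, card_Om, ← Finset.prod_mul_distrib]
  push_cast
  refine Finset.prod_congr rfl fun i _ => ?_
  have : ((i : ℕ) : ℝ) ≠ 0 := by exact_mod_cast (Nat.prime_of_mem_primesBelow i.2).ne_zero
  field_simp

lemma nu_le (l : ℕ) (T : Finset ℤ) (hl : 0 < l) : nu l T ≤ l := by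
  unfold nu
  calc _ ≤ (Finset.Ico (0 : ℤ) l).card := by
        apply Finset.card_le_card
        intro x hx
        rw [Finset.mem_image] at hx
        obtain ⟨y, _, rfl⟩ := hx
        rw [Finset.mem_Ico]
        exact ⟨Int.emod_nonneg _ (by exact_mod_cast hl.ne'), Int.emod_lt_of_pos _ (by exact_mod_cast hl)⟩
    _ = l := by simp

lemma count_sur {Y : ℕ} (T : Finset ℤ) :
    (((Om Y).filter (fun a => ∀ x ∈ T, sur a x)).card : ℝ) = (Om Y).card * pr Y T := by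
  classical
  set t : ↥(Y.primesBelow) → Finset ℤ :=
    fun i => (Finset.Ico (0 : ℤ) i) \ (T.image (fun x => x % ((i : ℕ) : ℤ))) with ht
  have h1 : (Om Y).filter (fun a => ∀ x ∈ T, sur a x) = (Om Y).filter (fun a => ∀ i, a i ∈ t i) := by
    apply Finset.filter_congr
    intro a ha
    unfold Om at ha
    rw [Fintype.mem_piFinset] at ha
    constructor
    · intro h i
      rw [ht, Finset.mem_sdiff]
      refine ⟨ha i, ?_⟩
      rw [Finset.mem_image]
      rintro ⟨x, hx, hxa⟩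
      exact h x hx i hxa
    · intro h x hx i hxi
      have := h i
      rw [ht, Finset.mem_sdiff] at this
      apply this.2
      rw [Finset.mem_image]
      exact ⟨x, hx, hxi⟩
  rw [h1, count_prod t (fun i => Finset.sdiff_subset)]
  congr 1
  unfold pr
  rw [← Finset.prod_coe_sort (Y.primesBelow) (fun l => (1 - (nu l T : ℝ) / l))]
  refine Finset.prod_congr rfl fun i _ => ?_
  have hi0 := (Nat.prime_of_mem_primesBelow i.2).pos
  have hsub : (T.image (fun x => x % ((i : ℕ) : ℤ))) ⊆ Finset.Ico (0 : ℤ) i := by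
    intro x hx
    rw [Finset.mem_image] at hx
    obtain ⟨y, _, rfl⟩ := hx
    rw [Finset.mem_Ico]
    exact ⟨Int.emod_nonneg _ (by exact_mod_cast hi0.ne'), Int.emod_lt_of_pos _ (by exact_mod_cast hi0)⟩
  rw [ht]
  simp only
  rw [Finset.card_sdiff_of_subset hsub]
  have h3 := nu_le (i : ℕ) T hi0
  have h4 : (Finset.Ico (0 : ℤ) i).card = (i : ℕ) := by simp
  rw [h4]
  have h5 : (T.image (fun x => x % ((i : ℕ) : ℤ))).card = nu (i : ℕ) T := rfl
  rw [h5, Nat.cast_sub h3]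
  have : ((i : ℕ) : ℝ) ≠ 0 := by exact_mod_cast hi0.ne'
  field_simp

/-- `sigma` -/
lemma pr_singleton (Y : ℕ) (x : ℤ) : pr Y {x} = (MP Y)⁻¹ := by
  unfold pr MP
  rw [← Finset.prod_inv_distrib]
  refine Finset.prod_congr rfl fun l _ => ?_
  rw [inv_inv]
  unfold nu
  simp

lemma pr_factor_nonneg {Y l : ℕ} (hl : l ∈ Y.primesBelow) (T : Finset ℤ) : 0 ≤ 1 - (nu l T : ℝ) / l := by
  have h := (Nat.prime_of_mem_primesBelow hl).pos
  have h1 := nu_le l T h
  have h2 : (0 : ℝ) < l := by exact_mod_cast h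
  rw [sub_nonneg, div_le_one h2]
  exact_mod_cast h1

lemma pr_nonneg (Y : ℕ) (T : Finset ℤ) : 0 ≤ pr Y T :=
  Finset.prod_nonneg (fun _ hl => pr_factor_nonneg hl T)

lemma pr_le_one (Y : ℕ) (T : Finset ℤ) : pr Y T ≤ 1 := by
  apply Finset.prod_le_one (fun _ hl => pr_factor_nonneg hl T)
  intro l hl
  have : (0 : ℝ) ≤ (nu l T : ℝ) / l := by positivity
  linarith

lemma pr_factor_le {Y l : ℕ} (hl : l ∈ Y.primesBelow) (T : Finset ℤ) :
    1 - (nu l T : ℝ) / l ≤ (1 - (l : ℝ)⁻¹) ^ (nu l T) := by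
  have h2 : (0 : ℝ) < l := by exact_mod_cast (Nat.prime_of_mem_primesBelow hl).pos
  have h1 := one_add_mul_le_pow (a := -(l : ℝ)⁻¹) (by
    have := one_sub_inv_pos (Nat.prime_of_mem_primesBelow hl)
    linarith) (nu l T)
  have h3 : 1 + (nu l T : ℝ) * -(l : ℝ)⁻¹ = 1 - (nu l T : ℝ) / l := by
    rw [div_eq_mul_inv]; ring
  have h4 : 1 + -(l : ℝ)⁻¹ = 1 - (l : ℝ)⁻¹ := by ring
  rw [h3, h4] at h1
  exact h1

/-- the square product bound -/
lemma prod_odd_ge (n : ℕ) : ((n : ℝ) + 2) / (2 * (n + 1)) ≤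
    ∏ l ∈ (n + 3).primesBelow.erase 2, (1 - 1 / ((l : ℝ) - 1) ^ 2) := by
  induction n with
  | zero =>
    have : (0 + 3).primesBelow.erase 2 = ∅ := by decide
    rw [this]; simp
  | succ n ih =>
    have hn0 : (0 : ℝ) ≤ n := Nat.cast_nonneg n
    rw [show n + 1 + 3 = (n + 3) + 1 by ring, Nat.primesBelow_succ]
    split_ifs with hp
    · rw [Finset.erase_insert_of_ne (by omega), Finset.prod_insert (by
        simp [Nat.mem_primesBelow])]
      have e1 : ((n + 1 : ℕ) : ℝ) + 2 = n + 3 := by push_cast; ring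
      have e2 : 2 * (((n + 1 : ℕ) : ℝ) + 1) = 2 * (n + 2) := by push_cast; ring
      have e3 : 1 - 1 / (((n + 3 : ℕ) : ℝ) - 1) ^ 2 = ((n + 1) * (n + 3)) / (n + 2) ^ 2 := by
        have : ((n + 3 : ℕ) : ℝ) - 1 = n + 2 := by push_cast; ring
        rw [this]
        field_simp
        ring
      rw [e1, e2, e3]
      calc ((n : ℝ) + 3) / (2 * (n + 2)) = ((n + 1) * (n + 3)) / (n + 2) ^ 2 * ((n + 2) / (2 * (n + 1))) := by
            field_simp
        _ ≤ _ := by gcongr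
    · refine le_trans ?_ ih
      push_cast
      rw [div_le_div_iff₀ (by positivity) (by positivity)]
      nlinarith

/-- lower bound for pairs: `u` is coprime to all odd primes below `Y`. -/
lemma pr_pair_ge {Y : ℕ} (hY : 3 ≤ Y) (x u : ℤ) :
    ((MP Y)⁻¹) ^ 2 ≤ pr Y {x, x + 2 * u} := by
  have h2mem : 2 ∈ Y.primesBelow := by
    rw [Nat.mem_primesBelow]; exact ⟨by omega, Nat.prime_two⟩
  obtain ⟨n, rfl⟩ : ∃ n, Y = n + 3 := ⟨Y - 3, by omega⟩
  have hodd : ∀ l ∈ (n + 3).primesBelow.erase 2, (1 - (l : ℝ)⁻¹) ^ 2 * (1 - 1 / ((l : ℝ) - 1) ^ 2)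
      ≤ 1 - (nu l {x, x + 2 * u} : ℝ) / l := by
    intro l hl
    rw [Finset.mem_erase] at hl
    have hpp := Nat.prime_of_mem_primesBelow hl.2
    have hl3 : 3 ≤ l := by
      have := hpp.two_le
      omega
    have hl3' : (3 : ℝ) ≤ l := by exact_mod_cast hl3
    have h1 : nu l {x, x + 2 * u} ≤ 2 := by
      unfold nu
      exact Finset.card_image_le.trans (Finset.card_le_two)
    have h2 : (1 - (l : ℝ)⁻¹) ^ 2 * (1 - 1 / ((l : ℝ) - 1) ^ 2) = 1 - 2 / l := by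
      have : (l : ℝ) - 1 ≠ 0 := by linarith
      field_simp
      ring
    rw [h2]
    have h3 : (nu l {x, x + 2 * u} : ℝ) ≤ 2 := by exact_mod_cast h1
    have : (0 : ℝ) < l := by linarith
    gcongr
  have htwo : 1 - (nu 2 {x, x + 2 * u} : ℝ) / (2 : ℕ) = 1 / 2 := by
    have : nu 2 {x, x + 2 * u} = 1 := by
      unfold nu
      rw [Finset.image_insert, Finset.image_singleton]
      have : (x + 2 * u) % ((2 : ℕ) : ℤ) = x % ((2 : ℕ) : ℤ) := by
        push_cast; omega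
      rw [this]; simp
    rw [this]; norm_num
  have hMP : ((MP (n + 3))⁻¹) ^ 2 = (1 / 4) * ∏ l ∈ (n + 3).primesBelow.erase 2, (1 - (l : ℝ)⁻¹) ^ 2 := by
    unfold MP
    rw [← Finset.prod_inv_distrib, ← Finset.prod_pow, ← Finset.mul_prod_erase _ _ h2mem]
    congr 1
    · norm_num
    · refine Finset.prod_congr rfl fun l _ => ?_
      rw [inv_inv]
  rw [hMP]
  unfold pr
  rw [← Finset.mul_prod_erase _ _ h2mem, htwo]
  have h3 := prod_odd_ge n
  have h4 : (1 : ℝ) / 2 ≤ ((n : ℝ) + 2) / (2 * (n + 1)) := by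
    rw [div_le_div_iff₀ (by norm_num) (by positivity)]
    linarith
  have h5 : (∏ l ∈ (n + 3).primesBelow.erase 2, (1 - (l : ℝ)⁻¹) ^ 2) *
      ∏ l ∈ (n + 3).primesBelow.erase 2, (1 - 1 / ((l : ℝ) - 1) ^ 2)
      ≤ ∏ l ∈ (n + 3).primesBelow.erase 2, (1 - (nu l {x, x + 2 * u} : ℝ) / l) := by
    rw [← Finset.prod_mul_distrib]
    apply Finset.prod_le_prod _ hodd
    intro l hl
    rw [Finset.mem_erase] at hl
    have hpp := Nat.prime_of_mem_primesBelow hl.2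
    have hl3 : 3 ≤ l := by
      have := hpp.two_le
      omega
    have hl3' : (3 : ℝ) ≤ l := by exact_mod_cast hl3
    have : 0 ≤ 1 - 1 / ((l : ℝ) - 1) ^ 2 := by
      rw [sub_nonneg, div_le_one (by nlinarith)]
      nlinarith
    positivity
  have h6 : 0 ≤ ∏ l ∈ (n + 3).primesBelow.erase 2, (1 - (l : ℝ)⁻¹) ^ 2 :=
    Finset.prod_nonneg (fun _ _ => sq_nonneg _)
  nlinarith

/-- the local weight -/
noncomputable def W (Y : ℕ) (h : ℤ) : ℝ := ∏ l ∈ Y.primesBelow.filter (fun l : ℕ => (l : ℤ) ∣ h), ((1 - (l : ℝ)⁻¹)⁻¹) ^ 6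

noncomputable def w2 (Y : ℕ) (h : ℤ) : ℝ := ∏ l ∈ Y.primesBelow.filter (fun l : ℕ => (l : ℤ) ∣ h), ((1 - (l : ℝ)⁻¹)⁻¹) ^ 2

lemma one_le_inv {l : ℕ} (hl : l.Prime) : (1 : ℝ) ≤ (1 - (l : ℝ)⁻¹)⁻¹ := by
  have h1 := one_sub_inv_pos hl
  have h2 : (0 : ℝ) < l := by exact_mod_cast hl.pos
  have : (0:ℝ) < (l : ℝ)⁻¹ := by positivity
  rw [one_le_inv₀ h1]
  linarith

lemma w2_cube (Y : ℕ) (h : ℤ) : (w2 Y h) ^ 3 = W Y h := by
  unfold w2 W
  rw [← Finset.prod_pow]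
  refine Finset.prod_congr rfl fun l _ => ?_
  rw [← pow_mul]

lemma w2_nonneg (Y : ℕ) (h : ℤ) : 0 ≤ w2 Y h := by
  unfold w2
  apply Finset.prod_nonneg
  intro l _; positivity

lemma W_nonneg (Y : ℕ) (h : ℤ) : 0 ≤ W Y h := by
  rw [← w2_cube]; exact pow_nonneg (w2_nonneg Y h) 3

lemma w2_eq (Y : ℕ) (h : ℤ) : w2 Y h = ∏ l ∈ Y.primesBelow, (if (l : ℤ) ∣ h then ((1 - (l : ℝ)⁻¹)⁻¹) ^ 2 else 1) := by
  unfold w2; rw [Finset.prod_filter]

lemma W_eq (Y : ℕ) (h : ℤ) : W Y h = ∏ l ∈ Y.primesBelow, (if (l : ℤ) ∣ h then ((1 - (l : ℝ)⁻¹)⁻¹) ^ 6 else 1) := by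
  unfold W; rw [Finset.prod_filter]

/-- residues are distinct iff the difference is not divisible -/
lemma emod_ne {l : ℕ} {x y : ℤ} (h : ¬ ((l : ℤ) ∣ (y - x))) : x % (l : ℤ) ≠ y % (l : ℤ) := by
  intro h1
  exact h (Int.ModEq.dvd h1)

lemma pow_inv_mul {s : ℝ} (hs : 0 < s) {a b : ℕ} (hab : b ≤ a) : s ^ b = s ^ a * (s⁻¹) ^ (a - b) := by
  obtain ⟨c, rfl⟩ := Nat.exists_eq_add_of_le hab
  rw [Nat.add_sub_cancel_left, pow_add, inv_pow]
  have : s ^ c ≠ 0 := (pow_pos hs c).ne'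
  field_simp

/-- three point bound: `u, u'` coprime to the odd primes below `Y`. -/
lemma pr_three_le {Y : ℕ} (hY : 3 ≤ Y) (z u u' : ℤ) (hu : ∀ l ∈ Y.primesBelow, ¬ ((l : ℤ) ∣ u))
    (hu' : ∀ l ∈ Y.primesBelow, ¬ ((l : ℤ) ∣ u')) :
    pr Y {z, z + 2 * u, z + 2 * u'} ≤ 4 * ((MP Y)⁻¹) ^ 3 * W Y (u - u') := by
  classical
  set T : Finset ℤ := {z, z + 2 * u, z + 2 * u'} with hT
  have h2mem : 2 ∈ Y.primesBelow := by
    rw [Nat.mem_primesBelow]; exact ⟨by omega, Nat.prime_two⟩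
  have hW0 : ∀ l ∈ Y.primesBelow, (1 : ℝ) ≤ (if (l : ℤ) ∣ (u - u') then ((1 - (l : ℝ)⁻¹)⁻¹) ^ 6 else 1) := by
    intro l hl
    split_ifs
    · exact one_le_pow₀ (one_le_inv (Nat.prime_of_mem_primesBelow hl))
    · exact le_refl _
  have hodd : ∀ l ∈ Y.primesBelow.erase 2, 1 - (nu l T : ℝ) / l
      ≤ (1 - (l : ℝ)⁻¹) ^ 3 * (if (l : ℤ) ∣ (u - u') then ((1 - (l : ℝ)⁻¹)⁻¹) ^ 6 else 1) := by
    intro l hl
    rw [Finset.mem_erase] at hl
    have hpp := Nat.prime_of_mem_primesBelow hl.2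
    have hpos := one_sub_inv_pos hpp
    have hle1 : 1 - (l : ℝ)⁻¹ ≤ 1 := by
      have : (0:ℝ) ≤ (l : ℝ)⁻¹ := by positivity
      linarith
    have hl2 : ∀ v : ℤ, ¬ ((l : ℤ) ∣ v) → ¬ ((l : ℤ) ∣ 2 * v) := by
      intro v hv hd
      have hp : Prime (l : ℤ) := Nat.prime_iff_prime_int.mp hpp
      rcases hp.dvd_or_dvd hd with h | h
      · have h3 : l ∣ 2 := by exact_mod_cast h
        have := Nat.le_of_dvd (by norm_num) h3
        have := hpp.two_le
        omega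
      · exact hv h
    refine (pr_factor_le hl.2 T).trans ?_
    have hc1 : z % (l : ℤ) ≠ (z + 2 * u) % (l : ℤ) := emod_ne (by
      have := hl2 u (hu l hl.2); rwa [add_sub_cancel_left])
    have hc2 : z % (l : ℤ) ≠ (z + 2 * u') % (l : ℤ) := emod_ne (by
      have := hl2 u' (hu' l hl.2); rwa [add_sub_cancel_left])
    split_ifs with hd
    · have h2nu : 2 ≤ nu l T := by
        unfold nu
        have : ({z % (l : ℤ), (z + 2 * u) % (l : ℤ)} : Finset ℤ) ⊆ T.image (fun x => x % (l : ℤ)) := by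
          intro y hy
          rw [Finset.mem_insert, Finset.mem_singleton] at hy
          rw [Finset.mem_image]
          rcases hy with rfl | rfl
          · exact ⟨z, by simp [hT], rfl⟩
          · exact ⟨z + 2 * u, by simp [hT], rfl⟩
        have h3 := Finset.card_le_card this
        rwa [Finset.card_pair hc1] at h3
      calc (1 - (l : ℝ)⁻¹) ^ nu l T ≤ (1 - (l : ℝ)⁻¹) ^ 2 := pow_le_pow_of_le_one hpos.le hle1 h2nu
        _ = (1 - (l : ℝ)⁻¹) ^ 3 * ((1 - (l : ℝ)⁻¹)⁻¹) ^ 1 := pow_inv_mul hpos (by norm_num)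
        _ ≤ (1 - (l : ℝ)⁻¹) ^ 3 * ((1 - (l : ℝ)⁻¹)⁻¹) ^ 6 := by
            gcongr
            · exact one_le_inv hpp
            · norm_num
    · have hc3 : (z + 2 * u) % (l : ℤ) ≠ (z + 2 * u') % (l : ℤ) := emod_ne (by
        have h5 := hl2 (u - u') hd
        intro h6; apply h5
        have : 2 * (u - u') = -(z + 2 * u' - (z + 2 * u)) := by ring
        rw [this]; exact (dvd_neg).mpr h6)
      have h3nu : 3 ≤ nu l T := by
        unfold nu
        have : ({z % (l : ℤ), (z + 2 * u) % (l : ℤ), (z + 2 * u') % (l : ℤ)} : Finset ℤ)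
            ⊆ T.image (fun x => x % (l : ℤ)) := by
          intro y hy
          rw [Finset.mem_insert, Finset.mem_insert, Finset.mem_singleton] at hy
          rw [Finset.mem_image]
          rcases hy with rfl | rfl | rfl
          · exact ⟨z, by simp [hT], rfl⟩
          · exact ⟨z + 2 * u, by simp [hT], rfl⟩
          · exact ⟨z + 2 * u', by simp [hT], rfl⟩
        have h3 := Finset.card_le_card this
        rwa [Finset.card_insert_of_notMem (by simp [hc1, hc2]), Finset.card_pair hc3] at h3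
      rw [mul_one]
      exact pow_le_pow_of_le_one hpos.le hle1 h3nu
  have htwo : 1 - (nu 2 T : ℝ) / (2 : ℕ) ≤ 4 * ((1 - ((2 : ℕ) : ℝ)⁻¹) ^ 3 *
      (if ((2 : ℕ) : ℤ) ∣ (u - u') then ((1 - ((2 : ℕ) : ℝ)⁻¹)⁻¹) ^ 6 else 1)) := by
    have h1 : 1 ≤ nu 2 T := by
      unfold nu
      apply Finset.card_pos.mpr
      exact ⟨_, Finset.mem_image_of_mem _ (show z ∈ T by simp [hT])⟩
    have h2 : (1 : ℝ) ≤ nu 2 T := by exact_mod_cast h1
    have h3 := hW0 2 h2mem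
    have h4 : 1 - (nu 2 T : ℝ) / (2 : ℕ) ≤ 1 / 2 := by
      push_cast; linarith
    have h5 : (1 - ((2 : ℕ) : ℝ)⁻¹) ^ 3 = 1 / 8 := by norm_num
    rw [h5]
    linarith
  have hMP : ((MP Y)⁻¹) ^ 3 * W Y (u - u') = ∏ l ∈ Y.primesBelow, ((1 - (l : ℝ)⁻¹) ^ 3 *
      (if (l : ℤ) ∣ (u - u') then ((1 - (l : ℝ)⁻¹)⁻¹) ^ 6 else 1)) := by
    rw [Finset.prod_mul_distrib, W_eq]
    congr 1
    unfold MP
    rw [← Finset.prod_inv_distrib, ← Finset.prod_pow]
    refine Finset.prod_congr rfl fun l _ => ?_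
    rw [inv_inv]
  rw [mul_assoc, hMP, ← Finset.mul_prod_erase _ _ h2mem, ← mul_assoc]
  unfold pr
  rw [← Finset.mul_prod_erase _ _ h2mem]
  apply mul_le_mul htwo
  · apply Finset.prod_le_prod _ hodd
    intro l hl
    exact pr_factor_nonneg (Finset.mem_of_mem_erase hl) T
  · apply Finset.prod_nonneg
    intro l hl
    exact pr_factor_nonneg (Finset.mem_of_mem_erase hl) T
  · have h5 : (1 - ((2 : ℕ) : ℝ)⁻¹) ^ 3 = 1 / 8 := by norm_num
    rw [h5]
    have h3 := hW0 2 h2mem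
    linarith

/-- four point bound -/
lemma pr_four_le {Y : ℕ} (hY : 3 ≤ Y) (x x' u : ℤ) (hu : ∀ l ∈ Y.primesBelow, ¬ ((l : ℤ) ∣ u)) :
    pr Y {x, x + 2 * u, x', x' + 2 * u} ≤ 8 * ((MP Y)⁻¹) ^ 4 *
      (W Y (x' - x) + W Y (x' - x + 2 * u) + W Y (x' - x - 2 * u)) := by
  classical
  set T : Finset ℤ := {x, x + 2 * u, x', x' + 2 * u} with hT
  have h2mem : 2 ∈ Y.primesBelow := by
    rw [Nat.mem_primesBelow]; exact ⟨by omega, Nat.prime_two⟩
  set D1 := x' - x with hD1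
  set D2 := x' - x + 2 * u with hD2
  set D3 := x' - x - 2 * u with hD3
  set g : ℕ → ℤ → ℝ := fun l D => (if (l : ℤ) ∣ D then ((1 - (l : ℝ)⁻¹)⁻¹) ^ 2 else 1) with hg
  have hg1 : ∀ l ∈ Y.primesBelow, ∀ D, (1 : ℝ) ≤ g l D := by
    intro l hl D
    rw [hg]
    simp only
    split_ifs
    · exact one_le_pow₀ (one_le_inv (Nat.prime_of_mem_primesBelow hl))
    · exact le_refl _
  have hodd : ∀ l ∈ Y.primesBelow.erase 2, 1 - (nu l T : ℝ) / l
      ≤ (1 - (l : ℝ)⁻¹) ^ 4 * (g l D1 * g l D2 * g l D3) := by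
    intro l hl
    rw [Finset.mem_erase] at hl
    have hpp := Nat.prime_of_mem_primesBelow hl.2
    have hpos := one_sub_inv_pos hpp
    have hle1 : 1 - (l : ℝ)⁻¹ ≤ 1 := by
      have : (0:ℝ) ≤ (l : ℝ)⁻¹ := by positivity
      linarith
    have h2u : ¬ ((l : ℤ) ∣ 2 * u) := by
      intro hd
      have hp : Prime (l : ℤ) := Nat.prime_iff_prime_int.mp hpp
      rcases hp.dvd_or_dvd hd with h | h
      · have h3 : l ∣ 2 := by exact_mod_cast h
        have := Nat.le_of_dvd (by norm_num) h3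
        have := hpp.two_le
        omega
      · exact hu l hl.2 h
    refine (pr_factor_le hl.2 T).trans ?_
    have hc1 : x % (l : ℤ) ≠ (x + 2 * u) % (l : ℤ) := emod_ne (by rwa [add_sub_cancel_left])
    have hc2 : x' % (l : ℤ) ≠ (x' + 2 * u) % (l : ℤ) := emod_ne (by rwa [add_sub_cancel_left])
    have hg1' := hg1 l hl.2
    by_cases hd : (l : ℤ) ∣ D1 ∨ (l : ℤ) ∣ D2 ∨ (l : ℤ) ∣ D3
    · have h2nu : 2 ≤ nu l T := by
        unfold nu
        have : ({x % (l : ℤ), (x + 2 * u) % (l : ℤ)} : Finset ℤ) ⊆ T.image (fun x => x % (l : ℤ)) := by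
          intro y hy
          rw [Finset.mem_insert, Finset.mem_singleton] at hy
          rw [Finset.mem_image]
          rcases hy with rfl | rfl
          · exact ⟨x, by simp [hT], rfl⟩
          · exact ⟨x + 2 * u, by simp [hT], rfl⟩
        have h3 := Finset.card_le_card this
        rwa [Finset.card_pair hc1] at h3
      have hprod : ((1 - (l : ℝ)⁻¹)⁻¹) ^ 2 ≤ g l D1 * g l D2 * g l D3 := by
        have ha : 0 ≤ ((1 - (l : ℝ)⁻¹)⁻¹) ^ 2 := by positivity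
        rcases hd with hd | hd | hd
        · have e1 : g l D1 = ((1 - (l : ℝ)⁻¹)⁻¹) ^ 2 := by rw [hg]; simp only; rw [if_pos hd]
          rw [← e1, mul_assoc]
          have := hg1' D1
          have h6 : 1 ≤ g l D2 * g l D3 := one_le_mul_of_one_le_of_one_le (hg1' D2) (hg1' D3)
          nlinarith
        · have e1 : g l D2 = ((1 - (l : ℝ)⁻¹)⁻¹) ^ 2 := by rw [hg]; simp only; rw [if_pos hd]
          rw [← e1]
          have := hg1' D2
          have h6 : 1 ≤ g l D1 * g l D3 := one_le_mul_of_one_le_of_one_le (hg1' D1) (hg1' D3)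
          nlinarith
        · have e1 : g l D3 = ((1 - (l : ℝ)⁻¹)⁻¹) ^ 2 := by rw [hg]; simp only; rw [if_pos hd]
          rw [← e1]
          have := hg1' D3
          have h6 : 1 ≤ g l D1 * g l D2 := one_le_mul_of_one_le_of_one_le (hg1' D1) (hg1' D2)
          nlinarith
      calc (1 - (l : ℝ)⁻¹) ^ nu l T ≤ (1 - (l : ℝ)⁻¹) ^ 2 := pow_le_pow_of_le_one hpos.le hle1 h2nu
        _ = (1 - (l : ℝ)⁻¹) ^ 4 * ((1 - (l : ℝ)⁻¹)⁻¹) ^ 2 := pow_inv_mul hpos (by norm_num)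
        _ ≤ _ := by gcongr
    · push Not at hd
      obtain ⟨hd1, hd2, hd3⟩ := hd
      have hc3 : x % (l : ℤ) ≠ x' % (l : ℤ) := emod_ne hd1
      have hc4 : x % (l : ℤ) ≠ (x' + 2 * u) % (l : ℤ) := emod_ne (by
        have : x' + 2 * u - x = D2 := by rw [hD2]; ring
        rwa [this])
      have hc5 : (x + 2 * u) % (l : ℤ) ≠ x' % (l : ℤ) := emod_ne (by
        have : x' - (x + 2 * u) = D3 := by rw [hD3]; ring
        rwa [this])
      have hc6 : (x + 2 * u) % (l : ℤ) ≠ (x' + 2 * u) % (l : ℤ) := emod_ne (by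
        have : x' + 2 * u - (x + 2 * u) = D1 := by rw [hD1]; ring
        rwa [this])
      have h4nu : 4 ≤ nu l T := by
        unfold nu
        have : ({x % (l : ℤ), (x + 2 * u) % (l : ℤ), x' % (l : ℤ), (x' + 2 * u) % (l : ℤ)} : Finset ℤ)
            ⊆ T.image (fun x => x % (l : ℤ)) := by
          intro y hy
          simp only [Finset.mem_insert, Finset.mem_singleton] at hy
          rw [Finset.mem_image]
          rcases hy with rfl | rfl | rfl | rfl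
          · exact ⟨x, by simp [hT], rfl⟩
          · exact ⟨x + 2 * u, by simp [hT], rfl⟩
          · exact ⟨x', by simp [hT], rfl⟩
          · exact ⟨x' + 2 * u, by simp [hT], rfl⟩
        have h3 := Finset.card_le_card this
        rwa [Finset.card_insert_of_notMem (by simp [hc1, hc3, hc4]),
          Finset.card_insert_of_notMem (by simp [hc5, hc6]), Finset.card_pair hc2] at h3
      have h6 : 1 ≤ g l D1 * g l D2 * g l D3 :=
        one_le_mul_of_one_le_of_one_le (one_le_mul_of_one_le_of_one_le (hg1' D1) (hg1' D2)) (hg1' D3)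
      calc (1 - (l : ℝ)⁻¹) ^ nu l T ≤ (1 - (l : ℝ)⁻¹) ^ 4 := pow_le_pow_of_le_one hpos.le hle1 h4nu
        _ = (1 - (l : ℝ)⁻¹) ^ 4 * 1 := (mul_one _).symm
        _ ≤ _ := by gcongr
  have htwo : 1 - (nu 2 T : ℝ) / (2 : ℕ) ≤ 8 * ((1 - ((2 : ℕ) : ℝ)⁻¹) ^ 4 *
      (g 2 D1 * g 2 D2 * g 2 D3)) := by
    have h1 : 1 ≤ nu 2 T := by
      unfold nu
      apply Finset.card_pos.mpr
      exact ⟨_, Finset.mem_image_of_mem _ (show x ∈ T by simp [hT])⟩
    have h2 : (1 : ℝ) ≤ nu 2 T := by exact_mod_cast h1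
    have h6 : 1 ≤ g 2 D1 * g 2 D2 * g 2 D3 :=
      one_le_mul_of_one_le_of_one_le (one_le_mul_of_one_le_of_one_le (hg1 2 h2mem D1) (hg1 2 h2mem D2)) (hg1 2 h2mem D3)
    have h4 : 1 - (nu 2 T : ℝ) / (2 : ℕ) ≤ 1 / 2 := by
      push_cast; linarith
    have h5 : (1 - ((2 : ℕ) : ℝ)⁻¹) ^ 4 = 1 / 16 := by norm_num
    rw [h5]
    linarith
  have hMP : ((MP Y)⁻¹) ^ 4 * (w2 Y D1 * w2 Y D2 * w2 Y D3) = ∏ l ∈ Y.primesBelow, ((1 - (l : ℝ)⁻¹) ^ 4 *
      (g l D1 * g l D2 * g l D3)) := by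
    rw [Finset.prod_mul_distrib, Finset.prod_mul_distrib, Finset.prod_mul_distrib, w2_eq, w2_eq, w2_eq]
    congr 1
    unfold MP
    rw [← Finset.prod_inv_distrib, ← Finset.prod_pow]
    refine Finset.prod_congr rfl fun l _ => ?_
    rw [inv_inv]
  have hmain : pr Y T ≤ 8 * (((MP Y)⁻¹) ^ 4 * (w2 Y D1 * w2 Y D2 * w2 Y D3)) := by
    rw [hMP, ← Finset.mul_prod_erase _ _ h2mem, ← mul_assoc]
    unfold pr
    rw [← Finset.mul_prod_erase _ _ h2mem]
    apply mul_le_mul htwo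
    · apply Finset.prod_le_prod _ hodd
      intro l hl
      exact pr_factor_nonneg (Finset.mem_of_mem_erase hl) T
    · apply Finset.prod_nonneg
      intro l hl
      exact pr_factor_nonneg (Finset.mem_of_mem_erase hl) T
    · have h6 : 1 ≤ g 2 D1 * g 2 D2 * g 2 D3 :=
        one_le_mul_of_one_le_of_one_le (one_le_mul_of_one_le_of_one_le (hg1 2 h2mem D1) (hg1 2 h2mem D2)) (hg1 2 h2mem D3)
      have h5 : (1 - ((2 : ℕ) : ℝ)⁻¹) ^ 4 = 1 / 16 := by norm_num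
      rw [h5]
      linarith
  refine hmain.trans ?_
  have hMP0 : 0 ≤ ((MP Y)⁻¹) ^ 4 := by
    have := MP_pos Y
    positivity
  have hcube : w2 Y D1 * w2 Y D2 * w2 Y D3 ≤ W Y D1 + W Y D2 + W Y D3 := by
    rw [← w2_cube, ← w2_cube, ← w2_cube]
    have a0 := w2_nonneg Y D1
    have b0 := w2_nonneg Y D2
    have c0 := w2_nonneg Y D3
    set a := w2 Y D1
    set b := w2 Y D2
    set c := w2 Y D3
    have h1 : 0 ≤ (a + b + c) * ((a - b) ^ 2 + (b - c) ^ 2 + (c - a) ^ 2) := by positivity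
    have h2 : (a + b + c) * ((a - b) ^ 2 + (b - c) ^ 2 + (c - a) ^ 2) = 2 * (a ^ 3 + b ^ 3 + c ^ 3 - 3 * (a * b * c)) := by ring
    have h3 : 0 ≤ a ^ 3 := by positivity
    have h4 : 0 ≤ b ^ 3 := by positivity
    have h5 : 0 ≤ c ^ 3 := by positivity
    linarith
  calc 8 * (((MP Y)⁻¹) ^ 4 * (w2 Y D1 * w2 Y D2 * w2 Y D3))
      ≤ 8 * (((MP Y)⁻¹) ^ 4 * (W Y D1 + W Y D2 + W Y D3)) := by gcongr
    _ = _ := by ring

end Pool.Agent.H93.DC
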