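import Pool.Agent.H93.DC.TypeI
import Pool.Agent.H93.DC.Conf

/-! The set of numbers `m q` with `m` small and its model. -/

namespace Pool.Agent.H93.DC

open Finset

/-- sum of `1/q` over primes in `(a, b]` -/
noncomputable def RR (a b : ℕ) : ℝ := ∑ q ∈ (Ioc a b).filter Nat.Prime, (1 : ℝ) / q

lemma RR_nonneg (a b : ℕ) : 0 ≤ RR a b := Finset.sum_nonneg (fun _ _ => by positivity)

lemma RR_mono {a b b' : ℕ} (h : b ≤ b') : RR a b ≤ RR a b' := by
  unfold RR
  apply Finset.sum_le_sum_of_subset_of_nonneg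
  · intro q hq
    rw [Finset.mem_filter, Finset.mem_Ioc] at hq ⊢
    exact ⟨⟨hq.1.1, hq.1.2.trans h⟩, hq.2⟩
  · intro _ _ _; positivity

lemma RR_add {a b c : ℕ} (h1 : a ≤ b) (h2 : b ≤ c) : RR a c = RR a b + RR b c := by
  unfold RR
  rw [← Finset.sum_union]
  · apply Finset.sum_congr _ (fun _ _ => rfl)
    ext q
    simp only [Finset.mem_filter, Finset.mem_Ioc, Finset.mem_union]
    constructor
    · rintro ⟨⟨h3, h4⟩, h5⟩
      rcases Nat.lt_or_ge b q with h6 | h6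
      · exact Or.inr ⟨⟨h6, h4⟩, h5⟩
      · exact Or.inl ⟨⟨h3, h6⟩, h5⟩
    · rintro (⟨⟨h3, h4⟩, h5⟩ | ⟨⟨h3, h4⟩, h5⟩)
      · exact ⟨⟨h3, h4.trans h2⟩, h5⟩
      · exact ⟨⟨lt_of_le_of_lt h1 h3, h4⟩, h5⟩
  · rw [Finset.disjoint_left]
    intro q hq1 hq2
    rw [Finset.mem_filter, Finset.mem_Ioc] at hq1 hq2
    omega

/-- dyadic estimates -/
def Dy (z0 : ℕ) : Prop := 2 ≤ z0 ∧ ∀ z : ℕ, z0 ≤ z → 1 / (4 * Real.log z) ≤ RR z (2 * z) ∧ RR z (2 * z) ≤ 2 / Real.log z

lemma RR_upper {z0 : ℕ} (hD : Dy z0) {a : ℕ} (ha : z0 ≤ a) (n : ℕ) : RR a (2 ^ n * a) ≤ n * (2 / Real.log a) := by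
  have ha2 : 2 ≤ a := hD.1.trans ha
  have hlog : 0 < Real.log a := Real.log_pos (by exact_mod_cast (by omega : 1 < a))
  induction n with
  | zero => simp [RR]
  | succ n ih =>
    have h0 : a ≤ 2 ^ n * a := Nat.le_mul_of_pos_left a (by positivity)
    have h1 : 2 ^ n * a ≤ 2 ^ (n + 1) * a := by
      apply Nat.mul_le_mul_right
      exact Nat.pow_le_pow_right (by norm_num) (by omega)
    rw [RR_add h0 h1]
    have h2 := (hD.2 (2 ^ n * a) (ha.trans h0)).2
    have h3 : 2 * (2 ^ n * a) = 2 ^ (n + 1) * a := by ring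
    rw [h3] at h2
    have h4 : Real.log a ≤ Real.log ((2 ^ n * a : ℕ) : ℝ) := by
      apply Real.log_le_log (by exact_mod_cast (by omega : 0 < a))
      exact_mod_cast h0
    have h5 : 2 / Real.log ((2 ^ n * a : ℕ) : ℝ) ≤ 2 / Real.log a := by gcongr
    push_cast at *
    linarith

lemma RR_lower {z0 : ℕ} (hD : Dy z0) {a : ℕ} (ha : z0 ≤ a) (n : ℕ) :
    n * (1 / (4 * Real.log ((2 ^ n * a : ℕ) : ℝ))) ≤ RR a (2 ^ n * a) := by
  have ha2 : 2 ≤ a := hD.1.trans ha
  have hlog : 0 < Real.log a := Real.log_pos (by exact_mod_cast (by omega : 1 < a))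
  -- general: for all k ≤ n
  have key : ∀ k : ℕ, k ≤ n → k * (1 / (4 * Real.log ((2 ^ n * a : ℕ) : ℝ))) ≤ RR a (2 ^ k * a) := by
    intro k
    induction k with
    | zero => intro _; simp; exact RR_nonneg _ _
    | succ k ih =>
      intro hk
      have ih' := ih (by omega)
      have h0 : a ≤ 2 ^ k * a := Nat.le_mul_of_pos_left a (by positivity)
      have h1 : 2 ^ k * a ≤ 2 ^ (k + 1) * a := by
        apply Nat.mul_le_mul_right
        exact Nat.pow_le_pow_right (by norm_num) (by omega)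
      rw [RR_add h0 h1]
      have h2 := (hD.2 (2 ^ k * a) (ha.trans h0)).1
      have h3 : 2 * (2 ^ k * a) = 2 ^ (k + 1) * a := by ring
      rw [h3] at h2
      have h4 : Real.log ((2 ^ k * a : ℕ) : ℝ) ≤ Real.log ((2 ^ n * a : ℕ) : ℝ) := by
        apply Real.log_le_log
        · exact_mod_cast (by positivity : 0 < 2 ^ k * a)
        · have : 2 ^ k * a ≤ 2 ^ n * a := by
            apply Nat.mul_le_mul_right
            exact Nat.pow_le_pow_right (by norm_num) (by omega)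
          exact_mod_cast this
      have h6 : 0 < Real.log ((2 ^ k * a : ℕ) : ℝ) := by
        apply Real.log_pos
        have : 1 < 2 ^ k * a := by omega
        exact_mod_cast this
      have h5 : 1 / (4 * Real.log ((2 ^ n * a : ℕ) : ℝ)) ≤ 1 / (4 * Real.log ((2 ^ k * a : ℕ) : ℝ)) := by gcongr
      have h7 : ((k + 1 : ℕ) : ℝ) * (1 / (4 * Real.log ((2 ^ n * a : ℕ) : ℝ))) =
        k * (1 / (4 * Real.log ((2 ^ n * a : ℕ) : ℝ))) + 1 / (4 * Real.log ((2 ^ n * a : ℕ) : ℝ)) := by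
        push_cast; ring
      rw [h7]
      linarith
  exact key n le_rfl

/-- the medium primes used -/
def Qs (N Y T : ℕ) : Finset ℕ :=
  (range (N + 1)).filter (fun q => q.Prime ∧ Y ≤ q ∧ q * T ^ 2 ≤ N ∧ N ≤ q * (10 * Y))

def lo (N T : ℕ) (q : ℕ) : ℕ := max (T ^ 2 * q) (N / 10)
def hi (N Y : ℕ) (q : ℕ) : ℕ := min ((Y - 1) * q) N

/-- the set -/
noncomputable def B1 (N Y T : ℕ) : Finset ℤ :=
  (AA N).filter (fun x => ∃ q ∈ Qs N Y T, (q : ℤ) ∣ x ∧ (lo N T q : ℤ) < x ∧ x ≤ hi N Y q)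

/-- the model -/
noncomputable def gg (N Y T : ℕ) (x : ℤ) : ℝ :=
  ∑ q ∈ Qs N Y T, (if (lo N T q : ℤ) < x ∧ x ≤ hi N Y q then (1 : ℝ) / q else 0)

lemma mem_Qs {N Y T q : ℕ} : q ∈ Qs N Y T ↔ q.Prime ∧ Y ≤ q ∧ q * T ^ 2 ≤ N ∧ N ≤ q * (10 * Y) ∧ q ≤ N := by
  unfold Qs
  rw [Finset.mem_filter, Finset.mem_range]
  constructor
  · rintro ⟨h1, h2, h3, h4, h5⟩; exact ⟨h2, h3, h4, h5, by omega⟩
  · rintro ⟨h2, h3, h4, h5, h1⟩; exact ⟨by omega, h2, h3, h4, h5⟩

/-- uniqueness of the representation -/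
lemma rep_unique {N Y T : ℕ} (hY : 1 ≤ Y) {x : ℤ} {q : ℕ} (hq : q ∈ Qs N Y T) (hd : (q : ℤ) ∣ x) (hx0 : 0 < x)
    (hx : x ≤ hi N Y q) {q' : ℕ} (hq' : q'.Prime) (hY' : Y ≤ q') (hd' : (q' : ℤ) ∣ x) : q' = q := by
  rw [mem_Qs] at hq
  obtain ⟨m, hm⟩ := hd
  have hqpos : (0 : ℤ) < q := by exact_mod_cast hq.1.pos
  have hmpos : 0 < m := by
    by_contra hc
    push Not at hc
    nlinarith
  have hmY : m < Y := by
    have h1 : x ≤ ((Y - 1 : ℕ) : ℤ) * q := by
      refine hx.trans ?_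
      unfold hi
      push_cast
      exact min_le_left _ _
    rw [hm, mul_comm] at h1
    have h2 : m ≤ ((Y - 1 : ℕ) : ℤ) := le_of_mul_le_mul_right h1 hqpos
    omega
  have hp' : Prime (q' : ℤ) := Nat.prime_iff_prime_int.mp hq'
  rw [hm] at hd'
  rcases hp'.dvd_or_dvd hd' with h | h
  · have h3 : q' ∣ q := by exact_mod_cast h
    exact (Nat.prime_dvd_prime_iff_eq hq' hq.1).mp h3
  · have := Int.le_of_dvd hmpos h
    omega

lemma ind_B1 {N Y T : ℕ} (hY : 1 ≤ Y) (x : ℤ) :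
    ind (B1 N Y T) x = ∑ q ∈ Qs N Y T, (if (q : ℤ) ∣ x ∧ (lo N T q : ℤ) < x ∧ x ≤ hi N Y q then (1 : ℝ) else 0) := by
  unfold ind
  split_ifs with h
  · unfold B1 at h
    rw [Finset.mem_filter] at h
    obtain ⟨_, q, hq, hd, hlo, hhi⟩ := h
    rw [Finset.sum_eq_single_of_mem q hq]
    · rw [if_pos ⟨hd, hlo, hhi⟩]
    · intro q' hq' hne
      rw [if_neg]
      rintro ⟨hd', _, _⟩
      have hx0 : 0 < x := lt_of_le_of_lt (by positivity) hlo
      exact hne (rep_unique hY hq hd hx0 hhi (mem_Qs.mp hq').1 (mem_Qs.mp hq').2.1 hd')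
  · symm
    apply Finset.sum_eq_zero
    intro q hq
    rw [if_neg]
    rintro ⟨hd, hlo, hhi⟩
    apply h
    unfold B1 AA
    rw [Finset.mem_filter, Finset.mem_Icc]
    refine ⟨⟨?_, ?_⟩, q, hq, hd, hlo, hhi⟩
    · exact (lt_of_le_of_lt (by positivity) hlo).le
    · refine hhi.trans ?_
      unfold hi
      push_cast
      exact min_le_right _ _

lemma sum_AA (N : ℕ) {M : Type*} [AddCommMonoid M] (F : ℤ → M) : ∑ x ∈ AA N, F x = ∑ n ∈ range (N + 1), F (n : ℤ) := by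
  have h1 : AA N = (range (N + 1)).image (fun n : ℕ => (n : ℤ)) := by
    ext x
    unfold AA
    rw [Finset.mem_Icc, Finset.mem_image]
    constructor
    · rintro ⟨h1, h2⟩
      refine ⟨x.toNat, ?_, Int.toNat_of_nonneg h1⟩
      rw [Finset.mem_range]; omega
    · rintro ⟨n, hn, rfl⟩
      rw [Finset.mem_range] at hn
      omega
  rw [h1, Finset.sum_image (fun a _ b _ h => by exact_mod_cast h)]

/-- the Fourier transform of the difference -/
lemma fourier_diff {N Y T : ℕ} (hY : 1 ≤ Y) (t : ℝ) :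
    ∑ x ∈ AA N, ((ind (B1 N Y T) x - gg N Y T x : ℝ) : ℂ) * e (t * x)
      = ∑ q ∈ Qs N Y T, Fq (lo N T q) (hi N Y q) q t := by
  have h1 : ∀ x ∈ AA N, ((ind (B1 N Y T) x - gg N Y T x : ℝ) : ℂ) * e (t * x)
      = ∑ q ∈ Qs N Y T, (((if (q : ℤ) ∣ x ∧ (lo N T q : ℤ) < x ∧ x ≤ hi N Y q then (1 : ℝ) else 0)
          - (if (lo N T q : ℤ) < x ∧ x ≤ hi N Y q then (1 : ℝ) / q else 0) : ℝ) : ℂ) * e (t * x) := by
    intro x _
    rw [ind_B1 hY, gg, ← Finset.sum_sub_distrib]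
    push_cast
    rw [Finset.sum_mul]
  rw [Finset.sum_congr rfl h1, Finset.sum_comm]
  refine Finset.sum_congr rfl fun q _ => ?_
  rw [sum_AA]
  unfold Fq
  have hsub : Ioc (lo N T q) (hi N Y q) ⊆ range (N + 1) := by
    intro n hn
    rw [Finset.mem_Ioc] at hn
    rw [Finset.mem_range]
    have : hi N Y q ≤ N := min_le_right _ _
    omega
  symm
  rw [← Finset.sum_subset hsub]
  · refine Finset.sum_congr rfl fun n hn => ?_
    rw [Finset.mem_Ioc] at hn
    have c1 : ((lo N T q : ℕ) : ℤ) < (n : ℤ) := by exact_mod_cast hn.1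
    have c2 : (n : ℤ) ≤ ((hi N Y q : ℕ) : ℤ) := by exact_mod_cast hn.2
    have c3 : ((q : ℤ) ∣ (n : ℤ)) ↔ q ∣ n := Int.natCast_dvd_natCast
    have hB : (((lo N T q : ℕ) : ℤ) < (n : ℤ) ∧ (n : ℤ) ≤ ((hi N Y q : ℕ) : ℤ)) ↔ True :=
      ⟨fun _ => trivial, fun _ => ⟨c1, c2⟩⟩
    simp only [hB, c3, and_true, if_true, Int.cast_natCast]
  · intro n _ hn
    rw [Finset.mem_Ioc, not_and_or] at hn
    rw [if_neg, if_neg]
    · simp
    · rintro ⟨c1, c2⟩
      have c1' : lo N T q < n := by exact_mod_cast c1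
      have c2' : n ≤ hi N Y q := by exact_mod_cast c2
      omega
    · rintro ⟨_, c1, c2⟩
      have c1' : lo N T q < n := by exact_mod_cast c1
      have c2' : n ≤ hi N Y q := by exact_mod_cast c2
      omega

/-- the model function as a sum over primes in an interval -/
lemma gg_eq {N Y T : ℕ} (hY : 2 ≤ Y) (hT : 1 ≤ T) (hN : 20 * Y ^ 2 ≤ N) {x : ℕ} (hx1 : N / 10 < x) (hx2 : x ≤ N) :
    gg N Y T x = RR ((x - 1) / (Y - 1)) ((x - 1) / T ^ 2) := by
  unfold gg RR
  rw [← Finset.sum_filter]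
  apply Finset.sum_congr _ (fun _ _ => rfl)
  ext q
  rw [Finset.mem_filter, Finset.mem_filter, mem_Qs, Finset.mem_Ioc]
  have hT2 : 0 < T ^ 2 := by positivity
  have hY1 : 0 < Y - 1 := by omega
  have hloi : ((lo N T q : ℕ) : ℤ) < (x : ℤ) ↔ T ^ 2 * q < x := by
    rw [Nat.cast_lt]
    unfold lo
    rw [max_lt_iff]
    exact ⟨fun h => h.1, fun h => ⟨h, hx1⟩⟩
  have hhii : (x : ℤ) ≤ ((hi N Y q : ℕ) : ℤ) ↔ x ≤ (Y - 1) * q := by
    rw [Nat.cast_le]
    unfold hi
    rw [le_min_iff]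
    exact ⟨fun h => h.1, fun h => ⟨h, hx2⟩⟩
  rw [hloi, hhii, Nat.div_lt_iff_lt_mul hY1, Nat.le_div_iff_mul_le hT2]
  constructor
  · rintro ⟨⟨h1, h2, h3, h4, h5⟩, h6, h7⟩
    refine ⟨⟨?_, ?_⟩, h1⟩
    · have : (Y - 1) * q = q * (Y - 1) := mul_comm _ _
      omega
    · have : T ^ 2 * q = q * T ^ 2 := mul_comm _ _
      omega
  · rintro ⟨⟨h1, h2⟩, h3⟩
    have h4 : x ≤ (Y - 1) * q := by
      have : (Y - 1) * q = q * (Y - 1) := mul_comm _ _
      omega
    have h5 : T ^ 2 * q < x := by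
      have : T ^ 2 * q = q * T ^ 2 := mul_comm _ _
      omega
    have h6 : (Y - 1) * q ≤ Y * q := Nat.mul_le_mul_right _ (by omega)
    have h7 : N < 10 * x := by omega
    have h8 : N ≤ q * (10 * Y) := by
      have : q * (10 * Y) = 10 * (Y * q) := by ring
      omega
    refine ⟨⟨h3, ?_, ?_, h8, ?_⟩, h5, h4⟩
    · -- Y ≤ q
      by_contra hc
      push Not at hc
      have h9 : q * (10 * Y) ≤ Y * (10 * Y) := Nat.mul_le_mul_right _ hc.le
      have h10 : Y * (10 * Y) = 10 * Y ^ 2 := by ring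
      have h11 : 0 < Y ^ 2 := by positivity
      omega
    · have : T ^ 2 * q = q * T ^ 2 := mul_comm _ _
      omega
    · have : q ≤ T ^ 2 * q := Nat.le_mul_of_pos_left q hT2
      omega

lemma gg_zero {N Y T : ℕ} {x : ℤ} (hx : x ≤ (N / 10 : ℕ) ∨ (N : ℤ) < x) : gg N Y T x = 0 := by
  unfold gg
  apply Finset.sum_eq_zero
  intro q _
  rw [if_neg]
  rintro ⟨h1, h2⟩
  have h3 : ((N / 10 : ℕ) : ℤ) ≤ ((lo N T q : ℕ) : ℤ) := by
    unfold lo; push_cast; exact le_max_right _ _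
  have h4 : ((hi N Y q : ℕ) : ℤ) ≤ N := by
    unfold hi; push_cast; exact min_le_right _ _
  rcases hx with h | h <;> linarith

/-- the setup holds -/
theorem setup_SU {N Y T z0 : ℕ} (hD : Dy z0) (hT : 2 ≤ T) (hTY : 4 * T ^ 2 ≤ Y) (hN : 400 * Y ^ 2 ≤ N)
    (hz0 : z0 * (20 * Y) ≤ N) :
    SU N (ind (B1 N Y T)) (gg N Y T) ((Nat.log 2 ((Y - 1) / (2 * T ^ 2)) : ℝ) / (4 * Real.log N))
      (4 * (Nat.clog 2 Y : ℝ) / Real.log N)
      ((4 * (10 * Y : ℕ) + (21 + 9 * Real.log N + 8 * Nat.clog 2 (N + 2)) * (N / T)) / N) := by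
  have hT4 : 4 ≤ T ^ 2 := by
    calc 4 = 2 ^ 2 := by norm_num
      _ ≤ T ^ 2 := Nat.pow_le_pow_left hT 2
  have hTT : T ≤ T ^ 2 := by rw [sq]; exact Nat.le_mul_of_pos_left T (by omega)
  have hY16 : 16 ≤ Y := by omega
  have hYY : Y ≤ Y ^ 2 := by rw [sq]; exact Nat.le_mul_of_pos_left Y (by omega)
  have hN0 : 0 < N := by omega
  have hNr : (0 : ℝ) < N := by exact_mod_cast hN0
  have hlogN : 0 < Real.log N := by
    apply Real.log_pos
    have : 1 < N := by omega
    exact_mod_cast this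
  have hTN : T ≤ N := by omega
  have hTr : (0 : ℝ) < T := by exact_mod_cast (by omega : 0 < T)
  -- lower bound for a
  have ha : ∀ x : ℕ, N / 10 < x → x ≤ N → z0 ≤ (x - 1) / (Y - 1) ∧ N ≤ ((x - 1) / (Y - 1)) ^ 2
      ∧ x ≤ 2 * Y * ((x - 1) / (Y - 1)) := by
    intro x hx1 hx2
    set a := (x - 1) / (Y - 1) with ha
    have hY1 : 0 < Y - 1 := by omega
    have h1 : x - 1 < (Y - 1) * (a + 1) := by
      have := Nat.lt_mul_div_succ (x - 1) hY1
      rw [ha]; exact this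
    have h2 : x ≤ Y * (a + 1) := by
      have : (Y - 1) * (a + 1) ≤ Y * (a + 1) := Nat.mul_le_mul_right _ (by omega)
      omega
    have h3 : N < 10 * x := by omega
    have h4 : N < 10 * (Y * (a + 1)) := by omega
    have ha1 : 1 ≤ a := by
      rcases Nat.eq_zero_or_pos a with h0 | h0
      · rw [h0] at h4
        nlinarith
      · exact h0
    have h5 : Y * (a + 1) ≤ 2 * Y * a := by
      calc Y * (a + 1) ≤ Y * (2 * a) := Nat.mul_le_mul_left _ (by omega)
        _ = 2 * Y * a := by ring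
    have h6 : N < 20 * Y * a := by
      calc N < 10 * (Y * (a + 1)) := h4
        _ ≤ 10 * (2 * Y * a) := Nat.mul_le_mul_left _ h5
        _ = 20 * Y * a := by ring
    refine ⟨?_, ?_, h2.trans h5⟩
    · by_contra hc
      push Not at hc
      have : 20 * Y * a ≤ z0 * (20 * Y) := by
        calc 20 * Y * a = a * (20 * Y) := by ring
          _ ≤ z0 * (20 * Y) := Nat.mul_le_mul_right _ hc.le
      omega
    · -- N^2 < (20 Y a)^2 = 400 Y^2 a^2 ≤ N a^2
      have h7 : N * N < N * a ^ 2 := by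
        calc N * N < (20 * Y * a) * (20 * Y * a) := Nat.mul_self_lt_mul_self h6
          _ = (400 * Y ^ 2) * a ^ 2 := by ring
          _ ≤ N * a ^ 2 := Nat.mul_le_mul_right _ hN
      exact (Nat.lt_of_mul_lt_mul_left h7).le
  refine ⟨by positivity, by positivity, by positivity, ind_nonneg _, ?_, ?_, ?_, ?_, ?_, ?_, ?_, ?_⟩
  · intro x; unfold ind; split_ifs <;> norm_num
  · intro x hx
    unfold ind
    rw [if_neg]
    intro h
    unfold B1 at h
    rw [Finset.mem_filter] at h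
    exact hx h.1
  · intro x
    unfold gg
    apply Finset.sum_nonneg
    intro q _; split_ifs <;> positivity
  · -- upper bound
    intro x
    by_cases hx : x ≤ (N / 10 : ℕ) ∨ (N : ℤ) < x
    · rw [gg_zero hx]; positivity
    · push Not at hx
      obtain ⟨n, rfl⟩ : ∃ n : ℕ, x = n := ⟨x.toNat, by omega⟩
      have hn1 : N / 10 < n := by exact_mod_cast hx.1
      have hn2 : n ≤ N := by exact_mod_cast hx.2
      rw [gg_eq (by omega) (by omega) (by omega) hn1 hn2]
      obtain ⟨ha1, ha2, ha3⟩ := ha n hn1 hn2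
      set a := (n - 1) / (Y - 1) with haa
      have ha0 : 0 < a := by
        rcases Nat.eq_zero_or_pos a with h | h
        · rw [h] at ha2; omega
        · exact h
      have hb : (n - 1) / T ^ 2 ≤ 2 ^ (Nat.clog 2 Y) * a := by
        have h1 : (n - 1) / T ^ 2 ≤ Y * a := by
          apply Nat.div_le_of_le_mul
          calc n - 1 ≤ 2 * Y * a := by omega
            _ = 2 * (Y * a) := by ring
            _ ≤ T ^ 2 * (Y * a) := Nat.mul_le_mul_right _ (by omega)
        have h2 : Y ≤ 2 ^ (Nat.clog 2 Y) := Nat.le_pow_clog (by norm_num) Y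
        exact h1.trans (Nat.mul_le_mul_right _ h2)
      refine (RR_mono hb).trans ((RR_upper hD ha1 _).trans ?_)
      have hloga : Real.log N / 2 ≤ Real.log a := by
        have h1 : Real.log N ≤ Real.log ((a : ℝ) ^ 2) := by
          apply Real.log_le_log hNr
          exact_mod_cast ha2
        rw [Real.log_pow] at h1
        push_cast at h1; linarith
      have h2 : 2 / Real.log a ≤ 2 / (Real.log N / 2) := by gcongr
      calc (Nat.clog 2 Y : ℝ) * (2 / Real.log a) ≤ (Nat.clog 2 Y : ℝ) * (2 / (Real.log N / 2)) := by gcongr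
        _ = 4 * (Nat.clog 2 Y : ℝ) / Real.log N := by field_simp; norm_num
  · intro x hx
    apply gg_zero
    unfold AA at hx
    rw [Finset.mem_Icc, not_and_or] at hx
    rcases hx with h | h
    · left; push Not at h; exact le_trans h.le (by positivity)
    · right; omega
  · apply gg_zero; left; positivity
  · -- lower bound
    intro x hx1 hx2
    obtain ⟨n, rfl⟩ : ∃ n : ℕ, x = n := ⟨x.toNat, by omega⟩
    have hn1 : N / 10 < n := by omega
    have hn2 : n ≤ N := by exact_mod_cast hx2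
    rw [gg_eq (by omega) (by omega) (by omega) hn1 hn2]
    obtain ⟨ha1, ha2, ha3⟩ := ha n hn1 hn2
    set a := (n - 1) / (Y - 1) with haa
    set k := Nat.log 2 ((Y - 1) / (2 * T ^ 2)) with hk
    have ha0 : 0 < a := by
      rcases Nat.eq_zero_or_pos a with h | h
      · rw [h] at ha2; omega
      · exact h
    have hT2 : 0 < T ^ 2 := by positivity
    have hquo : (Y - 1) / (2 * T ^ 2) ≠ 0 := by
      apply Nat.pos_iff_ne_zero.mp
      apply Nat.div_pos _ (by positivity)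
      omega
    have h2k : 2 ^ k ≤ (Y - 1) / (2 * T ^ 2) := Nat.pow_log_le_self 2 hquo
    have h2k' : 2 ^ k * (2 * T ^ 2) ≤ Y - 1 := by
      have := Nat.div_mul_le_self (Y - 1) (2 * T ^ 2)
      exact (Nat.mul_le_mul_right _ h2k).trans this
    have haY : a * (Y - 1) ≤ n - 1 := Nat.div_mul_le_self _ _
    have hb : 2 ^ k * a ≤ (n - 1) / T ^ 2 := by
      rw [Nat.le_div_iff_mul_le hT2]
      have h1 : 2 ^ k * a * (2 * T ^ 2) ≤ n - 1 := by
        calc 2 ^ k * a * (2 * T ^ 2) = a * (2 ^ k * (2 * T ^ 2)) := by ring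
          _ ≤ a * (Y - 1) := Nat.mul_le_mul_left _ h2k'
          _ ≤ n - 1 := haY
      have h1' : 2 ^ k * a * (2 * T ^ 2) = 2 * (2 ^ k * a * T ^ 2) := by ring
      omega
    refine le_trans ?_ (RR_mono hb)
    refine le_trans ?_ (RR_lower hD ha1 k)
    have h3 : ((2 ^ k * a : ℕ) : ℝ) ≤ N := by
      have : 2 ^ k * a ≤ N := hb.trans ((Nat.div_le_self _ _).trans (by omega))
      exact_mod_cast this
    have h4 : Real.log ((2 ^ k * a : ℕ) : ℝ) ≤ Real.log N :=
      Real.log_le_log (by exact_mod_cast (by positivity : 0 < 2 ^ k * a)) h3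
    have h5 : 0 < Real.log ((2 ^ k * a : ℕ) : ℝ) := by
      apply Real.log_pos
      have h6 : 1 < a := by
        have := hD.1
        omega
      have : 1 < 2 ^ k * a := lt_of_lt_of_le h6 (Nat.le_mul_of_pos_left a (by positivity))
      exact_mod_cast this
    rw [div_eq_mul_one_div]
    gcongr
  · -- Fourier
    intro t
    rw [fourier_diff (by omega)]
    have h1 := typeI_main (N := N) (T := T) (V := 10 * Y) hT hTN (Qs N Y T) (lo N T) (hi N Y)
      (fun q hq => (mem_Qs.mp hq).1)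
      (fun q hq => by
        have := (mem_Qs.mp hq).2.1
        have h2 : T < 4 * T ^ 2 := by omega
        omega)
      (fun q hq => (mem_Qs.mp hq).2.2.1)
      (fun q hq => (mem_Qs.mp hq).2.2.2.1) (by omega) (by omega)
      (fun q _ => min_le_right _ _) t
    refine h1.trans (le_of_eq ?_)
    field_simp

end Pool.Agent.H93.DC
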