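import Pool.Agent.H93.DC.Fourier

/-! A type I exponential sum bound. -/

namespace Pool.Agent.H93.DC

open Finset Complex

/-- distance to the nearest integer -/
noncomputable def dst (t : ℝ) : ℝ := |t - round t|

lemma dst_nonneg (t : ℝ) : 0 ≤ dst t := abs_nonneg _

lemma dst_le_half (t : ℝ) : dst t ≤ 1 / 2 := abs_sub_round t

lemma dst_le (t : ℝ) (z : ℤ) : dst t ≤ |t - z| := round_le t z

lemma norm_e_sub_one_le (t : ℝ) : ‖e t - 1‖ ≤ 2 * Real.pi * |t| := by
  have h : e t = Complex.exp (Complex.I * ((2 * Real.pi * t : ℝ) : ℂ)) := by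
    unfold e; congr 1; push_cast; ring
  rw [h]
  refine (Real.norm_exp_I_mul_ofReal_sub_one_le).trans ?_
  rw [Real.norm_eq_abs, abs_mul, abs_of_pos (by positivity : (0:ℝ) < 2 * Real.pi)]

lemma norm_e_sub_one_ge (t : ℝ) : 4 * dst t ≤ ‖e t - 1‖ := by
  have h0 : e t = e (t - round t) := by
    rw [← e_add_int (t - round t) (round t)]; congr 1; ring
  have h : e (t - round t) = Complex.exp (Complex.I * ((2 * Real.pi * (t - round t) : ℝ) : ℂ)) := by
    unfold e; congr 1; push_cast; ring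
  rw [h0, h, Complex.norm_exp_I_mul_ofReal_sub_one, Real.norm_eq_abs, abs_mul, abs_two]
  have h1 : |2 * Real.pi * (t - round t) / 2| ≤ Real.pi / 2 := by
    have := abs_sub_round t
    have hp := Real.pi_pos
    have e1 : 2 * Real.pi * (t - round t) / 2 = Real.pi * (t - round t) := by ring
    rw [e1, abs_mul, abs_of_pos hp]
    nlinarith
  have h2 := Real.mul_abs_le_abs_sin h1
  have h3 : 2 / Real.pi * |2 * Real.pi * (t - round t) / 2| = 2 * |t - round t| := by
    have e1 : 2 * Real.pi * (t - round t) / 2 = Real.pi * (t - round t) := by ring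
    rw [e1, abs_mul, abs_of_pos Real.pi_pos]
    field_simp
  rw [h3] at h2
  unfold dst
  linarith

/-- geometric sums -/
lemma geom_bound (t : ℝ) (a b : ℕ) : ‖∑ m ∈ Ioc a b, e (t * m)‖ * (2 * dst t) ≤ 1 := by
  have hz : ∀ m : ℕ, e (t * m) = e t ^ m := by
    intro m; rw [← e_nat_mul]; congr 1; ring
  rcases le_or_gt b a with h | h
  · rw [Finset.Ioc_eq_empty (by omega)]; simp
  have h1 : (∑ m ∈ Ioc a b, e (t * m)) * (e t - 1) = e t ^ (b + 1) - e t ^ (a + 1) := by
    simp_rw [hz]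
    have : Ioc a b = Ico (a + 1) (b + 1) := by ext x; simp only [Finset.mem_Ioc, Finset.mem_Ico]; omega
    rw [this]
    exact geom_sum_Ico_mul (e t) (by omega)
  have h2 : ‖∑ m ∈ Ioc a b, e (t * m)‖ * ‖e t - 1‖ ≤ 2 := by
    rw [← norm_mul, h1]
    refine (norm_sub_le _ _).trans ?_
    rw [norm_pow, norm_pow, norm_e, one_pow, one_pow]; norm_num
  have h3 := norm_e_sub_one_ge t
  have h4 := norm_nonneg (∑ m ∈ Ioc a b, e (t * m))
  nlinarith [mul_le_mul_of_nonneg_left h3 h4]

/-- change of variables for multiples of `q` -/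
lemma sum_dvd_Ioc (g : ℕ → ℂ) {q : ℕ} (hq : 0 < q) (a b : ℕ) :
    ∑ x ∈ Ioc a b, (if q ∣ x then g x else 0) = ∑ m ∈ Ioc (a / q) (b / q), g (q * m) := by
  rw [← Finset.sum_filter]
  refine Finset.sum_nbij' (fun x => x / q) (fun m => q * m) ?_ ?_ ?_ ?_ ?_
  · intro x hx
    rw [Finset.mem_filter, Finset.mem_Ioc] at hx
    obtain ⟨⟨h1, h2⟩, c, rfl⟩ := hx
    rw [Finset.mem_Ioc, Nat.mul_div_cancel_left _ hq]
    constructor
    · rw [Nat.div_lt_iff_lt_mul hq]; linarith [mul_comm q c]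
    · rw [Nat.le_div_iff_mul_le hq]; linarith [mul_comm q c]
  · intro m hm
    rw [Finset.mem_Ioc] at hm
    rw [Finset.mem_filter, Finset.mem_Ioc]
    obtain ⟨h1, h2⟩ := hm
    rw [Nat.div_lt_iff_lt_mul hq] at h1
    rw [Nat.le_div_iff_mul_le hq] at h2
    refine ⟨⟨?_, ?_⟩, dvd_mul_right _ _⟩ <;> linarith [mul_comm q m]
  · intro x hx
    rw [Finset.mem_filter] at hx
    exact Nat.mul_div_cancel' hx.2
  · intro m _
    exact Nat.mul_div_cancel_left _ hq
  · intro x hx
    rw [Finset.mem_filter] at hx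
    rw [Nat.mul_div_cancel' hx.2]

/-- the sum over multiples of `q` -/
lemma dvd_sum_bound (α : ℝ) {q : ℕ} (hq : 0 < q) (a b : ℕ) :
    ‖∑ x ∈ Ioc a b, (if q ∣ x then e (α * x) else 0)‖ * (2 * dst (α * q)) ≤ 1 := by
  rw [sum_dvd_Ioc (fun x => e (α * x)) hq]
  have : ∑ m ∈ Ioc (a / q) (b / q), e (α * ((q * m : ℕ) : ℝ)) = ∑ m ∈ Ioc (a / q) (b / q), e (α * q * m) := by
    refine Finset.sum_congr rfl fun m _ => ?_
    congr 1; push_cast; ring
  rw [this]
  exact geom_bound _ _ _

lemma dvd_sum_trivial (α : ℝ) {q : ℕ} (hq : 0 < q) (a b : ℕ) :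
    ‖∑ x ∈ Ioc a b, (if q ∣ x then e (α * x) else 0)‖ ≤ (b / q : ℕ) := by
  rw [sum_dvd_Ioc (fun x => e (α * x)) hq]
  refine (norm_sum_le _ _).trans ?_
  simp only [norm_e, Finset.sum_const, nsmul_eq_mul, mul_one, Nat.card_Ioc]
  exact_mod_cast Nat.sub_le _ _

/-- The per-`q` sum. -/
noncomputable def Fq (lo hi : ℕ) (q : ℕ) (α : ℝ) : ℂ :=
  ∑ x ∈ Ioc lo hi, (((if q ∣ x then 1 else 0) - 1 / q : ℝ) : ℂ) * e (α * x)

lemma Fq_split (lo hi q : ℕ) (α : ℝ) :
    Fq lo hi q α = ∑ x ∈ Ioc lo hi, (if q ∣ x then e (α * x) else 0) - (1 / q : ℝ) * ∑ x ∈ Ioc lo hi, e (α * x) := by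
  unfold Fq
  rw [Finset.mul_sum, ← Finset.sum_sub_distrib]
  refine Finset.sum_congr rfl fun x _ => ?_
  split_ifs <;> push_cast <;> ring

/-- Abel summation near an integer. -/
lemma Fq_near (lo hi : ℕ) {q : ℕ} (hq : 0 < q) (α : ℝ) (c : ℤ) :
    ‖Fq lo hi q α‖ ≤ 1 + 2 * Real.pi * |α - c| * hi := by
  set β := α - c with hβ
  have hper : ∀ x : ℕ, e (α * x) = e (β * x) := by
    intro x
    have : α * x = β * x + ((c * x : ℤ) : ℝ) := by rw [hβ]; push_cast; ring
    rw [this, e_add_int]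
  set D : ℕ → ℝ := fun h => ((h / q : ℕ) - (lo / q : ℕ) : ℝ) - ((h : ℝ) - lo) / q with hD
  have hq0 : (0 : ℝ) < q := by exact_mod_cast hq
  have hDb : ∀ h, |D h| ≤ 1 := by
    intro h
    rw [hD]
    simp only
    have e1 : ∀ n : ℕ, ((n / q : ℕ) : ℝ) ≤ (n : ℝ) / q ∧ (n : ℝ) / q - 1 < ((n / q : ℕ) : ℝ) := by
      intro n
      refine ⟨Nat.cast_div_le, ?_⟩
      have h2 : n < (n / q + 1) * q := by
        have := Nat.lt_div_mul_add hq (a := n)
        nlinarith
      have h3 : (n : ℝ) < (((n / q : ℕ) : ℝ) + 1) * q := by exact_mod_cast h2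
      rw [sub_lt_iff_lt_add, div_lt_iff₀ hq0]; exact h3
    have h1 := e1 h
    have h2 := e1 lo
    rw [sub_div]
    rw [abs_le]
    constructor <;> linarith [h1.1, h1.2, h2.1, h2.2]
  have key : ∀ n : ℕ, ‖Fq lo (lo + n) q α - (D (lo + n) : ℂ) * e (β * ((lo + n : ℕ) : ℝ))‖ ≤ 2 * Real.pi * |β| * n := by
    intro n
    induction n with
    | zero =>
      simp [Fq, hD]
    | succ n ih =>
      have hstep : Fq lo (lo + (n + 1)) q α = Fq lo (lo + n) q α
          + ((D (lo + (n + 1)) - D (lo + n) : ℝ) : ℂ) * e (β * ((lo + (n + 1) : ℕ) : ℝ)) := by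
        unfold Fq
        have : Ioc lo (lo + (n + 1)) = insert (lo + (n + 1)) (Ioc lo (lo + n)) := by
          ext x; simp only [Finset.mem_Ioc, Finset.mem_insert]; omega
        rw [this, Finset.sum_insert (by simp), add_comm, hper]
        congr 2
        rw [hD]
        simp only
        have h3 : (lo + (n + 1)) / q = (lo + n) / q + if q ∣ (lo + (n + 1)) then 1 else 0 := by
          exact Nat.succ_div
        rw [h3]
        push_cast
        split_ifs <;> ring
      rw [hstep]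
      have e2 : Fq lo (lo + n) q α + ((D (lo + (n + 1)) - D (lo + n) : ℝ) : ℂ) * e (β * ((lo + (n + 1) : ℕ) : ℝ))
          - (D (lo + (n + 1)) : ℂ) * e (β * ((lo + (n + 1) : ℕ) : ℝ))
          = (Fq lo (lo + n) q α - (D (lo + n) : ℂ) * e (β * ((lo + n : ℕ) : ℝ)))
            - (D (lo + n) : ℂ) * (e (β * ((lo + n : ℕ) : ℝ)) * (e β - 1)) := by
        have e3 : e (β * ((lo + (n + 1) : ℕ) : ℝ)) = e (β * ((lo + n : ℕ) : ℝ)) * e β := by
          rw [← e_add]; congr 1; push_cast; ring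
        rw [e3]; push_cast; ring
      rw [e2]
      refine (norm_sub_le _ _).trans ?_
      have h4 : ‖(D (lo + n) : ℂ) * (e (β * ((lo + n : ℕ) : ℝ)) * (e β - 1))‖ ≤ 2 * Real.pi * |β| := by
        rw [norm_mul, norm_mul, norm_e, one_mul, Complex.norm_real, Real.norm_eq_abs]
        calc _ ≤ 1 * (2 * Real.pi * |β|) := by
              apply mul_le_mul (hDb _) (norm_e_sub_one_le β) (norm_nonneg _) zero_le_one
          _ = _ := one_mul _
      have e5 : 2 * Real.pi * |β| * ((n + 1 : ℕ) : ℝ) = 2 * Real.pi * |β| * n + 2 * Real.pi * |β| := by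
        push_cast; ring
      rw [e5]
      linarith
  rcases le_or_gt hi lo with h | h
  · unfold Fq
    rw [Finset.Ioc_eq_empty (by omega)]
    simp
    positivity
  · obtain ⟨n, rfl⟩ : ∃ n, hi = lo + n := ⟨hi - lo, by omega⟩
    have h5 := key n
    have h6 : ‖(D (lo + n) : ℂ) * e (β * ((lo + n : ℕ) : ℝ))‖ ≤ 1 := by
      rw [norm_mul, norm_e, mul_one, Complex.norm_real, Real.norm_eq_abs]
      exact hDb _
    have h7 : ‖Fq lo (lo + n) q α‖ ≤ ‖Fq lo (lo + n) q α - (D (lo + n) : ℂ) * e (β * ((lo + n : ℕ) : ℝ))‖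
        + ‖(D (lo + n) : ℂ) * e (β * ((lo + n : ℕ) : ℝ))‖ := by
      have := norm_add_le (Fq lo (lo + n) q α - (D (lo + n) : ℂ) * e (β * ((lo + n : ℕ) : ℝ)))
        ((D (lo + n) : ℂ) * e (β * ((lo + n : ℕ) : ℝ)))
      simpa using this
    have h8 : 2 * Real.pi * |β| * n ≤ 2 * Real.pi * |β| * ((lo + n : ℕ) : ℝ) := by
      gcongr
      exact Nat.le_add_left n lo
    linarith

/-- counting well spaced points near integers -/
lemma count_near (S : Finset ℕ) (α : ℝ) {r : ℕ} (hr : 0 < r)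
    (hsep : ∀ n ∈ S, ∀ n' ∈ S, n ≠ n' → 1 / (2 * r : ℝ) ≤ dst (α * n - α * n')) {t : ℝ} (ht : 0 ≤ t) :
    ((S.filter (fun n : ℕ => dst (α * n) ≤ t)).card : ℝ) ≤ 1 + 4 * r * t := by
  have hr0 : (0 : ℝ) < r := by exact_mod_cast hr
  set s : ℕ → ℝ := fun n => α * n - round (α * n) with hs
  have hcard : (S.filter (fun n : ℕ => dst (α * n) ≤ t)).card ≤ (range (⌊4 * r * t⌋₊ + 1)).card := by
    apply Finset.card_le_card_of_injOn (fun n => ⌊2 * r * (s n + t)⌋₊)
    · intro n hn
      simp only [Finset.coe_filter, Set.mem_ofPred_eq] at hn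
      have h1 : |s n| ≤ t := hn.2
      rw [abs_le] at h1
      simp only [Finset.coe_range, Set.mem_Iio]
      rw [Nat.lt_succ_iff]
      apply Nat.floor_le_floor
      nlinarith
    · intro n hn n' hn' h
      simp only [Finset.coe_filter, Set.mem_ofPred_eq] at hn hn'
      by_contra hne
      have h1 := hsep n hn.1 n' hn'.1 hne
      have hsn : |s n| ≤ t := hn.2
      have hsn' : |s n'| ≤ t := hn'.2
      rw [abs_le] at hsn hsn'
      have h2 : dst (α * n - α * n') ≤ |s n - s n'| := by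
        refine (dst_le _ (round (α * n) - round (α * n'))).trans (le_of_eq ?_)
        rw [hs]
        simp only
        push_cast
        congr 1; ring
      simp only at h
      have a1 : (0:ℝ) ≤ 2 * r * (s n + t) := by nlinarith
      have a2 : (0:ℝ) ≤ 2 * r * (s n' + t) := by nlinarith
      have f1 := Nat.floor_le a1
      have f2 := Nat.lt_floor_add_one (2 * r * (s n + t))
      have f3 := Nat.floor_le a2
      have f4 := Nat.lt_floor_add_one (2 * r * (s n' + t))
      rw [h] at f1 f2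
      have h3 : |2 * r * (s n - s n')| < 1 := by
        rw [abs_lt]; constructor <;> nlinarith
      rw [abs_mul, abs_of_pos (by positivity)] at h3
      have h4 : |s n - s n'| < 1 / (2 * r) := by
        rw [lt_div_iff₀ (by positivity)]; linarith
      linarith
  rw [Finset.card_range] at hcard
  have h5 : ((S.filter (fun n : ℕ => dst (α * n) ≤ t)).card : ℝ) ≤ ((⌊4 * r * t⌋₊ + 1 : ℕ) : ℝ) := by
    exact_mod_cast hcard
  have h6 := Nat.floor_le (show (0:ℝ) ≤ 4 * r * t by positivity)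
  push_cast at h5
  linarith

/-- block bound -/
lemma block_bound (S : Finset ℕ) (α : ℝ) {r : ℕ} (hr : 0 < r)
    (hsep : ∀ n ∈ S, ∀ n' ∈ S, n ≠ n' → 1 / (2 * r : ℝ) ≤ dst (α * n - α * n'))
    {V : ℕ} (hV : 2 ≤ V) (F : ℕ → ℝ) (hF0 : ∀ n ∈ S, 0 ≤ F n) (hF1 : ∀ n ∈ S, F n ≤ V)
    (hF2 : ∀ n ∈ S, F n * (2 * dst (α * n)) ≤ 1) :
    ∑ n ∈ S, F n ≤ 4 * V + 4 * r * (Nat.clog 2 V + 1) := by
  set κ := Nat.clog 2 V with hκ
  have hVκ : V ≤ 2 ^ κ := Nat.le_pow_clog (by norm_num) V
  have hκ1 : 1 ≤ κ := Nat.clog_pos (by norm_num) hV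
  have hκV : 2 ^ (κ + 1) ≤ 4 * V := by
    have h1 := Nat.pow_pred_clog_lt_self (b := 2) (by norm_num) (x := V) (by omega)
    rw [← hκ] at h1
    have h2 : 2 ^ (κ + 1) = 4 * 2 ^ κ.pred := by
      have : κ + 1 = κ.pred + 2 := by rw [Nat.pred_eq_sub_one]; omega
      rw [this, pow_add]; ring
    rw [h2]; omega
  have hpt : ∀ n ∈ S, F n ≤ ∑ k ∈ range (κ + 1), (if dst (α * n) ≤ (1 / 2 : ℝ) ^ k then (2 : ℝ) ^ k else 0) := by
    intro n hn
    have hnonneg : ∀ k ∈ range (κ + 1), (0:ℝ) ≤ (if dst (α * n) ≤ (1 / 2 : ℝ) ^ k then (2 : ℝ) ^ k else 0) := by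
      intro k _; split_ifs <;> positivity
    by_cases hlast : dst (α * n) ≤ (1 / 2 : ℝ) ^ κ
    · have h1 := Finset.single_le_sum hnonneg (Finset.mem_range.mpr (Nat.lt_succ_self κ))
      rw [if_pos hlast] at h1
      have h2 : (V : ℝ) ≤ 2 ^ κ := by exact_mod_cast hVκ
      linarith [hF1 n hn]
    · -- there is a first failing index
      have hex : ∃ k, ¬ dst (α * n) ≤ (1 / 2 : ℝ) ^ k := ⟨κ, hlast⟩
      classical
      set k1 := Nat.find hex with hk1
      have hk1s : ¬ dst (α * n) ≤ (1 / 2 : ℝ) ^ k1 := Nat.find_spec hex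
      have hk1min : ∀ m < k1, dst (α * n) ≤ (1 / 2 : ℝ) ^ m := fun m hm => by
        have := Nat.find_min hex hm
        push Not at this; exact this
      have hk1le : k1 ≤ κ := Nat.find_min' hex hlast
      have hk1pos : 0 < k1 := by
        rcases Nat.eq_zero_or_pos k1 with h | h
        · rw [h, pow_zero] at hk1s
          exact absurd ((dst_le_half _).trans (by norm_num)) hk1s
        · exact h
      obtain ⟨k0, hk0⟩ : ∃ k0, k1 = k0 + 1 := ⟨k1 - 1, by omega⟩
      have h1 := Finset.single_le_sum hnonneg (Finset.mem_range.mpr (show k0 < κ + 1 by omega))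
      rw [if_pos (hk1min k0 (by omega))] at h1
      refine le_trans ?_ h1
      push Not at hk1s
      rw [hk0, pow_succ] at hk1s
      have h2 := hF2 n hn
      have h3 : F n * (1 / 2 : ℝ) ^ k0 ≤ 1 := by
        have := hF0 n hn
        nlinarith
      have h4 : (2 : ℝ) ^ k0 * (1 / 2 : ℝ) ^ k0 = 1 := by
        rw [← mul_pow]; norm_num
      have h5 : (0 : ℝ) < (1 / 2 : ℝ) ^ k0 := by positivity
      by_contra hcon
      push Not at hcon
      have h6 := mul_lt_mul_of_pos_right hcon h5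
      rw [h4] at h6
      linarith
  calc ∑ n ∈ S, F n ≤ ∑ n ∈ S, ∑ k ∈ range (κ + 1), (if dst (α * n) ≤ (1 / 2 : ℝ) ^ k then (2 : ℝ) ^ k else 0) :=
        Finset.sum_le_sum hpt
    _ = ∑ k ∈ range (κ + 1), (2 : ℝ) ^ k * ((S.filter (fun n : ℕ => dst (α * n) ≤ (1 / 2 : ℝ) ^ k)).card : ℝ) := by
        rw [Finset.sum_comm]
        refine Finset.sum_congr rfl fun k _ => ?_
        rw [← Finset.sum_filter, Finset.sum_const, nsmul_eq_mul, mul_comm]
    _ ≤ ∑ k ∈ range (κ + 1), ((2 : ℝ) ^ k + 4 * r) := by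
        apply Finset.sum_le_sum
        intro k _
        have h1 := count_near S α hr hsep (show (0:ℝ) ≤ (1 / 2 : ℝ) ^ k by positivity)
        calc (2 : ℝ) ^ k * _ ≤ (2 : ℝ) ^ k * (1 + 4 * r * (1 / 2 : ℝ) ^ k) := by gcongr
          _ = (2 : ℝ) ^ k + 4 * r * ((2 : ℝ) ^ k * (1 / 2 : ℝ) ^ k) := by ring
          _ = (2 : ℝ) ^ k + 4 * r := by rw [← mul_pow]; norm_num
    _ = (2 ^ (κ + 1) - 1) + (κ + 1) * (4 * r) := by
        rw [Finset.sum_add_distrib, Finset.sum_const, Finset.card_range, nsmul_eq_mul, geom_sum_eq (by norm_num)]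
        push_cast; ring
    _ ≤ 4 * V + 4 * r * (κ + 1) := by
        have : (2 : ℝ) ^ (κ + 1) ≤ 4 * V := by exact_mod_cast hκV
        linarith

/-- Lower bound for `dst (α n)` from a rational approximation. -/
lemma dst_ge_of_approx (α : ℝ) (c : ℚ) (n : ℤ) (hn : ¬ (c.den : ℤ) ∣ n)
    (hb : |α - c| * |(n : ℝ)| ≤ 1 / (2 * c.den : ℝ)) : 1 / (2 * c.den : ℝ) ≤ dst (α * n) := by
  have hr0 : (0 : ℝ) < c.den := by exact_mod_cast c.den_pos
  set z := round (α * n) with hz
  have h1 : (c : ℝ) = (c.num : ℝ) / c.den := by exact_mod_cast (Rat.num_div_den c).symm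
  have hne : c.num * n - z * c.den ≠ 0 := by
    intro h0
    apply hn
    have h2 : (c.den : ℤ) ∣ c.num * n := ⟨z, by linarith⟩
    have hcop : IsCoprime (c.den : ℤ) c.num := by
      rw [Int.isCoprime_iff_gcd_eq_one, Int.gcd_comm]
      exact c.reduced
    exact hcop.dvd_of_dvd_mul_left h2
  have h3 : (1 : ℝ) ≤ |(c.num * n - z * c.den : ℝ)| := by
    have : (1 : ℤ) ≤ |c.num * n - z * c.den| := Int.one_le_abs hne
    exact_mod_cast this
  have h4 : 1 / (c.den : ℝ) ≤ |(c : ℝ) * n - z| := by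
    rw [h1]
    have : (c.num : ℝ) / c.den * n - z = (c.num * n - z * c.den) / c.den := by
      field_simp
    rw [this, abs_div, abs_of_pos hr0]
    gcongr
  have h5 : |(c : ℝ) * n - z| ≤ |α * n - z| + |α - c| * |(n : ℝ)| := by
    rw [← abs_mul]
    have : (c : ℝ) * n - z = (α * n - z) - (α - c) * n := by ring
    rw [this]
    exact abs_sub _ _
  have h6 : dst (α * n) = |α * n - z| := rfl
  rw [h6]
  have h7 : 1 / (c.den : ℝ) = 1 / (2 * c.den : ℝ) + 1 / (2 * c.den : ℝ) := by field_simp; norm_num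
  linarith

lemma norm_le_of_dst {x : ℝ} {t : ℝ} {r : ℕ} (hr : 0 < r) (hx : 0 ≤ x) (h : x * (2 * dst t) ≤ 1)
    (hd : 1 / (2 * r : ℝ) ≤ dst t) : x ≤ r := by
  have hr0 : (0 : ℝ) < r := by exact_mod_cast hr
  have h1 : x * (2 * (1 / (2 * r : ℝ))) ≤ 1 := le_trans (by gcongr) h
  have h2 : x * (2 * (1 / (2 * r : ℝ))) = x / r := by field_simp
  rw [h2, div_le_one hr0] at h1
  exact h1

/-- harmonic bound over a finite set of positive integers at most `N` -/
lemma sum_inv_le {N : ℕ} (S : Finset ℕ) (hS : ∀ n ∈ S, 1 ≤ n ∧ n ≤ N) :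
    ∑ n ∈ S, (1 : ℝ) / n ≤ 1 + Real.log N := by
  have h1 : ∑ n ∈ S, (1 : ℝ) / n ≤ ∑ n ∈ Icc 1 N, (1 : ℝ) / n := by
    apply Finset.sum_le_sum_of_subset_of_nonneg
    · intro n hn; rw [Finset.mem_Icc]; exact hS n hn
    · intro n _ _; positivity
  refine h1.trans ?_
  have h2 := harmonic_le_one_add_log N
  rw [harmonic_eq_sum_Icc] at h2
  push_cast at h2
  simpa [one_div] using h2

theorem typeI_main {N T V : ℕ} (hT : 2 ≤ T) (hTN : T ≤ N) (Qs : Finset ℕ) (lo hi : ℕ → ℕ)
    (hprime : ∀ q ∈ Qs, q.Prime) (hbig : ∀ q ∈ Qs, T < q) (hsmall : ∀ q ∈ Qs, q * T ^ 2 ≤ N)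
    (hV : ∀ q ∈ Qs, N ≤ q * V) (hV2 : 2 ≤ V) (hVN : V ≤ N) (hhi : ∀ q ∈ Qs, hi q ≤ N) (α : ℝ) :
    ‖∑ q ∈ Qs, Fq (lo q) (hi q) q α‖
      ≤ 4 * V + (21 + 9 * Real.log N + 8 * Nat.clog 2 (N + 2)) * (N / T) := by
  have hN0 : 0 < N := by omega
  have hT0 : (0 : ℝ) < T := by exact_mod_cast (by omega : 0 < T)
  have hN0' : (0 : ℝ) < N := by exact_mod_cast hN0
  have hT2' : (2 : ℝ) ≤ T := by exact_mod_cast hT
  have hlogN : 0 ≤ Real.log N := Real.log_natCast_nonneg N
  set κ := Nat.clog 2 (N + 2) with hκ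
  have hκ0 : (0 : ℝ) ≤ κ := by positivity
  have hNT : (0 : ℝ) ≤ N / T := by positivity
  set R0 := N / T with hR0
  have hR0pos : 0 < R0 := Nat.div_pos hTN (by omega)
  have hR0' : N < T * (R0 + 1) := by
    have := Nat.lt_mul_div_succ N (show 0 < T by omega)
    rw [hR0]; exact this
  have hR0r : (N : ℝ) ≤ T * (R0 + 1) := by exact_mod_cast hR0'.le
  have hR0le : (R0 : ℝ) ≤ N / T := Nat.cast_div_le
  have hcard : (Qs.card : ℝ) ≤ N / (T : ℝ) ^ 2 := by
    have h1 : Qs.card ≤ N / T ^ 2 := by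
      have : Qs ⊆ Ioc 0 (N / T ^ 2) := by
        intro q hq
        rw [Finset.mem_Ioc]
        refine ⟨(hprime q hq).pos, ?_⟩
        rw [Nat.le_div_iff_mul_le (by positivity)]
        exact hsmall q hq
      have := Finset.card_le_card this
      simpa using this
    have h2 : (Qs.card : ℝ) ≤ ((N / T ^ 2 : ℕ) : ℝ) := by exact_mod_cast h1
    refine h2.trans (Nat.cast_div_le.trans (le_of_eq ?_))
    push_cast; rfl
  have hcardT : (Qs.card : ℝ) * T ≤ N / T := by
    calc (Qs.card : ℝ) * T ≤ (N / (T : ℝ) ^ 2) * T := by gcongr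
      _ = N / T := by field_simp
  have hq2 : ∀ q ∈ Qs, 2 * q ≤ R0 + 1 := by
    intro q hq
    have h1 := hsmall q hq
    have h2 : q * T ^ 2 < T * (R0 + 1) := lt_of_le_of_lt h1 hR0'
    have h3 : q * T < R0 + 1 := by
      have : T * (q * T) < T * (R0 + 1) := by
        have e0 : T * (q * T) = q * T ^ 2 := by ring
        rw [e0]; exact h2
      exact lt_of_mul_lt_mul_left this (Nat.zero_le T)
    have h4 : q * 2 ≤ q * T := Nat.mul_le_mul_left q hT
    omega
  obtain ⟨c, hc1, hc2⟩ := Real.exists_rat_abs_sub_le_and_den_le α hR0pos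
  set r := c.den with hr
  have hrpos : 0 < r := c.den_pos
  have hr0 : (0 : ℝ) < r := by exact_mod_cast hrpos
  have happ : ∀ n : ℤ, 2 * |n| ≤ R0 + 1 → |α - c| * |(n : ℝ)| ≤ 1 / (2 * r : ℝ) := by
    intro n hn
    have h1 : (2 : ℝ) * |(n : ℝ)| ≤ R0 + 1 := by exact_mod_cast hn
    have h2 : |α - c| * |(n : ℝ)| ≤ 1 / ((R0 + 1) * r) * |(n : ℝ)| := by gcongr
    refine h2.trans ?_
    rw [div_mul_eq_mul_div, one_mul, div_le_div_iff₀ (by positivity) (by positivity)]
    have h3 := mul_le_mul_of_nonneg_right h1 hr0.le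
    linarith
  rcases Nat.lt_or_ge T r with hTr | hTr
  · -- case C: large denominator
    have hrR : (r : ℝ) ≤ N / T := le_trans (by exact_mod_cast hc2) hR0le
    set P : ℕ → ℝ := fun q => ‖∑ x ∈ Ioc (lo q) (hi q), (if q ∣ x then e (α * x) else 0)‖ with hP
    have hterm : ∀ q ∈ Qs, ‖Fq (lo q) (hi q) q α‖ ≤ P q + 1 / q * (N / T) := by
      intro q hq
      rw [Fq_split]
      refine (norm_sub_le _ _).trans ?_
      refine add_le_add le_rfl ?_
      rw [norm_mul, Complex.norm_real, Real.norm_of_nonneg (by positivity)]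
      gcongr
      refine le_trans ?_ hrR
      refine norm_le_of_dst hrpos (norm_nonneg _) (geom_bound α _ _) ?_
      have := dst_ge_of_approx α c 1 (by
        rw [← hr]; intro h
        have := Int.le_of_dvd one_pos h
        have : (r : ℤ) ≤ 1 := this
        omega) (happ 1 (by simp; omega))
      simpa using this
    have hsum2 : ∑ q ∈ Qs, (1 : ℝ) / q ≤ 1 + Real.log N := by
      apply sum_inv_le
      intro q hq
      refine ⟨(hprime q hq).one_lt.le, ?_⟩
      have := hsmall q hq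
      have h4 : 1 ≤ T ^ 2 := Nat.one_le_pow _ _ (by omega)
      have h5 : q * 1 ≤ q * T ^ 2 := Nat.mul_le_mul_left q h4
      omega
    set B := (r + 1) / 2 with hB
    have hB0 : 0 < B := by omega
    have hBr : (r : ℝ) ≤ 2 * B := by
      have : r ≤ 2 * B := by omega
      exact_mod_cast this
    have hB2 : 2 * (B - 1) ≤ R0 + 1 := by omega
    set J := (N / T ^ 2) / B with hJ
    have hmaps : ∀ q ∈ Qs, q / B ∈ range (J + 1) := by
      intro q hq
      rw [Finset.mem_range, Nat.lt_succ_iff, hJ]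
      apply Nat.div_le_div_right
      rw [Nat.le_div_iff_mul_le (by positivity)]
      exact hsmall q hq
    have hsplit : ∑ q ∈ Qs, P q = ∑ j ∈ range (J + 1), ∑ q ∈ Qs with q / B = j, P q :=
      (Finset.sum_fiberwise_of_maps_to hmaps P).symm
    have hblock : ∀ (j : ℕ) (W : ℕ), 2 ≤ W → W ≤ N + 2 → (∀ q ∈ Qs, q / B = j → N / q ≤ W) →
        ∑ q ∈ Qs with q / B = j, P q ≤ 4 * W + 4 * r * (κ + 1) := by
      intro j W hW2 hWN hW
      have h1 : ∑ q ∈ Qs with q / B = j, P q ≤ 4 * W + 4 * r * (Nat.clog 2 W + 1) := by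
        apply block_bound _ α hrpos _ hW2
        · intro n _; exact norm_nonneg _
        · intro n hn
          rw [Finset.mem_filter] at hn
          have h2 := dvd_sum_trivial α (hprime n hn.1).pos (lo n) (hi n)
          have h3 : hi n / n ≤ W := (Nat.div_le_div_right (hhi n hn.1)).trans (hW n hn.1 hn.2)
          exact h2.trans (by exact_mod_cast h3)
        · intro n hn
          rw [Finset.mem_filter] at hn
          exact dvd_sum_bound α (hprime n hn.1).pos _ _
        · intro n hn n' hn' hne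
          rw [Finset.mem_filter] at hn hn'
          have hd1 : |(n : ℤ) - n'| ≤ (B - 1 : ℕ) := by
            have e1 := Nat.div_add_mod n B
            have e2 := Nat.div_add_mod n' B
            have e3 := Nat.mod_lt n hB0
            have e4 := Nat.mod_lt n' hB0
            rw [hn.2] at e1
            rw [hn'.2] at e2
            rw [abs_le]
            constructor <;> omega
          have hd2 : ¬ ((c.den : ℤ) ∣ ((n : ℤ) - n')) := by
            intro hdvd
            have h0 : (n : ℤ) - n' ≠ 0 := by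
              intro h; apply hne; omega
            have h5 := Int.le_of_dvd (abs_pos.mpr h0) ((dvd_abs _ _).mpr hdvd)
            have h6 : (c.den : ℤ) = r := rfl
            omega
          have h7 := dst_ge_of_approx α c ((n : ℤ) - n') hd2 (happ _ (by omega))
          have h8 : α * (((n : ℤ) - n' : ℤ) : ℝ) = α * n - α * n' := by push_cast; ring
          rw [h8] at h7
          exact h7
      refine h1.trans ?_
      have h9 : (Nat.clog 2 W : ℝ) ≤ κ := by
        have : Nat.clog 2 W ≤ Nat.clog 2 (N + 2) := Nat.clog_mono_right 2 hWN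
        exact_mod_cast this
      gcongr
    have hj0 : ∑ q ∈ Qs with q / B = 0, P q ≤ 4 * V + 4 * r * (κ + 1) := by
      apply hblock 0 V hV2 (by omega)
      intro q hq _
      exact Nat.div_le_of_le_mul (by rw [mul_comm] ; exact le_trans (hV q hq) (le_of_eq (mul_comm _ _)))
    have hj1 : ∀ j ∈ range J, ∑ q ∈ Qs with q / B = j + 1, P q
        ≤ 8 * (N / r) * (1 / ((j + 1 : ℕ) : ℝ)) + 8 + 4 * r * (κ + 1) := by
      intro j _
      have h1 := hblock (j + 1) (N / ((j + 1) * B) + 2) (Nat.le_add_left 2 _)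
        (Nat.add_le_add_right (Nat.div_le_self N ((j + 1) * B)) 2)
        (by
          intro q hq hqj
          have h2 : (j + 1) * B ≤ q := by rw [← hqj]; exact Nat.div_mul_le_self q B
          have h3 : N / q ≤ N / ((j + 1) * B) := Nat.div_le_div_left h2 (by positivity)
          exact h3.trans (Nat.le_add_right _ 2))
      refine h1.trans ?_
      have h4 : ((N / ((j + 1) * B) + 2 : ℕ) : ℝ) ≤ 2 * (N / r) * (1 / ((j + 1 : ℕ) : ℝ)) + 2 := by
        push_cast
        have h5 : ((N / ((j + 1) * B) : ℕ) : ℝ) ≤ N / ((j + 1) * B) := by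
          have := @Nat.cast_div_le ℝ _ _ _ N ((j + 1) * B)
          push_cast at this
          exact this
        have hB0' : (0 : ℝ) < B := by exact_mod_cast hB0
        have h6 : (N : ℝ) / ((j + 1) * B) ≤ 2 * (N / r) * (1 / (j + 1)) := by
          rw [div_le_iff₀ (by positivity)]
          have : 2 * ((N : ℝ) / r) * (1 / (j + 1)) * ((j + 1) * B) = N * (2 * B / r) := by
            field_simp
          rw [this]
          have h7 : (1 : ℝ) ≤ 2 * B / r := by rw [le_div_iff₀ hr0]; linarith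
          exact le_mul_of_one_le_right hN0'.le h7
        linarith
      linarith
    have hJ1 : (J : ℝ) * r ≤ 2 * (N / (T : ℝ) ^ 2) := by
      have h1 : J * B ≤ N / T ^ 2 := Nat.div_mul_le_self _ _
      have h2 : (J : ℝ) * B ≤ N / (T : ℝ) ^ 2 := by
        have h3 : ((J * B : ℕ) : ℝ) ≤ ((N / T ^ 2 : ℕ) : ℝ) := by exact_mod_cast h1
        have h4 : ((N / T ^ 2 : ℕ) : ℝ) ≤ N / (T : ℝ) ^ 2 := by
          have := @Nat.cast_div_le ℝ _ _ _ N (T ^ 2)
          push_cast at this
          exact this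
        push_cast at h3
        linarith
      have hJ0 : (0 : ℝ) ≤ J := by positivity
      calc (J : ℝ) * r ≤ J * (2 * B) := mul_le_mul_of_nonneg_left hBr hJ0
        _ = 2 * (J * B) := by ring
        _ ≤ 2 * (N / (T : ℝ) ^ 2) := by linarith
    have hT2r : N / (T : ℝ) ^ 2 ≤ (N / T) / 2 := by
      rw [div_div, div_le_div_iff_of_pos_left hN0' (by positivity) (by positivity), sq]
      exact mul_le_mul_of_nonneg_left hT2' hT0.le
    have hr1 : (1 : ℝ) ≤ r := by exact_mod_cast hrpos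
    have hTr' : (T : ℝ) ≤ r := by exact_mod_cast hTr.le
    have hJ2 : (J : ℝ) * 2 ≤ 2 * (N / (T : ℝ) ^ 2) := by
      have hJ0 : (0 : ℝ) ≤ J := by positivity
      exact (mul_le_mul_of_nonneg_left (hT2'.trans hTr') hJ0).trans hJ1
    have hNr : (N : ℝ) / r ≤ N / T := by gcongr
    have hharm : ∑ j ∈ range J, (1 : ℝ) / ((j + 1 : ℕ) : ℝ) ≤ 1 + Real.log N := by
      have h1 : ∑ j ∈ range J, (1 : ℝ) / ((j + 1 : ℕ) : ℝ)
          = ∑ n ∈ (range J).image (fun j : ℕ => j + 1), (1 : ℝ) / (n : ℝ) := by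
        rw [Finset.sum_image]
        intro a _ b _ h; simpa using h
      rw [h1]
      apply sum_inv_le
      intro n hn
      rw [Finset.mem_image] at hn
      obtain ⟨j, hj, rfl⟩ := hn
      rw [Finset.mem_range] at hj
      refine ⟨by omega, ?_⟩
      have h2 : J ≤ N := (Nat.div_le_self _ _).trans (Nat.div_le_self _ _)
      omega
    have hPsum : ∑ q ∈ Qs, P q ≤ 4 * V + 4 * r * (κ + 1)
        + (8 * (N / r) * (1 + Real.log N) + J * (8 + 4 * r * (κ + 1))) := by
      rw [hsplit, Finset.sum_range_succ' , add_comm]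
      refine add_le_add hj0 ?_
      refine (Finset.sum_le_sum hj1).trans ?_
      have e1 : ∑ j ∈ range J, (8 * ((N : ℝ) / r) * (1 / ((j + 1 : ℕ) : ℝ)) + 8 + 4 * r * (κ + 1))
          = 8 * (N / r) * (∑ j ∈ range J, (1 : ℝ) / ((j + 1 : ℕ) : ℝ)) + J * (8 + 4 * r * (κ + 1)) := by
        rw [Finset.mul_sum]
        simp_rw [add_assoc]
        rw [Finset.sum_add_distrib, Finset.sum_const, Finset.card_range, nsmul_eq_mul]
      rw [e1]
      refine add_le_add (mul_le_mul_of_nonneg_left hharm (by positivity)) le_rfl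
    calc ‖∑ q ∈ Qs, Fq (lo q) (hi q) q α‖ ≤ ∑ q ∈ Qs, ‖Fq (lo q) (hi q) q α‖ := norm_sum_le _ _
      _ ≤ ∑ q ∈ Qs, (P q + 1 / q * (N / T)) := Finset.sum_le_sum hterm
      _ = ∑ q ∈ Qs, P q + (∑ q ∈ Qs, (1 : ℝ) / q) * (N / T) := by
          rw [Finset.sum_add_distrib, Finset.sum_mul]
      _ ≤ (4 * V + 4 * r * (κ + 1) + (8 * (N / r) * (1 + Real.log N) + J * (8 + 4 * r * (κ + 1))))
            + (1 + Real.log N) * (N / T) := by gcongr
      _ ≤ 4 * V + (21 + 9 * Real.log N + 8 * κ) * (N / T) := by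
          have c1 : (0 : ℝ) ≤ 4 * (κ + 1) := by positivity
          have c2 : (0 : ℝ) ≤ 8 * (1 + Real.log N) := by positivity
          have a1 : 4 * ((κ : ℝ) + 1) * r ≤ 4 * (κ + 1) * (N / T) := mul_le_mul_of_nonneg_left hrR c1
          have a2 : 8 * (1 + Real.log N) * ((N : ℝ) / r) ≤ 8 * (1 + Real.log N) * (N / T) :=
            mul_le_mul_of_nonneg_left hNr c2
          have a3 : (J : ℝ) * (8 + 4 * r * (κ + 1)) ≤ 4 * (N / T) + 4 * (κ + 1) * (N / T) := by
            have : (J : ℝ) * (8 + 4 * r * (κ + 1)) = 8 * J + 4 * (κ + 1) * (J * r) := by ring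
            rw [this]
            have b1 : 8 * (J : ℝ) ≤ 4 * (N / T) := by linarith
            have b2 : (J : ℝ) * r ≤ N / T := by linarith
            exact add_le_add b1 (mul_le_mul_of_nonneg_left b2 c1)
          linarith
  · rcases Nat.lt_or_ge 1 r with h1r | h1r
    · -- case B
      have hTr' : (r : ℝ) ≤ T := by exact_mod_cast hTr
      have hterm : ∀ q ∈ Qs, ‖Fq (lo q) (hi q) q α‖ ≤ 2 * T := by
        intro q hq
        have hq1 : (1 : ℝ) ≤ q := by exact_mod_cast (hprime q hq).one_lt.le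
        rw [Fq_split]
        refine (norm_sub_le _ _).trans ?_
        have h1 : ‖∑ x ∈ Ioc (lo q) (hi q), (if q ∣ x then e (α * x) else 0)‖ ≤ r := by
          refine norm_le_of_dst hrpos (norm_nonneg _) (dvd_sum_bound α (hprime q hq).pos _ _) ?_
          have h2 := dst_ge_of_approx α c (q : ℤ) (by
            intro hdvd
            have h3 : r ∣ q := by exact_mod_cast hdvd
            rcases (Nat.dvd_prime (hprime q hq)).mp h3 with h4 | h4
            · omega
            · have := hbig q hq; omega) (happ _ (by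
              have := hq2 q hq
              rw [abs_of_nonneg (by positivity)]
              exact_mod_cast this))
          simpa using h2
        have h5 : ‖((1 / q : ℝ) : ℂ) * ∑ x ∈ Ioc (lo q) (hi q), e (α * x)‖ ≤ r := by
          rw [norm_mul, Complex.norm_real, Real.norm_of_nonneg (by positivity)]
          have h6 : ‖∑ x ∈ Ioc (lo q) (hi q), e (α * x)‖ ≤ r := by
            refine norm_le_of_dst hrpos (norm_nonneg _) (geom_bound α _ _) ?_
            have := dst_ge_of_approx α c 1 (by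
              rw [← hr]; intro h
              have := Int.le_of_dvd one_pos h
              have : (r : ℤ) ≤ 1 := this
              omega) (happ 1 (by simp; omega))
            simpa using this
          calc (1 : ℝ) / q * ‖∑ x ∈ Ioc (lo q) (hi q), e (α * x)‖ ≤ 1 * r := by
                apply mul_le_mul _ h6 (norm_nonneg _) zero_le_one
                rw [div_le_one (by linarith)]; exact hq1
            _ = r := one_mul _
        linarith
      calc ‖∑ q ∈ Qs, Fq (lo q) (hi q) q α‖ ≤ ∑ q ∈ Qs, ‖Fq (lo q) (hi q) q α‖ := norm_sum_le _ _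
        _ ≤ ∑ q ∈ Qs, (2 * T : ℝ) := Finset.sum_le_sum hterm
        _ = 2 * (Qs.card * T) := by rw [Finset.sum_const, nsmul_eq_mul]; ring
        _ ≤ 2 * (N / T) := by gcongr
        _ ≤ 4 * V + (21 + 9 * Real.log N + 8 * κ) * (N / T) := by
            have : (0 : ℝ) ≤ V := by positivity
            have h9 : 0 ≤ (19 + 9 * Real.log N + 8 * κ) * ((N : ℝ) / T) := mul_nonneg (by linarith) hNT
            linarith
    · -- case A
      have hr1 : r = 1 := by omega
      have hterm : ∀ q ∈ Qs, ‖Fq (lo q) (hi q) q α‖ ≤ 8 * T := by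
        intro q hq
        have h1 := Fq_near (lo q) (hi q) (hprime q hq).pos α c.num
        have hcn : (c : ℝ) = c.num := by
          have h2 : (c : ℝ) = (c.num : ℝ) / c.den := by exact_mod_cast (Rat.num_div_den c).symm
          rw [h2, ← hr, hr1]; simp
        rw [← hcn] at h1
        refine h1.trans ?_
        have h3 : |α - c| ≤ 1 / (R0 + 1) := by
          rw [hr1] at hc1; simpa using hc1
        have h4 : |α - c| * hi q ≤ T := by
          have h5 : (hi q : ℝ) ≤ N := by exact_mod_cast hhi q hq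
          calc |α - c| * hi q ≤ 1 / (R0 + 1) * (T * (R0 + 1)) := by
                gcongr
                linarith
            _ = T := by field_simp
        have h6 := Real.pi_lt_d2
        have h7 := Real.pi_pos
        have h8 : 0 ≤ |α - c| * hi q := by positivity
        nlinarith
      calc ‖∑ q ∈ Qs, Fq (lo q) (hi q) q α‖ ≤ ∑ q ∈ Qs, ‖Fq (lo q) (hi q) q α‖ := norm_sum_le _ _
        _ ≤ ∑ q ∈ Qs, (8 * T : ℝ) := Finset.sum_le_sum hterm
        _ = 8 * (Qs.card * T) := by rw [Finset.sum_const, nsmul_eq_mul]; ring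
        _ ≤ 8 * (N / T) := by gcongr
        _ ≤ 4 * V + (21 + 9 * Real.log N + 8 * κ) * (N / T) := by
            have : (0 : ℝ) ≤ V := by positivity
            have h9 : 0 ≤ (13 + 9 * Real.log N + 8 * κ) * ((N : ℝ) / T) := mul_nonneg (by linarith) hNT
            linarith

end Pool.Agent.H93.DC
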